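import Pool.Agent.N165.LC.Defs

/-!
Monomial generation of the strands: the image of `Psi` (task T8).
-/

namespace Pool.Agent.N165.LC

open AddMonoidAlgebra (single)

namespace T8

variable {j : ℕ}

/-! ### Degrees of exponent vectors -/

theorem dA_add (μ ν : E j) : dA (μ + ν) = dA μ + dA ν := by simp [dA, Finset.sum_add_distrib]
theorem dU_add (μ ν : E j) : dU (μ + ν) = dU μ + dU ν := by simp [dU, Finset.sum_add_distrib]
theorem dV_add (μ ν : E j) : dV (μ + ν) = dV μ + dV ν := by simp [dV, Finset.sum_add_distrib]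
theorem dS_add (μ ν : E j) : dS (μ + ν) = dS μ + dS ν := by simp [dS, Finset.sum_add_distrib]
theorem dY_add (μ ν : E j) : dY (μ + ν) = dY μ + dY ν := by simp [dY, Finset.sum_add_distrib]

theorem dA_sub (μ ν : E j) : dA (μ - ν) = dA μ - dA ν := by simp [dA, Finset.sum_sub_distrib]
theorem dU_sub (μ ν : E j) : dU (μ - ν) = dU μ - dU ν := by simp [dU, Finset.sum_sub_distrib]
theorem dV_sub (μ ν : E j) : dV (μ - ν) = dV μ - dV ν := by simp [dV, Finset.sum_sub_distrib]
theorem dS_sub (μ ν : E j) : dS (μ - ν) = dS μ - dS ν := by simp [dS, Finset.sum_sub_distrib]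
theorem dY_sub (μ ν : E j) : dY (μ - ν) = dY μ - dY ν := by simp [dY, Finset.sum_sub_distrib]

theorem ev_a (l : Fin (j + 1)) : dA (ev (.a l) : E j) = 1 ∧ dU (ev (.a l) : E j) = 0 ∧
    dV (ev (.a l) : E j) = 0 ∧ dS (ev (.a l) : E j) = 0 ∧ dY (ev (.a l) : E j) = 0 := by
  simp [dA, dU, dV, dS, dY, ev, Pi.single_apply]

theorem ev_u (p : Fin 2) : dA (ev (.u p) : E j) = 0 ∧ dU (ev (.u p) : E j) = 1 ∧
    dV (ev (.u p) : E j) = 0 ∧ dS (ev (.u p) : E j) = 0 ∧ dY (ev (.u p) : E j) = 0 := by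
  fin_cases p <;> simp [dA, dU, dV, dS, dY, ev, Pi.single_apply]

theorem ev_v (p : Fin 2) : dA (ev (.v p) : E j) = 0 ∧ dU (ev (.v p) : E j) = 0 ∧
    dV (ev (.v p) : E j) = 1 ∧ dS (ev (.v p) : E j) = 0 ∧ dY (ev (.v p) : E j) = 0 := by
  fin_cases p <;> simp [dA, dU, dV, dS, dY, ev, Pi.single_apply]

theorem ev_s (p : Fin 3) : dA (ev (.s p) : E j) = 0 ∧ dU (ev (.s p) : E j) = 0 ∧
    dV (ev (.s p) : E j) = 0 ∧ dS (ev (.s p) : E j) = 1 ∧ dY (ev (.s p) : E j) = 0 := by
  fin_cases p <;> simp [dA, dU, dV, dS, dY, ev, Pi.single_apply]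

theorem ev_y (p : Fin 2) : dA (ev (.y p) : E j) = 0 ∧ dU (ev (.y p) : E j) = 0 ∧
    dV (ev (.y p) : E j) = 0 ∧ dS (ev (.y p) : E j) = 0 ∧ dY (ev (.y p) : E j) = 1 := by
  fin_cases p <;> simp [dA, dU, dV, dS, dY, ev, Pi.single_apply]

theorem zero_deg : dA (0 : E j) = 0 ∧ dU (0 : E j) = 0 ∧ dV (0 : E j) = 0 ∧ dS (0 : E j) = 0 ∧
    dY (0 : E j) = 0 := by
  simp [dA, dU, dV, dS, dY]

/-! ### `Psi_mem` -/

/-- the class of polynomials of the strand `b` with `dA + dV = r` -/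
def Good (r b : ℕ) (f : Lam j) : Prop := f ∈ FG j b b b ∧ ∀ μ, f.coeff μ ≠ 0 → dA μ + dV μ = r

theorem Good.zero (r b : ℕ) : Good r b (0 : Lam j) :=
  ⟨zero_mem _, fun _ h => absurd rfl h⟩

theorem Good.add {r b : ℕ} {f g : Lam j} (hf : Good r b f) (hg : Good r b g) :
    Good r b (f + g) := by
  refine ⟨add_mem hf.1 hg.1, fun μ h => ?_⟩
  by_cases h1 : f.coeff μ = 0
  · by_cases h2 : g.coeff μ = 0
    · exfalso
      apply h
      simp [h1, h2]
    · exact hg.2 μ h2
  · exact hf.2 μ h1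

theorem Good.sum {κ : Type} {r b : ℕ} (s : Finset κ) (f : κ → Lam j)
    (h : ∀ i ∈ s, Good r b (f i)) : Good r b (∑ i ∈ s, f i) := by
  classical
  induction s using Finset.induction_on with
  | empty => exact Good.zero r b
  | insert i s hi ih =>
    rw [Finset.sum_insert hi]
    exact (h i (Finset.mem_insert_self i s)).add
      (ih fun i hi => h i (Finset.mem_insert_of_mem hi))

theorem Good.mul {r b r' b' : ℕ} {f g : Lam j} (hf : Good r b f) (hg : Good r' b' g) :
    Good (r + r') (b + b') (f * g) := by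
  refine ⟨by simpa using FG_mul hf.1 hg.1, fun μ h => ?_⟩
  obtain ⟨μ₁, μ₂, h1, h2, rfl⟩ := exists_of_coeff_mul h
  have e1 := hf.2 _ h1
  have e2 := hg.2 _ h2
  rw [dA_add, dV_add]
  push_cast
  linarith

theorem Good.one : Good 0 0 (1 : Lam j) := by
  rw [AddMonoidAlgebra.one_def]
  have h0 := zero_deg (j := j)
  refine ⟨single_mem_FG (fun w => le_rfl) ?_, fun μ h => ?_⟩
  · refine ⟨?_, ?_, ?_⟩
    · rw [h0.2.2.2.2]; simp
    · rw [h0.1, h0.2.1, h0.2.2.1]; simp
    · rw [h0.2.2.2.1, h0.2.2.1]; simp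
  · have : μ = 0 := by
      by_contra hne
      apply h
      simp [Ne.symm hne]
    subst this
    rw [h0.1, h0.2.2.1]; simp

theorem Good.pow {r b : ℕ} {f : Lam j} (hf : Good r b f) (n : ℕ) :
    Good (n * r) (n * b) (f ^ n) := by
  induction n with
  | zero => simpa using Good.one
  | succ n ih =>
    rw [pow_succ, Nat.succ_mul, Nat.succ_mul]
    exact ih.mul hf

theorem good_single {r b : ℕ} {κ : E j} (h : Nonneg κ) (h1 : dY κ = b)
    (h2 : dU κ = dA κ + dV κ + b) (h3 : dS κ = dV κ + b) (h4 : dA κ + dV κ = r) :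
    Good r b (single κ 1 : Lam j) := by
  refine ⟨single_mem_FG h ⟨h1, h2, h3⟩, fun μ hμ => ?_⟩
  have : μ = κ := by
    by_contra hne
    apply hμ
    simp [Ne.symm hne]
  subst this
  exact h4

theorem good_ua (p : Fin 2) (l : Fin (j + 1)) :
    Good 1 0 (single (ev (.u p) + ev (.a l)) 1 : Lam j) := by
  obtain ⟨a1, a2, a3, a4, a5⟩ := ev_u (j := j) p
  obtain ⟨b1, b2, b3, b4, b5⟩ := ev_a (j := j) l
  refine good_single ((ev_nonneg _).add (ev_nonneg _)) ?_ ?_ ?_ ?_ <;>
    simp only [dA_add, dU_add, dV_add, dS_add, dY_add, a1, a2, a3, a4, a5, b1, b2, b3, b4, b5] <;>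
    norm_num

theorem good_uvs (p q : Fin 2) (r : Fin 3) :
    Good 1 0 (single (ev (.u p) + ev (.v q) + ev (.s r)) 1 : Lam j) := by
  obtain ⟨a1, a2, a3, a4, a5⟩ := ev_u (j := j) p
  obtain ⟨b1, b2, b3, b4, b5⟩ := ev_v (j := j) q
  obtain ⟨c1, c2, c3, c4, c5⟩ := ev_s (j := j) r
  refine good_single (((ev_nonneg _).add (ev_nonneg _)).add (ev_nonneg _)) ?_ ?_ ?_ ?_ <;>
    simp only [dA_add, dU_add, dV_add, dS_add, dY_add, a1, a2, a3, a4, a5, b1, b2, b3, b4, b5,
      c1, c2, c3, c4, c5] <;>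
    norm_num

theorem good_uys (p q : Fin 2) (r : Fin 3) :
    Good 0 1 (single (ev (.u p) + ev (.y q) + ev (.s r)) 1 : Lam j) := by
  obtain ⟨a1, a2, a3, a4, a5⟩ := ev_u (j := j) p
  obtain ⟨b1, b2, b3, b4, b5⟩ := ev_y (j := j) q
  obtain ⟨c1, c2, c3, c4, c5⟩ := ev_s (j := j) r
  refine good_single (((ev_nonneg _).add (ev_nonneg _)).add (ev_nonneg _)) ?_ ?_ ?_ ?_ <;>
    simp only [dA_add, dU_add, dV_add, dS_add, dY_add, a1, a2, a3, a4, a5, b1, b2, b3, b4, b5,
      c1, c2, c3, c4, c5] <;>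
    norm_num

theorem th_coe (i : Fin (j + 2)) : ((xT j (.th i) : BR j) : Lam j) =
    ∑ p : Fin 2, ∑ l : Fin (j + 1),
      if (p : ℕ) + (l : ℕ) = i then (single (ev (.u p) + ev (.a l)) 1 : Lam j) else 0 := by
  show ((∑ p : Fin 2, ∑ l : Fin (j + 1),
    if (p : ℕ) + (l : ℕ) = i then xM j (.ua p l) else 0 : BR j) : Lam j) = _
  rw [AddSubmonoidClass.coe_finsetSum]
  refine Finset.sum_congr rfl fun p _ => ?_
  rw [AddSubmonoidClass.coe_finsetSum]
  refine Finset.sum_congr rfl fun l _ => ?_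
  split_ifs
  · rfl
  · rfl

theorem good_th (i : Fin (j + 2)) : Good 1 0 ((xT j (.th i) : BR j) : Lam j) := by
  rw [th_coe]
  refine Good.sum _ _ fun p _ => Good.sum _ _ fun l _ => ?_
  split_ifs
  · exact good_ua p l
  · exact Good.zero _ _

theorem Psi_X (v : V j) : Good (wt3 j v).1 (wt3 j v).2.1 (Psi j (MvPolynomial.X v)) := by
  unfold Psi
  rw [MvPolynomial.aeval_X]
  cases v with
  | th i => exact good_th i
  | x p q r => exact good_uvs p q r
  | y p t r => exact good_uys p t r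
  | z => exact Good.one

theorem Psi_monomial (m : V j →₀ ℕ) :
    Good (Finsupp.weight (wt3 j) m).1 (Finsupp.weight (wt3 j) m).2.1
      (Psi j (MvPolynomial.monomial m 1)) := by
  induction m using Finsupp.induction_linear with
  | zero =>
    rw [map_zero]
    have : (MvPolynomial.monomial (0 : V j →₀ ℕ) (1 : ZMod 2)) = 1 := rfl
    rw [this, map_one]
    exact Good.one
  | add m m' h h' =>
    rw [map_add, ← one_mul (1 : ZMod 2), ← MvPolynomial.monomial_mul, map_mul]
    exact h.mul h'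
  | single v n =>
    rw [Finsupp.weight_single, ← MvPolynomial.X_pow_eq_monomial, map_pow]
    have := (Psi_X v).pow n
    simpa using this

end T8

open T8

theorem Psi_mem (j : ℕ) (r b k : ℕ) (g : PR j)
    (hg : MvPolynomial.IsWeightedHomogeneous (wt3 j) g (r, b, k)) :
    Psi j g ∈ FG j b b b ∧ ∀ μ, (Psi j g).coeff μ ≠ 0 → dA μ + dV μ = r := by
  show Good r b (Psi j g)
  rw [g.as_sum, map_sum]
  refine Good.sum _ _ fun m hm => ?_
  have h1 : g.coeff m ≠ 0 := MvPolynomial.mem_support_iff.1 hm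
  have h2 : g.coeff m = 1 := by
    have : ∀ z : ZMod 2, z ≠ 0 → z = 1 := by decide
    exact this _ h1
  have h3 := hg h1
  have h4 := Psi_monomial m
  rw [h3] at h4
  rw [h2]
  exact h4

namespace T8

variable {j : ℕ}

/-! ### `Psi_surj` -/

/-- the image of `Psi` in bidegree `(r, b)` -/
def Im (r b : ℕ) (f : Lam j) : Prop :=
  ∃ g : PR j, MvPolynomial.IsWeightedHomogeneous (wt3 j) g (r, b, 0) ∧ Psi j g = f

theorem Im.zero (r b : ℕ) : Im r b (0 : Lam j) :=
  ⟨0, MvPolynomial.isWeightedHomogeneous_zero _ _ _, map_zero _⟩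

theorem Im.add {r b : ℕ} {f g : Lam j} (hf : Im r b f) (hg : Im r b g) : Im r b (f + g) := by
  obtain ⟨x, hx, rfl⟩ := hf
  obtain ⟨y, hy, rfl⟩ := hg
  exact ⟨x + y, hx.add hy, map_add _ _ _⟩

theorem Im.mul {r b r' b' : ℕ} {f g : Lam j} (hf : Im r b f) (hg : Im r' b' g) :
    Im (r + r') (b + b') (f * g) := by
  obtain ⟨x, hx, rfl⟩ := hf
  obtain ⟨y, hy, rfl⟩ := hg
  exact ⟨x * y, by simpa using hx.mul hy, map_mul _ _ _⟩

theorem Im.one : Im 0 0 (1 : Lam j) :=
  ⟨1, MvPolynomial.isWeightedHomogeneous_one _ _, map_one _⟩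

theorem Im.sum {κ : Type} {r b : ℕ} (s : Finset κ) (f : κ → Lam j)
    (h : ∀ i ∈ s, Im r b (f i)) : Im r b (∑ i ∈ s, f i) := by
  classical
  induction s using Finset.induction_on with
  | empty => exact Im.zero r b
  | insert i s hi ih =>
    rw [Finset.sum_insert hi]
    exact (h i (Finset.mem_insert_self i s)).add
      (ih fun i hi => h i (Finset.mem_insert_of_mem hi))

theorem im_uvs (p q : Fin 2) (r : Fin 3) :
    Im 1 0 (single (ev (.u p) + ev (.v q) + ev (.s r)) 1 : Lam j) := by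
  refine ⟨MvPolynomial.X (.x p q r), MvPolynomial.isWeightedHomogeneous_X _ _ _, ?_⟩
  unfold Psi
  rw [MvPolynomial.aeval_X]
  rfl

theorem im_uys (p q : Fin 2) (r : Fin 3) :
    Im 0 1 (single (ev (.u p) + ev (.y q) + ev (.s r)) 1 : Lam j) := by
  refine ⟨MvPolynomial.X (.y p q r), MvPolynomial.isWeightedHomogeneous_X _ _ _, ?_⟩
  unfold Psi
  rw [MvPolynomial.aeval_X]
  rfl

theorem im_th (i : Fin (j + 2)) : Im 1 0 ((xT j (.th i) : BR j) : Lam j) := by
  refine ⟨MvPolynomial.X (.th i), MvPolynomial.isWeightedHomogeneous_X _ _ _, ?_⟩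
  unfold Psi
  rw [MvPolynomial.aeval_X]

theorem nonneg_sub3 {μ : E j} (h : Nonneg μ) {w₁ w₂ w₃ : W j} (h12 : w₁ ≠ w₂) (h13 : w₁ ≠ w₃)
    (h23 : w₂ ≠ w₃) (h1 : 1 ≤ μ w₁) (h2 : 1 ≤ μ w₂) (h3 : 1 ≤ μ w₃) :
    Nonneg (μ - (ev w₁ + ev w₂ + ev w₃)) := by
  intro w
  have := h w
  simp only [Pi.sub_apply, Pi.add_apply, ev, Pi.single_apply]
  by_cases e1 : w = w₁
  · subst e1
    simp [h12, h13]
    omega
  · by_cases e2 : w = w₂
    · subst e2
      simp [e1, h23]
      omega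
    · by_cases e3 : w = w₃
      · subst e3
        simp [e1, e2]
        omega
      · simp [e1, e2, e3]
        omega

theorem nonneg_sub2 {μ : E j} (h : Nonneg μ) {w₁ w₂ : W j} (h12 : w₁ ≠ w₂)
    (h1 : 1 ≤ μ w₁) (h2 : 1 ≤ μ w₂) :
    Nonneg (μ - (ev w₁ + ev w₂)) := by
  intro w
  have := h w
  simp only [Pi.sub_apply, Pi.add_apply, ev, Pi.single_apply]
  by_cases e1 : w = w₁
  · subst e1
    simp [h12]
    omega
  · by_cases e2 : w = w₂
    · subst e2
      simp [e1]
      omega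
    · simp [e1, e2]
      omega

theorem exists_pos {n : ℕ} (c : Fin n → W j) {μ : E j} (h : 1 ≤ ∑ i, μ (c i)) :
    ∃ i, 1 ≤ μ (c i) := by
  by_contra hcon
  push Not at hcon
  have : ∑ i, μ (c i) ≤ 0 := Finset.sum_nonpos fun i _ => by have := hcon i; omega
  omega

theorem single_split (μ ν : E j) :
    (single (μ - ν) 1 * single ν 1 : Lam j) = single μ 1 := by
  rw [AddMonoidAlgebra.single_mul_single, sub_add_cancel, one_mul]

/-- monomials without `a`, `v` -/
theorem mono00 (b : ℕ) : ∀ μ : E j, Nonneg μ → (∀ l, μ (.a l) = 0) → (∀ q, μ (.v q) = 0) →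
    dY μ = b → dU μ = b → dS μ = b → Im 0 b (single μ 1 : Lam j) := by
  induction b with
  | zero =>
    intro μ hμ ha hv hY hU hS
    have hz : μ = 0 := by
      funext w
      cases w with
      | a l => exact ha l
      | v q => exact hv q
      | u p =>
        have := (Finset.sum_eq_zero_iff_of_nonneg (fun p _ => hμ (.u p))).1
          (show ∑ p, μ (.u p) = 0 by simpa [dU] using hU) p (Finset.mem_univ p)
        exact this
      | s p =>
        have := (Finset.sum_eq_zero_iff_of_nonneg (fun p _ => hμ (.s p))).1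
          (show ∑ p, μ (.s p) = 0 by simpa [dS] using hS) p (Finset.mem_univ p)
        exact this
      | y p =>
        have := (Finset.sum_eq_zero_iff_of_nonneg (fun p _ => hμ (.y p))).1
          (show ∑ p, μ (.y p) = 0 by simpa [dY] using hY) p (Finset.mem_univ p)
        exact this
    rw [hz, ← AddMonoidAlgebra.one_def]
    exact Im.one
  | succ b ih =>
    intro μ hμ ha hv hY hU hS
    push_cast at hY hU hS
    obtain ⟨p, hp⟩ := exists_pos (fun p => W.u p) (μ := μ) (show 1 ≤ dU μ by omega)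
    obtain ⟨t, ht⟩ := exists_pos (fun p => W.y p) (μ := μ) (show 1 ≤ dY μ by omega)
    obtain ⟨r, hr⟩ := exists_pos (fun p => W.s p) (μ := μ) (show 1 ≤ dS μ by omega)
    obtain ⟨a1, a2, a3, a4, a5⟩ := ev_u (j := j) p
    obtain ⟨b1, b2, b3, b4, b5⟩ := ev_y (j := j) t
    obtain ⟨c1, c2, c3, c4, c5⟩ := ev_s (j := j) r
    rw [← single_split μ (ev (.u p) + ev (.y t) + ev (.s r))]
    have h1 := ih (μ - (ev (.u p) + ev (.y t) + ev (.s r)))
      (nonneg_sub3 hμ (by simp) (by simp) (by simp) hp ht hr)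
      (fun l => by
        have := ha l
        simp [ev, this])
      (fun q => by
        have := hv q
        simp [ev, this])
      (by rw [dY_sub, dY_add, dY_add, a5, b5, c5]; omega)
      (by rw [dU_sub, dU_add, dU_add, a2, b2, c2]; omega)
      (by rw [dS_sub, dS_add, dS_add, a4, b4, c4]; omega)
    have h2 := h1.mul (im_uys p t r)
    simpa using h2

/-- monomials without `a` -/
theorem mono0 (b r : ℕ) : ∀ μ : E j, Nonneg μ → (∀ l, μ (.a l) = 0) → dV μ = r →
    dY μ = b → dU μ = r + b → dS μ = r + b → Im r b (single μ 1 : Lam j) := by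
  induction r with
  | zero =>
    intro μ hμ ha hV hY hU hS
    refine mono00 b μ hμ ha (fun q => ?_) hY (by simpa using hU) (by simpa using hS)
    exact (Finset.sum_eq_zero_iff_of_nonneg (fun p _ => hμ (.v p))).1
      (show ∑ p, μ (.v p) = 0 by simpa [dV] using hV) q (Finset.mem_univ q)
  | succ r ih =>
    intro μ hμ ha hV hY hU hS
    push_cast at hV hU hS
    obtain ⟨p, hp⟩ := exists_pos (fun p => W.u p) (μ := μ) (show 1 ≤ dU μ by omega)
    obtain ⟨t, ht⟩ := exists_pos (fun p => W.v p) (μ := μ) (show 1 ≤ dV μ by omega)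
    obtain ⟨s, hs⟩ := exists_pos (fun p => W.s p) (μ := μ) (show 1 ≤ dS μ by omega)
    obtain ⟨a1, a2, a3, a4, a5⟩ := ev_u (j := j) p
    obtain ⟨b1, b2, b3, b4, b5⟩ := ev_v (j := j) t
    obtain ⟨c1, c2, c3, c4, c5⟩ := ev_s (j := j) s
    rw [← single_split μ (ev (.u p) + ev (.v t) + ev (.s s))]
    have h1 := ih (μ - (ev (.u p) + ev (.v t) + ev (.s s)))
      (nonneg_sub3 hμ (by simp) (by simp) (by simp) hp ht hs)
      (fun l => by
        have := ha l
        simp [ev, this])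
      (by rw [dV_sub, dV_add, dV_add, a3, b3, c3]; omega)
      (by rw [dY_sub, dY_add, dY_add, a5, b5, c5]; omega)
      (by rw [dU_sub, dU_add, dU_add, a2, b2, c2]; omega)
      (by rw [dS_sub, dS_add, dS_add, a4, b4, c4]; omega)
    have h2 := h1.mul (im_uvs p t s)
    simpa using h2

theorem th_zero : ((xT j (.th 0) : BR j) : Lam j) =
    single (ev (.u 0) + ev (.a 0)) 1 := by
  rw [th_coe, Fin.sum_univ_two]
  have h1 : (∑ l : Fin (j + 1), if ((1 : Fin 2) : ℕ) + (l : ℕ) = ((0 : Fin (j + 2)) : ℕ)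
      then (single (ev (.u 1) + ev (.a l)) 1 : Lam j) else 0) = 0 := by
    refine Finset.sum_eq_zero fun l _ => ?_
    rw [if_neg]
    simp
  rw [h1, add_zero, Finset.sum_eq_single 0]
  · simp
  · intro l _ hl
    rw [if_neg]
    intro h
    apply hl
    ext
    simpa using h
  · intro h
    exact absurd (Finset.mem_univ _) h

theorem th_last : ((xT j (.th (Fin.last (j + 1))) : BR j) : Lam j) =
    single (ev (.u 1) + ev (.a (Fin.last j))) 1 := by
  rw [th_coe, Fin.sum_univ_two]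
  have h1 : (∑ l : Fin (j + 1), if ((0 : Fin 2) : ℕ) + (l : ℕ) = ((Fin.last (j + 1) : Fin (j + 2)) : ℕ)
      then (single (ev (.u 0) + ev (.a l)) 1 : Lam j) else 0) = 0 := by
    refine Finset.sum_eq_zero fun l _ => ?_
    rw [if_neg]
    have := l.2
    simp
    omega
  rw [h1, zero_add, Finset.sum_eq_single (Fin.last j)]
  · rw [if_pos]
    simp
    omega
  · intro l _ hl
    rw [if_neg]
    intro h
    apply hl
    ext
    simp at h ⊢
    omega
  · intro h
    exact absurd (Finset.mem_univ _) h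

theorem th_mid (l : ℕ) (hl : l < j) : ((xT j (.th ⟨l + 1, by omega⟩) : BR j) : Lam j) =
    single (ev (.u 0) + ev (.a ⟨l + 1, by omega⟩)) 1 + single (ev (.u 1) + ev (.a ⟨l, by omega⟩)) 1 := by
  rw [th_coe, Fin.sum_univ_two]
  congr 1
  · rw [Finset.sum_eq_single (⟨l + 1, by omega⟩ : Fin (j + 1))]
    · simp
    · intro i _ hi
      rw [if_neg]
      intro h
      apply hi
      ext
      simpa using h
    · intro h
      exact absurd (Finset.mem_univ _) h
  · rw [Finset.sum_eq_single (⟨l, by omega⟩ : Fin (j + 1))]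
    · rw [if_pos]
      simp
      omega
    · intro i _ hi
      rw [if_neg]
      intro h
      apply hi
      ext
      simp at h ⊢
      omega
    · intro h
      exact absurd (Finset.mem_univ _) h

/-- The exponents of the strand `b` with `dA = n`, `dA + dV = r`. -/
structure Str (n r b : ℕ) (μ : E j) : Prop where
  nn : Nonneg μ
  A : dA μ = n
  AV : dA μ + dV μ = r
  Y : dY μ = b
  U : dU μ = dA μ + dV μ + b
  S : dS μ = dV μ + b

/-- removing `u_p a_l` -/
theorem Str.pred {n r b : ℕ} {μ : E j} (h : Str (n + 1) r b μ) {p : Fin 2} {l : Fin (j + 1)}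
    (hp : 1 ≤ μ (.u p)) (hl : 1 ≤ μ (.a l)) :
    ∃ r', r = r' + 1 ∧ Str n r' b (μ - (ev (.u p) + ev (.a l))) := by
  obtain ⟨a1, a2, a3, a4, a5⟩ := ev_u (j := j) p
  obtain ⟨b1, b2, b3, b4, b5⟩ := ev_a (j := j) l
  have hA := h.A
  have hAV := h.AV
  have hY := h.Y
  have hU := h.U
  have hS := h.S
  have hV0 : 0 ≤ dV μ := Finset.sum_nonneg fun q _ => h.nn (.v q)
  push_cast at hA
  obtain ⟨r', rfl⟩ : ∃ r', r = r' + 1 := ⟨r - 1, by omega⟩
  refine ⟨r', rfl, nonneg_sub2 h.nn (by simp) hp hl, ?_, ?_, ?_, ?_, ?_⟩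
  · rw [dA_sub, dA_add, a1, b1]; omega
  · rw [dA_sub, dA_add, a1, b1, dV_sub, dV_add, a3, b3]; push_cast at hAV; omega
  · rw [dY_sub, dY_add, a5, b5]; omega
  · rw [dU_sub, dU_add, a2, b2, dA_sub, dA_add, a1, b1, dV_sub, dV_add, a3, b3]; omega
  · rw [dS_sub, dS_add, a4, b4, dV_sub, dV_add, a3, b3]; omega

/-- replacing `u_p a_l` by `u_p' a_l'` -/
theorem Str.swap {n r b : ℕ} {μ : E j} (h : Str (n + 1) r b μ) {p p' : Fin 2}
    {l l' : Fin (j + 1)} (hp : 1 ≤ μ (.u p)) (hl : 1 ≤ μ (.a l)) :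
    Str (n + 1) r b (μ - (ev (.u p) + ev (.a l)) + (ev (.u p') + ev (.a l'))) := by
  obtain ⟨r', rfl, h'⟩ := h.pred hp hl
  obtain ⟨a1, a2, a3, a4, a5⟩ := ev_u (j := j) p'
  obtain ⟨b1, b2, b3, b4, b5⟩ := ev_a (j := j) l'
  have hA := h'.A
  have hAV := h'.AV
  have hY := h'.Y
  have hU := h'.U
  have hS := h'.S
  refine ⟨h'.nn.add ((ev_nonneg _).add (ev_nonneg _)), ?_, ?_, ?_, ?_, ?_⟩
  · rw [dA_add, dA_add, a1, b1, hA]; push_cast; omega
  · rw [dA_add, dA_add, dV_add, dV_add, a1, b1, a3, b3]; push_cast; omega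
  · rw [dY_add, dY_add, a5, b5]; omega
  · rw [dU_add, dU_add, dA_add, dA_add, dV_add, dV_add, a1, b1, a2, b2, a3, b3]; omega
  · rw [dS_add, dS_add, dV_add, dV_add, a4, b4, a3, b3]; omega

theorem two_eq (f : Lam j) : f + f = 0 := by
  apply AddMonoidAlgebra.ext
  ext μ
  have : ∀ z : ZMod 2, z + z = 0 := by decide
  simpa using this (f.coeff μ)

/-- going down: `u_0` occurs at least `l + 1` times -/
theorem down {n r b : ℕ} (ih : ∀ r (μ : E j), Str n r b μ → Im r b (single μ 1 : Lam j)) (l : ℕ) :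
    ∀ (hl : l < j + 1) (μ : E j), Str (n + 1) r b μ → 1 ≤ μ (.a ⟨l, hl⟩) →
      (l : ℤ) + 1 ≤ μ (.u 0) → Im r b (single μ 1 : Lam j) := by
  induction l with
  | zero =>
    intro hl μ hμ h1 h2
    obtain ⟨r', rfl, h'⟩ := hμ.pred (p := 0) (l := 0) (by simpa using h2) h1
    rw [← single_split μ (ev (.u 0) + ev (.a 0)), ← th_zero]
    simpa using (ih _ _ h').mul (im_th 0)
  | succ l ihl =>
    intro hl μ hμ h1 h2
    push_cast at h2
    obtain ⟨r', rfl, h'⟩ := hμ.pred (p := 0) (l := ⟨l + 1, hl⟩) (by omega) h1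
    have hs := hμ.swap (p := 0) (l := ⟨l + 1, hl⟩) (p' := 1) (l' := ⟨l, by omega⟩) (by omega) h1
    set κ := μ - (ev (.u 0) + ev (.a ⟨l + 1, hl⟩)) with hκ
    have h3 := (ih _ _ h').mul (im_th (j := j) ⟨l + 1, by omega⟩)
    rw [th_mid l (by omega), mul_add, hκ, single_split, ← hκ, AddMonoidAlgebra.single_mul_single,
      one_mul] at h3
    have hκ0 : κ (.u 0) = μ (.u 0) - 1 := by
      simp [hκ, ev]
    have hκa : 0 ≤ κ (.a ⟨l, by omega⟩) := h'.nn _
    have h4 := ihl (by omega) (κ + (ev (.u 1) + ev (.a ⟨l, by omega⟩))) hs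
      (by
        simp only [Pi.add_apply, ev, Pi.single_apply]
        simp
        omega)
      (by
        simp only [Pi.add_apply, ev, Pi.single_apply]
        simp
        omega)
    have h5 := h3.add h4
    rw [add_assoc, two_eq, add_zero] at h5
    simpa using h5

/-- going up: `u_1` occurs at least `j - l + 1` times -/
theorem up {n r b : ℕ} (ih : ∀ r (μ : E j), Str n r b μ → Im r b (single μ 1 : Lam j)) (i : ℕ) :
    ∀ (hi : i < j + 1) (μ : E j), Str (n + 1) r b μ → 1 ≤ μ (.a ⟨j - i, by omega⟩) →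
      (i : ℤ) + 1 ≤ μ (.u 1) → Im r b (single μ 1 : Lam j) := by
  induction i with
  | zero =>
    intro hi μ hμ h1 h2
    obtain ⟨r', rfl, h'⟩ := hμ.pred (p := 1) (l := Fin.last j) (by simpa using h2) h1
    rw [← single_split μ (ev (.u 1) + ev (.a (Fin.last j))), ← th_last]
    simpa using (ih _ _ h').mul (im_th (Fin.last (j + 1)))
  | succ i ihi =>
    intro hi μ hμ h1 h2
    push_cast at h2
    have hj : j - (i + 1) + 1 = j - i := by omega
    obtain ⟨r', rfl, h'⟩ := hμ.pred (p := 1) (l := ⟨j - (i + 1), by omega⟩) (by omega) h1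
    have hs := hμ.swap (p := 1) (l := ⟨j - (i + 1), by omega⟩) (p' := 0) (l' := ⟨j - i, by omega⟩)
      (by omega) h1
    set κ := μ - (ev (.u 1) + ev (.a ⟨j - (i + 1), by omega⟩)) with hκ
    have h3 := (ih _ _ h').mul (im_th (j := j) ⟨j - (i + 1) + 1, by omega⟩)
    rw [th_mid (j - (i + 1)) (by omega), mul_add, hκ, single_split, ← hκ,
      AddMonoidAlgebra.single_mul_single, one_mul] at h3
    have hκ0 : κ (.u 1) = μ (.u 1) - 1 := by
      simp [hκ, ev]
    have hκa : 0 ≤ κ (.a ⟨j - i, by omega⟩) := h'.nn _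
    have h4 := ihi (by omega) (κ + (ev (.u 0) + ev (.a ⟨j - i, by omega⟩))) hs
      (by
        simp only [Pi.add_apply, ev, Pi.single_apply]
        simp
        omega)
      (by
        simp only [Pi.add_apply, ev, Pi.single_apply]
        simp
        omega)
    have hfin : (⟨j - (i + 1) + 1, by omega⟩ : Fin (j + 1)) = ⟨j - i, by omega⟩ := by
      ext
      exact hj
    rw [hfin] at h3
    have h5 := h4.add h3
    rw [← add_assoc, two_eq, zero_add] at h5
    simpa using h5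

theorem mono (b : ℕ) (hb : j ≤ b) (n : ℕ) :
    ∀ r (μ : E j), Str n r b μ → Im r b (single μ 1 : Lam j) := by
  induction n with
  | zero =>
    intro r μ h
    have hA := h.A
    have hAV := h.AV
    have hU := h.U
    have hS := h.S
    push_cast at hA
    refine mono0 b r μ h.nn (fun l => ?_) (by omega) h.Y (by omega) (by omega)
    exact (Finset.sum_eq_zero_iff_of_nonneg (fun p _ => h.nn (.a p))).1
      (show ∑ p, μ (.a p) = 0 by simpa [dA] using hA) l (Finset.mem_univ l)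
  | succ n ih =>
    intro r μ h
    have hA := h.A
    have hAV := h.AV
    have hU := h.U
    have hV0 : 0 ≤ dV μ := Finset.sum_nonneg fun q _ => h.nn (.v q)
    push_cast at hA
    obtain ⟨l, hl⟩ := exists_pos (fun p => W.a p) (μ := μ) (show 1 ≤ dA μ by omega)
    have hU2 : dU μ = μ (.u 0) + μ (.u 1) := by
      unfold dU
      rw [Fin.sum_univ_two]
    have hl2 := l.2
    by_cases h0 : ((l : ℕ) : ℤ) + 1 ≤ μ (.u 0)
    · exact down ih l hl2 μ h hl h0
    · refine up ih (j - l) (by omega) μ h ?_ ?_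
      · have : (⟨j - (j - (l : ℕ)), by omega⟩ : Fin (j + 1)) = l := by
          ext
          simp
          omega
        rw [this]
        exact hl
      · have : ((j - (l : ℕ) : ℕ) : ℤ) = j - l := by omega
        omega

end T8

theorem Psi_surj (j : ℕ) (r b : ℕ) (hb : j ≤ b) (f : Lam j) (hf : f ∈ FG j b b b)
    (hr : ∀ μ, f.coeff μ ≠ 0 → dA μ + dV μ = r) :
    ∃ g : PR j, MvPolynomial.IsWeightedHomogeneous (wt3 j) g (r, b, 0) ∧ Psi j g = f := by
  show Im r b f
  rw [← AddMonoidAlgebra.sum_coeff_single f]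
  refine Im.sum _ _ fun μ hμ => ?_
  have h1 : f.coeff μ ≠ 0 := Finsupp.mem_support_iff.1 hμ
  have h2 : f.coeff μ = 1 := by
    have : ∀ z : ZMod 2, z ≠ 0 → z = 1 := by decide
    exact this _ h1
  rw [h2]
  obtain ⟨h3, h4, h5, h6⟩ := hf μ h1
  have hA0 : 0 ≤ dA μ := Finset.sum_nonneg fun q _ => h3 (.a q)
  obtain ⟨n, hn⟩ : ∃ n : ℕ, dA μ = n := ⟨(dA μ).toNat, by omega⟩
  exact mono b hb n r μ ⟨h3, hn, hr μ h1, h4, h5, h6⟩

end Pool.Agent.N165.LC
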