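import Pool.Agent.N165.LC.Defs

/-!
Powers of the ideal `I = (Y)^{2e} + z J_{(e)} + (z²)` (task T9).
-/

namespace Pool.Agent.N165.LC

/-! ### T9 -/

/-- The condition defining the ideal `J` in `Y`-degree `b`. -/
def InJ (j b : ℕ) (g : PR j) : Prop := ∃ φ ∈ FG j ((b : ℤ) - 2) b (b + 2), Psi j g = hh j * φ

/-- The ideal `I = (Y)^{2e} + z J_{(e)} + (z²)`. -/
noncomputable def II (j e : ℕ) : Ideal (PR j) :=
  Ideal.span ({f | MvPolynomial.IsWeightedHomogeneous (wt3 j) f (0, 2 * e, 0)} ∪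
    {f | ∃ r, MvPolynomial.IsWeightedHomogeneous (wt3 j) f (r, e, 1) ∧ InJ j e f} ∪
    {MvPolynomial.X .z ^ 2})

namespace T9

open MvPolynomial AddMonoidAlgebra

variable {j : ℕ}

theorem zmod2 (a : ZMod 2) : a = 0 ∨ a = 1 := by
  revert a; decide

/-- induction on homogeneous polynomials over `𝔽₂` -/
theorem hom_ind {M : Type} [AddCommMonoid M] {w : V j → M} {m : M} {P : PR j → Prop} (h0 : P 0)
    (hadd : ∀ p q, P p → P q → P (p + q))
    (hmono : ∀ d : V j →₀ ℕ, Finsupp.weight w d = m → P (monomial d 1)) {g : PR j}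
    (hg : IsWeightedHomogeneous w g m) : P g := by
  refine hg.induction_on (motive := fun p _ => P p) h0 (fun p q _ _ hp hq => hadd p q hp hq) ?_
  intro d r hd
  rcases zmod2 r with rfl | rfl
  · rw [monomial_zero]; exact h0
  · exact hmono d hd

/-- the ideal of the `Y`-variables -/
noncomputable def AY (j : ℕ) : Ideal (PR j) :=
  Ideal.span (Set.range fun x : Fin 2 × Fin 2 × Fin 3 => (X (V.y x.1 x.2.1 x.2.2) : PR j))

/-- the ideal of `z` -/
noncomputable def AZ (j : ℕ) : Ideal (PR j) := Ideal.span {(X V.z : PR j)}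

theorem X_mem (i : V j) : (X i : PR j) ∈ AY j ^ (wt2 j i).1 * AZ j ^ (wt2 j i).2 := by
  cases i with
  | th i => simp [wt2]
  | x p q r => simp [wt2]
  | y p t r =>
    simp only [wt2, pow_one, pow_zero, mul_one]
    exact Ideal.subset_span ⟨(p, t, r), rfl⟩
  | z =>
    simp only [wt2, pow_one, pow_zero, one_mul]
    exact Ideal.subset_span rfl

theorem mono_mem (d : V j →₀ ℕ) : (monomial d 1 : PR j) ∈
    AY j ^ (Finsupp.weight (wt2 j) d).1 * AZ j ^ (Finsupp.weight (wt2 j) d).2 := by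
  induction d using Finsupp.induction_linear with
  | zero => simp
  | add d e hd he =>
    have h1 : (monomial (d + e) 1 : PR j) = monomial d 1 * monomial e 1 := by
      rw [monomial_mul, one_mul]
    rw [h1, map_add, Prod.fst_add, Prod.snd_add, pow_add, pow_add, mul_mul_mul_comm]
    exact Ideal.mul_mem_mul hd he
  | single i n =>
    have h1 : (monomial (Finsupp.single i n) 1 : PR j) = X i ^ n := by
      rw [X_pow_eq_monomial]
    have h2 : (Finsupp.weight (wt2 j) (Finsupp.single i n)) = n • wt2 j i := by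
      rw [Finsupp.weight_single]
    rw [h1, h2]
    have h3 := Ideal.pow_mem_pow (X_mem i) n
    rw [mul_pow, ← pow_mul, ← pow_mul] at h3
    simpa [mul_comm] using h3

theorem hom_mem {b k : ℕ} {g : PR j} (hg : IsWeightedHomogeneous (wt2 j) g (b, k)) :
    g ∈ AY j ^ b * AZ j ^ k := by
  refine hom_ind (P := fun g => g ∈ AY j ^ b * AZ j ^ k) (zero_mem _) (fun p q hp hq => add_mem hp hq)
    (fun d hd => ?_) hg
  have := mono_mem d
  rwa [hd] at this

theorem AY_pow (N : ℕ) :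
    AY j ^ N ≤ Ideal.span {f | IsWeightedHomogeneous (wt3 j) f (0, N, 0)} := by
  induction N with
  | zero =>
    have : (1 : PR j) ∈ Ideal.span {f : PR j | IsWeightedHomogeneous (wt3 j) f (0, 0, 0)} :=
      Ideal.subset_span (isWeightedHomogeneous_one _ _)
    rw [(Ideal.eq_top_iff_one _).2 this]
    exact le_top
  | succ N ih =>
    rw [pow_succ]
    refine (Ideal.mul_mono ih le_rfl).trans ?_
    unfold AY
    rw [Ideal.span_mul_span']
    apply Ideal.span_mono
    rintro _ ⟨f, hf, _, ⟨x, rfl⟩, rfl⟩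
    exact hf.mul (isWeightedHomogeneous_X _ _ _)

theorem AY_le (e : ℕ) : AY j ^ (2 * e) ≤ II j e := by
  refine (AY_pow _).trans (Ideal.span_mono ?_)
  intro f hf
  exact Or.inl (Or.inl hf)

theorem AZ_le (e : ℕ) : AZ j ^ 2 ≤ II j e := by
  unfold AZ
  rw [Ideal.span_singleton_pow, Ideal.span_singleton_le_iff_mem]
  exact Ideal.subset_span (Or.inr rfl)

theorem AYZ_le {e n b k : ℕ} (he : 1 ≤ e) (h : 2 * n ≤ k ∨ 2 * e * n ≤ b + 2 * e * (k / 2)) :
    AY j ^ b * AZ j ^ k ≤ II j e ^ n := by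
  have h1 : n ≤ b / (2 * e) + k / 2 := by
    rcases h with h | h
    · have : n ≤ k / 2 := by omega
      exact this.trans (Nat.le_add_left _ _)
    · by_cases hn : n ≤ k / 2
      · exact hn.trans (Nat.le_add_left _ _)
      · have h3 : (2 * e) * (n - k / 2) ≤ b := by
          rw [Nat.mul_sub]
          exact Nat.sub_le_iff_le_add.2 h
        have h4 : n - k / 2 ≤ b / (2 * e) := by
          rw [Nat.le_div_iff_mul_le (by omega)]
          linarith
        exact Nat.sub_le_iff_le_add.1 h4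
  have h5 : AY j ^ b ≤ II j e ^ (b / (2 * e)) := by
    refine (Ideal.pow_le_pow_right (Nat.mul_div_le b (2 * e))).trans ?_
    rw [pow_mul]
    exact Ideal.pow_right_mono (AY_le e) _
  have h6 : AZ j ^ k ≤ II j e ^ (k / 2) := by
    refine (Ideal.pow_le_pow_right (Nat.mul_div_le k 2)).trans ?_
    rw [pow_mul]
    exact Ideal.pow_right_mono (AZ_le e) _
  refine (Ideal.mul_mono h5 h6).trans ?_
  rw [← pow_add]
  exact Ideal.pow_le_pow_right h1


/-! #### `Ψ` and the strands -/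

theorem FG_one : (1 : Lam j) ∈ FG j 0 0 0 := one_mem (BR j)

theorem chiY_mem (p t : Fin 2) (r : Fin 3) :
    Nonneg (chiY p t r : E j) ∧ (chiY p t r : E j) ∈ MS j 1 1 1 := by
  constructor
  · exact ((ev_nonneg _).add (ev_nonneg _)).add (ev_nonneg _)
  · fin_cases p <;> fin_cases t <;> simp [chiY, MS, dA, dU, dV, dS, dY, ev, Pi.single_apply]

theorem Psi_X_mem (i : V j) :
    Psi j (X i) ∈ FG j ((wt2 j i).1 : ℤ) ((wt2 j i).1 : ℤ) ((wt2 j i).1 : ℤ) := by
  unfold Psi
  rw [aeval_X]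
  cases i with
  | th i => exact (xT j (.th i)).2
  | x p q r => exact (xT j (.uvs p q r)).2
  | y p t r =>
    have := single_mem_FG (chiY_mem (j := j) p t r).1 (chiY_mem p t r).2
    simpa [wt2] using this
  | z => exact FG_one

theorem FG_pow {b : ℕ} {f : Lam j} (hf : f ∈ FG j b b b) (n : ℕ) :
    f ^ n ∈ FG j ((n * b : ℕ) : ℤ) ((n * b : ℕ) : ℤ) ((n * b : ℕ) : ℤ) := by
  induction n with
  | zero => simpa using FG_one
  | succ n ih =>
    rw [pow_succ]
    have := FG_mul ih hf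
    have e : ((n * b : ℕ) : ℤ) + (b : ℤ) = (((n + 1) * b : ℕ) : ℤ) := by push_cast; ring
    rwa [e] at this

theorem Psi_mono_mem (d : V j →₀ ℕ) : Psi j (monomial d 1) ∈
    FG j ((Finsupp.weight (wt2 j) d).1 : ℤ) ((Finsupp.weight (wt2 j) d).1 : ℤ)
      ((Finsupp.weight (wt2 j) d).1 : ℤ) := by
  induction d using Finsupp.induction_linear with
  | zero =>
    have h1 : (monomial (0 : V j →₀ ℕ) 1 : PR j) = 1 := rfl
    rw [h1, map_one, map_zero]
    exact FG_one
  | add d e hd he =>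
    have h1 : (monomial (d + e) 1 : PR j) = monomial d 1 * monomial e 1 := by
      rw [monomial_mul, one_mul]
    rw [h1, map_mul, map_add, Prod.fst_add, Nat.cast_add]
    exact FG_mul hd he
  | single i n =>
    have h1 : (monomial (Finsupp.single i n) 1 : PR j) = X i ^ n := by
      rw [X_pow_eq_monomial]
    have h2 : (Finsupp.weight (wt2 j) (Finsupp.single i n)).1 = n * (wt2 j i).1 := by
      rw [Finsupp.weight_single]; simp
    rw [h1, h2, map_pow]
    exact FG_pow (Psi_X_mem i) n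

theorem Psi_hom_mem {b k : ℕ} {g : PR j} (hg : IsWeightedHomogeneous (wt2 j) g (b, k)) :
    Psi j g ∈ FG j (b : ℤ) (b : ℤ) (b : ℤ) := by
  refine hom_ind (P := fun g => Psi j g ∈ FG j (b : ℤ) (b : ℤ) (b : ℤ)) ?_ ?_ ?_ hg
  · rw [map_zero]; exact zero_mem _
  · intro p q hp hq
    rw [map_add]; exact add_mem hp hq
  · intro d hd
    have := Psi_mono_mem d
    rwa [hd] at this

theorem InJ.zero (b : ℕ) : InJ j b 0 := ⟨0, zero_mem _, by rw [map_zero, mul_zero]⟩

theorem InJ.add {b : ℕ} {f g : PR j} (hf : InJ j b f) (hg : InJ j b g) : InJ j b (f + g) := by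
  obtain ⟨φ, h1, h2⟩ := hf
  obtain ⟨ψ, h3, h4⟩ := hg
  exact ⟨φ + ψ, add_mem h1 h3, by rw [map_add, h2, h4, mul_add]⟩

theorem InJ.sum {b : ℕ} {ι : Type} (s : Finset ι) (f : ι → PR j) (h : ∀ i ∈ s, InJ j b (f i)) :
    InJ j b (∑ i ∈ s, f i) := by
  classical
  induction s using Finset.induction_on with
  | empty => simpa using InJ.zero b
  | insert i s hi ih =>
    rw [Finset.sum_insert hi]
    exact InJ.add (h i (Finset.mem_insert_self _ _))
      (ih fun k hk => h k (Finset.mem_insert_of_mem hk))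

theorem InJ.mul {b b' k' : ℕ} {f g : PR j} (hf : IsWeightedHomogeneous (wt2 j) f (b', k'))
    (hg : InJ j b g) : InJ j (b' + b) (f * g) := by
  obtain ⟨φ, h1, h2⟩ := hg
  refine ⟨Psi j f * φ, ?_, ?_⟩
  · have := FG_mul (Psi_hom_mem hf) h1
    convert this using 2 <;> push_cast <;> ring
  · rw [map_mul, h2]; ring

theorem Psi_z (k : ℕ) (g : PR j) : Psi j (X V.z ^ k * g) = Psi j g := by
  have : Psi j (X V.z) = 1 := by
    unfold Psi
    rw [aeval_X]
  rw [map_mul, map_pow, this, one_pow, one_mul]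

/-! #### components -/

/-- bidegree of a tridegree -/
theorem hom23 {r b k : ℕ} {g : PR j} (hg : IsWeightedHomogeneous (wt3 j) g (r, b, k)) :
    IsWeightedHomogeneous (wt2 j) g (b, k) := by
  refine hom_ind (P := fun g => IsWeightedHomogeneous (wt2 j) g (b, k))
    (isWeightedHomogeneous_zero _ _ _) (fun p q hp hq => hp.add hq) (fun d hd => ?_) hg
  apply isWeightedHomogeneous_monomial
  have h : ∀ d : V j →₀ ℕ, Finsupp.weight (wt2 j) d = (Finsupp.weight (wt3 j) d).2 := by
    intro d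
    induction d using Finsupp.induction_linear with
    | zero => rw [map_zero, map_zero]; rfl
    | add d e hd he => rw [map_add, map_add, hd, he]; rfl
    | single i n =>
      rw [Finsupp.weight_single, Finsupp.weight_single]
      cases i <;> simp [wt2, wt3]
  rw [h, hd]


/-- the component of bidegree `p` -/
noncomputable abbrev wc (p : ℕ × ℕ) (f : PR j) : PR j := weightedHomogeneousComponent (wt2 j) p f

theorem exists_wc (f : PR j) : ∃ s : Finset (ℕ × ℕ), f = ∑ p ∈ s, wc p f := by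
  refine ⟨(weightedHomogeneousComponent_finsupp (w := wt2 j) f).toFinset, ?_⟩
  conv_lhs => rw [← sum_weightedHomogeneousComponent (wt2 j) f]
  exact finsum_eq_sum _ _

theorem wc_hom (p : ℕ × ℕ) (f : PR j) : IsWeightedHomogeneous (wt2 j) (wc p f) p :=
  weightedHomogeneousComponent_isWeightedHomogeneous _ _

theorem wc_of_hom {p q : ℕ × ℕ} {f : PR j} (hf : IsWeightedHomogeneous (wt2 j) f q) :
    wc p f = if p = q then f else 0 := by
  split_ifs with h
  · subst h
    exact hf.weightedHomogeneousComponent_same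
  · exact hf.weightedHomogeneousComponent_ne _ h

theorem wc_mul {f g : PR j} {s t : Finset (ℕ × ℕ)} (hs : f = ∑ p ∈ s, wc p f)
    (ht : g = ∑ p ∈ t, wc p g) (p : ℕ × ℕ) :
    wc p (f * g) = ∑ p₁ ∈ s, ∑ p₂ ∈ t, if p = p₁ + p₂ then wc p₁ f * wc p₂ g else 0 := by
  conv_lhs => rw [hs, ht]
  rw [Finset.sum_mul_sum, wc, map_sum]
  refine Finset.sum_congr rfl fun p₁ _ => ?_
  rw [map_sum]
  refine Finset.sum_congr rfl fun p₂ _ => ?_
  exact wc_of_hom ((wc_hom p₁ f).mul (wc_hom p₂ g))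

/-- The filtration used to describe the powers of `I`. -/
def Fil (j e n : ℕ) (f : PR j) : Prop :=
  ∀ b k : ℕ, (b + e * k < 2 * e * n → wc (b, k) f = 0) ∧
    (k % 2 = 1 → b + e * k < 2 * e * n + e → InJ j b (wc (b, k) f))

theorem Fil.mul {e n m : ℕ} {f g : PR j} (hf : Fil j e n f) (hg : Fil j e m g) :
    Fil j e (n + m) (f * g) := by
  obtain ⟨s, hs⟩ := exists_wc f
  obtain ⟨t, ht⟩ := exists_wc g
  intro b k
  rw [wc_mul hs ht]
  refine ⟨fun h => ?_, fun hk h => ?_⟩
  · refine Finset.sum_eq_zero fun p₁ _ => Finset.sum_eq_zero fun p₂ _ => ?_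
    split_ifs with hp
    · obtain ⟨b₁, k₁⟩ := p₁
      obtain ⟨b₂, k₂⟩ := p₂
      rw [Prod.mk_add_mk, Prod.mk.injEq] at hp
      obtain ⟨rfl, rfl⟩ := hp
      by_cases h1 : b₁ + e * k₁ < 2 * e * n
      · rw [(hf b₁ k₁).1 h1, zero_mul]
      · have h2 : b₂ + e * k₂ < 2 * e * m := by
          rw [mul_add, mul_add] at h
          omega
        rw [(hg b₂ k₂).1 h2, mul_zero]
    · rfl
  · refine InJ.sum _ _ fun p₁ _ => InJ.sum _ _ fun p₂ _ => ?_
    split_ifs with hp
    · obtain ⟨b₁, k₁⟩ := p₁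
      obtain ⟨b₂, k₂⟩ := p₂
      rw [Prod.mk_add_mk, Prod.mk.injEq] at hp
      obtain ⟨rfl, rfl⟩ := hp
      rw [mul_add, mul_add] at h
      rcases Nat.even_or_odd k₁ with hk₁ | hk₁
      · -- k₂ odd
        have hk₂ : k₂ % 2 = 1 := by
          have := Nat.even_iff.1 hk₁
          omega
        by_cases h1 : b₁ + e * k₁ < 2 * e * n
        · rw [(hf b₁ k₁).1 h1, zero_mul]; exact InJ.zero _
        · exact InJ.mul (wc_hom _ _) ((hg b₂ k₂).2 hk₂ (by omega))
      · by_cases h1 : b₂ + e * k₂ < 2 * e * m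
        · rw [(hg b₂ k₂).1 h1, mul_zero]; exact InJ.zero _
        · have := InJ.mul (wc_hom (b₂, k₂) g) ((hf b₁ k₁).2 (Nat.odd_iff.1 hk₁) (by omega))
          rwa [mul_comm, add_comm b₂ b₁] at this
    · exact InJ.zero _

theorem Fil.add {e n : ℕ} {f g : PR j} (hf : Fil j e n f) (hg : Fil j e n g) :
    Fil j e n (f + g) := by
  intro b k
  rw [wc, map_add]
  refine ⟨fun h => ?_, fun hk h => ?_⟩
  · have h1 := (hf b k).1 h
    have h2 := (hg b k).1 h
    rw [wc] at h1 h2
    rw [h1, h2, add_zero]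
  · exact InJ.add ((hf b k).2 hk h) ((hg b k).2 hk h)

theorem Fil.zero' (e : ℕ) (f : PR j) : Fil j e 0 f := by
  intro b k
  refine ⟨fun h => by omega, fun hk h => ?_⟩
  exfalso
  have h1 : 1 ≤ k := by omega
  have : e * 1 ≤ e * k := Nat.mul_le_mul_left _ h1
  omega

/-- the filtration as ideals -/
def FilI (j e n : ℕ) : Ideal (PR j) where
  carrier := {f | Fil j e n f}
  zero_mem' := by
    intro b k
    rw [wc, map_zero]
    exact ⟨fun _ => rfl, fun _ _ => InJ.zero _⟩
  add_mem' := fun hf hg => Fil.add hf hg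
  smul_mem' := fun c f hf => by
    have := Fil.mul (Fil.zero' e c) hf
    rwa [zero_add] at this

theorem II_le (e : ℕ) : II j e ≤ FilI j e 1 := by
  unfold II
  rw [Ideal.span_le]
  rintro f ((hf | hf) | hf)
  · have hf' := hom23 hf
    intro b k
    rw [wc_of_hom hf']
    refine ⟨fun h => ?_, fun hk h => ?_⟩
    · rw [if_neg]
      rintro h'
      rw [Prod.mk.injEq] at h'
      obtain ⟨rfl, rfl⟩ := h'
      omega
    · rw [if_neg]
      · exact InJ.zero _
      · rintro h'
        rw [Prod.mk.injEq] at h'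
        omega
  · obtain ⟨r, hf, hJ⟩ := hf
    have hf' := hom23 hf
    intro b k
    rw [wc_of_hom hf']
    refine ⟨fun h => ?_, fun hk h => ?_⟩
    · rw [if_neg]
      rintro h'
      rw [Prod.mk.injEq] at h'
      obtain ⟨rfl, rfl⟩ := h'
      omega
    · split_ifs with h'
      · rw [Prod.mk.injEq] at h'
        obtain ⟨rfl, rfl⟩ := h'
        exact hJ
      · exact InJ.zero _
  · have hf' : IsWeightedHomogeneous (wt2 j) f (0, 2) := by
      rw [Set.mem_singleton_iff] at hf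
      subst hf
      have := (isWeightedHomogeneous_X (ZMod 2) (wt2 j) V.z).pow 2
      simpa [wt2] using this
    intro b k
    rw [wc_of_hom hf']
    refine ⟨fun h => ?_, fun hk h => ?_⟩
    · rw [if_neg]
      rintro h'
      rw [Prod.mk.injEq] at h'
      obtain ⟨rfl, rfl⟩ := h'
      omega
    · rw [if_neg]
      · exact InJ.zero _
      · rintro h'
        rw [Prod.mk.injEq] at h'
        omega

theorem FilI_mul (e n m : ℕ) : FilI j e n * FilI j e m ≤ FilI j e (n + m) := by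
  rw [Ideal.mul_le]
  intro f hf g hg
  exact Fil.mul hf hg

theorem II_pow_le (e n : ℕ) : II j e ^ n ≤ FilI j e n := by
  induction n with
  | zero => exact fun f _ => Fil.zero' e f
  | succ n ih =>
    rw [pow_succ]
    exact (Ideal.mul_mono ih (II_le e)).trans (FilI_mul e n 1)


/-! #### The grading of the Laurent ring by `dA + dV` -/

/-- `dA + dV` -/
def D (μ : E j) : ℤ := dA μ + dV μ

theorem D_add (μ μ' : E j) : D (μ + μ') = D μ + D μ' := by
  simp only [D, dA, dV, Pi.add_apply, Finset.sum_add_distrib]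
  ring

/-- homogeneous elements -/
def DH (j : ℕ) (r : ℤ) : AddSubgroup (Lam j) where
  carrier := {f | ∀ μ, f.coeff μ ≠ 0 → D μ = r}
  zero_mem' := fun μ h => absurd rfl h
  add_mem' := fun {x y} hx hy μ h => by
    by_cases h1 : x.coeff μ = 0
    · by_cases h2 : y.coeff μ = 0
      · exfalso
        apply h
        simp [h1, h2]
      · exact hy μ h2
    · exact hx μ h1
  neg_mem' := fun {x} hx μ h => hx μ fun h' => h (by simp [h'])

theorem DH_mul {r r' : ℤ} {f g : Lam j} (hf : f ∈ DH j r) (hg : g ∈ DH j r') :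
    f * g ∈ DH j (r + r') := by
  intro μ hμ
  obtain ⟨μ₁, μ₂, h1, h2, rfl⟩ := exists_of_coeff_mul hμ
  rw [D_add, hf _ h1, hg _ h2]

theorem DH_single {κ : E j} : (single κ 1 : Lam j) ∈ DH j (D κ) := by
  intro μ hμ
  have : μ = κ := by
    by_contra hne
    apply hμ
    simp [Ne.symm hne]
  rw [this]

theorem DH_one : (1 : Lam j) ∈ DH j 0 := by
  rw [AddMonoidAlgebra.one_def]
  have := DH_single (j := j) (κ := 0)
  simpa [D, dA, dV] using this

theorem DH_hh : hh j ∈ DH j 2 := by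
  refine sum_mem fun i _ => ?_
  have h : D (hE j i) = 2 := by
    fin_cases i <;> simp [D, hE, kap, dA, dV]
  rw [← h]
  exact DH_single

/-- the homogeneous components -/
noncomputable def pr (r : ℤ) (f : Lam j) : Lam j :=
  AddMonoidAlgebra.ofCoeff (f.coeff.filter fun μ => D μ = r)

theorem pr_coeff (r : ℤ) (f : Lam j) (μ : E j) :
    (pr r f).coeff μ = if D μ = r then f.coeff μ else 0 := rfl

theorem pr_add (r : ℤ) (f g : Lam j) : pr r (f + g) = pr r f + pr r g := by
  apply AddMonoidAlgebra.ext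
  ext μ
  show (pr r (f + g)).coeff μ = (pr r f).coeff μ + (pr r g).coeff μ
  rw [pr_coeff, pr_coeff, pr_coeff]
  split_ifs
  · rfl
  · rw [add_zero]

theorem pr_self {r : ℤ} {f : Lam j} (h : f ∈ DH j r) : pr r f = f := by
  apply AddMonoidAlgebra.ext
  ext μ
  rw [pr_coeff]
  by_cases h1 : f.coeff μ = 0
  · split_ifs
    · rfl
    · exact h1.symm
  · rw [if_pos (h μ h1)]

theorem pr_eq_zero {r : ℤ} {f : Lam j} (h : ∀ μ, f.coeff μ ≠ 0 → D μ ≠ r) : pr r f = 0 := by
  apply AddMonoidAlgebra.ext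
  ext μ
  rw [pr_coeff]
  by_cases h1 : f.coeff μ = 0
  · rw [h1, ite_self]; rfl
  · rw [if_neg (h μ h1)]; rfl

theorem pr_mem (r : ℤ) (f : Lam j) : pr r f ∈ DH j r := by
  intro μ hμ
  rw [pr_coeff] at hμ
  by_contra h
  rw [if_neg h] at hμ
  exact hμ rfl

theorem pr_mem_FG {y u s : ℤ} (r : ℤ) {f : Lam j} (hf : f ∈ FG j y u s) : pr r f ∈ FG j y u s := by
  intro μ hμ
  rw [pr_coeff] at hμ
  apply hf μ
  intro h
  rw [h, ite_self] at hμ
  exact hμ rfl

theorem pr_hh_mul (r : ℤ) (φ : Lam j) : pr r (hh j * φ) = hh j * pr (r - 2) φ := by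
  have h1 : hh j * φ = hh j * pr (r - 2) φ + hh j * (φ - pr (r - 2) φ) := by ring
  have h2 : pr r (hh j * pr (r - 2) φ) = hh j * pr (r - 2) φ := by
    apply pr_self
    have := DH_mul (DH_hh (j := j)) (pr_mem (r - 2) φ)
    rwa [show (2 : ℤ) + (r - 2) = r by ring] at this
  have h3 : pr r (hh j * (φ - pr (r - 2) φ)) = 0 := by
    apply pr_eq_zero
    intro μ hμ
    obtain ⟨μ₁, μ₂, h2, h3, rfl⟩ := exists_of_coeff_mul hμ
    rw [D_add, DH_hh _ h2]
    intro h4
    apply h3
    show φ.coeff μ₂ - (pr (r - 2) φ).coeff μ₂ = 0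
    rw [pr_coeff, if_pos (by linarith), sub_self]
  calc pr r (hh j * φ) = pr r (hh j * pr (r - 2) φ + hh j * (φ - pr (r - 2) φ)) :=
        congrArg (pr r) h1
    _ = pr r (hh j * pr (r - 2) φ) + pr r (hh j * (φ - pr (r - 2) φ)) := pr_add _ _ _
    _ = hh j * pr (r - 2) φ := by rw [h2, h3, add_zero]

/-- the `x`-degree -/
def wx (j : ℕ) (i : V j) : ℕ := (wt3 j i).1

theorem DH_xM (i : XM j) : ((xM j i : BR j) : Lam j) ∈ DH j 1 := by
  have h : D (chi j i) = 1 := by
    cases i with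
    | ua p l => fin_cases p <;> simp [chi, D, dA, dV, ev, Pi.single_apply]
    | uvs p q r =>
      fin_cases p <;> fin_cases q <;> simp [chi, D, dA, dV, ev, Pi.single_apply]
  rw [← h]
  exact DH_single

theorem DH_xT (i : XT j) : ((xT j i : BR j) : Lam j) ∈ DH j 1 := by
  cases i with
  | th i =>
    have : ((xT j (.th i) : BR j) : Lam j) = ∑ p : Fin 2, ∑ l : Fin (j + 1),
        ((if (p : ℕ) + (l : ℕ) = i then xM j (.ua p l) else 0 : BR j) : Lam j) := by
      unfold xT
      push_cast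
      rfl
    rw [this]
    refine sum_mem fun p _ => sum_mem fun l _ => ?_
    split_ifs
    · exact DH_xM _
    · exact zero_mem _
  | uvs p q r => exact DH_xM _

theorem DH_Psi_X (i : V j) : Psi j (X i) ∈ DH j ((wx j i : ℕ) : ℤ) := by
  unfold Psi
  rw [aeval_X]
  cases i with
  | th i => exact DH_xT _
  | x p q r => exact DH_xT _
  | y p t r =>
    have h : D (chiY p t r : E j) = 0 := by
      fin_cases p <;> fin_cases t <;> simp [chiY, D, dA, dV, ev]
    have := DH_single (j := j) (κ := chiY p t r)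
    rwa [h] at this
  | z => exact DH_one

theorem DH_pow {b : ℕ} {f : Lam j} (hf : f ∈ DH j b) (n : ℕ) :
    f ^ n ∈ DH j ((n * b : ℕ) : ℤ) := by
  induction n with
  | zero => simpa using DH_one
  | succ n ih =>
    rw [pow_succ]
    have := DH_mul ih hf
    have e : ((n * b : ℕ) : ℤ) + (b : ℤ) = (((n + 1) * b : ℕ) : ℤ) := by push_cast; ring
    rwa [e] at this

theorem DH_Psi_mono (d : V j →₀ ℕ) :
    Psi j (monomial d 1) ∈ DH j ((Finsupp.weight (wx j) d : ℕ) : ℤ) := by
  induction d using Finsupp.induction_linear with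
  | zero =>
    have h1 : (monomial (0 : V j →₀ ℕ) 1 : PR j) = 1 := rfl
    rw [h1, map_one, map_zero]
    exact DH_one
  | add d e hd he =>
    have h1 : (monomial (d + e) 1 : PR j) = monomial d 1 * monomial e 1 := by
      rw [monomial_mul, one_mul]
    rw [h1, map_mul, map_add, Nat.cast_add]
    exact DH_mul hd he
  | single i n =>
    have h1 : (monomial (Finsupp.single i n) 1 : PR j) = X i ^ n := by
      rw [X_pow_eq_monomial]
    have h2 : (Finsupp.weight (wx j) (Finsupp.single i n)) = n * (wx j i) := by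
      rw [Finsupp.weight_single]; simp
    rw [h1, h2, map_pow]
    exact DH_pow (DH_Psi_X i) n

theorem pr_Psi (r : ℕ) (g : PR j) :
    pr (r : ℤ) (Psi j g) = Psi j (weightedHomogeneousComponent (wx j) r g) := by
  induction g using MvPolynomial.induction_on' with
  | monomial d a =>
    rcases zmod2 a with rfl | rfl
    · rw [monomial_zero, map_zero, map_zero, map_zero]
      exact pr_eq_zero fun μ h => absurd rfl h
    · have hm : IsWeightedHomogeneous (wx j) (monomial d 1 : PR j) (Finsupp.weight (wx j) d) :=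
        isWeightedHomogeneous_monomial _ _ _ rfl
      by_cases h : r = Finsupp.weight (wx j) d
      · subst h
        rw [hm.weightedHomogeneousComponent_same, pr_self (DH_Psi_mono d)]
      · rw [hm.weightedHomogeneousComponent_ne _ h, map_zero]
        refine pr_eq_zero fun μ hμ h' => h ?_
        have := DH_Psi_mono d μ hμ
        rw [h'] at this
        exact_mod_cast this
  | add p q hp hq => rw [map_add, pr_add, map_add, map_add, hp, hq]

theorem InJ.comp {b : ℕ} {g : PR j} (hg : InJ j b g) (r : ℕ) :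
    InJ j b (weightedHomogeneousComponent (wx j) r g) := by
  obtain ⟨φ, h1, h2⟩ := hg
  refine ⟨pr ((r : ℤ) - 2) φ, pr_mem_FG _ h1, ?_⟩
  rw [← pr_Psi, h2, pr_hh_mul]

theorem weight3 (d : V j →₀ ℕ) :
    Finsupp.weight (wt3 j) d = (Finsupp.weight (wx j) d, Finsupp.weight (wt2 j) d) := by
  induction d using Finsupp.induction_linear with
  | zero => rw [map_zero, map_zero, map_zero]; rfl
  | add d e hd he => rw [map_add, map_add, map_add, hd, he]; rfl
  | single i n =>
    rw [Finsupp.weight_single, Finsupp.weight_single, Finsupp.weight_single]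
    cases i <;> simp [wt2, wt3, wx]

/-- the homogeneous elements of `J` -/
def SJ (j : ℕ) : Set (PR j) := {g | ∃ r b, IsWeightedHomogeneous (wt3 j) g (r, b, 0) ∧ InJ j b g}

theorem mem_span_SJ {b : ℕ} {g : PR j} (hg : IsWeightedHomogeneous (wt2 j) g (b, 0))
    (hJ : InJ j b g) : g ∈ Ideal.span (SJ j) := by
  rw [← sum_weightedHomogeneousComponent (wx j) g,
    finsum_eq_sum _ (weightedHomogeneousComponent_finsupp (w := wx j) g)]
  refine sum_mem fun r _ => Ideal.subset_span ⟨r, b, ?_, InJ.comp hJ r⟩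
  intro d hd
  classical
  rw [coeff_weightedHomogeneousComponent] at hd
  rw [weight3]
  split_ifs at hd with h
  · rw [h, hg hd]
  · exact absurd rfl hd

/-- the ideal generated by the elements of `J` of `Y`-degree `e` -/
noncomputable def JJ (j e : ℕ) : Ideal (PR j) :=
  Ideal.span {f | ∃ r, IsWeightedHomogeneous (wt3 j) f (r, e, 0) ∧ InJ j e f}

theorem AY_mul_mem {e r b : ℕ} {g : PR j} (hg : IsWeightedHomogeneous (wt3 j) g (r, b, 0))
    (hJ : InJ j b g) (hb : b ≤ e) {f : PR j} (hf : f ∈ AY j ^ (e - b)) : f * g ∈ JJ j e := by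
  have h1 := AY_pow (e - b) hf
  have h2 : f * g ∈ Ideal.span {f : PR j | IsWeightedHomogeneous (wt3 j) f (0, e - b, 0)} *
      Ideal.span {g} := Ideal.mul_mem_mul h1 (Ideal.mem_span_singleton_self g)
  rw [Ideal.span_mul_span'] at h2
  refine (Ideal.span_mono ?_ : _ ≤ JJ j e) h2
  rintro _ ⟨a, ha, b', hb', rfl⟩
  rw [Set.mem_singleton_iff] at hb'
  subst hb'
  refine ⟨r, ?_, ?_⟩
  · have := IsWeightedHomogeneous.mul ha hg
    rw [Prod.mk_add_mk, Prod.mk_add_mk, zero_add, zero_add, Nat.sub_add_cancel hb] at this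
    exact this
  · have := InJ.mul (hom23 ha) hJ
    rwa [Nat.sub_add_cancel hb] at this

theorem fst_eq {b b₁ : ℕ} {p : ℕ × ℕ} (h : (b, 0) = p + (b₁, 0)) : b = p.1 + b₁ := by
  obtain ⟨x, y⟩ := p
  rw [Prod.mk_add_mk, Prod.mk.injEq] at h
  exact h.1

theorem comp_mem_aux {e b r b₁ : ℕ} {g : PR j} (hg : IsWeightedHomogeneous (wt3 j) g (r, b₁, 0))
    (hJ : InJ j b₁ g) (hb : b₁ ≤ e) (he : e ≤ b) {m : PR j} {p : ℕ × ℕ}
    (hm : m ∈ AY j ^ p.1 * AZ j ^ p.2) (h : (b, 0) = p + (b₁, 0)) :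
    m * g ∈ AY j ^ (b - e) * JJ j e := by
  have h2 : p.1 = (b - e) + (e - b₁) := by
    have := fst_eq h
    omega
  have h3 : m ∈ AY j ^ (b - e) * AY j ^ (e - b₁) := by
    rw [← pow_add, ← h2]
    exact (Ideal.mul_le_left : AY j ^ p.1 * AZ j ^ p.2 ≤ AY j ^ p.1) hm
  have h4 : m * g ∈ (AY j ^ (b - e) * AY j ^ (e - b₁)) * Ideal.span {g} :=
    Ideal.mul_mem_mul h3 (Ideal.mem_span_singleton_self g)
  rw [mul_assoc] at h4
  have h5 : AY j ^ (e - b₁) * Ideal.span {g} ≤ JJ j e := by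
    rw [Ideal.mul_le]
    intro f hf g' hg'
    obtain ⟨c, rfl⟩ := Ideal.mem_span_singleton'.1 hg'
    have : f * (c * g) = c * (f * g) := by ring
    rw [this]
    exact Ideal.mul_mem_left _ _ (AY_mul_mem hg hJ hb hf)
  exact (Ideal.mul_mono le_rfl h5 :
    AY j ^ (b - e) * (AY j ^ (e - b₁) * Ideal.span {g}) ≤ AY j ^ (b - e) * JJ j e) h4

theorem comp_mem {e b r b₁ : ℕ} {g : PR j} (hg : IsWeightedHomogeneous (wt3 j) g (r, b₁, 0))
    (hJ : InJ j b₁ g) (hb : b₁ ≤ e) (he : e ≤ b) (f : PR j) :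
    wc (b, 0) (f * g) ∈ AY j ^ (b - e) * JJ j e := by
  induction f using MvPolynomial.induction_on' with
  | monomial d a =>
    rcases zmod2 a with rfl | rfl
    · rw [monomial_zero, zero_mul, wc, map_zero]
      exact zero_mem _
    · have hm : IsWeightedHomogeneous (wt2 j) (monomial d 1 : PR j) (Finsupp.weight (wt2 j) d) :=
        isWeightedHomogeneous_monomial _ _ _ rfl
      rw [wc_of_hom (hm.mul (hom23 hg))]
      split_ifs with h
      · exact comp_mem_aux hg hJ hb he (mono_mem d) h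
      · exact zero_mem _
  | add p q hp hq =>
    rw [add_mul, wc, map_add]
    exact add_mem hp hq

theorem exists_e₀ (j : ℕ) : ∃ e₀ : ℕ, ∀ e ≥ e₀, ∀ b, e ≤ b → ∀ g : PR j,
    IsWeightedHomogeneous (wt2 j) g (b, 0) → InJ j b g → g ∈ AY j ^ (b - e) * JJ j e := by
  classical
  have hfg : (Submodule.span (PR j) (SJ j)).FG := IsNoetherian.noetherian _
  rw [Submodule.fg_span_iff_fg_span_finset_subset] at hfg
  obtain ⟨s, hs, hspan⟩ := hfg
  choose! r b hb hJ using hs
  refine ⟨s.sup b, fun e he b' hb' g hg hJg => ?_⟩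
  have h1 : g ∈ Submodule.span (PR j) (SJ j) := mem_span_SJ hg hJg
  rw [hspan, Submodule.mem_span_finset] at h1
  obtain ⟨f, -, hf⟩ := h1
  have h2 : g = ∑ a ∈ s, wc (b', 0) (f a * a) := by
    rw [← map_sum]
    have : ∑ a ∈ s, f a * a = g := hf
    rw [this]
    exact hg.weightedHomogeneousComponent_same.symm
  rw [h2]
  refine sum_mem fun a ha => ?_
  exact comp_mem (hb ha) (hJ ha) ((Finset.le_sup ha).trans he) hb' _

theorem XJJ_le (e : ℕ) : AZ j * JJ j e ≤ II j e := by
  unfold AZ JJ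
  rw [Ideal.span_mul_span', Ideal.span_le]
  rintro _ ⟨a, ha, g, ⟨r, hg, hJ⟩, rfl⟩
  rw [Set.mem_singleton_iff] at ha
  subst ha
  refine Ideal.subset_span (Or.inl (Or.inr ⟨r, ?_, ?_⟩))
  · have := (isWeightedHomogeneous_X (ZMod 2) (wt3 j) V.z).mul hg
    simpa [wt3] using this
  · obtain ⟨φ, h1, h2⟩ := hJ
    refine ⟨φ, h1, ?_⟩
    have := Psi_z 1 g
    rw [pow_one] at this
    show Psi j (X V.z * g) = _
    rw [this, h2]

/-- division by a power of `z` -/
theorem exists_div {b k : ℕ} {g : PR j} (hg : IsWeightedHomogeneous (wt2 j) g (b, k)) :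
    ∃ g', g = X V.z ^ k * g' ∧ IsWeightedHomogeneous (wt2 j) g' (b, 0) := by
  have h0 := hom_mem hg
  have h1 : g ∈ AZ j ^ k := (Ideal.mul_le_right : AY j ^ b * AZ j ^ k ≤ AZ j ^ k) h0
  have hAZ : AZ j ^ k = Ideal.span {(X V.z ^ k : PR j)} := by
    unfold AZ
    rw [Ideal.span_singleton_pow]
  rw [hAZ, Ideal.mem_span_singleton] at h1
  obtain ⟨g', rfl⟩ := h1
  refine ⟨g', rfl, ?_⟩
  intro d hd
  have h2 : coeff (Finsupp.single V.z k + d) (X V.z ^ k * g') ≠ 0 := by
    rw [X_pow_eq_monomial, coeff_monomial_mul, one_mul]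
    exact hd
  have h3 := hg h2
  rw [map_add, Finsupp.weight_single] at h3
  have h4 : k • wt2 j V.z = (0, k) := by simp [wt2]
  rw [h4] at h3
  generalize (Finsupp.weight (wt2 j)) d = p at h3
  obtain ⟨x, y⟩ := p
  rw [Prod.mk_add_mk, Prod.mk.injEq] at h3
  rw [Prod.mk.injEq]
  omega

end T9

theorem II_dead (j e n b k : ℕ) (he : 1 ≤ e) (g : PR j)
    (hg : MvPolynomial.IsWeightedHomogeneous (wt2 j) g (b, k))
    (h : 2 * n ≤ k ∨ 2 * e * n ≤ b + 2 * e * (k / 2)) : g ∈ II j e ^ n :=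
  T9.AYZ_le he h (T9.hom_mem hg)

theorem II_J (j : ℕ) : ∃ e₀ : ℕ, ∀ e ≥ e₀, ∀ n b c : ℕ, 2 * c + 1 < 2 * n →
    2 * e * n ≤ b + e * (2 * c + 1) → ∀ g : PR j,
    MvPolynomial.IsWeightedHomogeneous (wt2 j) g (b, 2 * c + 1) → InJ j b g → g ∈ II j e ^ n := by
  obtain ⟨e₀, he₀⟩ := T9.exists_e₀ j
  refine ⟨e₀, fun e he n b c hc hb g hg hJ => ?_⟩
  obtain ⟨g', rfl, hg'⟩ := T9.exists_div hg
  have hJ' : InJ j b g' := by
    obtain ⟨φ, h1, h2⟩ := hJ
    exact ⟨φ, h1, by rw [← h2, T9.Psi_z]⟩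
  obtain ⟨m, rfl⟩ : ∃ m, n = c + m + 1 := ⟨n - c - 1, by omega⟩
  have h1 : e + 2 * e * m ≤ b := by
    have e1 : 2 * e * (c + m + 1) = 2 * e * c + 2 * e * m + 2 * e := by ring
    have e2 : e * (2 * c + 1) = 2 * e * c + e := by ring
    rw [e1, e2] at hb
    omega
  have h2 := he₀ e he b (by omega) g' hg' hJ'
  have h3 : (MvPolynomial.X V.z : PR j) ^ (2 * c + 1) * g' ∈
      (T9.AZ j ^ 2) ^ c * (T9.AZ j * (T9.AY j ^ (b - e) * T9.JJ j e)) := by
    have e0 : (MvPolynomial.X V.z : PR j) ^ (2 * c + 1) * g' =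
      ((MvPolynomial.X V.z : PR j) ^ 2) ^ c * (MvPolynomial.X V.z * g') := by ring
    rw [e0]
    have hz : (MvPolynomial.X V.z : PR j) ∈ T9.AZ j := Ideal.subset_span rfl
    exact Ideal.mul_mem_mul (Ideal.pow_mem_pow (Ideal.pow_mem_pow hz 2) c)
      (Ideal.mul_mem_mul hz h2)
  have h4 : T9.AY j ^ (b - e) ≤ II j e ^ m := by
    refine (Ideal.pow_le_pow_right (show 2 * e * m ≤ b - e by omega)).trans ?_
    rw [pow_mul]
    exact Ideal.pow_right_mono (T9.AY_le e) _
  have h5 : (T9.AZ j ^ 2) ^ c * (T9.AZ j * (T9.AY j ^ (b - e) * T9.JJ j e)) ≤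
      II j e ^ (c + m + 1) := by
    have e1 : T9.AZ j * (T9.AY j ^ (b - e) * T9.JJ j e) =
      T9.AY j ^ (b - e) * (T9.AZ j * T9.JJ j e) := by ring
    rw [e1, pow_add, pow_add, pow_one, mul_assoc]
    exact Ideal.mul_mono (Ideal.pow_right_mono (T9.AZ_le e) _)
      (Ideal.mul_mono h4 (T9.XJJ_le e))
  exact h5 h3

theorem II_comp (j e n b k : ℕ) (f : PR j) (hf : f ∈ II j e ^ n) :
    (b + e * k < 2 * e * n → MvPolynomial.weightedHomogeneousComponent (wt2 j) (b, k) f = 0) ∧
    (k % 2 = 1 → b + e * k < 2 * e * n + e →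
      InJ j b (MvPolynomial.weightedHomogeneousComponent (wt2 j) (b, k) f)) :=
  T9.II_pow_le e n hf b k

end Pool.Agent.N165.LC
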