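import Pool.Agent.N165.LC.T2
import Pool.Agent.N165.LC.T9
import Pool.Agent.N165.LC.T8

/-! Further definitions: the components of `R` as modules over the polynomial ring in the
`x`-variables. -/

namespace Pool.Agent.N165.LC

open MvPolynomial

theorem two_PR {j : ℕ} (I : Ideal (PR j)) (x : PR j ⧸ I) : x + x = 0 := by
  obtain ⟨x, rfl⟩ := Ideal.Quotient.mk_surjective x
  rw [← map_add, CharTwo.add_self_eq_zero, map_zero]

theorem two_Eb' {j : ℕ} {b : ℤ} (x : Eb j b) : x + x = 0 := by
  obtain ⟨x, rfl⟩ := Submodule.mkQ_surjective _ x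
  rw [← map_add, show x + x = 0 from ?_, map_zero]
  apply Subtype.ext
  apply AddMonoidAlgebra.ext
  ext μ
  have : ∀ z : ZMod 2, z + z = 0 := by decide
  exact this ((x : Lam j).coeff μ)

/-- The `x`-variables of `R`. -/
noncomputable def xP (j : ℕ) (i : XT j) : PR j := X (inX i)

/-- The subring of polynomials in the `x`-variables. -/
noncomputable def R00 (j : ℕ) : Subring (PR j) where
  carrier := {f | IsWeightedHomogeneous (wt2 j) f 0}
  zero_mem' := isWeightedHomogeneous_zero _ _ _
  one_mem' := isWeightedHomogeneous_one _ _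
  add_mem' := fun hx hy => IsWeightedHomogeneous.add hx hy
  neg_mem' := fun {x} hx => by
    show IsWeightedHomogeneous (wt2 j) (-x) 0
    rw [CharTwo.neg_eq]
    exact hx
  mul_mem' := fun {x y} hx hy => by
    have := IsWeightedHomogeneous.mul hx hy
    rwa [add_zero] at this

/-- The `(b,k)`-component of `R` as a module over the polynomial ring in the `x`-variables. -/
noncomputable def NN (j : ℕ) (m : ℕ × ℕ) : Submodule (R00 j) (PR j) where
  carrier := {f | IsWeightedHomogeneous (wt2 j) f m}
  zero_mem' := isWeightedHomogeneous_zero _ _ _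
  add_mem' := fun hx hy => IsWeightedHomogeneous.add hx hy
  smul_mem' := fun c x hx => by
    have := IsWeightedHomogeneous.mul c.2 hx
    rwa [zero_add] at this

theorem two_NN {j : ℕ} {m : ℕ × ℕ} (x : NN j m) : x + x = 0 :=
  Subtype.ext (CharTwo.add_self_eq_zero (x : PR j))

/-- The `x`-variables as elements of `R00`. -/
noncomputable def xR (j : ℕ) (i : XT j) : R00 j := ⟨X (inX i), by
  have h := isWeightedHomogeneous_X (ZMod 2) (wt2 j) (inX i)
  cases i <;> exact h⟩

end Pool.Agent.N165.LC
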