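import Pool.Agent.N165.LC.T3
import Pool.Agent.N165.LC.Defs2

/-!
The nilpotent variables can be dropped from the Čech complex of `R/I^n`.
-/

namespace Pool.Agent.N165.LC

open Pool.Agent.N165 MvPolynomial

variable {j : ℕ}

theorem X_nil (e n : ℕ) (he : 1 ≤ e) (i : V j) (hi : ∀ k, inX k ≠ i) :
    ∃ N : ℕ, ∀ m : PR j ⧸ II j e ^ n, (X i : PR j) ^ N • m = 0 := by
  have key : ∃ N, (X i : PR j) ^ N ∈ II j e ^ n := by
    cases i with
    | th i => exact absurd rfl (hi (.th i))
    | x p q r => exact absurd rfl (hi (.uvs p q r))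
    | y p t r =>
      refine ⟨2 * e * n, II_dead j e n (2 * e * n) 0 he _ ?_ (Or.inr (by simp))⟩
      have h := (isWeightedHomogeneous_X (ZMod 2) (wt2 j) (V.y p t r)).pow (2 * e * n)
      have e1 : (2 * e * n) • wt2 j (V.y p t r) = (2 * e * n, 0) := by
        show (2 * e * n) • ((1 : ℕ), (0 : ℕ)) = _
        rw [Prod.smul_mk]
        simp
      rwa [e1] at h
    | z =>
      refine ⟨2 * n, II_dead j e n 0 (2 * n) he _ ?_ (Or.inl le_rfl)⟩
      have h := (isWeightedHomogeneous_X (ZMod 2) (wt2 j) (V.z : V j)).pow (2 * n)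
      have e1 : (2 * n) • wt2 j (V.z : V j) = (0, 2 * n) := by
        show (2 * n) • ((0 : ℕ), (1 : ℕ)) = _
        rw [Prod.smul_mk]
        simp
      rwa [e1] at h
  obtain ⟨N, hN⟩ := key
  refine ⟨N, fun m => ?_⟩
  obtain ⟨m, rfl⟩ := Ideal.Quotient.mk_surjective m
  rw [← Ideal.Quotient.mk_eq_mk, ← Submodule.Quotient.mk_smul, Submodule.Quotient.mk_eq_zero,
    smul_eq_mul]
  exact Ideal.mul_mem_right _ _ hN

theorem nil_equiv [DecidableEq (V j)] (e n : ℕ) (he : 1 ≤ e) (p : ℕ) :
    Nonempty ((LocP (X : V j → PR j) (PR j ⧸ II j e ^ n) (two_PR _)).H p ≃+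
      (LocP (xP j) (PR j ⧸ II j e ^ n) (two_PR _)).H p) := by
  classical
  apply LocP_indep
  · intro i
    by_cases hi : ∃ k, inX k = i
    · obtain ⟨k, rfl⟩ := hi
      refine ⟨1, Pi.single k 1, fun m => ?_⟩
      rw [Finset.sum_eq_single k]
      · rw [Pi.single_eq_same, one_mul, pow_one]
        rfl
      · intro k' _ hk'
        rw [Pi.single_eq_of_ne hk', zero_mul, zero_smul]
      · intro h
        exact absurd (Finset.mem_univ _) h
    · push Not at hi
      obtain ⟨N, hN⟩ := X_nil e n he i hi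
      refine ⟨N, 0, fun m => ?_⟩
      rw [hN]
      symm
      refine Finset.sum_eq_zero fun k _ => ?_
      rw [Pi.zero_apply, zero_mul, zero_smul]
  · intro k
    refine ⟨1, Pi.single (inX k) 1, fun m => ?_⟩
    rw [Finset.sum_eq_single (inX k)]
    · rw [Pi.single_eq_same, one_mul, pow_one]
      rfl
    · intro k' _ hk'
      rw [Pi.single_eq_of_ne hk', zero_mul, zero_smul]
    · intro h
      exact absurd (Finset.mem_univ _) h

end Pool.Agent.N165.LC
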