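import Pool.Agent.N165.LC.T3
import Pool.Agent.N165.LC.Defs2

/-!
The families `xT` and `xM` generate ideals with the same radical.
-/

namespace Pool.Agent.N165.LC

section ring

variable {B : Type} [CommRing B] (h2 : ∀ x : B, x + x = 0) (A C θ : ℕ → B)
  (hAC : ∀ i l, A i * C l = C i * A l) (h0 : θ 0 = A 0) (hs : ∀ i, θ (i + 1) = A (i + 1) + C i)

include h2 hAC h0 hs in
theorem tele (l k : ℕ) (hk : k ≤ l) :
    ∑ i ∈ Finset.range (k + 1), θ i * (A l ^ i * C l ^ (l - i)) =
      A k * (A l ^ k * C l ^ (l - k)) := by
  induction k with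
  | zero => simp [h0]
  | succ k ih =>
    rw [Finset.sum_range_succ, ih (by omega), hs]
    have e1 : l - k = (l - (k + 1)) + 1 := by omega
    have e2 : A k * (A l ^ k * C l ^ (l - k)) = C k * (A l ^ (k + 1) * C l ^ (l - (k + 1))) := by
      rw [e1]
      calc A k * (A l ^ k * C l ^ (l - (k + 1) + 1)) =
          (A k * C l) * (A l ^ k * C l ^ (l - (k + 1))) := by ring
        _ = (C k * A l) * (A l ^ k * C l ^ (l - (k + 1))) := by rw [hAC]
        _ = _ := by ring
    rw [e2, add_mul, add_left_comm, h2, add_zero]

include h2 hAC h0 hs in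
theorem pow_mem (l : ℕ) (I : Ideal B) (hI : ∀ i ≤ l, θ i ∈ I) : A l ^ (l + 1) ∈ I := by
  have h := tele h2 A C θ hAC h0 hs l l le_rfl
  have e : A l ^ (l + 1) = A l * (A l ^ l * C l ^ (l - l)) := by
    rw [Nat.sub_self, pow_zero, mul_one, pow_succ']
  rw [e, ← h]
  refine sum_mem fun i hi => ?_
  exact I.mul_mem_right _ (hI i (by
    have := Finset.mem_range.1 hi
    omega))

end ring

variable {j : ℕ}

theorem two_BR (x : BR j) : x + x = 0 := by
  apply Subtype.ext
  apply AddMonoidAlgebra.ext
  ext μ
  have : ∀ z : ZMod 2, z + z = 0 := by decide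
  exact this ((x : Lam j).coeff μ)

/-- `u_p a_i`, extended by zero -/
noncomputable def AA (j : ℕ) (p : Fin 2) (i : ℕ) : BR j :=
  if h : i < j + 1 then xM j (.ua p ⟨i, h⟩) else 0

theorem AA_of_lt {p : Fin 2} (l : Fin (j + 1)) : AA j p l = xM j (.ua p l) := by
  unfold AA
  rw [dif_pos l.2]

theorem AA_comm (i l : ℕ) : AA j 0 i * AA j 1 l = AA j 1 i * AA j 0 l := by
  unfold AA
  by_cases hi : i < j + 1
  · by_cases hl : l < j + 1
    · rw [dif_pos hi, dif_pos hl, dif_pos hi, dif_pos hl]
      apply Subtype.ext
      show (AddMonoidAlgebra.single _ 1 : Lam j) * AddMonoidAlgebra.single _ 1 =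
        AddMonoidAlgebra.single _ 1 * AddMonoidAlgebra.single _ 1
      rw [AddMonoidAlgebra.single_mul_single, AddMonoidAlgebra.single_mul_single]
      congr 1
      funext w
      simp only [chi, Pi.add_apply]
      ring
    · rw [dif_neg hl, dif_neg hl, mul_zero, mul_zero]
  · rw [dif_neg hi, dif_neg hi, zero_mul, zero_mul]

/-- `θ_i`, extended by zero -/
noncomputable def TT (j : ℕ) (i : ℕ) : BR j :=
  AA j 0 i + if i = 0 then 0 else AA j 1 (i - 1)

theorem TT_eq (i : Fin (j + 2)) : TT j i = xT j (.th i) := by
  unfold TT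
  show _ = ∑ p : Fin 2, ∑ l : Fin (j + 1),
    if (p : ℕ) + (l : ℕ) = i then xM j (.ua p l) else 0
  rw [Fin.sum_univ_two]
  congr 1
  · by_cases h : (i : ℕ) < j + 1
    · rw [Finset.sum_eq_single (⟨i, h⟩ : Fin (j + 1))]
      · unfold AA
        rw [dif_pos h, if_pos (by simp)]
      · intro l _ hl
        rw [if_neg]
        intro h'
        apply hl
        apply Fin.ext
        simpa using h'
      · intro h'
        exact absurd (Finset.mem_univ _) h'
    · unfold AA
      rw [dif_neg h]
      symm
      refine Finset.sum_eq_zero fun l _ => ?_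
      rw [if_neg]
      intro h'
      have := l.2
      have h'' : (l : ℕ) = i := by simpa using h'
      omega
  · by_cases h0 : (i : ℕ) = 0
    · rw [if_pos h0]
      symm
      refine Finset.sum_eq_zero fun l _ => ?_
      rw [if_neg]
      rw [h0]
      simp
    · rw [if_neg h0]
      have hlt : (i : ℕ) - 1 < j + 1 := by
        have := i.2
        omega
      rw [Finset.sum_eq_single (⟨(i : ℕ) - 1, hlt⟩ : Fin (j + 1))]
      · unfold AA
        rw [dif_pos hlt, if_pos]
        show 1 + ((i : ℕ) - 1) = i
        omega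
      · intro l _ hl
        rw [if_neg]
        intro h'
        apply hl
        apply Fin.ext
        show (l : ℕ) = i - 1
        have h'' : 1 + (l : ℕ) = i := h'
        omega
      · intro h'
        exact absurd (Finset.mem_univ _) h'

theorem xT_mem (i : XT j) : xT j i ∈ Ideal.span (Set.range (xM j)) := by
  cases i with
  | th i =>
    unfold xT
    refine sum_mem fun p _ => sum_mem fun l _ => ?_
    split_ifs
    · exact Ideal.subset_span ⟨_, rfl⟩
    · exact zero_mem _
  | uvs p q r => exact Ideal.subset_span ⟨_, rfl⟩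

theorem TT_mem (i : ℕ) (hi : i ≤ j + 1) : TT j i ∈ Ideal.span (Set.range (xT j)) := by
  have := TT_eq (j := j) ⟨i, by omega⟩
  rw [show TT j i = xT j (.th ⟨i, by omega⟩) from this]
  exact Ideal.subset_span ⟨_, rfl⟩

theorem xM_mem (i : XM j) : ∃ N : ℕ, xM j i ^ N ∈ Ideal.span (Set.range (xT j)) := by
  cases i with
  | uvs p q r =>
    refine ⟨1, ?_⟩
    rw [pow_one]
    exact Ideal.subset_span ⟨.uvs p q r, rfl⟩
  | ua p l =>
    have hp : p = 0 ∨ p = 1 := by
      fin_cases p
      · exact Or.inl rfl
      · exact Or.inr rfl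
    rcases hp with rfl | rfl
    · refine ⟨l + 1, ?_⟩
      rw [← AA_of_lt]
      refine pow_mem two_BR (AA j 0) (AA j 1) (TT j) AA_comm ?_ ?_ l _ ?_
      · unfold TT
        rw [if_pos rfl, add_zero]
      · intro i
        unfold TT
        rw [if_neg (Nat.succ_ne_zero i), Nat.add_sub_cancel]
      · intro i hi
        apply TT_mem
        have := l.2
        omega
    · -- reversed family
      refine ⟨(j - l) + 1, ?_⟩
      rw [← AA_of_lt]
      let A' : ℕ → BR j := fun i => if i ≤ j then AA j 1 (j - i) else 0
      let C' : ℕ → BR j := fun i => if i ≤ j then AA j 0 (j - i) else 0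
      let T' : ℕ → BR j := fun i => A' i + if i = 0 then 0 else C' (i - 1)
      have hl : (l : ℕ) ≤ j := by
        have := l.2
        omega
      have e1 : AA j 1 l = A' (j - l) := by
        show _ = if j - (l : ℕ) ≤ j then AA j 1 (j - (j - l)) else 0
        rw [if_pos (Nat.sub_le _ _), Nat.sub_sub_self hl]
      rw [e1]
      refine pow_mem two_BR A' C' T' ?_ ?_ ?_ (j - l) _ ?_
      · intro i k
        show (if i ≤ j then AA j 1 (j - i) else 0) * (if k ≤ j then AA j 0 (j - k) else 0) =
          (if i ≤ j then AA j 0 (j - i) else 0) * (if k ≤ j then AA j 1 (j - k) else 0)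
        split_ifs
        · exact (AA_comm _ _).symm
        all_goals simp
      · show A' 0 + (if (0 : ℕ) = 0 then 0 else C' (0 - 1)) = A' 0
        rw [if_pos rfl, add_zero]
      · intro i
        show A' (i + 1) + (if i + 1 = 0 then 0 else C' (i + 1 - 1)) = _
        rw [if_neg (Nat.succ_ne_zero i), Nat.add_sub_cancel]
      · intro i hi
        have hij : i ≤ j := by omega
        have e2 : T' i = TT j (j + 1 - i) := by
          show A' i + (if i = 0 then 0 else C' (i - 1)) = _
          unfold TT
          rw [add_comm, if_neg (show ¬ j + 1 - i = 0 by omega)]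
          congr 1
          · by_cases h0 : i = 0
            · rw [if_pos h0, h0]
              unfold AA
              rw [dif_neg (by omega)]
            · rw [if_neg h0]
              show (if i - 1 ≤ j then AA j 0 (j - (i - 1)) else 0) = _
              rw [if_pos (by omega)]
              congr 1
              omega
          · show (if i ≤ j then AA j 1 (j - i) else 0) = _
            rw [if_pos hij]
            congr 1
            omega
        rw [e2]
        exact TT_mem _ (by omega)

/-- The `θ`-family and the monomial family have the same Čech cohomology. -/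
theorem xT_xM_equiv (M : Type) [AddCommGroup M] [Module (BR j) M] (h2 : ∀ m : M, m + m = 0)
    (p : ℕ) : Nonempty ((LocP (xT j) M h2).H p ≃+ (LocP (xM j) M h2).H p) := by
  apply LocP_indep
  · intro i
    obtain ⟨r, hr⟩ := (Ideal.mem_span_range_iff_exists_fun).1 (xT_mem i)
    refine ⟨1, r, fun m => ?_⟩
    rw [pow_one, ← Finset.sum_smul, hr]
  · intro i
    obtain ⟨N, hN⟩ := xM_mem i
    obtain ⟨r, hr⟩ := (Ideal.mem_span_range_iff_exists_fun).1 hN
    refine ⟨N, r, fun m => ?_⟩
    rw [← Finset.sum_smul, hr]

end Pool.Agent.N165.LC
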