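import Pool.Agent.N165.LC.T2

/-!
The Laurent model of the Čech presheaf of a monomial module.
-/

namespace Pool.Agent.N165.LC

open AddMonoidAlgebra (single)

section

variable {ι : Type} [DecidableEq ι] {Wt : Type}

theorem famD_apply {X : Type} [DecidableEq X] (c : Finset X → ZMod 2) (τ : Finset X) :
    famD c τ = ∑ x ∈ τ, c (τ.erase x) := rfl

/-- The underlying Laurent polynomial. -/
noncomputable def LPval {χ : ι → Wt → ℤ} {𝓜 : Set (Wt → ℤ)} {σ : Finset ι} :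
    (LP χ 𝓜).G σ →+ LR Wt := (LM χ 𝓜 σ).subtype

/-- Make an element from a Laurent polynomial. -/
def LPmk {χ : ι → Wt → ℤ} {𝓜 : Set (Wt → ℤ)} {σ : Finset ι} (g : LR Wt) (hg : g ∈ LM χ 𝓜 σ) :
    (LP χ 𝓜).G σ := (⟨g, hg⟩ : LM χ 𝓜 σ)

@[simp] theorem LPval_mk {χ : ι → Wt → ℤ} {𝓜 : Set (Wt → ℤ)} {σ : Finset ι} (g : LR Wt)
    (hg : g ∈ LM χ 𝓜 σ) : LPval (LPmk g hg) = g := rfl

theorem LPval_mem {χ : ι → Wt → ℤ} {𝓜 : Set (Wt → ℤ)} {σ : Finset ι} (x : (LP χ 𝓜).G σ) :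
    LPval x ∈ LM χ 𝓜 σ := (show LM χ 𝓜 σ from x).2

theorem LPval_inj {χ : ι → Wt → ℤ} {𝓜 : Set (Wt → ℤ)} {σ : Finset ι} {x y : (LP χ 𝓜).G σ}
    (h : LPval x = LPval y) : x = y := Subtype.ext h

@[simp] theorem LPval_res {χ : ι → Wt → ℤ} {𝓜 : Set (Wt → ℤ)} {σ τ : Finset ι} (h : σ ⊆ τ)
    (x : (LP χ 𝓜).G σ) : LPval ((LP χ 𝓜).res h x) = LPval x := rfl

/-- The component of a cochain at an exponent. -/
noncomputable def cmp {χ : ι → Wt → ℤ} {𝓜 : Set (Wt → ℤ)} (μ : Wt → ℤ) (c : (LP χ 𝓜).C) :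
    Finset ι → ZMod 2 := fun σ => (LPval (c σ)).coeff μ

theorem cmp_apply {χ : ι → Wt → ℤ} {𝓜 : Set (Wt → ℤ)} (μ : Wt → ℤ) (c : (LP χ 𝓜).C)
    (σ : Finset ι) : cmp μ c σ = (LPval (c σ)).coeff μ := rfl

theorem cmp_mem {χ : ι → Wt → ℤ} {𝓜 : Set (Wt → ℤ)} (μ : Wt → ℤ) {p : ℕ} {c : (LP χ 𝓜).C}
    (hc : c ∈ (LP χ 𝓜).Cp p) : cmp μ c ∈ FamC (Covers χ μ) p := by
  intro σ hσ
  by_cases h : σ.card = p
  · by_contra hne
    exact hσ ⟨(LPval_mem (c σ) μ hne).2, h⟩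
  · rw [cmp_apply, hc σ h, map_zero]
    rfl

theorem cmp_d {χ : ι → Wt → ℤ} {𝓜 : Set (Wt → ℤ)} (μ : Wt → ℤ) (c : (LP χ 𝓜).C) :
    cmp μ ((LP χ 𝓜).d c) = famD (cmp μ c) := by
  funext τ
  rw [famD_apply, cmp_apply, BP.d_apply, map_sum, AddMonoidAlgebra.coeff_sum,
    Finsupp.finsetSum_apply]
  rfl

theorem cmp_zero {χ : ι → Wt → ℤ} {𝓜 : Set (Wt → ℤ)} (μ : Wt → ℤ) :
    cmp μ (0 : (LP χ 𝓜).C) = 0 := by
  funext σ
  rw [cmp_apply]
  show (LPval (0 : (LP χ 𝓜).G σ)).coeff μ = 0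
  rw [map_zero]
  rfl

theorem cmp_add {χ : ι → Wt → ℤ} {𝓜 : Set (Wt → ℤ)} (μ : Wt → ℤ) (c c' : (LP χ 𝓜).C) :
    cmp μ (c + c') = cmp μ c + cmp μ c' := by
  funext σ
  rw [cmp_apply]
  show (LPval (c σ + c' σ)).coeff μ = _
  rw [map_add]
  rfl

theorem cmp_ext {χ : ι → Wt → ℤ} {𝓜 : Set (Wt → ℤ)} {c c' : (LP χ 𝓜).C}
    (h : ∀ μ, cmp μ c = cmp μ c') : c = c' := by
  funext σ
  apply LPval_inj
  apply AddMonoidAlgebra.ext
  ext μ
  exact congrFun (h μ) σ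

/-- Construct a cochain from components. -/
theorem LP_build (χ : ι → Wt → ℤ) (𝓜 : Set (Wt → ℤ)) (q : ℕ) (S : Finset (Wt → ℤ))
    (hS : ∀ μ ∈ S, μ ∈ 𝓜) (b : (Wt → ℤ) → Finset ι → ZMod 2)
    (hb : ∀ μ ∈ S, b μ ∈ FamC (Covers χ μ) q) :
    ∃ B ∈ (LP χ 𝓜).Cp q, ∀ μ, (μ ∈ S → cmp μ B = b μ) ∧ (μ ∉ S → cmp μ B = 0) := by
  classical
  have hcoeff : ∀ (σ : Finset ι) (μ : Wt → ℤ),
      (∑ ν ∈ S, (single ν (b ν σ) : LR Wt)).coeff μ = if μ ∈ S then b μ σ else 0 := by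
    intro σ μ
    rw [AddMonoidAlgebra.coeff_sum, Finsupp.finsetSum_apply]
    simp only [AddMonoidAlgebra.coeff_single, Finsupp.single_apply]
    rw [Finset.sum_ite_eq']
  have hmem : ∀ σ : Finset ι, (∑ ν ∈ S, (single ν (b ν σ) : LR Wt)) ∈ LM χ 𝓜 σ := by
    intro σ μ hμ
    rw [hcoeff] at hμ
    by_cases h : μ ∈ S
    · rw [if_pos h] at hμ
      refine ⟨hS μ h, ?_⟩
      by_contra hcov
      exact hμ (hb μ h σ fun h' => hcov h'.1)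
    · rw [if_neg h] at hμ
      exact absurd rfl hμ
  refine ⟨fun σ => LPmk _ (hmem σ), ?_, ?_⟩
  · intro σ hσ
    apply LPval_inj
    apply AddMonoidAlgebra.ext
    ext μ
    rw [LPval_mk, map_zero, hcoeff]
    show _ = (0 : ZMod 2)
    split_ifs with h
    · exact hb μ h σ fun h' => hσ h'.2
    · rfl
  · intro μ
    constructor
    · intro h
      funext σ
      rw [cmp_apply, LPval_mk, hcoeff, if_pos h]
    · intro h
      funext σ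
      rw [cmp_apply, LPval_mk, hcoeff, if_neg h]
      rfl

/-- The finite set of exponents of a cochain. -/
theorem exists_supp [Fintype ι] {χ : ι → Wt → ℤ} {𝓜 : Set (Wt → ℤ)} (c : (LP χ 𝓜).C) :
    ∃ S : Finset (Wt → ℤ), ∀ μ, μ ∈ S ↔ ∃ σ, cmp μ c σ ≠ 0 := by
  classical
  refine ⟨Finset.univ.biUnion fun σ : Finset ι => (LPval (c σ)).coeff.support, ?_⟩
  intro μ
  rw [Finset.mem_biUnion]
  constructor
  · rintro ⟨σ, -, h⟩
    exact ⟨σ, Finsupp.mem_support_iff.1 h⟩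
  · rintro ⟨σ, h⟩
    exact ⟨σ, Finset.mem_univ _, Finsupp.mem_support_iff.2 h⟩

theorem mem_of_cmp {χ : ι → Wt → ℤ} {𝓜 : Set (Wt → ℤ)} {c : (LP χ 𝓜).C} {μ : Wt → ℤ}
    {σ : Finset ι} (h : cmp μ c σ ≠ 0) : μ ∈ 𝓜 := (LPval_mem (c σ) μ h).1

/-- Solve `d b = c` componentwise, with control of the support. -/
theorem LP_solve [Fintype ι] {χ : ι → Wt → ℤ} {𝓜 : Set (Wt → ℤ)} {q : ℕ} (c : (LP χ 𝓜).C)
    (h : ∀ μ, μ ∈ 𝓜 → cmp μ c ≠ 0 → ∃ b ∈ FamC (Covers χ μ) q, famD b = cmp μ c) :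
    ∃ b ∈ (LP χ 𝓜).Cp q, (LP χ 𝓜).d b = c ∧ ∀ μ, cmp μ c = 0 → cmp μ b = 0 := by
  classical
  obtain ⟨S, hS⟩ := exists_supp c
  have hS' : ∀ μ, μ ∉ S → cmp μ c = 0 := by
    intro μ hμ
    by_contra hne
    apply hμ
    rw [hS]
    by_contra hall
    push Not at hall
    exact hne (funext hall)
  have hS'' : ∀ μ, cmp μ c = 0 → μ ∉ S := by
    intro μ hμ hmem
    obtain ⟨σ, hσ⟩ := (hS μ).1 hmem
    rw [hμ] at hσ
    exact hσ rfl
  have hM : ∀ μ ∈ S, μ ∈ 𝓜 := fun μ hμ => by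
    obtain ⟨σ, hσ⟩ := (hS μ).1 hμ
    exact mem_of_cmp hσ
  have hex : ∀ μ, ∃ b : Finset ι → ZMod 2, μ ∈ S → b ∈ FamC (Covers χ μ) q ∧ famD b = cmp μ c := by
    intro μ
    by_cases hμ : μ ∈ S
    · obtain ⟨b, hb, hb'⟩ := h μ (hM μ hμ) (fun h0 => hS'' μ h0 hμ)
      exact ⟨b, fun _ => ⟨hb, hb'⟩⟩
    · exact ⟨0, fun h => absurd h hμ⟩
  choose b hb using hex
  obtain ⟨B, hB, hB'⟩ := LP_build χ 𝓜 q S hM b (fun μ hμ => (hb μ hμ).1)
  refine ⟨B, hB, ?_, ?_⟩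
  · apply cmp_ext
    intro μ
    rw [cmp_d]
    by_cases hμ : μ ∈ S
    · rw [(hB' μ).1 hμ, (hb μ hμ).2]
    · rw [(hB' μ).2 hμ, hS' μ hμ, map_zero]
  · intro μ hμ
    exact (hB' μ).2 (hS'' μ hμ)

/-- Exactness of the Laurent presheaf from the exactness of the covering families. -/
theorem LP_exact [Fintype ι] (χ : ι → Wt → ℤ) (𝓜 : Set (Wt → ℤ)) (p : ℕ)
    (h : ∀ μ ∈ 𝓜, FamExact (Covers χ μ) p) : (LP χ 𝓜).Z p ≤ (LP χ 𝓜).B p := by
  intro c hc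
  have hcmp : ∀ μ, cmp μ c ∈ FamC (Covers χ μ) p := fun μ => cmp_mem μ hc.1
  have hd : ∀ μ, famD (cmp μ c) = 0 := by
    intro μ
    rw [← cmp_d, show (LP χ 𝓜).d c = 0 from hc.2, cmp_zero]
  cases p with
  | zero =>
    show c = 0
    apply cmp_ext
    intro μ
    by_cases hμ : μ ∈ 𝓜
    · obtain ⟨q, b, hq, -, -⟩ := h μ hμ (cmp μ c) (hcmp μ) (hd μ)
      exact absurd hq (Nat.succ_ne_zero q)
    · rw [cmp_zero]
      funext σ
      by_contra hne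
      exact hμ (mem_of_cmp (c := c) hne)
  | succ q =>
    obtain ⟨b, hb, hb', -⟩ := LP_solve (q := q) c (by
      intro μ hμ _
      obtain ⟨q', b, hq, hb, hb'⟩ := h μ hμ (cmp μ c) (hcmp μ) (hd μ)
      obtain rfl : q' = q := by omega
      exact ⟨b, hb, hb'⟩)
    exact ⟨b, hb, hb'⟩

end

section loc

variable {ι : Type} [DecidableEq ι] {Wt : Type}

/-- exponent of `x_σ` -/
def chiS (χ : ι → Wt → ℤ) (σ : Finset ι) : Wt → ℤ := ∑ i ∈ σ, χ i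

theorem single_mul_single' (a b : Wt → ℤ) :
    (single a 1 : LR Wt) * single b 1 = single (a + b) 1 := by
  rw [AddMonoidAlgebra.single_mul_single, one_mul]

theorem single_zero_one : (single (0 : Wt → ℤ) 1 : LR Wt) = 1 := AddMonoidAlgebra.one_def.symm

theorem shift_coeff (a μ : Wt → ℤ) (f : LR Wt) :
    ((single a 1 : LR Wt) * f).coeff μ = f.coeff (μ - a) := by
  rw [AddMonoidAlgebra.coeff_single_mul_apply, one_mul, neg_add_eq_sub]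

variable {R : Type} [CommRing R] {f : ι → R} {M : Type} [AddCommGroup M] [Module R M]

theorem jM_prod {χ : ι → Wt → ℤ} {jM : M →+ LR Wt}
    (hmul : ∀ i m, jM (f i • m) = single (χ i) 1 * jM m) (σ : Finset ι) (m : M) :
    jM ((∏ i ∈ σ, f i) • m) = single (chiS χ σ) 1 * jM m := by
  induction σ using Finset.induction_on generalizing m with
  | empty => simp [chiS, single_zero_one]
  | insert i s hi ih =>
    rw [Finset.prod_insert hi, mul_smul, hmul, ih, ← mul_assoc, single_mul_single']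
    unfold chiS
    rw [Finset.sum_insert hi]

theorem jM_pow {χ : ι → Wt → ℤ} {jM : M →+ LR Wt}
    (hmul : ∀ i m, jM (f i • m) = single (χ i) 1 * jM m) (σ : Finset ι) (t : ℕ) (m : M) :
    jM ((∏ i ∈ σ, f i) ^ t • m) = single (t • chiS χ σ) 1 * jM m := by
  induction t generalizing m with
  | zero => simp [single_zero_one]
  | succ t ih =>
    rw [pow_succ', mul_smul, jM_prod hmul, ih, ← mul_assoc, single_mul_single', succ_nsmul']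

theorem Lmap_aux {χ : ι → Wt → ℤ} {jM : M →+ LR Wt}
    (hmul : ∀ i m, jM (f i • m) = single (χ i) 1 * jM m) (σ : Finset ι) {m m' : M} {t t' : ℕ}
    (h : Loc.mk (∏ i ∈ σ, f i) m t = Loc.mk (∏ i ∈ σ, f i) m' t') :
    (single (-(t • chiS χ σ)) 1 : LR Wt) * jM m = single (-(t' • chiS χ σ)) 1 * jM m' := by
  obtain ⟨u, hu⟩ := (Loc.mk_eq _ _ _ _ _).1 h
  have h1 := congrArg jM hu
  rw [jM_pow hmul, jM_pow hmul] at h1
  have h2 := congrArg (fun z => (single (-((u + t + t') • chiS χ σ)) 1 : LR Wt) * z) h1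
  simp only [← mul_assoc, single_mul_single'] at h2
  have e1 : -((u + t + t') • chiS χ σ) + (u + t') • chiS χ σ = -(t • chiS χ σ) := by
    simp only [add_nsmul]
    abel
  have e2 : -((u + t + t') • chiS χ σ) + (u + t) • chiS χ σ = -(t' • chiS χ σ) := by
    simp only [add_nsmul]
    abel
  rwa [e1, e2] at h2

/-- The Laurent polynomial attached to a fraction. -/
noncomputable def Lmap (χ : ι → Wt → ℤ) (jM : M →+ LR Wt)
    (hmul : ∀ i m, jM (f i • m) = single (χ i) 1 * jM m) (σ : Finset ι) :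
    Loc (∏ i ∈ σ, f i) M →+ LR Wt where
  toFun x := single (-((Loc.exists_mk _ x).choose_spec.choose • chiS χ σ)) 1 *
    jM (Loc.exists_mk _ x).choose
  map_zero' := by
    have := (Loc.exists_mk (∏ i ∈ σ, f i) (0 : Loc (∏ i ∈ σ, f i) M)).choose_spec.choose_spec
    rw [Lmap_aux hmul σ (m' := 0) (t' := 0) (this.symm.trans (Loc.mk_zero _ 0).symm)]
    simp
  map_add' x y := by
    obtain ⟨m, m', t, hx, hy⟩ := Loc.exists_mk₂ _ x y
    have e1 := (Loc.exists_mk _ x).choose_spec.choose_spec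
    have e2 := (Loc.exists_mk _ y).choose_spec.choose_spec
    have e3 := (Loc.exists_mk _ (x + y)).choose_spec.choose_spec
    rw [Lmap_aux hmul σ (e1.symm.trans hx), Lmap_aux hmul σ (e2.symm.trans hy),
      Lmap_aux hmul σ (m' := m + m') (t' := t) (e3.symm.trans (by rw [hx, hy, Loc.mk_add])),
      map_add, mul_add]

theorem Lmap_mk (χ : ι → Wt → ℤ) (jM : M →+ LR Wt)
    (hmul : ∀ i m, jM (f i • m) = single (χ i) 1 * jM m) (σ : Finset ι) (m : M) (t : ℕ) :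
    Lmap χ jM hmul σ (Loc.mk _ m t) = single (-(t • chiS χ σ)) 1 * jM m :=
  Lmap_aux hmul σ (Loc.exists_mk _ (Loc.mk _ m t)).choose_spec.choose_spec.symm

theorem chiS_nonneg {χ : ι → Wt → ℤ} (hχ : ∀ i w, 0 ≤ χ i w) (σ : Finset ι) (w : Wt) :
    0 ≤ chiS χ σ w := by
  unfold chiS
  rw [Finset.sum_apply]
  exact Finset.sum_nonneg fun i _ => hχ i w

theorem chiS_pos {χ : ι → Wt → ℤ} (hχ : ∀ i w, 0 ≤ χ i w) {σ : Finset ι} {w : Wt}
    (h : ∃ i ∈ σ, χ i w ≠ 0) : 1 ≤ chiS χ σ w := by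
  obtain ⟨i, hi, hi'⟩ := h
  have h1 : 1 ≤ χ i w := by
    have := hχ i w
    omega
  refine h1.trans ?_
  unfold chiS
  rw [Finset.sum_apply]
  exact Finset.single_le_sum (f := fun i => χ i w) (fun i _ => hχ i w) hi

theorem chiS_ne {χ : ι → Wt → ℤ} {σ : Finset ι} {w : Wt}
    (h : chiS χ σ w ≠ 0) : ∃ i ∈ σ, χ i w ≠ 0 := by
  by_contra hne
  push Not at hne
  apply h
  unfold chiS
  rw [Finset.sum_apply]
  exact Finset.sum_eq_zero hne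

theorem stable_chiS {χ : ι → Wt → ℤ} {𝓜 : Set (Wt → ℤ)}
    (hst : ∀ i μ, μ + χ i ∈ 𝓜 ↔ μ ∈ 𝓜) (σ : Finset ι) (μ : Wt → ℤ) :
    μ + chiS χ σ ∈ 𝓜 ↔ μ ∈ 𝓜 := by
  unfold chiS
  induction σ using Finset.induction_on generalizing μ with
  | empty => simp
  | insert i s hi ih => rw [Finset.sum_insert hi, ← add_assoc, ih, hst]

theorem stable_nsmul {χ : ι → Wt → ℤ} {𝓜 : Set (Wt → ℤ)}
    (hst : ∀ i μ, μ + χ i ∈ 𝓜 ↔ μ ∈ 𝓜) (σ : Finset ι) (t : ℕ) (μ : Wt → ℤ) :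
    μ + t • chiS χ σ ∈ 𝓜 ↔ μ ∈ 𝓜 := by
  induction t generalizing μ with
  | zero => simp
  | succ t ih => rw [succ_nsmul', ← add_assoc, ih, stable_chiS hst]

theorem shift_mem {χ : ι → Wt → ℤ} (hχ : ∀ i w, 0 ≤ χ i w) {𝓜 : Set (Wt → ℤ)}
    (hst : ∀ i μ, μ + χ i ∈ 𝓜 ↔ μ ∈ 𝓜) (σ : Finset ι) (t : ℕ) {g : LR Wt} (hg : g ∈ LM χ 𝓜 ∅) :
    (single (-(t • chiS χ σ)) 1 : LR Wt) * g ∈ LM χ 𝓜 σ := by
  intro μ hμ
  rw [shift_coeff, sub_neg_eq_add] at hμ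
  obtain ⟨h1, h2⟩ := hg _ hμ
  refine ⟨(stable_nsmul hst σ t μ).1 h1, fun w hw => ?_⟩
  by_contra hne
  have h0 : chiS χ σ w = 0 := by
    by_contra h
    exact hne (chiS_ne h)
  have h3 : (μ + t • chiS χ σ) w < 0 := by
    rw [Pi.add_apply, Pi.smul_apply, h0, smul_zero, add_zero]
    exact hw
  obtain ⟨i, hi, -⟩ := h2 w h3
  exact absurd hi (Finset.notMem_empty i)

theorem exists_clear [Fintype Wt] {χ : ι → Wt → ℤ} (hχ : ∀ i w, 0 ≤ χ i w) {𝓜 : Set (Wt → ℤ)}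
    (hst : ∀ i μ, μ + χ i ∈ 𝓜 ↔ μ ∈ 𝓜) (σ : Finset ι) {g : LR Wt} (hg : g ∈ LM χ 𝓜 σ) :
    ∃ t : ℕ, (single (t • chiS χ σ) 1 : LR Wt) * g ∈ LM χ 𝓜 ∅ := by
  classical
  refine ⟨g.coeff.support.sup fun μ => Finset.univ.sup fun w => (μ w).natAbs, ?_⟩
  set t : ℕ := g.coeff.support.sup fun μ => Finset.univ.sup fun w => (μ w).natAbs with ht
  intro μ hμ
  rw [shift_coeff] at hμ
  obtain ⟨h1, h2⟩ := hg _ hμ
  have h1' : μ ∈ 𝓜 := by
    have := (stable_nsmul hst σ t (μ - t • chiS χ σ)).2 h1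
    rwa [sub_add_cancel] at this
  refine ⟨h1', fun w hw => ?_⟩
  exfalso
  have hle : ((μ - t • chiS χ σ) w).natAbs ≤ t := by
    rw [ht]
    exact (Finset.le_sup (f := fun w => ((μ - t • chiS χ σ) w).natAbs) (Finset.mem_univ w)).trans
      (Finset.le_sup (f := fun μ : Wt → ℤ => Finset.univ.sup fun w => (μ w).natAbs)
        (Finsupp.mem_support_iff.2 hμ))
  have hn := chiS_nonneg hχ σ w
  have hneg : (μ - t • chiS χ σ) w < 0 := by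
    rw [Pi.sub_apply, Pi.smul_apply, nsmul_eq_mul]
    have : 0 ≤ (t : ℤ) * chiS χ σ w := mul_nonneg (by positivity) hn
    omega
  have hpos := chiS_pos hχ (h2 w hneg)
  rw [Pi.sub_apply, Pi.smul_apply, nsmul_eq_mul] at hle hneg
  have h5 : (t : ℤ) ≤ (t : ℤ) * chiS χ σ w := by nlinarith
  omega

/-- The comparison of the Čech presheaf of a monomial module with its Laurent model. -/
noncomputable def LP_hom (h2 : ∀ m : M, m + m = 0) (χ : ι → Wt → ℤ) (hχ : ∀ i w, 0 ≤ χ i w)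
    (𝓜 : Set (Wt → ℤ)) (hst : ∀ i μ, μ + χ i ∈ 𝓜 ↔ μ ∈ 𝓜) (jM : M →+ LR Wt)
    (hran : ∀ m, jM m ∈ LM χ 𝓜 ∅) (hmul : ∀ i m, jM (f i • m) = single (χ i) 1 * jM m) :
    BP.Hom (LocP f M h2) (LP χ 𝓜) where
  app σ := (Lmap χ jM hmul σ).codRestrict (LM χ 𝓜 σ) (fun x => by
    obtain ⟨m, t, rfl⟩ := Loc.exists_mk _ x
    rw [Lmap_mk]
    exact shift_mem hχ hst σ t (hran m))
  nat := by
    intro σ τ h x
    apply LPval_inj
    change Loc (∏ i ∈ σ, f i) M at x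
    obtain ⟨m, t, rfl⟩ := Loc.exists_mk _ x
    show Lmap χ jM hmul τ (lres f M h _) = Lmap χ jM hmul σ _
    rw [lres_mk, Lmap_mk, Lmap_mk, jM_pow hmul, ← mul_assoc, single_mul_single']
    congr 2
    have : chiS χ τ = chiS χ (τ \ σ) + chiS χ σ := by
      unfold chiS
      rw [Finset.sum_sdiff h]
    rw [this, nsmul_add]
    abel

theorem LP_hom_mk (h2 : ∀ m : M, m + m = 0) (χ : ι → Wt → ℤ) (hχ : ∀ i w, 0 ≤ χ i w)
    (𝓜 : Set (Wt → ℤ)) (hst : ∀ i μ, μ + χ i ∈ 𝓜 ↔ μ ∈ 𝓜) (jM : M →+ LR Wt)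
    (hran : ∀ m, jM m ∈ LM χ 𝓜 ∅) (hmul : ∀ i m, jM (f i • m) = single (χ i) 1 * jM m)
    (σ : Finset ι) (m : M) (t : ℕ) :
    LPval ((LP_hom h2 χ hχ 𝓜 hst jM hran hmul).app σ (Loc.mk _ m t)) =
      single (-(t • chiS χ σ)) 1 * jM m :=
  Lmap_mk χ jM hmul σ m t

theorem LP_hom_bij [Fintype Wt] (h2 : ∀ m : M, m + m = 0) (χ : ι → Wt → ℤ)
    (hχ : ∀ i w, 0 ≤ χ i w)
    (𝓜 : Set (Wt → ℤ)) (hst : ∀ i μ, μ + χ i ∈ 𝓜 ↔ μ ∈ 𝓜) (jM : M →+ LR Wt)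
    (hran : ∀ m, jM m ∈ LM χ 𝓜 ∅) (hmul : ∀ i m, jM (f i • m) = single (χ i) 1 * jM m)
    (hinj : Function.Injective jM) (hsurj : ∀ g ∈ LM χ 𝓜 ∅, ∃ m, jM m = g) (σ : Finset ι) :
    Function.Bijective ((LP_hom h2 χ hχ 𝓜 hst jM hran hmul).app σ) := by
  constructor
  · rw [injective_iff_map_eq_zero]
    intro x hx
    change Loc (∏ i ∈ σ, f i) M at x
    obtain ⟨m, t, rfl⟩ := Loc.exists_mk _ x
    have h1 := congrArg LPval hx
    rw [LP_hom_mk, map_zero] at h1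
    have h3 := congrArg (fun z => (single (t • chiS χ σ) 1 : LR Wt) * z) h1
    simp only [← mul_assoc, single_mul_single', add_neg_cancel, single_zero_one, one_mul] at h3
    have h4 : jM m = 0 := by rw [h3, mul_zero]
    have h5 : m = 0 := hinj (by rw [h4, map_zero])
    subst h5
    exact Loc.mk_zero _ _
  · rintro ⟨g, hg⟩
    obtain ⟨t, ht⟩ := exists_clear hχ hst σ hg
    obtain ⟨m, hm⟩ := hsurj _ ht
    refine ⟨Loc.mk _ m t, ?_⟩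
    apply LPval_inj
    rw [LP_hom_mk, hm, ← mul_assoc, single_mul_single', neg_add_cancel, single_zero_one, one_mul]
    rfl

end loc

end Pool.Agent.N165.LC
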