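import Pool.Agent.N165.LC.Defs2
import Pool.Agent.N165.LC.T5a

/-!
Vanishing of the Čech cohomology of the free modules `NN j m` in degree `j + 5`.
-/

namespace Pool.Agent.N165.LC

open MvPolynomial

namespace T5F

variable {j : ℕ}

/-- Exponents as integer vectors. -/
def cst (j : ℕ) : (V j →₀ ℕ) →+ (V j → ℤ) where
  toFun d v := (d v : ℤ)
  map_zero' := by funext v; simp
  map_add' x y := by funext v; simp

theorem cst_apply (d : V j →₀ ℕ) (v : V j) : cst j d v = (d v : ℤ) := rfl

theorem cst_inj : Function.Injective (cst j) := by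
  intro x y h
  ext v
  have := congrFun h v
  rw [cst_apply, cst_apply] at this
  exact_mod_cast this

/-- Exponent of an `x`-variable. -/
def chiN (j : ℕ) (i : XT j) : V j → ℤ := Pi.single (inX i) 1

theorem inX_inj : Function.Injective (inX (j := j)) := by
  intro a b h
  cases a <;> cases b <;> simp_all [inX]

theorem chiN_nonneg (i : XT j) (w : V j) : 0 ≤ chiN j i w := by
  unfold chiN
  rw [Pi.single_apply]
  split_ifs <;> norm_num

theorem chiN_ne {i : XT j} {w : V j} (h : chiN j i w ≠ 0) : w = inX i := by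
  unfold chiN at h
  rw [Pi.single_apply] at h
  by_contra hne
  rw [if_neg hne] at h
  exact h rfl

theorem chiN_self (i : XT j) : chiN j i (inX i) ≠ 0 := by
  unfold chiN
  rw [Pi.single_eq_same]
  norm_num

/-- The exponents of the Laurent model of `NN j m`. -/
def MN (j : ℕ) (m : ℕ × ℕ) : Set (V j → ℤ) :=
  {μ | (∀ v, (∀ i, inX i ≠ v) → 0 ≤ μ v) ∧ ∑ v, μ v * ((wt2 j v).1 : ℤ) = m.1 ∧
    ∑ v, μ v * ((wt2 j v).2 : ℤ) = m.2}

theorem wt2_inX (i : XT j) : wt2 j (inX i) = (0, 0) := by cases i <;> rfl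

theorem MN_stable (m : ℕ × ℕ) (i : XT j) (μ : V j → ℤ) : μ + chiN j i ∈ MN j m ↔ μ ∈ MN j m := by
  have h1 : ∀ v, (∀ i, inX i ≠ v) → (μ + chiN j i) v = μ v := by
    intro v hv
    rw [Pi.add_apply]
    have : chiN j i v = 0 := by
      by_contra h
      exact hv i (chiN_ne h).symm
    rw [this, add_zero]
  have h2 : ∀ v, (μ + chiN j i) v * ((wt2 j v).1 : ℤ) = μ v * ((wt2 j v).1 : ℤ) := by
    intro v
    by_cases hv : v = inX i
    · subst hv
      rw [wt2_inX]
      simp
    · have : chiN j i v = 0 := by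
        by_contra h
        exact hv (chiN_ne h)
      rw [Pi.add_apply, this, add_zero]
  have h3 : ∀ v, (μ + chiN j i) v * ((wt2 j v).2 : ℤ) = μ v * ((wt2 j v).2 : ℤ) := by
    intro v
    by_cases hv : v = inX i
    · subst hv
      rw [wt2_inX]
      simp
    · have : chiN j i v = 0 := by
        by_contra h
        exact hv (chiN_ne h)
      rw [Pi.add_apply, this, add_zero]
  unfold MN
  simp only [Set.mem_ofPred_eq, h2, h3]
  constructor
  · rintro ⟨a, b⟩
    exact ⟨fun v hv => by rw [← h1 v hv]; exact a v hv, b⟩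
  · rintro ⟨a, b⟩
    exact ⟨fun v hv => by rw [h1 v hv]; exact a v hv, b⟩

theorem weight_iff (d : V j →₀ ℕ) (m : ℕ × ℕ) : Finsupp.weight (wt2 j) d = m ↔
    (∑ v, cst j d v * ((wt2 j v).1 : ℤ) = m.1 ∧ ∑ v, cst j d v * ((wt2 j v).2 : ℤ) = m.2) := by
  have e : Finsupp.weight (wt2 j) d = ∑ v, d v • wt2 j v := by
    rw [Finsupp.weight_apply, Finsupp.sum_fintype]
    intro i
    simp
  rw [e, Prod.ext_iff, Prod.fst_sum, Prod.snd_sum]
  simp only [cst_apply, Prod.smul_fst, Prod.smul_snd, smul_eq_mul]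
  constructor
  · rintro ⟨a, b⟩
    rw [← a, ← b]
    push_cast
    exact ⟨rfl, rfl⟩
  · rintro ⟨a, b⟩
    exact ⟨by exact_mod_cast a, by exact_mod_cast b⟩

/-- The comparison map. -/
noncomputable def jN (j : ℕ) (m : ℕ × ℕ) : NN j m →+ LR (V j) :=
  (AddMonoidAlgebra.mapDomainRingHom (ZMod 2) (cst j)).toAddMonoidHom.comp
    (NN j m).subtype.toAddMonoidHom

theorem jN_apply (m : ℕ × ℕ) (f : NN j m) :
    jN j m f = AddMonoidAlgebra.mapDomain (cst j) (f : PR j) := rfl

theorem jN_coeff (m : ℕ × ℕ) (f : NN j m) (d : V j →₀ ℕ) :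
    (jN j m f).coeff (cst j d) = MvPolynomial.coeff d (f : PR j) := by
  rw [jN_apply]
  unfold AddMonoidAlgebra.mapDomain
  exact Finsupp.mapDomain_apply cst_inj _ _

theorem jN_coeff' (m : ℕ × ℕ) (f : NN j m) (μ : V j → ℤ) (h : (jN j m f).coeff μ ≠ 0) :
    ∃ d, cst j d = μ ∧ MvPolynomial.coeff d (f : PR j) ≠ 0 := by
  by_cases hμ : μ ∈ Set.range (cst j)
  · obtain ⟨d, rfl⟩ := hμ
    exact ⟨d, rfl, by rwa [← jN_coeff]⟩
  · exfalso
    apply h
    rw [jN_apply]
    unfold AddMonoidAlgebra.mapDomain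
    exact Finsupp.mapDomain_of_notMem_range _ _ hμ

theorem jN_ran (m : ℕ × ℕ) (f : NN j m) : jN j m f ∈ LM (chiN j) (MN j m) ∅ := by
  intro μ hμ
  obtain ⟨d, rfl, hd⟩ := jN_coeff' m f μ hμ
  have h1 : Finsupp.weight (wt2 j) d = m := f.2 hd
  refine ⟨⟨fun v _ => ?_, (weight_iff d m).1 h1⟩, fun w hw => ?_⟩
  · rw [cst_apply]; positivity
  · rw [cst_apply] at hw; omega

theorem jN_mul (m : ℕ × ℕ) (i : XT j) (f : NN j m) :
    jN j m (xR j i • f) = AddMonoidAlgebra.single (chiN j i) 1 * jN j m f := by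
  have e1 : ((xR j i • f : NN j m) : PR j) = X (inX i) * (f : PR j) := rfl
  rw [jN_apply, jN_apply, e1, AddMonoidAlgebra.mapDomain_mul]
  congr 1
  have e2 : (X (inX i) : PR j) = AddMonoidAlgebra.single (Finsupp.single (inX i) 1) 1 := rfl
  rw [e2, AddMonoidAlgebra.mapDomain_single]
  congr 1
  funext v
  rw [cst_apply]
  unfold chiN
  rw [Finsupp.single_apply, Pi.single_apply]
  by_cases h : inX i = v
  · rw [if_pos h, if_pos h.symm]; rfl
  · rw [if_neg h, if_neg (Ne.symm h)]; rfl

theorem jN_inj (m : ℕ × ℕ) : Function.Injective (jN j m) := by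
  intro f g h
  apply Subtype.ext
  apply MvPolynomial.ext
  intro d
  rw [← jN_coeff, ← jN_coeff, h]

theorem jN_surj (m : ℕ × ℕ) (g : LR (V j)) (hg : g ∈ LM (chiN j) (MN j m) ∅) :
    ∃ f, jN j m f = g := by
  have hrange : ∀ μ, g.coeff μ ≠ 0 → ∃ d, cst j d = μ := by
    intro μ hμ
    obtain ⟨-, h2⟩ := hg μ hμ
    have h3 : ∀ w, 0 ≤ μ w := by
      intro w
      by_contra hw
      obtain ⟨i, hi, -⟩ := h2 w (not_le.1 hw)
      exact absurd hi (Finset.notMem_empty i)
    refine ⟨Finsupp.equivFunOnFinite.symm fun w => (μ w).toNat, ?_⟩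
    funext w
    rw [cst_apply]
    simp [h3 w]
  let f : PR j := AddMonoidAlgebra.comapDomain (cst j) cst_inj g
  have hf : ∀ d, MvPolynomial.coeff d f = g.coeff (cst j d) := by
    intro d
    show (AddMonoidAlgebra.comapDomain (cst j) cst_inj g).coeff d = _
    rw [AddMonoidAlgebra.coeff_comapDomain]
    rfl
  have hmem : IsWeightedHomogeneous (wt2 j) f m := by
    intro d hd
    rw [hf] at hd
    obtain ⟨⟨-, h1⟩, -⟩ := hg _ hd
    exact (weight_iff d m).2 h1
  refine ⟨⟨f, hmem⟩, ?_⟩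
  apply AddMonoidAlgebra.ext
  ext μ
  by_cases h : g.coeff μ = 0
  · rw [h]
    by_contra hne
    obtain ⟨d, rfl, hd⟩ := jN_coeff' m ⟨f, hmem⟩ μ hne
    apply hd
    exact (hf d).trans h
  · obtain ⟨d, rfl⟩ := hrange μ h
    rw [jN_coeff]
    exact hf d

theorem card_XT : Fintype.card (XT j) = j + 14 := by
  have e : XT j ≃ Fin (j + 2) ⊕ (Fin 2 × Fin 2 × Fin 3) :=
    { toFun := fun i => match i with
        | .th i => Sum.inl i
        | .uvs p q r => Sum.inr (p, q, r)
      invFun := fun i => match i with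
        | Sum.inl i => .th i
        | Sum.inr (p, q, r) => .uvs p q r
      left_inv := by intro i; cases i <;> rfl
      right_inv := by intro i; rcases i with i | ⟨p, q, r⟩ <;> rfl }
  rw [Fintype.card_congr e]
  simp

/-- A family which is invariant under toggling `i` is exact. -/
theorem famExact_toggle {X : Type} [DecidableEq X] (S : Finset X → Prop) (i : X)
    (hS : ∀ σ, i ∉ σ → S (insert i σ) → S σ) (q : ℕ) : FamExact S (q + 1) := by
  intro c hc hd
  refine ⟨q, fun σ => if i ∈ σ then 0 else c (insert i σ), rfl, ?_, ?_⟩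
  · intro σ hσ
    show (if i ∈ σ then (0 : ZMod 2) else c (insert i σ)) = 0
    split_ifs with hi
    · rfl
    · apply hc
      rintro ⟨h1, h2⟩
      apply hσ
      refine ⟨hS σ hi h1, ?_⟩
      rw [Finset.card_insert_of_notMem hi] at h2
      omega
  · funext τ
    rw [famD_apply]
    by_cases hi : i ∈ τ
    · rw [Finset.sum_eq_single_of_mem i hi]
      · rw [if_neg (Finset.notMem_erase i τ), Finset.insert_erase hi]
      · intro x hx hne
        rw [if_pos]
        exact Finset.mem_erase.2 ⟨hne.symm, hi⟩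
    · have h0 : famD c (insert i τ) = 0 := by rw [hd]; rfl
      rw [famD_apply, Finset.sum_insert hi, Finset.erase_insert hi] at h0
      have h1 : ∑ x ∈ τ, (if i ∈ τ.erase x then (0 : ZMod 2) else c (insert i (τ.erase x)))
          = ∑ x ∈ τ, c ((insert i τ).erase x) := by
        refine Finset.sum_congr rfl fun x hx => ?_
        have hne : i ≠ x := fun h => hi (h ▸ hx)
        rw [if_neg (fun h => hi (Finset.mem_of_mem_erase h)),
          Finset.erase_insert_of_ne hne]
      rw [h1]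
      have h2 : ∀ a b : ZMod 2, a + b = 0 → b = a := by decide
      exact h2 _ _ h0

theorem famExact_MN (μ : V j → ℤ) : FamExact (Covers (chiN j) μ) (j + 5) := by
  by_cases h : ∃ i, 0 ≤ μ (inX i)
  · obtain ⟨i, hi⟩ := h
    refine famExact_toggle _ i ?_ (j + 4)
    intro σ _ hcov w hw
    obtain ⟨i', hi', hne⟩ := hcov w hw
    rcases Finset.mem_insert.1 hi' with rfl | h1
    · exfalso
      rw [chiN_ne hne] at hw
      omega
    · exact ⟨i', h1, hne⟩
  · push Not at h
    intro c hc _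
    have hc0 : c = 0 := by
      funext σ
      apply hc
      rintro ⟨h1, h2⟩
      have h3 : σ = Finset.univ := by
        rw [Finset.eq_univ_iff_forall]
        intro i
        obtain ⟨i', hi', hne⟩ := h1 (inX i) (h i)
        have := inX_inj (chiN_ne hne)
        rwa [this]
      rw [h3, Finset.card_univ, card_XT] at h2
      omega
    subst hc0
    exact ⟨j + 4, 0, rfl, zero_mem _, map_zero _⟩

theorem Z_le_B_of_bij {ι : Type} [DecidableEq ι] {G G' : BP ι} (φ : BP.Hom G G')
    (h : ∀ σ, Function.Bijective (φ.app σ)) (p : ℕ) (h' : G'.Z p ≤ G'.B p) : G.Z p ≤ G.B p := by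
  have hcinj : Function.Injective φ.c := by
    intro x y hxy
    funext σ
    exact (h σ).1 (congrFun hxy σ)
  intro z hz
  have hz' : φ.c z ∈ G'.B p := h' (φ.c_mem_Z hz)
  cases p with
  | zero =>
    have h0 : φ.c z = 0 := hz'
    have : z = 0 := hcinj (by rw [h0, map_zero])
    rw [this]
    exact zero_mem _
  | succ q =>
    obtain ⟨b', hb', hb''⟩ := hz'
    choose x hx using fun σ => (h σ).2 (b' σ)
    have hx' : φ.c x = b' := funext hx
    refine ⟨x, fun σ hσ => ?_, hcinj ?_⟩
    · apply (h σ).1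
      rw [hx σ, hb' σ hσ, map_zero]
    · rw [φ.c_d, hx', hb'']

end T5F

open T5F in
/-- The number of `x`-variables is `j + 14`; cohomology of the free modules vanishes below. -/
theorem NN_exact (j : ℕ) (m : ℕ × ℕ) :
    (LocP (xR j) (NN j m) two_NN).Z (j + 5) ≤ (LocP (xR j) (NN j m) two_NN).B (j + 5) := by
  refine Z_le_B_of_bij (LP_hom (f := xR j) (M := NN j m) (two_NN (j := j) (m := m)) (chiN j) chiN_nonneg (MN j m) (MN_stable m)
    (jN j m) (jN_ran m) (jN_mul m)) ?_ (j + 5) ?_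
  · exact LP_hom_bij (M := NN j m) (two_NN (j := j) (m := m)) (chiN j) chiN_nonneg (MN j m) (MN_stable m)
      (jN j m) (jN_ran m) (jN_mul m) (jN_inj m) (jN_surj m)
  · have h : ∀ μ ∈ MN j m, FamExact (Covers (chiN j) μ) (j + 5) := fun μ _ => famExact_MN μ
    have h2 := LP_exact (chiN j) (MN j m) (j + 5) h
    exact h2

end Pool.Agent.N165.LC
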