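import Pool.Agent.N165.LC.T5c

/-!
The local cohomology of `E_b` in degree `j + 5`, for the monomial operators.
-/

namespace Pool.Agent.N165.LC

open AddMonoidAlgebra (single)

namespace BP

variable {ι : Type} [DecidableEq ι] {G G' G'' : BP ι}

/-- The inverse of a pointwise bijective morphism. -/
noncomputable def Hom.inv (φ : Hom G G') (h : ∀ σ, Function.Bijective (φ.app σ)) : Hom G' G where
  app σ := (AddEquiv.ofBijective (φ.app σ) (h σ)).symm.toAddMonoidHom
  nat := by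
    intro σ τ hστ x
    apply (h τ).1
    rw [φ.nat]
    show (AddEquiv.ofBijective (φ.app τ) (h τ)) ((AddEquiv.ofBijective (φ.app τ) (h τ)).symm _) =
      G'.res hστ ((AddEquiv.ofBijective (φ.app σ) (h σ))
        ((AddEquiv.ofBijective (φ.app σ) (h σ)).symm x))
    rw [AddEquiv.apply_symm_apply, AddEquiv.apply_symm_apply]

theorem Hom.app_inv (φ : Hom G G') (h : ∀ σ, Function.Bijective (φ.app σ)) (σ : Finset ι)
    (x : G'.G σ) : φ.app σ ((φ.inv h).app σ x) = x :=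
  (AddEquiv.ofBijective (φ.app σ) (h σ)).apply_symm_apply x

theorem Hom.inv_app (φ : Hom G G') (h : ∀ σ, Function.Bijective (φ.app σ)) (σ : Finset ι)
    (x : G.G σ) : (φ.inv h).app σ (φ.app σ x) = x :=
  (AddEquiv.ofBijective (φ.app σ) (h σ)).symm_apply_apply x

/-- Composition. -/
def Hom.comp (ψ : Hom G' G'') (φ : Hom G G') : Hom G G'' where
  app σ := (ψ.app σ).comp (φ.app σ)
  nat := by
    intro σ τ h x
    show ψ.app τ (φ.app τ _) = G''.res h (ψ.app σ (φ.app σ x))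
    rw [φ.nat, ψ.nat]

theorem Hom.comp_app (ψ : Hom G' G'') (φ : Hom G G') (σ : Finset ι) (x : G.G σ) :
    (ψ.comp φ).app σ x = ψ.app σ (φ.app σ x) := rfl

end BP

variable {j : ℕ}

/-- multiplication by `h`, additive version -/
noncomputable def mulhA (j : ℕ) (b : ℤ) : Fb' j b →+ Fb j b := (mulh j b).toAddMonoidHom

theorem mulhA_smul (b : ℤ) (i : XM j) (m : Fb' j b) :
    mulhA j b (xM j i • m) = xM j i • mulhA j b m := (mulh j b).map_smul (xM j i) m

/-- the quotient map, additive version -/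
noncomputable def mkA (j : ℕ) (b : ℤ) : Fb j b →+ Eb j b :=
  (LinearMap.range (mulh j b)).mkQ.toAddMonoidHom

theorem mkA_smul (b : ℤ) (i : XM j) (m : Fb j b) :
    mkA j b (xM j i • m) = xM j i • mkA j b m :=
  (LinearMap.range (mulh j b)).mkQ.map_smul (xM j i) m

theorem mkA_apply (b : ℤ) (m : Fb j b) : mkA j b m = Submodule.Quotient.mk m := rfl

theorem mkA_surj (b : ℤ) : Function.Surjective (mkA j b) := Submodule.mkQ_surjective _

theorem mkA_ker (b : ℤ) (x : Fb j b) : mkA j b x = 0 ↔ ∃ y, mulhA j b y = x := by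
  rw [mkA_apply, Submodule.Quotient.mk_eq_zero]
  rfl

/-- the Čech presheaf of a strand -/
noncomputable def PF (j : ℕ) (y u s : ℤ) : BP (XM j) := LocP (xM j) (FS j y u s) two_FS

/-- the Čech presheaf of `E_b` -/
noncomputable def PE (j : ℕ) (b : ℤ) : BP (XM j) := LocP (xM j) (Eb j b) two_Eb

/-- multiplication by `h` on the Čech presheaves -/
noncomputable def hmul (j : ℕ) (b : ℤ) : BP.Hom (PF j (b - 2) b (b + 2)) (PF j b b b) :=
  LocP.hom (R := BR j) (R' := BR j) (f := xM j) (f' := xM j) (M := Fb' j b) (M' := Fb j b)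
    two_FS two_FS (mulhA j b) (mulhA_smul b)

/-- the quotient map on the Čech presheaves -/
noncomputable def hquo (j : ℕ) (b : ℤ) : BP.Hom (PF j b b b) (PE j b) :=
  LocP.hom (R := BR j) (R' := BR j) (f := xM j) (f' := xM j) (M := Fb j b) (M' := Eb j b)
    two_FS two_Eb (mkA j b) (mkA_smul b)

/-- the comparison isomorphism -/
noncomputable def isoP (j : ℕ) (y u s : ℤ) : BP.Hom (PF j y u s) (LS j y u s) := isoS j y u s

theorem isoP_bij (j : ℕ) (y u s : ℤ) (σ : Finset (XM j)) :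
    Function.Bijective ((isoP j y u s).app σ) := isoS_bij j y u s σ

/-- fractions in `PF` -/
noncomputable def mkF (j : ℕ) (y u s : ℤ) (σ : Finset (XM j)) (m : FS j y u s) (t : ℕ) :
    (PF j y u s).G σ := Loc.mk (∏ i ∈ σ, xM j i) m t

/-- fractions in `PE` -/
noncomputable def mkE (j : ℕ) (b : ℤ) (σ : Finset (XM j)) (m : Eb j b) (t : ℕ) :
    (PE j b).G σ := Loc.mk (∏ i ∈ σ, xM j i) m t

theorem exists_mkF {y u s : ℤ} {σ : Finset (XM j)} (x : (PF j y u s).G σ) :
    ∃ m t, x = mkF j y u s σ m t := Loc.exists_mk (M := FS j y u s) (∏ i ∈ σ, xM j i) x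

theorem isoP_mk (j : ℕ) (y u s : ℤ) (σ : Finset (XM j)) (m : FS j y u s) (t : ℕ) :
    LPval ((isoP j y u s).app σ (mkF j y u s σ m t)) =
      single (-(t • chiS (chi j) σ)) 1 * (m : Lam j) := isoS_mk j y u s σ m t

theorem hmul_mk (b : ℤ) (σ : Finset (XM j)) (m : Fb' j b) (t : ℕ) :
    (hmul j b).app σ (mkF j (b - 2) b (b + 2) σ m t) = mkF j b b b σ (mulhA j b m) t :=
  LocP.hom_mk (R := BR j) (R' := BR j) (f := xM j) (f' := xM j) (M := Fb' j b) (M' := Fb j b)
    two_FS two_FS (mulhA j b) (mulhA_smul b) σ m t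

theorem hquo_mk (b : ℤ) (σ : Finset (XM j)) (m : Fb j b) (t : ℕ) :
    (hquo j b).app σ (mkF j b b b σ m t) = mkE j b σ (mkA j b m) t :=
  LocP.hom_mk (R := BR j) (R' := BR j) (f := xM j) (f' := xM j) (M := Fb j b) (M' := Eb j b)
    two_FS two_Eb (mkA j b) (mkA_smul b) σ m t

theorem hquo_surj (b : ℤ) (σ : Finset (XM j)) : Function.Surjective ((hquo j b).app σ) :=
  LocP.hom_surjective (R := BR j) (R' := BR j) (f := xM j) (f' := xM j) (M := Fb j b)
    (M' := Eb j b) two_FS two_Eb (mkA j b) (mkA_smul b) (mkA_surj b) σ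

theorem hquo_exact (b : ℤ) (σ : Finset (XM j)) (x : (PF j b b b).G σ) :
    (hquo j b).app σ x = 0 ↔ ∃ y, (hmul j b).app σ y = x :=
  LocP.hom_exact (R := BR j) (f := xM j) (M' := Fb' j b) (M := Fb j b) (M'' := Eb j b)
    two_FS two_FS two_Eb (mulhA j b) (mulhA_smul b) (mkA j b) (mkA_smul b) (mkA_ker b) σ x

theorem hmul_comm (b : ℤ) (σ : Finset (XM j)) (x : (PF j (b - 2) b (b + 2)).G σ) :
    (isoP j b b b).app σ ((hmul j b).app σ x) =
      (hhL j b).app σ ((isoP j (b - 2) b (b + 2)).app σ x) := by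
  apply LPval_inj
  obtain ⟨m, t, rfl⟩ := exists_mkF x
  rw [hhL_val, isoP_mk, hmul_mk, isoP_mk]
  show single (-(t • chiS (chi j) σ)) 1 * (hh j * (m : Lam j)) = _
  rw [mul_left_comm]

/-- The map from the Laurent presheaf to the Čech presheaf of `E_b`. -/
noncomputable def betaL (j : ℕ) (b : ℤ) : BP.Hom (LS j b b b) (PE j b) :=
  (hquo j b).comp ((isoP j b b b).inv (isoP_bij j b b b))

theorem betaL_iso (b : ℤ) (σ : Finset (XM j)) (x : (PF j b b b).G σ) :
    (betaL j b).app σ ((isoP j b b b).app σ x) = (hquo j b).app σ x := by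
  show (hquo j b).app σ (((isoP j b b b).inv (isoP_bij j b b b)).app σ _) = _
  rw [BP.Hom.inv_app]

theorem hhL_inj (b : ℤ) (σ : Finset (XM j)) : Function.Injective ((hhL j b).app σ) := by
  intro x y h
  apply LPval_inj
  have := congrArg LPval h
  rw [hhL_val, hhL_val] at this
  exact hh_mul_inj this

theorem betaL_surj (b : ℤ) (σ : Finset (XM j)) : Function.Surjective ((betaL j b).app σ) := by
  intro y
  obtain ⟨x, hx⟩ := hquo_surj b σ y
  exact ⟨(isoP j b b b).app σ x, by rw [betaL_iso, hx]⟩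

theorem betaL_exact (b : ℤ) (σ : Finset (XM j)) (x : (LS j b b b).G σ) :
    (betaL j b).app σ x = 0 ↔ ∃ y, (hhL j b).app σ y = x := by
  obtain ⟨x, rfl⟩ := (isoP_bij j b b b σ).2 x
  rw [betaL_iso, hquo_exact]
  constructor
  · rintro ⟨y, rfl⟩
    exact ⟨(isoP j (b - 2) b (b + 2)).app σ y, (hmul_comm b σ y).symm⟩
  · rintro ⟨y, hy⟩
    obtain ⟨y, rfl⟩ := (isoP_bij j (b - 2) b (b + 2) σ).2 y
    rw [← hmul_comm] at hy
    exact ⟨y, (isoP_bij j b b b σ).1 hy⟩

/-- vanishing of `H^{j+5}` for `F_b` -/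
theorem LS_exact5 (b : ℤ) (hb : 0 ≤ b) : (LS j b b b).Z (j + 5) ≤ (LS j b b b).B (j + 5) := by
  apply LP_exact
  rintro μ ⟨-, hU, hS⟩
  apply fam_exact5 j (fun w => μ w < 0)
  · rintro ⟨ha, hv, hs, hu⟩
    have h1 : dA μ < 0 := Finset.sum_neg (fun l _ => ha l) ⟨0, Finset.mem_univ _⟩
    have h3 : dS μ < 0 := Finset.sum_neg (fun l _ => hs l) ⟨0, Finset.mem_univ _⟩
    have h4 : 0 ≤ dU μ := Finset.sum_nonneg fun l _ => not_lt.1 (hu l)
    omega
  · rintro ⟨ha, hu, hs, hv⟩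
    have h3 : dS μ < 0 := Finset.sum_neg (fun l _ => hs l) ⟨0, Finset.mem_univ _⟩
    have h4 : 0 ≤ dV μ := Finset.sum_nonneg fun l _ => not_lt.1 (hv l)
    omega

/-- **The local cohomology of `E_b` in degree `j + 5`** with respect to the monomial operators. -/
theorem H_Eb (b : ℤ) (hb : 0 ≤ b) :
    Nonempty ((PE j b).H (j + 5) ≃+ KK j b) := by
  obtain ⟨e⟩ := BP.les_equiv (hhL j b) (betaL j b) (hhL_inj b) (betaL_exact b) (betaL_surj b)
    (j + 5) (LS_exact5 b hb) (Phi j (b - 2) b (b + 2))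
    (fun f => ⟨(Phi_surj f).choose, (Phi_surj f).choose_spec.1⟩) Phi_ker (Phi j b b b) Phi_ker
    (eta j b) (Phi_hh b)
  obtain ⟨e'⟩ := ker_eta_equiv j b
  exact ⟨e.trans e'⟩

theorem D_add' (μ μ' : E j) : dA (μ + μ') + dV (μ + μ') = dA μ + dV μ + (dA μ' + dV μ') := by
  have e1 : dA (μ + μ') = dA μ + dA μ' := by simp [dA, Finset.sum_add_distrib]
  have e3 : dV (μ + μ') = dV μ + dV μ' := by simp [dV, Finset.sum_add_distrib]
  rw [e1, e3]
  ring

theorem D_hE (i : Fin 5) : dA (hE j i) + dV (hE j i) = 2 := by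
  fin_cases i <;> simp [hE, kap, dA, dV]

theorem D_chi (i : XM j) : dA (chi j i) + dV (chi j i) = 1 := by
  cases i with
  | ua p l => simp [chi, dA, dV, ev, Pi.single_apply]
  | uvs p q r => fin_cases q <;> simp [chi, dA, dV, ev, Pi.single_apply]

theorem D_chiS (σ : Finset (XM j)) : dA (chiS (chi j) σ) + dV (chiS (chi j) σ) = σ.card := by
  induction σ using Finset.induction_on with
  | empty => simp [chiS, dA, dV]
  | insert i s hi ih =>
    unfold chiS at *
    rw [Finset.sum_insert hi, D_add', ih, D_chi, Finset.card_insert_of_notMem hi]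
    push_cast
    ring

theorem D_nsmul (t : ℕ) (μ : E j) : dA (t • μ) + dV (t • μ) = t * (dA μ + dV μ) := by
  induction t with
  | zero => simp [dA, dV]
  | succ t ih =>
    rw [succ_nsmul, D_add', ih]
    push_cast
    ring

/-- **A homogeneous non-trivial cocycle.** -/
theorem Eb_cochain (b : ℤ) (f : Lam j) (hf : f ∈ KK j b) (hf0 : f ≠ 0) (D : ℤ)
    (hD : ∀ μ, f.coeff μ ≠ 0 → dA μ + dV μ = D) :
    ∃ c ∈ (PE j b).Z (j + 5), c ∉ (PE j b).B (j + 5) ∧
      ∀ σ, ∃ (t : ℕ) (m : Fb j b), c σ = mkE j b σ (mkA j b m) t ∧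
        ∀ μ, (m : Lam j).coeff μ ≠ 0 → dA μ + dV μ = D + 2 + t * σ.card := by
  obtain ⟨z, hz, hzs⟩ := Phi_surj (j := j) (⟨f, fun μ hμ => hf.1 μ hμ⟩ : DFn j (b - 2) b (b + 2))
  have hzZ : (hhL j b).c (z : (LS j (b - 2) b (b + 2)).C) ∈ (LS j b b b).Z (j + 6) :=
    (hhL j b).c_mem_Z z.2
  have hz0 : Phi j b b b ⟨(hhL j b).c z, hzZ⟩ = 0 := by
    rw [Phi_hh, hz]
    apply Subtype.ext
    apply AddMonoidAlgebra.ext
    ext μ
    rw [eta_coeff]
    split_ifs with h
    · exact hf.2 μ h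
    · rfl
  obtain ⟨w, hw, hdw, hws⟩ := Phi_solve _ hzZ hz0
  have hzB : (z : (LS j (b - 2) b (b + 2)).C) ∉ (LS j (b - 2) b (b + 2)).B (j + 6) := by
    rw [← Phi_ker, hz]
    intro h
    exact hf0 (congrArg Subtype.val h)
  obtain ⟨h1, h2⟩ := BP.les_nonzero (hhL j b) (betaL j b) (hhL_inj b) (betaL_exact b)
    (betaL_surj b) (j + 5) w hw _ hzB hdw
  refine ⟨(betaL j b).c w, h1, h2, ?_⟩
  intro σ
  obtain ⟨t, ht⟩ := exists_clear chi_nonneg (MS_stable (y := b) (u := b) (s := b)) σ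
    (LPval_mem (w σ))
  have hm := mem_LM_empty.1 ht
  refine ⟨t, ⟨_, hm⟩, ?_, ?_⟩
  · have h3 : w σ = (isoP j b b b).app σ (mkF j b b b σ (⟨_, hm⟩ : FS j b b b) t) := by
      apply LPval_inj
      rw [isoP_mk, ← mul_assoc, single_mul_single', neg_add_cancel, single_zero_one, one_mul]
    have h4 := betaL_iso b σ (mkF j b b b σ (⟨_, hm⟩ : FS j b b b) t)
    rw [← h3, hquo_mk] at h4
    exact h4
  · intro μ hμ
    change ((single (t • chiS (chi j) σ) 1 : Lam j) * LPval (w σ)).coeff μ ≠ 0 at hμ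
    rw [shift_coeff] at hμ
    have h4 : cmp (μ - t • chiS (chi j) σ) ((hhL j b).c (z : (LS j (b - 2) b (b + 2)).C)) ≠ 0 := by
      intro h0
      have h5 := hws _ h0
      exact hμ (congrFun h5 σ)
    rw [cmp_hhL] at h4
    obtain ⟨i, -, hi⟩ := Finset.exists_ne_zero_of_sum_ne_zero h4
    have h6 : f.coeff (μ - t • chiS (chi j) σ - hE j i) ≠ 0 := fun h0 => hi (hzs _ h0)
    have h7 := hD _ h6
    have e1 : μ = (μ - t • chiS (chi j) σ - hE j i) + (hE j i + t • chiS (chi j) σ) := by abel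
    rw [e1, D_add', D_add', h7, D_hE, D_nsmul, D_chiS]
    ring

end Pool.Agent.N165.LC
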