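import Pool.Agent.N165.LC.Defs

/-!
Project LC, part T6: the spaces `K(L, m, b)` vanish for `m ≥ b + 1` and `L` large.
-/

namespace Pool.Agent.N165.LC

/-! ### T6 -/

section T6

open Polynomial

/-! #### the pointwise statement -/

section Pointwise
variable {K : Type} [Field K]

open scoped Classical in
/-- A recurrence with coprime coefficients has no nonzero solutions of small degree. -/
theorem pt2 {A B C₁ : K[X]} (hAC : IsCoprime A C₁) (hC : C₁.natDegree = 2)
    (hne : ∀ ρ : K, A + C ρ * B + C ρ ^ 2 * C₁ ≠ 0) {n m : ℕ} (hm : n + 3 ≤ m)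
    (w : ℕ → K[X]) (hw : ∀ i ≤ m, (w i).natDegree ≤ n)
    (hrec : ∀ i, i + 2 ≤ m → A * w i + B * w (i + 1) + C₁ * w (i + 2) = 0) :
    ∀ i ≤ m, w i = 0 := by
  have hC0 : C₁ ≠ 0 := by
    rintro rfl
    simp at hC
  have h1 : ∀ k, k + 2 ≤ m → C₁ ^ k * (w k * w (k + 2) - w (k + 1) ^ 2) =
      A ^ k * (w 0 * w 2 - w 1 ^ 2) := by
    intro k
    induction k with
    | zero => intro _; simp
    | succ k ih =>
      intro hk
      have h2 := hrec k (by omega)
      have h3 := hrec (k + 1) hk
      have h4 := ih (by omega)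
      have h5 : C₁ * (w (k + 1) * w (k + 1 + 2) - w (k + 1 + 1) ^ 2) =
          A * (w k * w (k + 2) - w (k + 1) ^ 2) := by
        linear_combination w (k + 1) * h3 - w (k + 2) * h2
      have h6 : C₁ ^ (k + 1) * (w (k + 1) * w (k + 1 + 2) - w (k + 1 + 1) ^ 2) =
          C₁ ^ k * (C₁ * (w (k + 1) * w (k + 1 + 2) - w (k + 1 + 1) ^ 2)) := by
        rw [pow_succ]; ring
      rw [h6, h5, pow_succ]
      linear_combination A * h4
  have h2 : w 0 * w 2 - w 1 ^ 2 = 0 := by
    by_contra hD
    have h3 := h1 (m - 2) (by omega)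
    have h4 : C₁ ^ (m - 2) ∣ (w 0 * w 2 - w 1 ^ 2) :=
      (IsCoprime.pow hAC.symm).dvd_of_dvd_mul_left (Dvd.intro _ h3)
    have h5 := natDegree_le_of_dvd h4 hD
    rw [natDegree_pow, hC] at h5
    have h6 : (w 0 * w 2 - w 1 ^ 2).natDegree ≤ 2 * n := by
      refine (natDegree_sub_le _ _).trans (max_le ?_ ?_)
      · have := hw 0 (by omega)
        have := hw 2 (by omega)
        exact natDegree_mul_le.trans (by omega)
      · have := hw 1 (by omega)
        exact natDegree_pow_le.trans (by omega)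
    omega
  have hD : ∀ k, k + 2 ≤ m → w k * w (k + 2) = w (k + 1) ^ 2 := by
    intro k hk
    have := h1 k hk
    rw [h2, mul_zero] at this
    exact sub_eq_zero.1 ((mul_eq_zero.1 this).resolve_left (pow_ne_zero _ hC0))
  have hz : ∀ i, i + 2 ≤ m → w i = 0 → w (i + 1) = 0 ∧ w (i + 2) = 0 := by
    intro i hi h0
    have a1 : w (i + 1) = 0 := by
      have := hD i hi
      rw [h0, zero_mul] at this
      exact (pow_eq_zero_iff two_ne_zero).1 this.symm
    refine ⟨a1, ?_⟩
    have := hrec i hi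
    rw [h0, a1, mul_zero, mul_zero, zero_add, zero_add] at this
    exact (mul_eq_zero.1 this).resolve_left hC0
  by_cases h0 : w 0 = 0
  · intro i
    induction i using Nat.strong_induction_on with
    | _ i ih =>
      intro hi
      rcases i with _ | _ | i
      · exact h0
      · exact (hz 0 (by omega) h0).1
      · exact (hz i hi (ih i (by omega) (by omega))).2
  · exfalso
    have h3 : ∀ i, i + 1 ≤ m → w 0 * w (i + 1) = w 1 * w i := by
      intro i
      induction i with
      | zero => intro _; ring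
      | succ i ih =>
        intro hi
        by_cases hi0 : w i = 0
        · obtain ⟨a1, a2⟩ := hz i hi hi0
          rw [a1, show i + 1 + 1 = i + 2 from rfl, a2, mul_zero, mul_zero]
        · refine mul_left_cancel₀ hi0 ?_
          have := ih (by omega)
          linear_combination w 0 * hD i hi + w (i + 1) * this
    obtain ⟨Q, hQ⟩ := EuclideanDomain.gcd_dvd_left (w 0) (w 1)
    obtain ⟨P, hP⟩ := EuclideanDomain.gcd_dvd_right (w 0) (w 1)
    set g := EuclideanDomain.gcd (w 0) (w 1) with hg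
    have hg0 : g ≠ 0 := by
      intro h
      rw [h, zero_mul] at hQ
      exact h0 hQ
    have hco : IsCoprime Q P := by
      have h4 := EuclideanDomain.gcd_eq_gcd_ab (w 0) (w 1)
      rw [← hg] at h4
      refine ⟨EuclideanDomain.gcdA (w 0) (w 1), EuclideanDomain.gcdB (w 0) (w 1), ?_⟩
      refine mul_left_cancel₀ hg0 ?_
      have h5 : g * (EuclideanDomain.gcdA (w 0) (w 1) * Q + EuclideanDomain.gcdB (w 0) (w 1) * P) =
          (g * Q) * EuclideanDomain.gcdA (w 0) (w 1) +
            (g * P) * EuclideanDomain.gcdB (w 0) (w 1) := by ring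
      rw [h5, ← hQ, ← hP, ← h4, mul_one]
    have hQ0 : Q ≠ 0 := by
      intro h
      rw [h, mul_zero] at hQ
      exact h0 hQ
    have h4 : ∀ i, i + 1 ≤ m → Q * w (i + 1) = P * w i := by
      intro i hi
      refine mul_left_cancel₀ hg0 ?_
      rw [← mul_assoc, ← mul_assoc, ← hQ, ← hP]
      exact h3 i hi
    have h5 : ∀ i, i ≤ m → Q ^ i * w i = P ^ i * w 0 := by
      intro i
      induction i with
      | zero => intro _; simp
      | succ i ih =>
        intro hi
        have a1 := h4 i hi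
        have a2 := ih (by omega)
        rw [pow_succ, mul_assoc, a1, pow_succ]
        linear_combination P * a2
    have h6 := h5 m le_rfl
    have hQd : Q.natDegree = 0 := by
      have a1 : Q ^ m ∣ w 0 := (IsCoprime.pow hco).dvd_of_dvd_mul_left (Dvd.intro _ h6)
      have a2 := natDegree_le_of_dvd a1 h0
      rw [natDegree_pow] at a2
      have a3 := hw 0 (by omega)
      by_contra hc
      have a4 : 1 ≤ Q.natDegree := Nat.one_le_iff_ne_zero.2 hc
      have a5 : m * 1 ≤ m * Q.natDegree := Nat.mul_le_mul_left _ a4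
      omega
    have hPd : P.natDegree = 0 := by
      by_cases hwm : w m = 0
      · rw [hwm, mul_zero] at h6
        have := (mul_eq_zero.1 h6.symm).resolve_right h0
        rw [(pow_eq_zero_iff (by omega)).1 this, natDegree_zero]
      · have a1 : P ^ m ∣ w m :=
          (IsCoprime.pow hco.symm).dvd_of_dvd_mul_left (Dvd.intro _ h6.symm)
        have a2 := natDegree_le_of_dvd a1 hwm
        rw [natDegree_pow] at a2
        have a3 := hw m le_rfl
        by_contra hc
        have a4 : 1 ≤ P.natDegree := Nat.one_le_iff_ne_zero.2 hc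
        have a5 : m * 1 ≤ m * P.natDegree := Nat.mul_le_mul_left _ a4
        omega
    obtain ⟨q, rfl⟩ := natDegree_eq_zero.1 hQd
    obtain ⟨p, rfl⟩ := natDegree_eq_zero.1 hPd
    have hq0 : q ≠ 0 := by
      rintro rfl
      exact hQ0 C_0
    have e1 : w 1 = C (p / q) * w 0 := by
      rw [hP, hQ, div_eq_mul_inv, C_mul]
      have : (C q : K[X]) * C q⁻¹ = 1 := by rw [← C_mul, mul_inv_cancel₀ hq0, C_1]
      linear_combination (-g * C p) * this
    have e2 : w 2 = C (p / q) ^ 2 * w 0 := by
      refine mul_left_cancel₀ h0 ?_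
      have := hD 0 (by omega)
      rw [show 0 + 2 = 2 from rfl, show 0 + 1 = 1 from rfl] at this
      rw [this, e1]
      ring
    have e3 := hrec 0 (by omega)
    rw [show 0 + 2 = 2 from rfl, show 0 + 1 = 1 from rfl, e1, e2] at e3
    have e4 : (A + C (p / q) * B + C (p / q) ^ 2 * C₁) * w 0 = 0 := by
      linear_combination e3
    exact (mul_eq_zero.1 e4).elim (hne _) h0

/-- The recurrence `w q + X² w (q + 2) = 0`. -/
theorem pt0 {n m : ℕ} (hm : n + 3 ≤ m) (w : ℕ → K[X]) (hw : ∀ i ≤ m, (w i).natDegree ≤ n)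
    (hrec : ∀ i, i + 2 ≤ m → w i + X ^ 2 * w (i + 2) = 0) : ∀ i ≤ m, w i = 0 := by
  refine pt2 (A := 1) (B := 0) (C₁ := X ^ 2) isCoprime_one_left (natDegree_X_pow 2) ?_ hm w hw ?_
  · intro ρ h
    have := congrArg (fun f => coeff f 0) h
    simp at this
  · intro i hi
    have := hrec i hi
    rw [one_mul, zero_mul, add_zero]
    exact this

/-- The recurrence `X² w q + w (q + 2) = 0`. -/
theorem pt0' {n m : ℕ} (hm : n + 3 ≤ m) (w : ℕ → K[X]) (hw : ∀ i ≤ m, (w i).natDegree ≤ n)
    (hrec : ∀ i, i + 2 ≤ m → X ^ 2 * w i + w (i + 2) = 0) : ∀ i ≤ m, w i = 0 := by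
  have h := pt0 hm (fun i => w (m - i)) (fun i _ => hw _ (Nat.sub_le _ _)) (fun i hi => by
    have h1 := hrec (m - (i + 2)) (by omega)
    have h2 : m - (i + 2) + 2 = m - i := by omega
    rw [h2] at h1
    show w (m - i) + X ^ 2 * w (m - (i + 2)) = 0
    rw [← h1]; ring)
  intro i hi
  have := h (m - i) (Nat.sub_le _ _)
  rwa [Nat.sub_sub_self hi] at this

/-- The case `ρ = 1`. -/
theorem pt1 [CharP K 2] {n m : ℕ} (hm : n + 3 ≤ m) (w : ℕ → K[X])
    (hw : ∀ i ≤ m, (w i).natDegree ≤ n)
    (hrec : ∀ i, i + 2 ≤ m →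
      (X ^ 2 + 1) * w i + X * w (i + 1) + (1 + X ^ 2) * w (i + 2) = 0) : ∀ i ≤ m, w i = 0 := by
  have h2 : (2 : K[X]) = 0 := CharP.cast_eq_zero K[X] 2
  let u : ℕ → ℕ → K[X] := fun i => Nat.rec w (fun _ f q => f q + f (q + 1)) i
  have u0 : ∀ q, u 0 q = w q := fun q => rfl
  have us : ∀ i q, u (i + 1) q = u i q + u i (q + 1) := fun i q => rfl
  have hu : ∀ i q, i + q ≤ m → (u i q).natDegree ≤ n := by
    intro i
    induction i with
    | zero => intro q hq; rw [u0]; exact hw q (by omega)
    | succ i ih =>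
      intro q hq
      rw [us]
      exact (natDegree_add_le _ _).trans (max_le (ih q (by omega)) (ih (q + 1) (by omega)))
  have hr : ∀ i q, i + q + 2 ≤ m →
      (X ^ 2 + 1) * u i q + X * u i (q + 1) + (1 + X ^ 2) * u i (q + 2) = 0 := by
    intro i
    induction i with
    | zero => intro q hq; simp only [u0]; exact hrec q (by omega)
    | succ i ih =>
      intro q hq
      have a1 := ih q (by omega)
      have a2 := ih (q + 1) (by omega)
      rw [us, us, us, show q + 1 + 1 = q + 2 from rfl]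
      rw [show q + 1 + 1 = q + 2 from rfl, show q + 1 + 2 = q + 2 + 1 from rfl] at a2
      linear_combination a1 + a2
  have hz : ∀ i ≤ m, u i 0 = 0 := by
    refine pt2 (A := X) (B := X) (C₁ := X ^ 2 + 1) ⟨-X, 1, by ring⟩ ?_ ?_ hm (fun i => u i 0)
      (fun i hi => hu i 0 (by omega)) ?_
    · have h3 : (X ^ 2 + 1 : K[X]) = X ^ 2 + C 1 := by rw [C_1]
      rw [h3]
      exact natDegree_X_pow_add_C
    · intro ρ h
      have a1 := congrArg (fun f => coeff f 2) h
      have a2 := congrArg (fun f => coeff f 1) h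
      rw [← C_pow] at h
      simp only [← C_pow, coeff_add, coeff_C_mul, coeff_X, coeff_X_pow, coeff_one, coeff_zero]
        at a1 a2
      norm_num at a1 a2
      rw [a1] at a2
      norm_num at a2
    · intro i hi
      have a1 := hr i 0 (by omega)
      simp only [us]
      rw [show 0 + 1 + 1 = 0 + 2 from rfl]
      linear_combination a1 + (X * u i 0 + (X ^ 2 + 1) * u i (0 + 1)) * h2
  have hall : ∀ q i, i + q ≤ m → u i q = 0 := by
    intro q
    induction q with
    | zero => intro i hi; exact hz i (by omega)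
    | succ q ih =>
      intro i hi
      have a1 := us i q
      rw [ih (i + 1) (by omega), ih i (by omega), zero_add] at a1
      exact a1.symm
  intro i hi
  rw [← u0]
  exact hall i 0 (by omega)

/-- The pointwise statement. -/
theorem pt3 [CharP K 2] (ρ : K) {n m : ℕ} (hm : n + 3 ≤ m) (w : ℕ → K[X])
    (hw : ∀ i ≤ m, (w i).natDegree ≤ n)
    (hrec : ∀ i, i + 2 ≤ m →
      (X ^ 2 + C ρ ^ 2) * w i + C ρ * X * w (i + 1) + (1 + C ρ ^ 2 * X ^ 2) * w (i + 2) = 0) :
    ∀ i ≤ m, w i = 0 := by
  by_cases h0 : ρ = 0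
  · subst h0
    refine pt0' hm w hw fun i hi => ?_
    have := hrec i hi
    rw [C_0] at this
    linear_combination this
  by_cases h1 : ρ = 1
  · subst h1
    refine pt1 hm w hw fun i hi => ?_
    have := hrec i hi
    rw [C_1] at this
    linear_combination this
  have h2 : ρ ^ 4 - 1 ≠ 0 := by
    intro h
    have h3 : (ρ - 1) ^ 4 = 0 := by
      have e : (2 : K) = 0 := CharP.cast_eq_zero K 2
      linear_combination h + (-2 * ρ ^ 3 + 3 * ρ ^ 2 - 2 * ρ + 1) * e
    have h4 : ρ - 1 = 0 := (pow_eq_zero_iff (by norm_num)).1 h3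
    exact h1 (sub_eq_zero.1 h4)
  refine pt2 (A := X ^ 2 + C ρ ^ 2) (B := C ρ * X) (C₁ := 1 + C ρ ^ 2 * X ^ 2) ?_ ?_ ?_ hm w hw hrec
  · refine ⟨C ((ρ ^ 4 - 1)⁻¹) * C ρ ^ 2, -C ((ρ ^ 4 - 1)⁻¹), ?_⟩
    have h3 : (C ((ρ ^ 4 - 1)⁻¹) : K[X]) * (C ρ ^ 4 - 1) = 1 := by
      rw [← C_pow, ← C_1, ← C_sub, ← C_mul, inv_mul_cancel₀ h2]
    linear_combination h3
  · rw [← C_pow]
    have h3 : (1 + C (ρ ^ 2) * X ^ 2 : K[X]) = C (ρ ^ 2) * X ^ 2 + C 0 * X + C 1 := by
      rw [C_0, C_1]; ring
    rw [h3]
    exact natDegree_quadratic (pow_ne_zero 2 h0)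
  · intro σ h
    have a1 := congrArg (fun f => coeff f 1) h
    have a2 := congrArg (fun f => coeff f 2) h
    simp only [← C_pow, coeff_add, coeff_C_mul, coeff_X, coeff_X_pow, coeff_one, coeff_zero,
      coeff_C] at a1 a2
    norm_num at a1 a2
    rcases a1 with a1 | a1
    · rw [a1] at a2
      norm_num at a2
    · exact h0 a1

end Pointwise

/-! #### infinite sequences -/

section Seq
variable {K : Type} [Field K]

/-- Infinite sequences of solutions. -/
structure Good (m d : ℕ) (w : ℕ → ℕ → K[X]) : Prop where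
  zero : ∀ p q, m < q → w p q = 0
  deg : ∀ p q, w p q ∈ degreeLT K d
  rel : ∀ p q, q + 2 ≤ m → X ^ 2 * w p q + w (p + 2) q + w p (q + 2) +
    X ^ 2 * w (p + 2) (q + 2) + X * w (p + 1) (q + 1) = 0

theorem nd_of_deg {d : ℕ} (hd : 1 ≤ d) {f : K[X]} (h : f ∈ degreeLT K d) :
    f.natDegree ≤ d - 1 := by
  rw [mem_degreeLT] at h
  by_cases hf : f = 0
  · rw [hf, natDegree_zero]; exact Nat.zero_le _
  · have := (natDegree_lt_iff_degree_lt hf).2 h
    omega

/-- the shift -/
noncomputable def shf (K : Type) [Field K] : Module.End K (ℕ → ℕ → K[X]) where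
  toFun w p := w (p + 1)
  map_add' _ _ := rfl
  map_smul' _ _ := rfl

theorem shf_pow (n : ℕ) (w : ℕ → ℕ → K[X]) (p : ℕ) : (shf K ^ n) w p = w (p + n) := by
  induction n generalizing p with
  | zero => rfl
  | succ n ih =>
    rw [pow_succ', Module.End.mul_apply]
    show ((shf K ^ n) w) (p + 1) = _
    rw [ih, add_right_comm, add_assoc]

theorem good_eig [CharP K 2] {m d : ℕ} (hd : 1 ≤ d) (hm : d + 2 ≤ m) {w : ℕ → ℕ → K[X]}
    (hw : Good m d w) (ρ : K) (h : ∀ p q, w (p + 1) q = C ρ * w p q) : w = 0 := by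
  have h0 : ∀ q ≤ m, w 0 q = 0 := by
    refine pt3 ρ (n := d - 1) (by omega) (fun q => w 0 q) (fun i _ => nd_of_deg hd (hw.deg 0 i)) ?_
    intro q hq
    have h1 := hw.rel 0 q hq
    rw [show 0 + 2 = 0 + 1 + 1 from rfl, h, h, h, h, h] at h1
    linear_combination h1
  have h1 : ∀ p q, w p q = 0 := by
    intro p
    induction p with
    | zero =>
      intro q
      rcases le_or_gt q m with hq | hq
      · exact h0 q hq
      · exact hw.zero 0 q hq
    | succ p ih => intro q; rw [h, ih, mul_zero]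
  funext p q
  exact h1 p q

theorem good_sub {m d : ℕ} {w : ℕ → ℕ → K[X]} (hw : Good m d w) (ρ : K) :
    Good m d (shf K w - ρ • w) := by
  have e : ∀ p q, (shf K w - ρ • w) p q = w (p + 1) q - C ρ * w p q := fun p q => by
    show w (p + 1) q - ρ • w p q = _
    rw [smul_eq_C_mul]
  refine ⟨fun p q hq => ?_, fun p q => ?_, fun p q hq => ?_⟩
  · rw [e, hw.zero _ q hq, hw.zero _ q hq, mul_zero, sub_zero]
  · rw [e, ← smul_eq_C_mul]
    exact Submodule.sub_mem _ (hw.deg _ _) (Submodule.smul_mem _ _ (hw.deg _ _))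
  · have h1 := hw.rel p q hq
    have h2 := hw.rel (p + 1) q hq
    simp only [e]
    rw [show p + 1 + 2 = p + 2 + 1 from rfl] at h2
    linear_combination h2 - C ρ * h1

theorem good_poly [IsAlgClosed K] [CharP K 2] {m d : ℕ} (hd : 1 ≤ d) (hm : d + 2 ≤ m) (N : ℕ) :
    ∀ (f : K[X]), f.natDegree ≤ N → f ≠ 0 → ∀ w : ℕ → ℕ → K[X], Good m d w →
      aeval (shf K) f w = 0 → w = 0 := by
  induction N with
  | zero =>
    intro f hf hf0 w _ h
    obtain ⟨a, rfl⟩ := natDegree_eq_zero.1 (Nat.le_zero.1 hf)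
    have ha : a ≠ 0 := by
      rintro rfl
      exact hf0 C_0
    rw [aeval_C, Module.algebraMap_end_apply] at h
    exact (smul_eq_zero.1 h).resolve_left ha
  | succ N ih =>
    intro f hf hf0 w hw h
    by_cases hd0 : f.natDegree = 0
    · exact ih f (by omega) hf0 w hw h
    obtain ⟨ρ, hρ⟩ := IsAlgClosed.exists_root f (fun h' => hd0 (natDegree_eq_of_degree_eq_some h'))
    obtain ⟨g, hg⟩ := dvd_iff_isRoot.2 hρ
    have hg0 : g ≠ 0 := by
      rintro rfl
      rw [mul_zero] at hg
      exact hf0 hg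
    have hgd : g.natDegree ≤ N := by
      have := natDegree_mul (X_sub_C_ne_zero ρ) hg0
      rw [← hg, natDegree_X_sub_C] at this
      omega
    have h1 : aeval (shf K) g (shf K w - ρ • w) = 0 := by
      rw [hg, mul_comm, map_mul, Module.End.mul_apply, map_sub, aeval_X, aeval_C] at h
      exact h
    have h2 := ih g hgd hg0 _ (good_sub hw ρ) h1
    refine good_eig hd hm hw ρ fun p q => ?_
    have h3 := congrFun (congrFun (sub_eq_zero.1 h2) p) q
    rw [← smul_eq_C_mul]
    exact h3

theorem good_per [IsAlgClosed K] [CharP K 2] {m d n : ℕ} (hd : 1 ≤ d) (hm : d + 2 ≤ m)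
    (hn : 0 < n) {w : ℕ → ℕ → K[X]} (hw : Good m d w) (h : ∀ p, w (p + n) = w p) : w = 0 := by
  have h1 : (X ^ n - 1 : K[X]) ≠ 0 := by
    have := X_pow_sub_C_ne_zero hn (1 : K)
    rwa [C_1] at this
  refine good_poly hd hm _ (X ^ n - 1) le_rfl h1 w hw ?_
  rw [map_sub, map_pow, aeval_X, map_one]
  funext p
  show (shf K ^ n) w p - w p = 0
  rw [shf_pow, h, sub_self]

end Seq

/-! #### finite sequences -/

theorem KLm_zero {d L m : ℕ} (hd : 1 ≤ d) (hm : d + 2 ≤ m)
    (hL : Fintype.card ((Fin (m + 1) → Fin d → ZMod 2) × (Fin (m + 1) → Fin d → ZMod 2)) + 1 ≤ L)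
    (G : ℕ → ℕ → Polynomial (ZMod 2)) (hz : ∀ p q, ¬ (p ≤ L ∧ q ≤ m) → G p q = 0)
    (hdeg : ∀ p q, G p q ∈ degreeLT (ZMod 2) d)
    (hrel : ∀ p q, p + 2 ≤ L → q + 2 ≤ m →
      X ^ 2 * G p q + G (p + 2) q + G p (q + 2) +
        X ^ 2 * G (p + 2) (q + 2) + X * G (p + 1) (q + 1) = 0) : ∀ p q, G p q = 0 := by
  let S := (Fin (m + 1) → Fin d → ZMod 2) × (Fin (m + 1) → Fin d → ZMod 2)
  have hL' : Fintype.card S + 1 ≤ L := hL
  let st : ℕ → Fin (m + 1) → Fin d → ZMod 2 := fun p q r => (G p q).coeff r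
  have hst : ∀ p p', st p = st p' → ∀ q, G p q = G p' q := by
    intro p p' h q
    rcases le_or_gt q m with hq | hq
    · ext r
      rcases lt_or_ge r d with hr | hr
      · exact congrFun (congrFun h ⟨q, Nat.lt_succ_of_le hq⟩) ⟨r, hr⟩
      · rw [coeff_eq_zero_of_degree_lt ((mem_degreeLT.1 (hdeg p q)).trans_le (by exact_mod_cast hr)),
          coeff_eq_zero_of_degree_lt ((mem_degreeLT.1 (hdeg p' q)).trans_le (by exact_mod_cast hr))]
    · rw [hz p q (by omega), hz p' q (by omega)]
  let F : Fin (Fintype.card S + 1) → S := fun i => (st i, st (i + 1))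
  obtain ⟨i', j', hne, hF⟩ := Fintype.exists_ne_map_eq_of_card_lt F (by simp)
  obtain ⟨i, j, hij, hjL, hG0, hG1⟩ : ∃ i j : ℕ, i < j ∧ j + 1 ≤ L ∧ (∀ q, G i q = G j q) ∧
      ∀ q, G (i + 1) q = G (j + 1) q := by
    have a1 := i'.2
    have a2 := j'.2
    have a3 := hst _ _ (congrArg Prod.fst hF)
    have a4 := hst _ _ (congrArg Prod.snd hF)
    rcases lt_or_gt_of_ne (Fin.val_ne_of_ne hne) with h | h
    · exact ⟨i', j', h, by omega, a3, a4⟩
    · exact ⟨j', i', h, by omega, fun q => (a3 q).symm, fun q => (a4 q).symm⟩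
  obtain ⟨n', hn0, rfl⟩ : ∃ n', 0 < n' ∧ j = i + n' := ⟨j - i, by omega, by omega⟩
  -- the periodic extension
  have hmod : ∀ s ≤ n' + 1, ∀ q, G (i + s % n') q = G (i + s) q := by
    intro s hs q
    rcases Nat.lt_or_ge s n' with h | h
    · rw [Nat.mod_eq_of_lt h]
    · rcases Nat.lt_or_ge n' s with h' | h'
      · have hsn : s = n' + 1 := by omega
        subst hsn
        rw [Nat.add_mod_left]
        rcases Nat.lt_or_ge 1 n' with h1 | h1
        · rw [Nat.mod_eq_of_lt h1, hG1, add_assoc]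
        · have h2 : n' = 1 := by omega
          subst h2
          rw [Nat.mod_one, add_zero, hG0, hG1, add_assoc]
      · have hsn : s = n' := by omega
        rw [hsn, Nat.mod_self, add_zero, hG0]
  let K := AlgebraicClosure (ZMod 2)
  have : CharP K 2 := charP_of_injective_algebraMap (algebraMap (ZMod 2) K).injective 2
  have hinj := (algebraMap (ZMod 2) K).injective
  let w : ℕ → ℕ → K[X] := fun p q => (G (i + p % n') q).map (algebraMap (ZMod 2) K)
  have hgood : Good m d w := by
    refine ⟨fun p q hq => ?_, fun p q => ?_, fun p q hq => ?_⟩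
    · show (G (i + p % n') q).map (algebraMap (ZMod 2) K) = 0
      rw [hz _ q (by omega), Polynomial.map_zero]
    · rw [mem_degreeLT]
      exact degree_map_le.trans_lt (mem_degreeLT.1 (hdeg _ q))
    · have hp : p % n' < n' := Nat.mod_lt _ hn0
      have e1 : ∀ q, G (i + (p + 1) % n') q = G (i + p % n' + 1) q := fun q => by
        rw [← Nat.mod_add_mod, hmod _ (by omega), add_assoc]
      have e2 : ∀ q, G (i + (p + 2) % n') q = G (i + p % n' + 2) q := fun q => by
        rw [← Nat.mod_add_mod, hmod _ (by omega), add_assoc]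
      have h1 := hrel (i + p % n') q (by omega) hq
      have h2 := congrArg (Polynomial.map (algebraMap (ZMod 2) K)) h1
      simp only [Polynomial.map_add, Polynomial.map_mul, Polynomial.map_pow, Polynomial.map_X,
        Polynomial.map_zero] at h2
      show X ^ 2 * (G (i + p % n') q).map _ + (G (i + (p + 2) % n') q).map _ +
        (G (i + p % n') (q + 2)).map _ + X ^ 2 * (G (i + (p + 2) % n') (q + 2)).map _ +
        X * (G (i + (p + 1) % n') (q + 1)).map _ = 0
      rw [e1, e2, e2]
      exact h2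
  have hw0 := good_per hd hm hn0 hgood (fun p => by
    funext q
    show (G (i + (p + n') % n') q).map _ = (G (i + p % n') q).map _
    rw [Nat.add_mod_right])
  have hGz : ∀ p q, G (i + p % n') q = 0 := by
    intro p q
    have := congrFun (congrFun hw0 p) q
    exact (Polynomial.map_eq_zero_iff hinj).1 this
  have hi0 : ∀ q, G i q = 0 := fun q => by
    have := hGz 0 q
    rwa [Nat.zero_mod, add_zero] at this
  have hi1 : ∀ q, G (i + 1) q = 0 := fun q => by
    rw [← hmod 1 (by omega) q]
    exact hGz 1 q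
  have hnd : ∀ p q, (G p q).natDegree ≤ d - 1 := fun p q => nd_of_deg hd (hdeg p q)
  have hup : ∀ k, i + k + 1 ≤ L → ∀ q, G (i + k) q = 0 ∧ G (i + k + 1) q = 0 := by
    intro k
    induction k with
    | zero => intro _ q; exact ⟨hi0 q, hi1 q⟩
    | succ k ih =>
      intro hk q
      have a1 := ih (by omega)
      refine ⟨(a1 q).2, ?_⟩
      rcases le_or_gt q m with hq | hq
      · refine pt0 (n := d - 1) (m := m) (by omega) (fun q => G (i + k + 2) q)
          (fun q _ => hnd _ q) ?_ q hq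
        intro q hq
        have := hrel (i + k) q (by omega) hq
        rw [(a1 q).1, (a1 (q + 2)).1, (a1 (q + 1)).2] at this
        linear_combination this
      · exact hz _ q (by omega)
  have hdn : ∀ k ≤ i, ∀ q, G (i - k) q = 0 ∧ G (i - k + 1) q = 0 := by
    intro k
    induction k with
    | zero => intro _ q; exact ⟨hi0 q, hi1 q⟩
    | succ k ih =>
      intro hk q
      have a1 := ih (by omega)
      obtain ⟨s, hs⟩ : ∃ s, i - k = s + 1 := ⟨i - k - 1, by omega⟩
      have hs' : i - (k + 1) = s := by omega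
      rw [hs] at a1
      rw [hs']
      refine ⟨?_, (a1 q).1⟩
      rcases le_or_gt q m with hq | hq
      · refine pt0' (n := d - 1) (m := m) (by omega) (fun q => G s q)
          (fun q _ => hnd _ q) ?_ q hq
        intro q hq
        have := hrel s q (by omega) hq
        rw [(a1 (q + 1)).1, show s + 2 = s + 1 + 1 from rfl, (a1 q).2, (a1 (q + 2)).2] at this
        linear_combination this
      · exact hz _ q (by omega)
  intro p q
  rcases le_or_gt p L with hp | hp
  · rcases le_or_gt p i with h | h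
    · have := (hdn (i - p) (Nat.sub_le _ _) q).1
      rwa [Nat.sub_sub_self h] at this
    · have := (hup (p - i - 1) (by omega) q).2
      rwa [show i + (p - i - 1) + 1 = p by omega] at this
  · exact hz p q (by omega)

/-- The spaces `K(L, m, b)` vanish for `m ≥ b + 1` and `L` large. -/
theorem K_vanish (b : ℕ) : ∃ L₀ : ℕ, ∀ L ≥ L₀, ∀ m ≥ b + 1, KLm b L m = ⊥ := by
  rcases Nat.lt_or_ge 1 b with hb | hb
  · refine ⟨Fintype.card ((Fin (b + 1 + 1) → Fin (b - 1) → ZMod 2) ×
      (Fin (b + 1 + 1) → Fin (b - 1) → ZMod 2)) + 1, fun L hL m hm => ?_⟩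
    rw [AddSubgroup.eq_bot_iff_forall]
    rintro G ⟨h1, h2, h3⟩
    have key : ∀ q0, q0 + (b + 1) ≤ m → ∀ p q, q ≤ b + 1 → G p (q0 + q) = 0 := by
      intro q0 hq0 p q hq
      have h4 := KLm_zero (d := b - 1) (L := L) (m := b + 1) (by omega) (by omega) hL
        (fun p q => if q ≤ b + 1 then G p (q0 + q) else 0) (fun p q h => ?_) (fun p q => ?_)
        (fun p q hp hq => ?_) p q
      · rwa [if_pos hq] at h4
      · split_ifs with h'
        · exact h1 _ _ (by omega)
        · rfl
      · split_ifs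
        · exact h2 _ _
        · exact Submodule.zero_mem _
      · rw [if_pos (by omega), if_pos (by omega), if_pos (by omega), if_pos (by omega),
          if_pos (by omega)]
        exact h3 p (q0 + q) hp (by omega)
    funext p q
    show G p q = 0
    rcases le_or_gt q m with hq | hq
    · rcases le_or_gt q (m - (b + 1)) with h | h
      · have := key q (by omega) p 0 (Nat.zero_le _)
        rwa [add_zero] at this
      · have := key (m - (b + 1)) (by omega) p (q - (m - (b + 1))) (by omega)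
        rwa [show m - (b + 1) + (q - (m - (b + 1))) = q by omega] at this
    · exact h1 p q (by omega)
  · refine ⟨0, fun L _ m _ => ?_⟩
    rw [AddSubgroup.eq_bot_iff_forall]
    rintro G ⟨h1, h2, h3⟩
    funext p q
    have h4 := h2 p q
    rw [show b - 1 = 0 by omega, mem_degreeLT] at h4
    show G p q = 0
    rw [← degree_eq_bot]
    by_contra h
    have := zero_le_degree_iff.2 (degree_eq_bot.not.1 h)
    exact absurd h4 (not_lt.2 this)

end T6

end Pool.Agent.N165.LC
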