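import Pool.Agent.N165.LC.Defs

/-!
Project LC, part T7: the kernel `KK` of `h` on the top local cohomology in terms of the spaces
`K(L, m, b)`; finiteness and a lower bound for its cardinality.
-/

namespace Pool.Agent.N165.LC

open AddMonoidAlgebra (single)

/-! ### T7 -/

section T7

variable {j : ℕ}

/-- exponent vector with given parts -/
def vec (α : Fin (j + 1) → ℤ) (δ : Fin 3 → ℤ) (u0 u1 v0 v1 y0 y1 : ℤ) : E j
  | .a l => α l
  | .u p => if p = 0 then u0 else u1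
  | .v q => if q = 0 then v0 else v1
  | .s r => δ r
  | .y t => if t = 0 then y0 else y1

theorem vec_eta (μ : E j) : μ = vec (fun l => μ (.a l)) (fun r => μ (.s r)) (μ (.u 0)) (μ (.u 1))
    (μ (.v 0)) (μ (.v 1)) (μ (.y 0)) (μ (.y 1)) := by
  funext w
  cases w with
  | a l => rfl
  | u p => fin_cases p <;> rfl
  | v q => fin_cases q <;> rfl
  | s r => rfl
  | y t => fin_cases t <;> rfl

theorem vec_sub_kap (α : Fin (j + 1) → ℤ) (δ : Fin 3 → ℤ) (u0 u1 v0 v1 y0 y1 a b c d e f : ℤ) :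
    vec α δ u0 u1 v0 v1 y0 y1 - kap j a b c d e f =
      vec α δ (u0 - a) (u1 - b) (v0 - c) (v1 - d) (y0 - e) (y1 - f) := by
  funext w
  cases w with
  | a l => simp [vec, kap]
  | u p => fin_cases p <;> simp [vec, kap]
  | v q => fin_cases q <;> simp [vec, kap]
  | s r => simp [vec, kap]
  | y t => fin_cases t <;> simp [vec, kap]

theorem vec_congr {α : Fin (j + 1) → ℤ} {δ : Fin 3 → ℤ} {u0 u1 v0 v1 y0 y1 : ℤ}
    {u0' u1' v0' v1' y0' y1' : ℤ} (h1 : u0 = u0') (h2 : u1 = u1') (h3 : v0 = v0') (h4 : v1 = v1')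
    (h5 : y0 = y0') (h6 : y1 = y1') :
    vec α δ u0 u1 v0 v1 y0 y1 = vec α δ u0' u1' v0' v1' y0' y1' := by
  rw [h1, h2, h3, h4, h5, h6]

theorem dA_vec (α : Fin (j + 1) → ℤ) (δ : Fin 3 → ℤ) (u0 u1 v0 v1 y0 y1 : ℤ) :
    dA (vec α δ u0 u1 v0 v1 y0 y1) = ∑ l, α l := rfl

theorem dU_vec (α : Fin (j + 1) → ℤ) (δ : Fin 3 → ℤ) (u0 u1 v0 v1 y0 y1 : ℤ) :
    dU (vec α δ u0 u1 v0 v1 y0 y1) = u0 + u1 := by
  simp [dU, vec]

theorem dV_vec (α : Fin (j + 1) → ℤ) (δ : Fin 3 → ℤ) (u0 u1 v0 v1 y0 y1 : ℤ) :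
    dV (vec α δ u0 u1 v0 v1 y0 y1) = v0 + v1 := by
  simp [dV, vec]

theorem dS_vec (α : Fin (j + 1) → ℤ) (δ : Fin 3 → ℤ) (u0 u1 v0 v1 y0 y1 : ℤ) :
    dS (vec α δ u0 u1 v0 v1 y0 y1) = ∑ r, δ r := rfl

theorem dY_vec (α : Fin (j + 1) → ℤ) (δ : Fin 3 → ℤ) (u0 u1 v0 v1 y0 y1 : ℤ) :
    dY (vec α δ u0 u1 v0 v1 y0 y1) = y0 + y1 := by
  simp [dY, vec]

theorem fullNeg_vec {α : Fin (j + 1) → ℤ} {δ : Fin 3 → ℤ} {u0 u1 v0 v1 y0 y1 : ℤ} :
    FullNeg (vec α δ u0 u1 v0 v1 y0 y1) ↔ (∀ l, α l < 0) ∧ (u0 < 0 ∧ u1 < 0) ∧ (v0 < 0 ∧ v1 < 0) ∧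
      (∀ r, δ r < 0) ∧ (0 ≤ y0 ∧ 0 ≤ y1) := by
  unfold FullNeg
  simp only [Fin.forall_fin_two]
  simp [vec]

theorem coeff_hh (f : Lam j) (μ : E j) : (hh j * f).coeff μ =
    f.coeff (μ - hE j 0) + f.coeff (μ - hE j 1) + f.coeff (μ - hE j 2) + f.coeff (μ - hE j 3) +
      f.coeff (μ - hE j 4) := by
  unfold hh
  rw [Finset.sum_mul, Fin.sum_univ_five]
  simp only [AddMonoidAlgebra.coeff_add, Finsupp.add_apply,
    AddMonoidAlgebra.coeff_single_mul_apply, one_mul, neg_add_eq_sub]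

/-- the point of the slice -/
def pt (α : Fin (j + 1) → ℤ) (δ : Fin 3 → ℤ) (b L m p q r : ℤ) : E j :=
  vec α δ (-1 - (L - p)) (-1 - p) (-1 - (m - q)) (-1 - q) (b - 2 - r) r

/-- the point of the target -/
def pt' (α : Fin (j + 1) → ℤ) (δ : Fin 3 → ℤ) (b L m p q r : ℤ) : E j :=
  vec α δ (1 - (L - p)) (-1 - p) (1 - (m - q)) (-1 - q) (b - r) r

theorem pt'_sub (α : Fin (j + 1) → ℤ) (δ : Fin 3 → ℤ) (b L m p q r : ℤ) :
    pt' α δ b L m p q r - hE j 0 = pt α δ b L m p q (r - 2) ∧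
    pt' α δ b L m p q r - hE j 1 = pt α δ b L m (p + 2) q r ∧
    pt' α δ b L m p q r - hE j 2 = pt α δ b L m p (q + 2) r ∧
    pt' α δ b L m p q r - hE j 3 = pt α δ b L m (p + 2) (q + 2) (r - 2) ∧
    pt' α δ b L m p q r - hE j 4 = pt α δ b L m (p + 1) (q + 1) (r - 1) := by
  unfold pt' pt
  refine ⟨?_, ?_, ?_, ?_, ?_⟩
  · show _ - kap j 2 0 2 0 0 2 = _
    rw [vec_sub_kap]
    apply vec_congr <;> ring
  · show _ - kap j 0 2 2 0 2 0 = _
    rw [vec_sub_kap]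
    apply vec_congr <;> ring
  · show _ - kap j 2 0 0 2 2 0 = _
    rw [vec_sub_kap]
    apply vec_congr <;> ring
  · show _ - kap j 0 2 0 2 0 2 = _
    rw [vec_sub_kap]
    apply vec_congr <;> ring
  · show _ - kap j 1 1 1 1 1 1 = _
    rw [vec_sub_kap]
    apply vec_congr <;> ring

theorem coeff_hh_pt (f : Lam j) (α : Fin (j + 1) → ℤ) (δ : Fin 3 → ℤ) (b L m p q r : ℤ) :
    (hh j * f).coeff (pt' α δ b L m p q r) =
      f.coeff (pt α δ b L m p q (r - 2)) + f.coeff (pt α δ b L m (p + 2) q r) +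
      f.coeff (pt α δ b L m p (q + 2) r) + f.coeff (pt α δ b L m (p + 2) (q + 2) (r - 2)) +
      f.coeff (pt α δ b L m (p + 1) (q + 1) (r - 1)) := by
  obtain ⟨h0, h1, h2, h3, h4⟩ := pt'_sub (j := j) α δ b L m p q r
  rw [coeff_hh, h0, h1, h2, h3, h4]

theorem fullNeg_pt {α : Fin (j + 1) → ℤ} {δ : Fin 3 → ℤ} {b L m p q r : ℤ}
    (h : FullNeg (pt α δ b L m p q r)) :
    0 ≤ p ∧ p ≤ L ∧ 0 ≤ q ∧ q ≤ m ∧ 0 ≤ r ∧ r ≤ b - 2 := by
  unfold pt at h
  obtain ⟨-, ⟨h1, h2⟩, ⟨h3, h4⟩, -, h5, h6⟩ := fullNeg_vec.1 h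
  refine ⟨?_, ?_, ?_, ?_, ?_, ?_⟩ <;> omega

/-! #### slices -/

open Polynomial

/-- the slice of `f` -/
noncomputable def slice (f : Lam j) (α : Fin (j + 1) → ℤ) (δ : Fin 3 → ℤ) (b L m : ℕ) :
    ℕ → ℕ → (ZMod 2)[X] := fun p q =>
  ∑ r ∈ Finset.range (b - 1), monomial r (f.coeff (pt α δ b L m p q r))

theorem slice_coeff {b : ℕ} {f : Lam j} (hf : f ∈ KK j b) (α : Fin (j + 1) → ℤ) (δ : Fin 3 → ℤ)
    (L m p q r : ℕ) : (slice f α δ b L m p q).coeff r = f.coeff (pt α δ b L m p q r) := by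
  unfold slice
  rw [finsetSum_coeff]
  simp only [coeff_monomial]
  rw [Finset.sum_ite_eq' (Finset.range (b - 1)) r]
  split_ifs with h
  · rfl
  · symm
    by_contra hne
    have h1 := fullNeg_pt (hf.1 _ hne).1
    rw [Finset.mem_range] at h
    omega

theorem slice_mem {b : ℕ} {f : Lam j} (hf : f ∈ KK j b) {α : Fin (j + 1) → ℤ} {δ : Fin 3 → ℤ}
    (hα : ∀ l, α l < 0) (hδ : ∀ r, δ r < 0) (L m : ℕ) : slice f α δ b L m ∈ KLm b L m := by
  have hz : ∀ p q r : ℤ, ¬ (0 ≤ p ∧ p ≤ L ∧ 0 ≤ q ∧ q ≤ m ∧ 0 ≤ r ∧ r ≤ b - 2) →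
      f.coeff (pt α δ b L m p q r) = 0 := by
    intro p q r h
    by_contra hne
    exact h (fullNeg_pt (hf.1 _ hne).1)
  refine ⟨?_, ?_, ?_⟩
  · intro p q h
    ext r
    rw [slice_coeff hf, hz p q r (by omega)]
    simp
  · intro p q
    rw [mem_degreeLT, degree_lt_iff_coeff_zero]
    intro r hr
    rw [slice_coeff hf, hz p q r (by omega)]
  · intro p q hp hq
    ext r
    have e1 : ∀ (p q : ℕ), (X ^ 2 * slice f α δ b L m p q).coeff r =
        f.coeff (pt α δ b L m p q ((r : ℤ) - 2)) := by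
      intro p q
      rw [coeff_X_pow_mul']
      split_ifs with h
      · rw [slice_coeff hf]
        congr 2
        push_cast [h]
        rfl
      · exact (hz _ _ _ (by omega)).symm
    have e2 : ∀ (p q : ℕ), (X * slice f α δ b L m p q).coeff r =
        f.coeff (pt α δ b L m p q ((r : ℤ) - 1)) := by
      intro p q
      rcases Nat.eq_zero_or_pos r with h | h
      · subst h
        rw [mul_coeff_zero, coeff_X_zero, zero_mul]
        exact (hz _ _ _ (by omega)).symm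
      · obtain ⟨r', rfl⟩ : ∃ r', r = r' + 1 := ⟨r - 1, by omega⟩
        rw [coeff_X_mul, slice_coeff hf]
        congr 2
        push_cast
        ring
    rw [coeff_add, coeff_add, coeff_add, coeff_add, e1, e1, e2, slice_coeff hf, slice_coeff hf,
      coeff_zero]
    push_cast
    by_cases hr : (r : ℤ) ≤ b
    · rw [← coeff_hh_pt]
      apply hf.2
      unfold pt'
      rw [fullNeg_vec]
      refine ⟨hα, ?_, ?_, hδ, ?_⟩ <;> constructor <;> omega
    · rw [hz _ _ _ (by omega), hz _ _ _ (by omega), hz _ _ _ (by omega), hz _ _ _ (by omega),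
        hz _ _ _ (by omega)]
      simp

theorem eq_pt (μ : E j) (b : ℤ) (hy : dY μ = b - 2) :
    μ = pt (fun l => μ (.a l)) (fun r => μ (.s r)) b (-2 - dU μ) (-2 - dV μ) (-1 - μ (.u 1))
      (-1 - μ (.v 1)) (μ (.y 1)) := by
  conv_lhs => rw [vec_eta μ]
  unfold pt
  have h1 : dU μ = μ (.u 0) + μ (.u 1) := by simp [dU]
  have h2 : dV μ = μ (.v 0) + μ (.v 1) := by simp [dV]
  have h3 : dY μ = μ (.y 0) + μ (.y 1) := by simp [dY]
  apply vec_congr <;> omega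

theorem KK_finite (j b : ℕ) (hK : ∃ L₀ : ℕ, ∀ L ≥ L₀, ∀ m ≥ b + 1, KLm b L m = ⊥) :
    Finite (KK j b) := by
  obtain ⟨L₀, hL₀⟩ := hK
  set N : ℤ := L₀ + b + 5 with hN
  set S : Set (E j) := Set.Icc (fun _ => -N) (fun _ => N) with hS
  have hSfin : S.Finite := Set.finite_Icc _ _
  have hsupp : ∀ f ∈ KK j b, ∀ μ, f.coeff μ ≠ 0 → μ ∈ S := by
    intro f hf μ hμ
    obtain ⟨⟨ha, hu, hv, hs, hy⟩, hY, hU, hSS⟩ := hf.1 μ hμ
    have hdA : dA μ ≤ -(j + 1 : ℤ) := by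
      unfold dA
      have : ∑ l : Fin (j + 1), μ (.a l) ≤ ∑ _l : Fin (j + 1), (-1 : ℤ) :=
        Finset.sum_le_sum fun l _ => by have := ha l; omega
      simpa using this
    have hdS : dS μ ≤ -3 := by
      have h1 := hs 0
      have h2 := hs 1
      have h3 := hs 2
      unfold dS
      rw [Fin.sum_univ_three]
      omega
    have hu0 := hu 0
    have hu1 := hu 1
    have hv0 := hv 0
    have hv1 := hv 1
    have hy0 := hy 0
    have hy1 := hy 1
    have hdU : dU μ = μ (.u 0) + μ (.u 1) := by simp [dU]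
    have hdV : dV μ = μ (.v 0) + μ (.v 1) := by simp [dV]
    have hdY : dY μ = μ (.y 0) + μ (.y 1) := by simp [dY]
    have hdS' : dS μ = μ (.s 0) + μ (.s 1) + μ (.s 2) := by simp [dS, Fin.sum_univ_three]
    obtain ⟨L, hL⟩ : ∃ L : ℕ, (L : ℤ) = -2 - dU μ := ⟨(-2 - dU μ).toNat, by omega⟩
    obtain ⟨m, hm⟩ : ∃ m : ℕ, (m : ℤ) = -2 - dV μ := ⟨(-2 - dV μ).toNat, by omega⟩
    obtain ⟨p, hp⟩ : ∃ p : ℕ, (p : ℤ) = -1 - μ (.u 1) := ⟨(-1 - μ (.u 1)).toNat, by omega⟩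
    obtain ⟨q, hq⟩ : ∃ q : ℕ, (q : ℤ) = -1 - μ (.v 1) := ⟨(-1 - μ (.v 1)).toNat, by omega⟩
    obtain ⟨r, hr⟩ : ∃ r : ℕ, (r : ℤ) = μ (.y 1) := ⟨(μ (.y 1)).toNat, by omega⟩
    have hmb : b + 1 ≤ m := by omega
    have hLL : L < L₀ := by
      by_contra hcon
      have h1 := hL₀ L (by omega) m hmb
      have h2 := slice_mem hf ha hs L m
      rw [h1] at h2
      have h3 : slice f (fun l => μ (.a l)) (fun r => μ (.s r)) b L m = 0 := h2
      have h4 := slice_coeff hf (fun l => μ (.a l)) (fun r => μ (.s r)) L m p q r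
      rw [h3] at h4
      apply hμ
      rw [eq_pt μ b hY, ← hL, ← hm, ← hp, ← hq, ← hr, ← h4]
      simp
    have ha' : ∀ l, -N ≤ μ (.a l) := by
      intro l
      have h1 : dA μ ≤ μ (.a l) := by
        unfold dA
        rw [← Finset.add_sum_erase _ _ (Finset.mem_univ l)]
        have : ∑ x ∈ Finset.univ.erase l, μ (.a x) ≤ 0 :=
          Finset.sum_nonpos fun x _ => (ha x).le
        omega
      omega
    have hs0 := hs 0
    have hs1 := hs 1
    have hs2 := hs 2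
    rw [hS, Set.mem_Icc]
    constructor
    · intro w
      show -N ≤ μ w
      cases w with
      | a l => exact ha' l
      | u p => fin_cases p <;> simp <;> omega
      | v q => fin_cases q <;> simp <;> omega
      | s r => fin_cases r <;> simp <;> omega
      | y t => fin_cases t <;> simp <;> omega
    · intro w
      show μ w ≤ N
      cases w with
      | a l => have := ha l; omega
      | u p => fin_cases p <;> simp <;> omega
      | v q => fin_cases q <;> simp <;> omega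
      | s r => fin_cases r <;> simp <;> omega
      | y t => fin_cases t <;> simp <;> omega
  have : Finite S := hSfin
  refine Finite.of_injective (β := S → ZMod 2) (fun f x => (f : Lam j).coeff x) ?_
  intro f g hfg
  apply Subtype.ext
  apply AddMonoidAlgebra.ext
  ext μ
  by_cases hμ : μ ∈ S
  · exact congrFun hfg ⟨μ, hμ⟩
  · have h1 : (f : Lam j).coeff μ = 0 := by
      by_contra h
      exact hμ (hsupp _ f.2 μ h)
    have h2 : (g : Lam j).coeff μ = 0 := by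
      by_contra h
      exact hμ (hsupp _ g.2 μ h)
    rw [h1, h2]

/-! #### elements of the kernel -/

/-- the data of an element supported on one slice -/
abbrev DD (b L m : ℕ) : Type := Fin (L + 1) × Fin (m + 1) × Fin (b - 1) → ZMod 2

/-- extension by zero -/
def ext0 {b L m : ℕ} (c : DD b L m) (p q r : ℤ) : ZMod 2 :=
  if h : (0 ≤ p ∧ p < (L + 1 : ℕ)) ∧ (0 ≤ q ∧ q < (m + 1 : ℕ)) ∧ (0 ≤ r ∧ r < (b - 1 : ℕ)) then
    c (⟨p.toNat, by omega⟩, ⟨q.toNat, by omega⟩, ⟨r.toNat, by omega⟩) else 0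

theorem ext0_add {b L m : ℕ} (c c' : DD b L m) (p q r : ℤ) :
    ext0 (c + c') p q r = ext0 c p q r + ext0 c' p q r := by
  unfold ext0
  split_ifs
  · rfl
  · simp

theorem ext0_zero {b L m : ℕ} (p q r : ℤ) : ext0 (0 : DD b L m) p q r = 0 := by
  unfold ext0
  split_ifs <;> rfl

theorem ext0_nat {b L m : ℕ} (c : DD b L m) (x : Fin (L + 1) × Fin (m + 1) × Fin (b - 1)) :
    ext0 c (x.1 : ℕ) (x.2.1 : ℕ) (x.2.2 : ℕ) = c x := by
  unfold ext0
  rw [dif_pos]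
  · rfl
  · have h1 := x.1.2
    have h2 := x.2.1.2
    have h3 := x.2.2.2
    refine ⟨⟨?_, ?_⟩, ⟨?_, ?_⟩, ?_, ?_⟩ <;> omega

/-- the recurrence -/
def Theta (b L m : ℕ) : DD b L m →+ (Fin (L - 1) × Fin (m - 1) × Fin (b + 1) → ZMod 2) where
  toFun c y := ext0 c (y.1 : ℕ) (y.2.1 : ℕ) ((y.2.2 : ℕ) - 2) +
    ext0 c ((y.1 : ℕ) + 2) (y.2.1 : ℕ) (y.2.2 : ℕ) +
    ext0 c (y.1 : ℕ) ((y.2.1 : ℕ) + 2) (y.2.2 : ℕ) +
    ext0 c ((y.1 : ℕ) + 2) ((y.2.1 : ℕ) + 2) ((y.2.2 : ℕ) - 2) +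
    ext0 c ((y.1 : ℕ) + 1) ((y.2.1 : ℕ) + 1) ((y.2.2 : ℕ) - 1)
  map_zero' := by
    funext y
    simp [ext0_zero]
  map_add' c c' := by
    funext y
    simp only [ext0_add, Pi.add_apply]
    ring

theorem card_ker_Theta (b l : ℕ) (hb : 6 * l + 20 ≤ b ^ 2 + 6 * b) :
    2 ^ (b ^ 2) ≤ Nat.card (Theta b (l + 3) (b + 3)).ker := by
  set Θ := Theta b (l + 3) (b + 3) with hΘ
  have h1 : Nat.card Θ.ker * Θ.ker.index = Nat.card (DD b (l + 3) (b + 3)) :=
    AddSubgroup.card_mul_index _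
  rw [AddSubgroup.index_ker] at h1
  have h2 : Nat.card Θ.range ≤
      Nat.card (Fin (l + 3 - 1) × Fin (b + 3 - 1) × Fin (b + 1) → ZMod 2) :=
    Nat.card_le_card_of_injective (Subtype.val : Θ.range → _) Subtype.val_injective
  have e1 : Nat.card (DD b (l + 3) (b + 3)) = 2 ^ ((l + 4) * ((b + 4) * (b - 1))) := by
    rw [Nat.card_eq_fintype_card, Fintype.card_fun, Fintype.card_prod, Fintype.card_prod,
      Fintype.card_fin, Fintype.card_fin, Fintype.card_fin, ZMod.card]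
  have e2 : Nat.card (Fin (l + 3 - 1) × Fin (b + 3 - 1) × Fin (b + 1) → ZMod 2) =
      2 ^ ((l + 2) * ((b + 2) * (b + 1))) := by
    rw [Nat.card_eq_fintype_card, Fintype.card_fun, Fintype.card_prod, Fintype.card_prod,
      Fintype.card_fin, Fintype.card_fin, Fintype.card_fin, ZMod.card]
    rfl
  rw [e1] at h1
  rw [e2] at h2
  have h3 : 2 ^ ((l + 4) * ((b + 4) * (b - 1))) ≤
      Nat.card Θ.ker * 2 ^ ((l + 2) * ((b + 2) * (b + 1))) := by
    rw [← h1]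
    exact Nat.mul_le_mul_left _ h2
  have h4 : b ^ 2 + (l + 2) * ((b + 2) * (b + 1)) ≤ (l + 4) * ((b + 4) * (b - 1)) := by
    obtain ⟨b', rfl⟩ : ∃ b', b = b' + 1 := by
      rcases Nat.eq_zero_or_pos b with h | h
      · subst h
        omega
      · exact ⟨b - 1, by omega⟩
    rw [Nat.add_sub_cancel]
    nlinarith
  have h5 : 2 ^ (b ^ 2) * 2 ^ ((l + 2) * ((b + 2) * (b + 1))) ≤
      Nat.card Θ.ker * 2 ^ ((l + 2) * ((b + 2) * (b + 1))) := by
    rw [← pow_add]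
    exact (Nat.pow_le_pow_right (by norm_num) h4).trans h3
  exact Nat.le_of_mul_le_mul_right h5 (by positivity)

/-- the element of the Laurent ring with given data on one slice -/
noncomputable def one (α : Fin (j + 1) → ℤ) {b L m : ℕ} (c : DD b L m) : Lam j :=
  ∑ x : Fin (L + 1) × Fin (m + 1) × Fin (b - 1),
    single (pt α (fun _ => -1) b L m (x.1 : ℕ) (x.2.1 : ℕ) (x.2.2 : ℕ)) (c x)

theorem pt_inj {α α' : Fin (j + 1) → ℤ} {δ δ' : Fin 3 → ℤ} {b L m L' m' p q r p' q' r' : ℤ}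
    (h : pt α δ b L m p q r = pt α' δ' b L' m' p' q' r') : α = α' ∧ p = p' ∧ q = q' ∧ r = r' := by
  refine ⟨?_, ?_, ?_, ?_⟩
  · funext l
    exact congrFun h (.a l)
  · have : -1 - p = -1 - p' := congrFun h (.u 1)
    omega
  · have : -1 - q = -1 - q' := congrFun h (.v 1)
    omega
  · exact congrFun h (.y 1)

theorem coeff_one_pt (α : Fin (j + 1) → ℤ) {b L m : ℕ} (c : DD b L m) (p q r : ℤ) :
    (one α c).coeff (pt α (fun _ => -1) b L m p q r) = ext0 c p q r := by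
  unfold one
  rw [AddMonoidAlgebra.coeff_sum, Finsupp.finsetSum_apply]
  simp only [AddMonoidAlgebra.coeff_single, Finsupp.single_apply]
  by_cases h : (0 ≤ p ∧ p < (L + 1 : ℕ)) ∧ (0 ≤ q ∧ q < (m + 1 : ℕ)) ∧ (0 ≤ r ∧ r < (b - 1 : ℕ))
  · set x₀ : Fin (L + 1) × Fin (m + 1) × Fin (b - 1) :=
      (⟨p.toNat, by omega⟩, ⟨q.toNat, by omega⟩, ⟨r.toNat, by omega⟩) with hx₀
    rw [Finset.sum_eq_single x₀]
    · have hp : ((x₀.1 : ℕ) : ℤ) = p := by rw [hx₀]; exact Int.toNat_of_nonneg h.1.1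
      have hq : ((x₀.2.1 : ℕ) : ℤ) = q := by rw [hx₀]; exact Int.toNat_of_nonneg h.2.1.1
      have hr : ((x₀.2.2 : ℕ) : ℤ) = r := by rw [hx₀]; exact Int.toNat_of_nonneg h.2.2.1
      rw [hp, hq, hr, if_pos rfl]
      unfold ext0
      rw [dif_pos h]
    · intro x _ hx
      rw [if_neg]
      intro heq
      obtain ⟨-, h1, h2, h3⟩ := pt_inj heq
      apply hx
      rw [hx₀]
      refine Prod.ext (Fin.ext ?_) (Prod.ext (Fin.ext ?_) (Fin.ext ?_))
      · show (x.1 : ℕ) = p.toNat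
        omega
      · show (x.2.1 : ℕ) = q.toNat
        omega
      · show (x.2.2 : ℕ) = r.toNat
        omega
    · intro h'
      exact absurd (Finset.mem_univ _) h'
  · unfold ext0
    rw [dif_neg h]
    refine Finset.sum_eq_zero fun x _ => ?_
    rw [if_neg]
    intro heq
    obtain ⟨-, h1, h2, h3⟩ := pt_inj heq
    apply h
    have h4 := x.1.2
    have h5 := x.2.1.2
    have h6 := x.2.2.2
    refine ⟨⟨?_, ?_⟩, ⟨?_, ?_⟩, ?_, ?_⟩ <;> omega

theorem exists_of_coeff_one {α : Fin (j + 1) → ℤ} {b L m : ℕ} {c : DD b L m} {μ : E j}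
    (h : (one α c).coeff μ ≠ 0) : ∃ x : Fin (L + 1) × Fin (m + 1) × Fin (b - 1),
      μ = pt α (fun _ => -1) b L m (x.1 : ℕ) (x.2.1 : ℕ) (x.2.2 : ℕ) := by
  by_contra hcon
  push Not at hcon
  apply h
  unfold one
  rw [AddMonoidAlgebra.coeff_sum, Finsupp.finsetSum_apply]
  simp only [AddMonoidAlgebra.coeff_single, Finsupp.single_apply]
  refine Finset.sum_eq_zero fun x _ => ?_
  rw [if_neg fun heq => hcon x heq.symm]

theorem one_zero (α : Fin (j + 1) → ℤ) (b L m : ℕ) : one α (0 : DD b L m) = 0 := by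
  unfold one
  refine Finset.sum_eq_zero fun x _ => ?_
  simp

theorem one_mem (α : Fin (j + 1) → ℤ) (hα : ∀ l, α l < 0) (b l : ℕ) (hl : ∑ i, α i = -(l : ℤ))
    {c : DD b (l + 3) (b + 3)} (hc : c ∈ (Theta b (l + 3) (b + 3)).ker) : one α c ∈ KK j b := by
  constructor
  · intro μ hμ
    obtain ⟨x, rfl⟩ := exists_of_coeff_one hμ
    have h4 := x.1.2
    have h5 := x.2.1.2
    have h6 := x.2.2.2
    unfold pt
    refine ⟨fullNeg_vec.2 ⟨hα, ⟨?_, ?_⟩, ⟨?_, ?_⟩, fun _ => by norm_num, ?_, ?_⟩, ?_⟩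
    · push_cast; omega
    · omega
    · push_cast; omega
    · omega
    · omega
    · omega
    · refine ⟨?_, ?_, ?_⟩
      · rw [dY_vec]; ring
      · rw [dU_vec, dA_vec, dV_vec, hl]; push_cast; ring
      · rw [dS_vec, dV_vec, Fin.sum_univ_three]; push_cast; ring
  · intro μ hμ
    by_contra hne
    -- one of the five coefficients is nonzero
    have h1 : ∃ i : Fin 5, (one α c).coeff (μ - hE j i) ≠ 0 := by
      by_contra hcon
      push Not at hcon
      apply hne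
      rw [coeff_hh, hcon, hcon, hcon, hcon, hcon]
      simp
    obtain ⟨i, hi⟩ := h1
    obtain ⟨x, hx⟩ := exists_of_coeff_one hi
    have hμx : μ = pt α (fun _ => -1) b (l + 3 : ℕ) (b + 3 : ℕ) (x.1 : ℕ) (x.2.1 : ℕ) (x.2.2 : ℕ) +
        hE j i := by rw [← hx]; abel
    -- the degrees of `μ`
    have ha : (fun l => μ (.a l)) = α := by
      funext l'
      rw [hμx]
      show α l' + hE j i (.a l') = α l'
      have : hE j i (.a l') = 0 := by fin_cases i <;> rfl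
      rw [this, add_zero]
    have hs : (fun r => μ (.s r)) = fun _ => (-1 : ℤ) := by
      funext r
      rw [hμx]
      show -1 + hE j i (.s r) = -1
      have : hE j i (.s r) = 0 := by fin_cases i <;> rfl
      rw [this, add_zero]
    have hu : μ (.u 0) + μ (.u 1) = -((l : ℤ) + 3) := by
      have e0 : μ (.u 0) = -1 - (((l + 3 : ℕ) : ℤ) - ((x.1 : ℕ) : ℤ)) + hE j i (.u 0) := by
        rw [hμx]; rfl
      have e1 : μ (.u 1) = -1 - ((x.1 : ℕ) : ℤ) + hE j i (.u 1) := by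
        rw [hμx]; rfl
      have : hE j i (.u 0) + hE j i (.u 1) = 2 := by fin_cases i <;> simp [hE, kap]
      push_cast at e0
      omega
    have hv : μ (.v 0) + μ (.v 1) = -((b : ℤ) + 3) := by
      have e0 : μ (.v 0) = -1 - (((b + 3 : ℕ) : ℤ) - ((x.2.1 : ℕ) : ℤ)) + hE j i (.v 0) := by
        rw [hμx]; rfl
      have e1 : μ (.v 1) = -1 - ((x.2.1 : ℕ) : ℤ) + hE j i (.v 1) := by
        rw [hμx]; rfl
      have : hE j i (.v 0) + hE j i (.v 1) = 2 := by fin_cases i <;> simp [hE, kap]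
      push_cast at e0
      omega
    have hy : μ (.y 0) + μ (.y 1) = b := by
      have e0 : μ (.y 0) = (b : ℤ) - 2 - ((x.2.2 : ℕ) : ℤ) + hE j i (.y 0) := by
        rw [hμx]; rfl
      have e1 : μ (.y 1) = ((x.2.2 : ℕ) : ℤ) + hE j i (.y 1) := by
        rw [hμx]; rfl
      have : hE j i (.y 0) + hE j i (.y 1) = 2 := by fin_cases i <;> simp [hE, kap]
      omega
    obtain ⟨-, hu', hv', -, hy'⟩ := hμ
    have hu0 := hu' 0
    have hu1 := hu' 1
    have hv0 := hv' 0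
    have hv1 := hv' 1
    have hy0 := hy' 0
    have hy1 := hy' 1
    obtain ⟨p, hp⟩ : ∃ p : ℕ, (p : ℤ) = -1 - μ (.u 1) := ⟨(-1 - μ (.u 1)).toNat, by omega⟩
    obtain ⟨q, hq⟩ : ∃ q : ℕ, (q : ℤ) = -1 - μ (.v 1) := ⟨(-1 - μ (.v 1)).toNat, by omega⟩
    obtain ⟨r, hr⟩ : ∃ r : ℕ, (r : ℤ) = μ (.y 1) := ⟨(μ (.y 1)).toNat, by omega⟩
    have hμ' : μ = pt' α (fun _ => -1) b (l + 3 : ℕ) (b + 3 : ℕ) p q r := by
      conv_lhs => rw [vec_eta μ, ha, hs]
      unfold pt'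
      apply vec_congr <;> push_cast <;> omega
    rw [hμ', coeff_hh_pt, coeff_one_pt, coeff_one_pt, coeff_one_pt, coeff_one_pt,
      coeff_one_pt] at hne
    have hpL : p < l + 3 - 1 := by omega
    have hqL : q < b + 3 - 1 := by omega
    have hrL : r < b + 1 := by omega
    exact hne (congrFun (show Theta b (l + 3) (b + 3) c = 0 from hc) (⟨p, hpL⟩, ⟨q, hqL⟩, ⟨r, hrL⟩))

theorem coeff_one_ne {α α' : Fin (j + 1) → ℤ} (hne : α ≠ α') {b L m L' m' : ℕ} (c : DD b L m)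
    (p q r : ℤ) : (one α c).coeff (pt α' (fun _ => -1) b L' m' p q r) = 0 := by
  by_contra h
  obtain ⟨x, hx⟩ := exists_of_coeff_one h
  exact hne (pt_inj hx).1.symm

theorem KK_card (j b q : ℕ) (hfin : Finite (KK j b)) (hq : 6 * (j + 1) * q + 20 ≤ b ^ 2 + 6 * b) :
    2 ^ (q ^ (j + 1) * b ^ 2) ≤ Nat.card (KK j b) := by
  classical
  let T : Type := Fin (j + 1) → Fin q
  let l : T → ℕ := fun t => ∑ i, ((t i : ℕ) + 1)
  let α : T → Fin (j + 1) → ℤ := fun t i => -((t i : ℕ) + 1 : ℤ)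
  have hα : ∀ t i, α t i < 0 := fun t i => by
    show -((t i : ℕ) + 1 : ℤ) < 0
    omega
  have hl : ∀ t, ∑ i, α t i = -(l t : ℤ) := by
    intro t
    show ∑ i, -((t i : ℕ) + 1 : ℤ) = -((∑ i, ((t i : ℕ) + 1) : ℕ) : ℤ)
    rw [Finset.sum_neg_distrib]
    push_cast
    rfl
  have hαinj : Function.Injective α := by
    intro t t' h
    funext i
    apply Fin.ext
    have : -((t i : ℕ) + 1 : ℤ) = -((t' i : ℕ) + 1 : ℤ) := congrFun h i
    omega
  have hlq : ∀ t, 6 * l t + 20 ≤ b ^ 2 + 6 * b := by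
    intro t
    have h1 : l t ≤ (j + 1) * q := by
      have h2 : ∑ i, ((t i : ℕ) + 1) ≤ ∑ _i : Fin (j + 1), q :=
        Finset.sum_le_sum fun i _ => (t i).2
      simpa using h2
    nlinarith
  let F : ((t : T) → (Theta b (l t + 3) (b + 3)).ker) → KK j b := fun c =>
    ⟨∑ t, one (α t) (c t : DD b (l t + 3) (b + 3)),
      sum_mem fun t _ => one_mem (α t) (hα t) b (l t) (hl t) (c t).2⟩
  have hF : Function.Injective F := by
    intro c c' h
    have h1 : (∑ t, one (α t) (c t : DD b (l t + 3) (b + 3)) : Lam j) =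
        ∑ t, one (α t) (c' t : DD b (l t + 3) (b + 3)) := congrArg Subtype.val h
    funext t₀
    apply Subtype.ext
    funext x
    have key : ∀ c : (t : T) → (Theta b (l t + 3) (b + 3)).ker,
        (∑ t, one (α t) (c t : DD b (l t + 3) (b + 3)) : Lam j).coeff
          (pt (α t₀) (fun _ => -1) b (l t₀ + 3 : ℕ) (b + 3 : ℕ) (x.1 : ℕ) (x.2.1 : ℕ)
            (x.2.2 : ℕ)) = (c t₀ : DD b (l t₀ + 3) (b + 3)) x := by
      intro c
      rw [AddMonoidAlgebra.coeff_sum, Finsupp.finsetSum_apply, Finset.sum_eq_single t₀]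
      · rw [coeff_one_pt, ext0_nat]
      · intro t _ ht
        exact coeff_one_ne (fun h => ht (hαinj h)) _ _ _ _
      · intro h'
        exact absurd (Finset.mem_univ _) h'
    rw [← key c, ← key c', h1]
  have h1 : Nat.card ((t : T) → (Theta b (l t + 3) (b + 3)).ker) ≤ Nat.card (KK j b) :=
    Nat.card_le_card_of_injective F hF
  refine le_trans ?_ h1
  rw [Nat.card_pi]
  have h2 : ∏ _t : T, 2 ^ (b ^ 2) ≤ ∏ t : T, Nat.card (Theta b (l t + 3) (b + 3)).ker :=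
    Finset.prod_le_prod' fun t _ => card_ker_Theta b (l t) (hlq t)
  refine le_trans (le_of_eq ?_) h2
  rw [Finset.prod_const, Finset.card_univ, Fintype.card_fun, Fintype.card_fin, Fintype.card_fin,
    ← pow_mul, mul_comm]

theorem KK_nonzero (b l : ℕ) (hl : 1 ≤ l) (hb : 6 * l + 20 ≤ b ^ 2 + 6 * b) :
    ∃ f ∈ KK 0 b, f ≠ 0 ∧ ∀ μ, f.coeff μ ≠ 0 → dA μ = -l ∧ dV μ = -(b + 5) := by
  have h1 := card_ker_Theta b l hb
  have hb1 : 1 ≤ b := by
    rcases Nat.eq_zero_or_pos b with h | h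
    · subst h
      omega
    · exact h
  have h2 : 1 < Nat.card (Theta b (l + 3) (b + 3)).ker := by
    refine lt_of_lt_of_le ?_ h1
    exact Nat.one_lt_two_pow (by positivity)
  obtain ⟨c, hc⟩ : ∃ c : (Theta b (l + 3) (b + 3)).ker, c ≠ 0 := by
    have : Nontrivial (Theta b (l + 3) (b + 3)).ker := Finite.one_lt_card_iff_nontrivial.1 h2
    exact exists_ne 0
  have hsum : ∑ i : Fin (0 + 1), (fun _ => -(l : ℤ)) i = -(l : ℤ) := by simp
  refine ⟨one (fun _ => -(l : ℤ)) (c : DD b (l + 3) (b + 3)),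
    one_mem _ (fun _ => by omega) b l hsum c.2, ?_, ?_⟩
  · intro h0
    apply hc
    apply Subtype.ext
    funext x
    rw [← ext0_nat (c : DD b (l + 3) (b + 3)) x, ← coeff_one_pt (fun _ : Fin (0 + 1) => -(l : ℤ)), h0]
    rfl
  · intro μ hμ
    obtain ⟨x, rfl⟩ := exists_of_coeff_one hμ
    unfold pt
    rw [dA_vec, dV_vec, hsum]
    push_cast
    constructor <;> ring

end T7

end Pool.Agent.N165.LC
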