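import Pool.Agent.N165.LC.Defs2

/-!
Decomposition of `R / I^n` over the polynomial ring in the `x`-variables (task T9D).
-/

namespace Pool.Agent.N165.LC

namespace T9D

open MvPolynomial T9

variable {j : ℕ}

/-! ### additive maps out of a quotient ring -/

section Lift

variable {R : Type} [CommRing R] {A : Type} [AddCommGroup A]

theorem lift_aux (I : Ideal R) (φ : R →+ A) (h : ∀ f ∈ I, φ f = 0) {f g : R}
    (hfg : Ideal.Quotient.mk I f = Ideal.Quotient.mk I g) : φ f = φ g := by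
  have h1 := h (f - g) (Ideal.Quotient.eq.1 hfg)
  rwa [map_sub, sub_eq_zero] at h1

/-- an additive map out of a quotient ring -/
noncomputable def liftA (I : Ideal R) (φ : R →+ A) (h : ∀ f ∈ I, φ f = 0) : (R ⧸ I) →+ A where
  toFun x := φ (Ideal.Quotient.mk_surjective x).choose
  map_zero' := by
    have h1 := (Ideal.Quotient.mk_surjective (0 : R ⧸ I)).choose_spec
    rw [lift_aux I φ h (g := 0) (by rw [h1, map_zero]), map_zero]
  map_add' x y := by
    have h1 := (Ideal.Quotient.mk_surjective x).choose_spec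
    have h2 := (Ideal.Quotient.mk_surjective y).choose_spec
    have h3 := (Ideal.Quotient.mk_surjective (x + y)).choose_spec
    rw [← map_add]
    exact lift_aux I φ h (by rw [h3, map_add, h1, h2])

theorem liftA_mk (I : Ideal R) (φ : R →+ A) (h : ∀ f ∈ I, φ f = 0) (f : R) :
    liftA I φ h (Ideal.Quotient.mk I f) = φ f :=
  lift_aux I φ h (Ideal.Quotient.mk_surjective (Ideal.Quotient.mk I f)).choose_spec

end Lift

/-! ### components -/

theorem wc_add (p : ℕ × ℕ) (f g : PR j) : wc p (f + g) = wc p f + wc p g := map_add _ _ _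

theorem wc_zero (p : ℕ × ℕ) : wc p (0 : PR j) = 0 := map_zero _

theorem wc_eq_zero_of_notMem {f : PR j} {s : Finset (ℕ × ℕ)} (hs : f = ∑ p ∈ s, wc p f) {p : ℕ × ℕ}
    (hp : p ∉ s) : wc p f = 0 := by
  rw [hs, wc, map_sum]
  refine Finset.sum_eq_zero fun q hq => ?_
  rw [← wc, wc_of_hom (wc_hom q f), if_neg]
  rintro rfl
  exact hp hq

theorem wc_X_mul (v : V j) (hv : wt2 j v = (0, 0)) (p : ℕ × ℕ) (f : PR j) :
    wc p (X v * f) = X v * wc p f := by
  obtain ⟨s, hs⟩ := exists_wc f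
  have hX : IsWeightedHomogeneous (wt2 j) (X v : PR j) (0, 0) := by
    have := isWeightedHomogeneous_X (ZMod 2) (wt2 j) v
    rwa [hv] at this
  have e1 : wc p (X v * f) = ∑ q ∈ s, if p = q then X v * wc q f else 0 := by
    conv_lhs => rw [hs, Finset.mul_sum]
    rw [wc, map_sum]
    refine Finset.sum_congr rfl fun q _ => ?_
    have h1 := hX.mul (wc_hom q f)
    rw [show ((0, 0) : ℕ × ℕ) + q = q from zero_add q] at h1
    exact wc_of_hom h1
  rw [e1, Finset.sum_ite_eq]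
  split_ifs with h
  · rfl
  · rw [wc_eq_zero_of_notMem hs h, mul_zero]

theorem wt2_inX (i : XT j) : wt2 j (inX i) = (0, 0) := by cases i <;> rfl

/-- The component map with values in `NN`. -/
noncomputable def cN (j : ℕ) (p : ℕ × ℕ) : PR j →+ NN j p where
  toFun f := ⟨wc p f, wc_hom p f⟩
  map_zero' := Subtype.ext (wc_zero p)
  map_add' f g := Subtype.ext (wc_add p f g)

/-- The map `f ↦ Psi (f_p)` with values in `E_b`. -/
noncomputable def cE (j b k : ℕ) : PR j →+ Eb j (b : ℤ) where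
  toFun f := Submodule.Quotient.mk (⟨Psi j (wc (b, k) f), Psi_hom_mem (wc_hom (b, k) f)⟩ : Fb j (b : ℤ))
  map_zero' := by
    rw [show (⟨Psi j (wc (b, k) (0 : PR j)), Psi_hom_mem (wc_hom (b, k) 0)⟩ : Fb j (b : ℤ)) = 0 from
      Subtype.ext (by
        show Psi j (wc (b, k) (0 : PR j)) = 0
        rw [wc_zero, map_zero])]
    rfl
  map_add' f g := by
    rw [← Submodule.Quotient.mk_add]
    congr 1
    apply Subtype.ext
    show Psi j (wc (b, k) (f + g)) = Psi j (wc (b, k) f) + Psi j (wc (b, k) g)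
    rw [wc_add, map_add]

theorem cE_eq {b k : ℕ} {f : PR j} {φ : Fb j (b : ℤ)} (h : Psi j (wc (b, k) f) = φ) :
    cE j b k f = Submodule.Quotient.mk φ := by
  show Submodule.Quotient.mk _ = _
  congr 1
  exact Subtype.ext h

theorem InJ_iff {b : ℕ} {g : PR j} (φ : Fb j (b : ℤ)) (h : Psi j g = φ) :
    InJ j b g ↔ (Submodule.Quotient.mk φ : Eb j (b : ℤ)) = 0 := by
  rw [Submodule.Quotient.mk_eq_zero]
  constructor
  · rintro ⟨ψ, h1, h2⟩
    refine ⟨⟨ψ, h1⟩, Subtype.ext ?_⟩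
    show hh j * ψ = φ
    rw [← h, h2]
  · rintro ⟨⟨ψ, h1⟩, h2⟩
    refine ⟨ψ, h1, ?_⟩
    rw [h, ← h2]
    rfl

/-! ### surjectivity of `Psi` on strands -/

theorem exists_g {b : ℕ} (hb : j ≤ b) (f : Lam j) (hf : f ∈ FG j b b b) :
    ∃ g : PR j, IsWeightedHomogeneous (wt2 j) g (b, 0) ∧ Psi j g = f := by
  have h0 : ∀ μ ∈ f.coeff.support, ∃ g : PR j, IsWeightedHomogeneous (wt2 j) g (b, 0) ∧
      Psi j g = AddMonoidAlgebra.single μ (f.coeff μ) := by
    intro μ hμ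
    have h1 : f.coeff μ ≠ 0 := Finsupp.mem_support_iff.1 hμ
    have h2 : f.coeff μ = 1 := by
      have : ∀ z : ZMod 2, z ≠ 0 → z = 1 := by decide
      exact this _ h1
    obtain ⟨h3, h4⟩ := hf μ h1
    have hA0 : 0 ≤ dA μ := Finset.sum_nonneg fun q _ => h3 (.a q)
    have hV0 : 0 ≤ dV μ := Finset.sum_nonneg fun q _ => h3 (.v q)
    obtain ⟨r, hr⟩ : ∃ r : ℕ, dA μ + dV μ = r := ⟨(dA μ + dV μ).toNat, by omega⟩
    rw [h2]
    obtain ⟨g, hg, hg'⟩ := Psi_surj j r b hb (AddMonoidAlgebra.single μ 1)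
      (single_mem_FG h3 h4) (by
        intro ν hν
        have : ν = μ := by
          by_contra hne
          apply hν
          simp [Ne.symm hne]
        rw [this, hr])
    exact ⟨g, hom23 hg, hg'⟩
  choose! g hg hg' using h0
  refine ⟨∑ μ ∈ f.coeff.support, g μ, ?_, ?_⟩
  · exact IsWeightedHomogeneous.sum _ _ _ fun μ hμ => hg μ hμ
  · rw [map_sum, Finset.sum_congr rfl hg']
    exact AddMonoidAlgebra.sum_coeff_single f

/-! ### types of bidegrees -/

/-- `e` is large enough -/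
def Big (j e : ℕ) : Prop := 1 ≤ e ∧ j ≤ e ∧ ∀ n b c : ℕ, 2 * c + 1 < 2 * n →
    2 * e * n ≤ b + e * (2 * c + 1) → ∀ g : PR j,
    IsWeightedHomogeneous (wt2 j) g (b, 2 * c + 1) → InJ j b g → g ∈ II j e ^ n

theorem exists_big (j : ℕ) : ∃ e₀ ≥ 1, ∀ e ≥ e₀, Big j e := by
  obtain ⟨e₁, h⟩ := II_J j
  exact ⟨max e₁ (max j 1), by omega, fun e he => ⟨by omega, by omega, h e (by omega)⟩⟩

/-- `E`-type bidegrees -/
def ET (e n b k : ℕ) : Prop := k % 2 = 1 ∧ 2 * e * n ≤ b + e * k ∧ b + e * k < 2 * e * n + e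

theorem ET.spec {e n b k : ℕ} (_he : 1 ≤ e) (h : ET e n b k) :
    ∃ c, k = 2 * c + 1 ∧ 2 * c + 1 < 2 * n ∧ e ≤ b ∧ b < 2 * e * n := by
  obtain ⟨h1, h2, h3⟩ := h
  obtain ⟨c, rfl⟩ : ∃ c, k = 2 * c + 1 := ⟨k / 2, by omega⟩
  have hc : c < n := by
    by_contra hc
    push Not at hc
    have : e * n ≤ e * c := Nat.mul_le_mul_left _ hc
    have e1 : e * (2 * c + 1) = 2 * (e * c) + e := by ring
    have e2 : 2 * e * n = 2 * (e * n) := by ring
    omega
  obtain ⟨m, rfl⟩ : ∃ m, n = c + m + 1 := ⟨n - c - 1, by omega⟩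
  have e1 : e * (2 * c + 1) = 2 * (e * c) + e := by ring
  have e2 : 2 * e * (c + m + 1) = 2 * (e * c) + 2 * (e * m) + 2 * e := by ring
  rw [e1] at h2 h3
  rw [e2] at h2 h3 ⊢
  refine ⟨c, rfl, by omega, by omega, by omega⟩

theorem ET.mem {e n b k : ℕ} (he : Big j e) (h : ET e n b k) {g : PR j}
    (hg : IsWeightedHomogeneous (wt2 j) g (b, k)) (hJ : InJ j b g) : g ∈ II j e ^ n := by
  obtain ⟨c, rfl, hc, -, -⟩ := h.spec he.1
  exact he.2.2 n b c hc h.2.1 g hg hJ

/-- dead bidegrees -/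
theorem dead_mem {e n b k : ℕ} (he : Big j e) (h1 : ¬ ET e n b k) (h2 : 2 * e * n ≤ b + e * k)
    {g : PR j} (hg : IsWeightedHomogeneous (wt2 j) g (b, k)) : g ∈ II j e ^ n := by
  refine II_dead j e n b k he.1 g hg (Or.inr ?_)
  rcases Nat.even_or_odd' k with ⟨c, rfl | rfl⟩
  · have e1 : 2 * c / 2 = c := by omega
    have e2 : e * (2 * c) = 2 * e * c := by ring
    rw [e1, ← e2]
    exact h2
  · have e1 : (2 * c + 1) / 2 = c := by omega
    have e2 : e * (2 * c + 1) = 2 * e * c + e := by ring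
    rw [e1]
    rw [e2] at h2
    by_contra h3
    exact h1 ⟨by omega, by rw [e2]; exact h2, by rw [e2]; omega⟩

theorem comp_zero {e n b k : ℕ} (h : b + e * k < 2 * e * n) {f : PR j} (hf : f ∈ II j e ^ n) :
    wc (b, k) f = 0 := (II_comp j e n b k f hf).1 h

theorem comp_InJ {e n b k : ℕ} (h : ET e n b k) {f : PR j} (hf : f ∈ II j e ^ n) :
    InJ j b (wc (b, k) f) := (II_comp j e n b k f hf).2 h.1 h.2.2

/-- the ideal is homogeneous -/
theorem comp_mem {e : ℕ} (he : Big j e) (n : ℕ) (p : ℕ × ℕ) {f : PR j} (hf : f ∈ II j e ^ n) :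
    wc p f ∈ II j e ^ n := by
  obtain ⟨b, k⟩ := p
  by_cases h : ET e n b k
  · exact h.mem he (wc_hom _ _) (comp_InJ h hf)
  · by_cases h' : 2 * e * n ≤ b + e * k
    · exact dead_mem he h h' (wc_hom _ _)
    · rw [comp_zero (by omega) hf]
      exact zero_mem _

/-- the component operator on the quotient -/
noncomputable def piP {e : ℕ} (he : Big j e) (n : ℕ) (p : ℕ × ℕ) :
    (PR j ⧸ II j e ^ n) →+ (PR j ⧸ II j e ^ n) :=
  liftA _ ((Ideal.Quotient.mk (II j e ^ n)).toAddMonoidHom.comp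
    (weightedHomogeneousComponent (wt2 j) p).toAddMonoidHom) (fun _ hf =>
      Ideal.Quotient.eq_zero_iff_mem.2 (comp_mem he n p hf))

theorem piP_mk {e : ℕ} (he : Big j e) (n : ℕ) (p : ℕ × ℕ) (f : PR j) :
    piP he n p (Ideal.Quotient.mk _ f) = Ideal.Quotient.mk _ (wc p f) := liftA_mk _ _ _ _

theorem sum_piP {e : ℕ} (he : Big j e) (n : ℕ) (x : PR j ⧸ II j e ^ n) :
    ∑ p : Fin (2 * e * n) × Fin (2 * n), piP he n ((p.1 : ℕ), (p.2 : ℕ)) x = x := by
  obtain ⟨f, rfl⟩ := Ideal.Quotient.mk_surjective x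
  obtain ⟨s, hs⟩ := exists_wc f
  have h1 : ∀ p : ℕ × ℕ, ¬ (p.1 < 2 * e * n ∧ p.2 < 2 * n) →
      (Ideal.Quotient.mk (II j e ^ n) (wc p f)) = 0 := by
    rintro ⟨b, k⟩ hp
    rw [Ideal.Quotient.eq_zero_iff_mem]
    by_cases h : ET e n b k
    · exfalso
      obtain ⟨c, rfl, hc, hb, hb'⟩ := h.spec he.1
      exact hp ⟨hb', hc⟩
    · refine dead_mem he h ?_ (wc_hom _ _)
      by_contra h3
      push Not at h3
      apply hp
      refine ⟨by
        show b < 2 * e * n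
        omega, ?_⟩
      show k < 2 * n
      by_contra h4
      push Not at h4
      have : e * (2 * n) ≤ e * k := Nat.mul_le_mul_left _ h4
      have e2 : e * (2 * n) = 2 * e * n := by ring
      omega
  have h2 : (∑ p : Fin (2 * e * n) × Fin (2 * n), piP he n ((p.1 : ℕ), (p.2 : ℕ))
      (Ideal.Quotient.mk _ f)) = ∑ p ∈ Finset.range (2 * e * n) ×ˢ Finset.range (2 * n),
        Ideal.Quotient.mk (II j e ^ n) (wc p f) := by
    rw [Fintype.sum_prod_type, Finset.sum_product]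
    rw [Finset.sum_range]
    refine Finset.sum_congr rfl fun b _ => ?_
    rw [Finset.sum_range]
    exact Finset.sum_congr rfl fun k _ => piP_mk he n _ f
  have h3 : ∑ p ∈ Finset.range (2 * e * n) ×ˢ Finset.range (2 * n),
      Ideal.Quotient.mk (II j e ^ n) (wc p f) = ∑ p ∈ s ∪ Finset.range (2 * e * n) ×ˢ
        Finset.range (2 * n), Ideal.Quotient.mk (II j e ^ n) (wc p f) := by
    refine Finset.sum_subset Finset.subset_union_right fun p _ hp => h1 p fun hp' => hp ?_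
    simpa [Finset.mem_product] using hp'
  have h4 : ∑ p ∈ s, Ideal.Quotient.mk (II j e ^ n) (wc p f) = ∑ p ∈ s ∪
      Finset.range (2 * e * n) ×ˢ Finset.range (2 * n), Ideal.Quotient.mk (II j e ^ n) (wc p f) := by
    refine Finset.sum_subset Finset.subset_union_left fun p _ hp => ?_
    rw [wc_eq_zero_of_notMem hs hp, map_zero]
  rw [h2, h3, ← h4, ← map_sum, ← hs]

/-! ### the free components -/

section Free

variable {e n b k : ℕ}

noncomputable def rhoF (e n b k : ℕ) (h : b + e * k < 2 * e * n) :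
    (PR j ⧸ II j e ^ n) →+ NN j (b, k) :=
  liftA _ (cN j (b, k)) (fun _ hf => Subtype.ext (comp_zero h hf))

/-- inclusion of a component -/
noncomputable def incF (j e n : ℕ) (p : ℕ × ℕ) : NN j p →+ (PR j ⧸ II j e ^ n) where
  toFun f := Ideal.Quotient.mk _ (f : PR j)
  map_zero' := map_zero _
  map_add' f g := map_add _ _ _

theorem smul_mk (I : Ideal (PR j)) (i : XT j) (f : PR j) :
    xP j i • (Ideal.Quotient.mk I f) = Ideal.Quotient.mk I (X (inX i) * f) := rfl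

theorem rhoF_mk (h : b + e * k < 2 * e * n) (f : PR j) :
    rhoF e n b k h (Ideal.Quotient.mk _ f) = cN j (b, k) f := liftA_mk _ _ _ _

theorem rhoF_smul (h : b + e * k < 2 * e * n) (i : XT j) (x : PR j ⧸ II j e ^ n) :
    rhoF e n b k h (xP j i • x) = xR j i • rhoF e n b k h x := by
  obtain ⟨f, rfl⟩ := Ideal.Quotient.mk_surjective x
  rw [smul_mk, rhoF_mk, rhoF_mk]
  apply Subtype.ext
  exact wc_X_mul (inX i) (wt2_inX i) (b, k) f

theorem incF_smul (p : ℕ × ℕ) (i : XT j) (x : NN j p) :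
    incF j e n p (xR j i • x) = xP j i • incF j e n p x := rfl

theorem incF_rhoF (he : Big j e) (h : b + e * k < 2 * e * n) (x : PR j ⧸ II j e ^ n) :
    incF j e n (b, k) (rhoF e n b k h x) = piP he n (b, k) x := by
  obtain ⟨f, rfl⟩ := Ideal.Quotient.mk_surjective x
  rw [rhoF_mk, piP_mk]
  rfl

end Free

/-! ### the components of type `E` -/

section EType

variable {e n b k : ℕ}

/-- the projection to a component of type `E` -/
noncomputable def rhoE (e n b k : ℕ) (h : ET e n b k) : (PR j ⧸ II j e ^ n) →+ Eb j (b : ℤ) :=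
  liftA _ (cE j b k) (fun _ hf => (InJ_iff _ rfl).1 (comp_InJ h hf))

theorem rhoE_mk (h : ET e n b k) (f : PR j) :
    rhoE e n b k h (Ideal.Quotient.mk _ f) = cE j b k f := liftA_mk _ _ _ _

theorem psi_inX (i : XT j) : Psi j (X (inX i)) = ((xT j i : BR j) : Lam j) := by
  unfold Psi
  rw [aeval_X]
  cases i <;> rfl

theorem rhoE_smul (h : ET e n b k) (i : XT j) (x : PR j ⧸ II j e ^ n) :
    rhoE e n b k h (xP j i • x) = xT j i • rhoE e n b k h x := by
  obtain ⟨f, rfl⟩ := Ideal.Quotient.mk_surjective x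
  rw [smul_mk, rhoE_mk, rhoE_mk]
  show _ = xT j i • (Submodule.Quotient.mk _ : Eb j (b : ℤ))
  rw [← Submodule.Quotient.mk_smul]
  apply cE_eq
  rw [wc_X_mul (inX i) (wt2_inX i), map_mul, psi_inX]
  rfl

/-- lifts of elements of `E_b` -/
theorem exists_lift (hb : j ≤ b) (x : Eb j (b : ℤ)) : ∃ (g : PR j) (φ : Fb j (b : ℤ)),
    IsWeightedHomogeneous (wt2 j) g (b, 0) ∧ Psi j g = φ ∧ Submodule.Quotient.mk φ = x := by
  obtain ⟨φ, rfl⟩ := Submodule.Quotient.mk_surjective _ x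
  obtain ⟨g, hg, hg'⟩ := exists_g hb (φ : Lam j) φ.2
  exact ⟨g, φ, hg, hg', rfl⟩

theorem z_hom {g : PR j} (hg : IsWeightedHomogeneous (wt2 j) g (b, 0)) (k : ℕ) :
    IsWeightedHomogeneous (wt2 j) (X V.z ^ k * g) (b, k) := by
  have h1 := ((isWeightedHomogeneous_X (ZMod 2) (wt2 j) V.z).pow k).mul hg
  have h2 : k • wt2 j V.z + (b, 0) = (b, k) := by simp [wt2]
  rwa [h2] at h1

theorem lift_unique (he : Big j e) (h : ET e n b k) {g g' : PR j} {φ φ' : Fb j (b : ℤ)}
    (hg : IsWeightedHomogeneous (wt2 j) g (b, 0)) (hg' : IsWeightedHomogeneous (wt2 j) g' (b, 0))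
    (h1 : Psi j g = φ) (h1' : Psi j g' = φ')
    (h2 : (Submodule.Quotient.mk φ : Eb j (b : ℤ)) = Submodule.Quotient.mk φ') :
    Ideal.Quotient.mk (II j e ^ n) (X V.z ^ k * g) = Ideal.Quotient.mk _ (X V.z ^ k * g') := by
  rw [Ideal.Quotient.eq, ← mul_sub]
  have hs : IsWeightedHomogeneous (wt2 j) (g - g') (b, 0) := by
    rw [sub_eq_add_neg, CharTwo.neg_eq]
    exact hg.add hg'
  refine h.mem he (z_hom hs k) ((InJ_iff (φ - φ') ?_).2 ?_)
  · rw [Psi_z, map_sub, h1, h1']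
    rfl
  · rw [Submodule.Quotient.mk_sub, h2, sub_self]

theorem ET.jb (he : Big j e) (h : ET e n b k) : j ≤ b := by
  obtain ⟨c, -, -, hb, -⟩ := h.spec he.1
  exact he.2.1.trans hb

/-- the section of a component of type `E` -/
noncomputable def secE (he : Big j e) (h : ET e n b k) : Eb j (b : ℤ) →+ (PR j ⧸ II j e ^ n) where
  toFun x := Ideal.Quotient.mk _ (X V.z ^ k * (exists_lift (h.jb he) x).choose)
  map_zero' := by
    obtain ⟨φ, h1, h2, h3⟩ := (exists_lift (h.jb he) (0 : Eb j (b : ℤ))).choose_spec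
    rw [lift_unique he h (g' := 0) (φ' := 0) h1 (isWeightedHomogeneous_zero _ _ _) h2
      (map_zero _) (h3.trans (Submodule.Quotient.mk_zero _).symm), mul_zero, map_zero]
  map_add' x y := by
    obtain ⟨φ, h1, h2, h3⟩ := (exists_lift (h.jb he) x).choose_spec
    obtain ⟨ψ, h4, h5, h6⟩ := (exists_lift (h.jb he) y).choose_spec
    obtain ⟨θ, h7, h8, h9⟩ := (exists_lift (h.jb he) (x + y)).choose_spec
    rw [← map_add, ← mul_add]
    refine lift_unique he h (φ' := φ + ψ) h7 (h1.add h4) h8 ?_ ?_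
    · rw [map_add, h2, h5]
      rfl
    · rw [h9, Submodule.Quotient.mk_add, h3, h6]

theorem secE_mk (he : Big j e) (h : ET e n b k) {g : PR j} {φ : Fb j (b : ℤ)}
    (hg : IsWeightedHomogeneous (wt2 j) g (b, 0)) (h1 : Psi j g = φ) :
    secE he h (Submodule.Quotient.mk φ) = Ideal.Quotient.mk _ (X V.z ^ k * g) := by
  obtain ⟨ψ, h2, h3, h4⟩ :=
    (exists_lift (h.jb he) (Submodule.Quotient.mk φ : Eb j (b : ℤ))).choose_spec
  exact lift_unique he h h2 hg h3 h1 h4

theorem secE_smul (he : Big j e) (h : ET e n b k) (i : XT j) (x : Eb j (b : ℤ)) :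
    secE he h (xT j i • x) = xP j i • secE he h x := by
  obtain ⟨g, φ, hg, h1, rfl⟩ := exists_lift (h.jb he) x
  rw [secE_mk he h hg h1, smul_mk, ← Submodule.Quotient.mk_smul]
  have hX : IsWeightedHomogeneous (wt2 j) (X (inX i) * g : PR j) (b, 0) := by
    have h3 := isWeightedHomogeneous_X (ZMod 2) (wt2 j) (inX i)
    rw [wt2_inX] at h3
    have h4 := h3.mul hg
    rwa [show ((0, 0) : ℕ × ℕ) + (b, 0) = (b, 0) from zero_add _] at h4
  rw [secE_mk he h hX (by
    rw [map_mul, psi_inX, h1]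
    rfl)]
  congr 1
  ring

theorem secE_rhoE (he : Big j e) (h : ET e n b k) (x : PR j ⧸ II j e ^ n) :
    secE he h (rhoE e n b k h x) = piP he n (b, k) x := by
  obtain ⟨f, rfl⟩ := Ideal.Quotient.mk_surjective x
  rw [rhoE_mk, piP_mk]
  obtain ⟨g, hg, hg'⟩ := exists_div (wc_hom (b, k) f)
  have h1 : Psi j g = Psi j (wc (b, k) f) := by
    conv_rhs => rw [hg, Psi_z]
  show secE he h (Submodule.Quotient.mk _) = _
  rw [secE_mk he h hg' h1, ← hg]

theorem rhoE_secE (he : Big j e) (h : ET e n b k) (x : Eb j (b : ℤ)) :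
    rhoE e n b k h (secE he h x) = x := by
  obtain ⟨g, φ, hg, h1, rfl⟩ := exists_lift (h.jb he) x
  rw [secE_mk he h hg h1, rhoE_mk]
  apply cE_eq
  rw [wc_of_hom (z_hom hg k), if_pos rfl, Psi_z, h1]

end EType

theorem mk_sum {R : Type} [CommRing R] {M : Type} [AddCommGroup M] [Module R M] (a : R) (t : ℕ)
    {K : Type} (s : Finset K) (m : K → M) :
    ∑ k ∈ s, Loc.mk a (m k) t = Loc.mk a (∑ k ∈ s, m k) t := by
  classical
  induction s using Finset.induction_on with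
  | empty => rw [Finset.sum_empty, Finset.sum_empty, Loc.mk_zero]
  | insert i s hi ih => rw [Finset.sum_insert hi, Finset.sum_insert hi, Loc.mk_add, ih]

/-- standard degree of a trihomogeneous polynomial -/
theorem isHomogeneous_of_wt3 {r b k : ℕ} {g : PR j}
    (hg : IsWeightedHomogeneous (wt3 j) g (r, b, k)) : g.IsHomogeneous (r + b + k) := by
  have h : ∀ d : V j →₀ ℕ, Finsupp.weight (1 : V j → ℕ) d = (Finsupp.weight (wt3 j) d).1 +
      (Finsupp.weight (wt3 j) d).2.1 + (Finsupp.weight (wt3 j) d).2.2 := by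
    intro d
    induction d using Finsupp.induction_linear with
    | zero => simp
    | add d e hd he =>
      rw [map_add, map_add, hd, he]
      simp only [Prod.fst_add, Prod.snd_add]
      ring
    | single i n =>
      rw [Finsupp.weight_single, Finsupp.weight_single]
      cases i <;> simp [wt3]
  intro d hd
  rw [h, hg hd]

end T9D

open T9D T9 MvPolynomial

theorem H_PR_finite (j : ℕ)
    (h1 : ∀ m, Finite ((LocP (xR j) (NN j m) two_NN).H (j + 5)))
    (h2 : ∀ b : ℕ, Finite ((LocP (xT j) (Eb j b) two_Eb').H (j + 5))) :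
    ∃ e₀ ≥ 1, ∀ e ≥ e₀, ∀ n ≥ 1,
      Finite ((LocP (xP j) (PR j ⧸ II j e ^ n) (two_PR _)).H (j + 5)) := by
  obtain ⟨e₀, he₀, hbig⟩ := exists_big j
  refine ⟨e₀, he₀, fun e he n _ => ?_⟩
  have hB := hbig e he
  have key : ∀ p : Fin (2 * e * n) × Fin (2 * n), ∃ (N : BP (XT j))
      (ρ : BP.Hom (LocP (xP j) (PR j ⧸ II j e ^ n) (two_PR _)) N)
      (s : BP.Hom N (LocP (xP j) (PR j ⧸ II j e ^ n) (two_PR _))),
      (∀ (σ : Finset (XT j)) (m : PR j ⧸ II j e ^ n) (t : ℕ),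
        s.app σ (ρ.app σ (Loc.mk _ m t)) = Loc.mk _ (piP hB n ((p.1 : ℕ), (p.2 : ℕ)) m) t) ∧
      Finite (N.H (j + 5)) := by
    rintro ⟨⟨b, hb⟩, ⟨k, hk⟩⟩
    by_cases hE : ET e n b k
    · refine ⟨LocP (xT j) (Eb j (b : ℤ)) two_Eb',
        LocP.hom _ _ (rhoE e n b k hE) (rhoE_smul hE),
        LocP.hom _ _ (secE hB hE) (secE_smul hB hE), fun σ m t => ?_, h2 b⟩
      rw [LocP.hom_mk, LocP.hom_mk, secE_rhoE]
    · by_cases hF : b + e * k < 2 * e * n
      · refine ⟨LocP (xR j) (NN j (b, k)) two_NN,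
          LocP.hom _ _ (rhoF e n b k hF) (rhoF_smul hF),
          LocP.hom _ _ (incF j e n (b, k)) (incF_smul (b, k)), fun σ m t => ?_, h1 (b, k)⟩
        rw [LocP.hom_mk, LocP.hom_mk, incF_rhoF hB]
      · refine ⟨LocP (xR j) (NN j (b, k)) two_NN,
          LocP.hom _ _ (0 : (PR j ⧸ II j e ^ n) →+ NN j (b, k)) (fun i m => by
            rw [AddMonoidHom.zero_apply, AddMonoidHom.zero_apply, smul_zero]),
          LocP.hom _ _ (0 : NN j (b, k) →+ (PR j ⧸ II j e ^ n)) (fun i m => by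
            rw [AddMonoidHom.zero_apply, AddMonoidHom.zero_apply, smul_zero]),
          fun σ m t => ?_, h1 (b, k)⟩
        rw [LocP.hom_mk, LocP.hom_mk]
        congr 1
        obtain ⟨f, rfl⟩ := Ideal.Quotient.mk_surjective m
        rw [piP_mk, AddMonoidHom.zero_apply]
        symm
        rw [Ideal.Quotient.eq_zero_iff_mem]
        exact dead_mem hB hE (by omega) (wc_hom _ _)
  choose N ρ s hs hN using key
  refine BP.H_finite_of_sum N ρ s (fun σ x => ?_) (j + 5) hN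
  change Loc (∏ i ∈ σ, xP j i) (PR j ⧸ II j e ^ n) at x
  obtain ⟨m, t, rfl⟩ := Loc.exists_mk _ x
  rw [Finset.sum_congr rfl fun p _ => hs p σ m t]
  refine (mk_sum _ t _ _).trans ?_
  rw [sum_piP]

theorem top_retract (j : ℕ) : ∃ e₀ ≥ 1, ∀ e ≥ e₀, ∀ n ≥ 1,
    ∃ (ρ : (PR j ⧸ II j e ^ n) →+ Eb j ((2 * e * n - 1 : ℕ) : ℤ))
      (s : Eb j ((2 * e * n - 1 : ℕ) : ℤ) →+ (PR j ⧸ II j e ^ n)),
      (∀ i x, ρ (xP j i • x) = xT j i • ρ x) ∧ (∀ i x, s (xT j i • x) = xP j i • s x) ∧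
      (∀ x, ρ (s x) = x) ∧
      ∀ (r : ℕ) (f : Fb j ((2 * e * n - 1 : ℕ) : ℤ)),
        (∀ μ, (f : Lam j).coeff μ ≠ 0 → dA μ + dV μ = r) →
        ∃ g : PR j, g.IsHomogeneous (r + (2 * e * n - 1) + 1) ∧
          s (Submodule.Quotient.mk f) = Ideal.Quotient.mk _ g := by
  obtain ⟨e₀, he₀, hbig⟩ := exists_big j
  refine ⟨e₀, he₀, fun e he n hn => ?_⟩
  have hB := hbig e he
  have he1 : 1 ≤ e * n := Nat.mul_pos hB.1 hn
  have e2 : 2 * e * n = 2 * (e * n) := by ring
  have hE : ET e n (2 * e * n - 1) 1 := by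
    refine ⟨rfl, ?_, ?_⟩
    · have := hB.1
      omega
    · omega
  refine ⟨rhoE e n (2 * e * n - 1) 1 hE, secE hB hE, rhoE_smul hE, secE_smul hB hE,
    rhoE_secE hB hE, fun r f hf => ?_⟩
  obtain ⟨g, hg, hg'⟩ := Psi_surj j r (2 * e * n - 1) (hE.jb hB) (f : Lam j) f.2 hf
  refine ⟨X V.z ^ 1 * g, ?_, secE_mk hB hE (hom23 hg) hg'⟩
  have h1 := isHomogeneous_of_wt3 hg
  have h2 : (X V.z ^ 1 : PR j).IsHomogeneous 1 := by
    rw [pow_one]
    exact isHomogeneous_X _ _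
  have h3 := h2.mul h1
  have e3 : 1 + (r + (2 * e * n - 1) + 0) = r + (2 * e * n - 1) + 1 := by omega
  rwa [e3] at h3

end Pool.Agent.N165.LC
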