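import Pool.Agent.N165.LC.Bridge
import Pool.Agent.N165.LC.Rad
import Pool.Agent.N165.LC.Nil
import Pool.Agent.N165.LC.T5d
import Pool.Agent.N165.LC.T6
import Pool.Agent.N165.LC.T7
import Pool.Agent.N165.LC.T5F
import Pool.Agent.N165.LC.T9D

/-!
Assembly: finiteness and size of the local cohomology of `R/I^n` in degree `j + 5`.
-/

namespace Pool.Agent.N165.LC

open Pool.Agent.N165 MvPolynomial

/-- A linear order on the variables. -/
noncomputable instance ordV (j : ℕ) : LinearOrder (V j) :=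
  LinearOrder.lift' (Fintype.equivFin (V j)) (Equiv.injective _)

variable {j : ℕ}

theorem finite_Eb (b : ℕ) : Finite ((LocP (xT j) (Eb j b) two_Eb').H (j + 5)) := by
  obtain ⟨e1⟩ := xT_xM_equiv (j := j) (Eb j b) two_Eb' (j + 5)
  obtain ⟨e2⟩ := H_Eb (j := j) (b : ℤ) (Int.natCast_nonneg b)
  have hfin := KK_finite j b (K_vanish b)
  exact Finite.of_equiv _ (e1.trans e2).symm.toEquiv

theorem card_Eb (b : ℕ) : Nat.card ((LocP (xT j) (Eb j b) two_Eb').H (j + 5)) =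
    Nat.card (KK j b) := by
  obtain ⟨e1⟩ := xT_xM_equiv (j := j) (Eb j b) two_Eb' (j + 5)
  obtain ⟨e2⟩ := H_Eb (j := j) (b : ℤ) (Int.natCast_nonneg b)
  exact Nat.card_congr (e1.trans e2).toEquiv

theorem finite_NN (m : ℕ × ℕ) : Finite ((LocP (xR j) (NN j m) two_NN).H (j + 5)) := by
  have h := NN_exact j m
  have : Subsingleton ((LocP (xR j) (NN j m) two_NN).H (j + 5)) := by
    refine ⟨fun x y => ?_⟩
    obtain ⟨x, rfl⟩ := BP.H_surj x
    obtain ⟨y, rfl⟩ := BP.H_surj y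
    rw [(BP.H_eq_zero x).2 (h x.2), (BP.H_eq_zero y).2 (h y.2)]
  infer_instance

/-- retracts of modules give retracts in cohomology -/
theorem card_retract {R R' : Type} [CommRing R] [CommRing R'] {ι : Type} [DecidableEq ι]
    {f : ι → R} {f' : ι → R'} {M : Type} [AddCommGroup M] [Module R M] {M' : Type}
    [AddCommGroup M'] [Module R' M'] {h2 : ∀ m : M, m + m = 0} {h2' : ∀ m : M', m + m = 0}
    (ρ : M →+ M') (hρ : ∀ i m, ρ (f i • m) = f' i • ρ m) (s : M' →+ M)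
    (hs : ∀ i m, s (f' i • m) = f i • s m) (hρs : ∀ m, ρ (s m) = m) (p : ℕ)
    [Finite ((LocP f M h2).H p)] :
    Nat.card ((LocP f' M' h2').H p) ≤ Nat.card ((LocP f M h2).H p) := by
  refine BP.H_card_of_retract (LocP.hom h2 h2' ρ hρ) (LocP.hom h2' h2 s hs) ?_ p
  intro σ x
  rw [LocP.hom_comp_eq h2' h2 h2' s hs ρ hρ (AddMonoidHom.id _) (fun _ _ => rfl) hρs]
  exact LocP.hom_id_eq h2' _ _ (fun _ => rfl) σ x

theorem official_torsion {ι : Type} [Fintype ι] [LinearOrder ι] (P : Type) [AddCommGroup P]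
    [Module (MvPolynomial ι (ZMod 2)) P] (h2 : ∀ m : P, m + m = 0) (p : ℕ) (i : ι)
    (m : LocalCohomology.H ι (ZMod 2) P p) :
    ∃ t : ℕ, (X i : MvPolynomial ι (ZMod 2)) ^ t • m = 0 :=
  CechH_torsion (X : ι → MvPolynomial ι (ZMod 2)) P h2 p i m

/-- The length of the official local cohomology from the cardinality of the cohomology of `LocP`. -/
theorem official_length {ι : Type} [Fintype ι] [LinearOrder ι] (P : Type) [AddCommGroup P]
    [Module (MvPolynomial ι (ZMod 2)) P] (h2 : ∀ m : P, m + m = 0) (p : ℕ)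
    (hfin : Finite ((LocP (X : ι → MvPolynomial ι (ZMod 2)) P h2).H p)) :
    ∃ ℓ : ℕ, Module.length (MvPolynomial ι (ZMod 2)) (LocalCohomology.H ι (ZMod 2) P p) = ℓ ∧
      Nat.card ((LocP (X : ι → MvPolynomial ι (ZMod 2)) P h2).H p) = 2 ^ ℓ := by
  obtain ⟨eq2⟩ := H_equiv (X : ι → MvPolynomial ι (ZMod 2)) P h2 p
  have hfin2 : Finite (LocalCohomology.H ι (ZMod 2) P p) := Finite.of_equiv _ eq2.symm.toEquiv
  obtain ⟨ℓ, hℓ, hcard⟩ := card_eq_two_pow_length (LocalCohomology.H ι (ZMod 2) P p)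
    (fun i m => official_torsion P h2 p i m)
  exact ⟨ℓ, hℓ, hcard ▸ Nat.card_congr eq2.symm.toEquiv⟩

theorem official_length' (e n : ℕ) (he : 1 ≤ e) (p : ℕ)
    (hfin : Finite ((LocP (xP j) (PR j ⧸ II j e ^ n) (two_PR _)).H p)) :
    ∃ ℓ : ℕ, Module.length (PR j) (LocalCohomology.H (V j) (ZMod 2) (PR j ⧸ II j e ^ n) p) = ℓ ∧
      Nat.card ((LocP (xP j) (PR j ⧸ II j e ^ n) (two_PR _)).H p) = 2 ^ ℓ := by
  obtain ⟨eq1⟩ := @nil_equiv j (fun a b => LinearOrder.toDecidableEq a b) e n he p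
  have hfin2 := Finite.of_equiv _ eq1.symm.toEquiv
  obtain ⟨ℓ, hℓ, hcard⟩ := official_length (ι := V j) (PR j ⧸ II j e ^ n) (two_PR _) p hfin2
  exact ⟨ℓ, hℓ, hcard ▸ Nat.card_congr eq1.symm.toEquiv⟩

theorem isFiniteLength_of_length {R M : Type} [CommRing R] [AddCommGroup M] [Module R M] {ℓ : ℕ}
    (h : Module.length R M = ℓ) : IsFiniteLength R M := by
  rw [← Module.length_ne_top_iff, h]
  exact ENat.natCast_ne_top ℓ

theorem main_bound (j : ℕ) : ∃ e ≥ 1, ∀ n ≥ 1, ∃ ℓ : ℕ,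
    Module.length (PR j) (LocalCohomology.H (V j) (ZMod 2) (PR j ⧸ II j e ^ n) (j + 5)) = ℓ ∧
    ∀ q : ℕ, 6 * (j + 1) * q + 20 ≤ (2 * e * n - 1) ^ 2 + 6 * (2 * e * n - 1) →
      q ^ (j + 1) * (2 * e * n - 1) ^ 2 ≤ ℓ := by
  obtain ⟨e₁, he₁, h1⟩ := H_PR_finite j finite_NN finite_Eb
  obtain ⟨e₂, he₂, h2⟩ := top_retract j
  obtain ⟨e, hle1, hle2⟩ : ∃ e, e₁ ≤ e ∧ e₂ ≤ e := ⟨max e₁ e₂, le_max_left _ _, le_max_right _ _⟩
  refine ⟨e, le_trans he₁ hle1, fun n hn => ?_⟩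
  have hfin := h1 e hle1 n hn
  obtain ⟨ρ, s, hρ, hs, hρs, -⟩ := h2 e hle2 n hn
  obtain ⟨ℓ, hℓ, hcard⟩ := official_length' e n (le_trans he₁ hle1) (j + 5) hfin
  refine ⟨ℓ, hℓ, fun q hq => ?_⟩
  have hc2 := card_retract (h2 := two_PR _) (h2' := two_Eb') ρ hρ s hs hρs (j + 5)
  rw [card_Eb, hcard] at hc2
  have hc3 := KK_card j (2 * e * n - 1) q (KK_finite j _ (K_vanish _)) hq
  exact (Nat.pow_le_pow_iff_right (by norm_num)).1 (hc3.trans hc2)

end Pool.Agent.N165.LC
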