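import Pool.Agent.N165.LC.T1

/-!
Exactness of localisation, for the Čech presheaves.
-/

namespace Pool.Agent.N165.LC

variable {ι : Type} [DecidableEq ι]

section
variable {R R' : Type} [CommRing R] [CommRing R'] {f : ι → R} {f' : ι → R'}
  {M : Type} [AddCommGroup M] [Module R M] {M' : Type} [AddCommGroup M'] [Module R' M']

theorem inter_prod {φ : M →+ M'} (hφ : ∀ i m, φ (f i • m) = f' i • φ m) (s : Finset ι) (m : M) :
    φ ((∏ i ∈ s, f i) • m) = (∏ i ∈ s, f' i) • φ m := by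
  induction s using Finset.induction_on generalizing m with
  | empty => simp
  | insert i s hi ih => rw [Finset.prod_insert hi, Finset.prod_insert hi, mul_smul, hφ, ih,
      mul_smul]

theorem inter_pow {φ : M →+ M'} (hφ : ∀ i m, φ (f i • m) = f' i • φ m) (s : Finset ι) (t : ℕ)
    (m : M) : φ ((∏ i ∈ s, f i) ^ t • m) = (∏ i ∈ s, f' i) ^ t • φ m := by
  induction t generalizing m with
  | zero => simp
  | succ t ih => rw [pow_succ', mul_smul, inter_prod hφ, ih, ← mul_smul, ← pow_succ']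

variable (h2 : ∀ m : M, m + m = 0) (h2' : ∀ m : M', m + m = 0)

theorem LocP.hom_injective (φ : M →+ M') (hφ : ∀ i m, φ (f i • m) = f' i • φ m)
    (hinj : Function.Injective φ) (σ : Finset ι) :
    Function.Injective ((LocP.hom h2 h2' φ hφ).app σ) := by
  rw [injective_iff_map_eq_zero]
  intro x hx
  change Loc (∏ i ∈ σ, f i) M at x
  obtain ⟨m, t, rfl⟩ := Loc.exists_mk _ x
  rw [LocP.hom_mk] at hx
  obtain ⟨u, hu⟩ := (Loc.mk_eq_zero _ _ _).1 hx
  refine (Loc.mk_eq_zero _ _ _).2 ⟨u, ?_⟩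
  apply hinj
  rw [inter_pow hφ, hu, map_zero]

theorem LocP.hom_surjective (φ : M →+ M') (hφ : ∀ i m, φ (f i • m) = f' i • φ m)
    (hsurj : Function.Surjective φ) (σ : Finset ι) :
    Function.Surjective ((LocP.hom h2 h2' φ hφ).app σ) := by
  intro x
  change Loc (∏ i ∈ σ, f' i) M' at x
  obtain ⟨m, t, rfl⟩ := Loc.exists_mk _ x
  obtain ⟨m, rfl⟩ := hsurj m
  exact ⟨Loc.mk _ m t, LocP.hom_mk _ _ _ _ _ _ _⟩

/-- Functoriality of `LocP.hom` for composition, elementwise. -/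
theorem LocP.hom_comp_eq {R'' : Type} [CommRing R''] {f'' : ι → R''} {M'' : Type}
    [AddCommGroup M''] [Module R'' M''] (h2'' : ∀ m : M'', m + m = 0)
    (φ : M →+ M') (hφ : ∀ i m, φ (f i • m) = f' i • φ m)
    (ψ : M' →+ M'') (hψ : ∀ i m, ψ (f' i • m) = f'' i • ψ m)
    (θ : M →+ M'') (hθ : ∀ i m, θ (f i • m) = f'' i • θ m) (h : ∀ m, ψ (φ m) = θ m)
    (σ : Finset ι) (x : (LocP f M h2).G σ) :
    (LocP.hom h2' h2'' ψ hψ).app σ ((LocP.hom h2 h2' φ hφ).app σ x) =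
      (LocP.hom h2 h2'' θ hθ).app σ x := by
  change Loc (∏ i ∈ σ, f i) M at x
  obtain ⟨m, t, rfl⟩ := Loc.exists_mk _ x
  rw [LocP.hom_mk, LocP.hom_mk, LocP.hom_mk, h]

theorem LocP.hom_id_eq (φ : M →+ M) (hφ : ∀ i m, φ (f i • m) = f i • φ m) (h : ∀ m, φ m = m)
    (σ : Finset ι) (x : (LocP f M h2).G σ) : (LocP.hom h2 h2 φ hφ).app σ x = x := by
  change Loc (∏ i ∈ σ, f i) M at x
  obtain ⟨m, t, rfl⟩ := Loc.exists_mk _ x
  rw [LocP.hom_mk, h]

end

section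
variable {R : Type} [CommRing R] {f : ι → R}
  {M' : Type} [AddCommGroup M'] [Module R M'] {M : Type} [AddCommGroup M] [Module R M]
  {M'' : Type} [AddCommGroup M''] [Module R M'']
  (h2' : ∀ m : M', m + m = 0) (h2 : ∀ m : M, m + m = 0) (h2'' : ∀ m : M'', m + m = 0)

theorem LocP.hom_exact (α : M' →+ M) (hα : ∀ i m, α (f i • m) = f i • α m)
    (β : M →+ M'') (hβ : ∀ i m, β (f i • m) = f i • β m)
    (hex : ∀ x, β x = 0 ↔ ∃ y, α y = x) (σ : Finset ι) (x : (LocP f M h2).G σ) :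
    (LocP.hom h2 h2'' β hβ).app σ x = 0 ↔ ∃ y, (LocP.hom h2' h2 α hα).app σ y = x := by
  constructor
  · intro hx
    change Loc (∏ i ∈ σ, f i) M at x
    obtain ⟨m, t, rfl⟩ := Loc.exists_mk _ x
    rw [LocP.hom_mk] at hx
    obtain ⟨u, hu⟩ := (Loc.mk_eq_zero _ _ _).1 hx
    rw [← inter_pow hβ] at hu
    obtain ⟨y, hy⟩ := (hex _).1 hu
    refine ⟨Loc.mk _ y (t + u), ?_⟩
    rw [LocP.hom_mk, hy]
    exact (Loc.mk_raise _ _ _ _).symm
  · rintro ⟨y, rfl⟩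
    change Loc (∏ i ∈ σ, f i) M' at y
    obtain ⟨m, t, rfl⟩ := Loc.exists_mk _ y
    rw [LocP.hom_mk, LocP.hom_mk, (hex _).2 ⟨m, rfl⟩]
    exact Loc.mk_zero _ _

end

end Pool.Agent.N165.LC
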