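import Pool.Agent.N165.LC.T3
import Pool.Agent.N165.LC.T2

/-!
Extension of cocycles by zero to a larger family, and transport along retracts.
-/

namespace Pool.Agent.N165.LC

section push

variable {R : Type} [CommRing R] {M : Type} [AddCommGroup M] [Module R M]
  {ι κ : Type} [DecidableEq ι] [DecidableEq κ] (h : κ → R) (e : ι ↪ κ)

theorem loc_zero_of_nil {τ : Finset κ} {k : κ} (hk : k ∈ τ) {N : ℕ}
    (hN : ∀ m : M, h k ^ N • m = 0) (x : Loc (∏ i ∈ τ, h i) M) : x = 0 := by
  obtain ⟨m, t, rfl⟩ := Loc.exists_mk _ x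
  refine (Loc.mk_eq_zero _ _ _).2 ⟨N, ?_⟩
  rw [← Finset.mul_prod_erase τ h hk, mul_pow, mul_comm, mul_smul, hN, smul_zero]

theorem pf_mk (c : LCo (fun i => h (e i)) M) (σ : Finset ι) (m : M) (t : ℕ)
    (hc : c σ = Loc.mk _ m t) : pf h e M c (σ.map e) = Loc.mk _ m t := by
  have H : ∃ σ' : Finset ι, σ'.map e = σ.map e := ⟨σ, rfl⟩
  unfold pf
  rw [dif_pos H]
  have key : ∀ (σ' : Finset ι) (hs : σ'.map e = σ.map e),
      cs h e M hs (c σ') = Loc.mk _ m t := by
    intro σ' hs
    obtain rfl := Finset.map_injective e hs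
    rw [hc, cs_mk]
  exact key _ _

theorem push_cocycle (h2 : ∀ m : M, m + m = 0) (p : ℕ)
    (hnil : ∀ k, (∀ i, e i ≠ k) → ∃ N : ℕ, ∀ m : M, h k ^ N • m = 0)
    (c : LCo (fun i => h (e i)) M) (hc : c ∈ (LocP (fun i => h (e i)) M h2).Z p)
    (hcB : c ∉ (LocP (fun i => h (e i)) M h2).B p) :
    pf h e M c ∈ (LocP h M h2).Z p ∧ pf h e M c ∉ (LocP h M h2).B p := by
  obtain ⟨hc1, hc2⟩ := hc
  have hd : dl (fun i => h (e i)) M c = 0 := hc2
  refine ⟨⟨fun τ hτ => pf_zero h e c τ ?_, ?_⟩, ?_⟩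
  · rintro σ rfl
    rw [Finset.card_map] at hτ
    exact hc1 σ hτ
  · show dl h M (pf h e M c) = 0
    funext τ
    by_cases hex : ∃ σ : Finset ι, σ.map e = τ
    · obtain ⟨σ, rfl⟩ := hex
      apply cs'_inj h e (σ := σ) rfl
      rw [← pb_apply, ← dl_pb, pb_pf, hd]
      exact (map_zero _).symm
    · have : ∃ k ∈ τ, ∀ i, e i ≠ k := by
        by_contra hall
        push Not at hall
        apply hex
        have hsub : ∀ k ∈ τ, k ∈ Set.range e := fun k hk => hall k hk
        refine ⟨τ.preimage e e.injective.injOn, ?_⟩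
        ext k
        rw [Finset.mem_map]
        constructor
        · rintro ⟨i, hi, rfl⟩
          exact Finset.mem_preimage.1 hi
        · intro hk
          obtain ⟨i, rfl⟩ := hsub k hk
          exact ⟨i, Finset.mem_preimage.2 hk, rfl⟩
      obtain ⟨k, hk, hk'⟩ := this
      obtain ⟨N, hN⟩ := hnil k hk'
      exact loc_zero_of_nil h hk hN _
  · intro hB
    apply hcB
    cases p with
    | zero =>
      have h0 : pf h e M c = 0 := hB
      show c = 0
      rw [← pb_pf h e c, h0, map_zero]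
    | succ q =>
      obtain ⟨b, hb, hbc⟩ := hB
      refine ⟨pb h e M b, fun σ hσ => ?_, ?_⟩
      · have hb' : (show LCo h M from b) (σ.map e) = 0 := hb _ (by rwa [Finset.card_map])
        show cs' h e M (σ := σ) rfl ((show LCo h M from b) (σ.map e)) = 0
        rw [hb', map_zero]
      · show dl (fun i => h (e i)) M (pb h e M b) = c
        have h1 : dl h M b = pf h e M c := hbc
        funext σ
        rw [dl_pb, h1, pb_pf]

end push

/-- A section of a retraction carries non-trivial classes to non-trivial classes. -/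
theorem hom_nontrivial {R R' : Type} [CommRing R] [CommRing R'] {ι : Type} [DecidableEq ι]
    {f : ι → R} {f' : ι → R'} {M : Type} [AddCommGroup M] [Module R M] {M' : Type}
    [AddCommGroup M'] [Module R' M'] (h2 : ∀ m : M, m + m = 0) (h2' : ∀ m : M', m + m = 0)
    (ρ : M →+ M') (hρ : ∀ i m, ρ (f i • m) = f' i • ρ m) (s : M' →+ M)
    (hs : ∀ i m, s (f' i • m) = f i • s m) (hρs : ∀ m, ρ (s m) = m) (p : ℕ)
    (c : (LocP f' M' h2').C) (hc : c ∉ (LocP f' M' h2').B p) :
    (LocP.hom h2' h2 s hs).c c ∉ (LocP f M h2).B p := by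
  intro hB
  apply hc
  have h1 := (LocP.hom h2 h2' ρ hρ).c_mem_B hB
  have h3 : (LocP.hom h2 h2' ρ hρ).c ((LocP.hom h2' h2 s hs).c c) = c := by
    funext σ
    rw [BP.Hom.c_apply, BP.Hom.c_apply, LocP.hom_comp_eq h2' h2 h2' s hs ρ hρ
      (AddMonoidHom.id _) (fun _ _ => rfl) hρs]
    exact LocP.hom_id_eq h2' _ _ (fun _ => rfl) σ _
  rwa [h3] at h1

end Pool.Agent.N165.LC
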