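import Pool.Agent.N165.LC.Asm1
import Pool.Agent.N165.LC.Push

/-!
Assembly for the graded statement (`j = 0`).
-/

namespace Pool.Agent.N165.LC

open Pool.Agent.N165 MvPolynomial

/-- the monomial operators for `j = 0` as `x`-variables -/
def e1 : XM 0 → XT 0
  | .ua p _ => .th p
  | .uvs p q r => .uvs p q r

/-- the monomial operators for `j = 0` as variables of `R` -/
def e0 : XM 0 ↪ V 0 where
  toFun i := inX (e1 i)
  inj' := by
    intro x y h
    cases x with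
    | ua p l =>
      cases y with
      | ua p' l' =>
        have h1 : (V.th p : V 0) = V.th p' := h
        have h2 : p = p' := by injection h1
        have h3 : l = l' := Subsingleton.elim (α := Fin 1) l l'
        rw [h2, h3]
      | uvs p' q' r' => exact absurd (show (V.th p : V 0) = V.x p' q' r' from h) (by simp)
    | uvs p q r =>
      cases y with
      | ua p' l' => exact absurd (show (V.x p q r : V 0) = V.th p' from h) (by simp)
      | uvs p' q' r' =>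
        have h1 : (V.x p q r : V 0) = V.x p' q' r' := h
        injection h1 with h2 h3 h4
        rw [h2, h3, h4]

theorem xT_e1 (i : XM 0) : xT 0 (e1 i) = xM 0 i := by
  cases i with
  | uvs p q r => rfl
  | ua p l =>
    have hl : l = 0 := Subsingleton.elim (α := Fin 1) l 0
    subst hl
    show (∑ p' : Fin 2, ∑ l : Fin 1, if (p' : ℕ) + (l : ℕ) = (p : ℕ) then xM 0 (.ua p' l) else 0) = _
    rw [Fin.sum_univ_two, Fin.sum_univ_one, Fin.sum_univ_one]
    fin_cases p <;> simp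

theorem e0_not (k : V 0) (hk : ∀ i, e0 i ≠ k) : ∀ k', inX k' ≠ k := by
  intro k' h
  cases k' with
  | th i => exact hk (.ua i 0) h
  | uvs p q r => exact hk (.uvs p q r) h

/-- Extension by zero, in terms of the official complex. -/
theorem official_push {R : Type} [CommRing R] [CharP R 2] {M : Type} [AddCommGroup M] [Module R M]
    {ι κ : Type} [DecidableEq ι] [LinearOrder κ] (h : κ → R) (e : ι ↪ κ)
    (h2 : ∀ m : M, m + m = 0) (p : ℕ)
    (hnil : ∀ k, (∀ i, e i ≠ k) → ∃ N : ℕ, ∀ m : M, h k ^ N • m = 0)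
    (c : LCo (fun i => h (e i)) M) (hc : c ∈ (LocP (fun i => h (e i)) M h2).Z p)
    (hcB : c ∉ (LocP (fun i => h (e i)) M h2).B p) :
    ∃ c' ∈ LocalCohomology.cocycles h M p, c' ∉ LocalCohomology.coboundaries h M p ∧
      ∀ τ : Finset κ, c' τ = 0 ∨ ∃ σ : Finset ι, σ.map e = τ ∧
        ∀ m t, c σ = Loc.mk _ m t → c' τ = Loc.mk (∏ i ∈ τ, h i) m t := by
  obtain ⟨hZ, hB⟩ := push_cocycle h e h2 p hnil c hc hcB
  refine ⟨pf h e M c, (mem_cocycles h M h2 p _).2 hZ,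
    fun h' => hB ((mem_coboundaries h M h2 p _).1 h'), fun τ => ?_⟩
  by_cases hex : ∃ σ : Finset ι, σ.map e = τ
  · right
    obtain ⟨σ, rfl⟩ := hex
    exact ⟨σ, rfl, fun m t hm => pf_mk h e c σ m t hm⟩
  · left
    exact pf_zero h e c τ fun σ hσ => absurd ⟨σ, hσ⟩ hex

theorem supp_nonneg {b : ℤ} {m : Fb 0 b} {D : ℤ} (hm0 : m ≠ 0)
    (hm : ∀ μ, (m : Lam 0).coeff μ ≠ 0 → dA μ + dV μ = D) : 0 ≤ D := by
  have : ∃ μ, (m : Lam 0).coeff μ ≠ 0 := by
    by_contra hall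
    push Not at hall
    apply hm0
    apply Subtype.ext
    apply AddMonoidAlgebra.ext
    ext μ
    exact hall μ
  obtain ⟨μ, hμ⟩ := this
  rw [← hm μ hμ]
  have hn := ((mem_FS.1 m.2) μ hμ).1
  exact add_nonneg (Finset.sum_nonneg fun l _ => hn _) (Finset.sum_nonneg fun l _ => hn _)

/-- **Non-vanishing in very negative degree.** -/
theorem graded_nonzero : ∃ e ≥ 1, (∀ n ≥ 1, ∃ ℓ : ℕ,
    Module.length (PR 0) (LocalCohomology.H (V 0) (ZMod 2) (PR 0 ⧸ II 0 e ^ n) 5) = ℓ) ∧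
    ∀ n ≥ 1, ∀ l ≥ 1, 6 * l + 20 ≤ (2 * e * n - 1) ^ 2 + 6 * (2 * e * n - 1) →
      LocalCohomology.GradedNonzero (II 0 e ^ n) 5 (-(l : ℤ) - 2) := by
  obtain ⟨e₁, he₁, h1⟩ := H_PR_finite 0 finite_NN finite_Eb
  obtain ⟨e₂, he₂, h2⟩ := top_retract 0
  obtain ⟨e, hle1, hle2⟩ : ∃ e, e₁ ≤ e ∧ e₂ ≤ e := ⟨max e₁ e₂, le_max_left _ _, le_max_right _ _⟩
  have he : 1 ≤ e := le_trans he₁ hle1
  refine ⟨e, he, fun n hn => ?_, fun n hn l hl hb => ?_⟩
  · obtain ⟨ℓ, hℓ, -⟩ := official_length' e n he (0 + 5) (h1 e hle1 n hn)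
    exact ⟨ℓ, hℓ⟩
  · have h2' := h2 e hle2 n hn
    generalize 2 * e * n - 1 = b at hb h2'
    obtain ⟨ρ, s, hρ, hs, hρs, hdeg⟩ := h2'
    obtain ⟨f, hf, hf0, hfD⟩ := KK_nonzero b l hl hb
    obtain ⟨c, hcZ, hcB, hc⟩ := Eb_cochain (j := 0) (b : ℤ) f hf hf0 (-(l : ℤ) - (b + 5))
      (fun μ hμ => by
        obtain ⟨h3, h4⟩ := hfD μ hμ
        rw [h3, h4]
        ring)
    have hρ' : ∀ (i : XM 0) (x : PR 0 ⧸ II 0 e ^ n),
        ρ ((X (e0 i) : PR 0) • x) = xM 0 i • ρ x := by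
      intro i x
      rw [← xT_e1]
      exact hρ (e1 i) x
    have hs' : ∀ (i : XM 0) (x : Eb 0 (b : ℤ)), s (xM 0 i • x) = (X (e0 i) : PR 0) • s x := by
      intro i x
      rw [← xT_e1]
      exact hs (e1 i) x
    let c1 : LCo (fun i => (X (e0 i) : PR 0)) (PR 0 ⧸ II 0 e ^ n) :=
      (LocP.hom (f := xM 0) (f' := fun i => (X (e0 i) : PR 0)) two_Eb (two_PR _) s hs').c c
    have hc1Z : c1 ∈ (LocP (fun i => (X (e0 i) : PR 0)) (PR 0 ⧸ II 0 e ^ n) (two_PR _)).Z 5 :=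
      (LocP.hom (f := xM 0) (f' := fun i => (X (e0 i) : PR 0)) two_Eb (two_PR _) s hs').c_mem_Z hcZ
    have hc1B : c1 ∉ (LocP (fun i => (X (e0 i) : PR 0)) (PR 0 ⧸ II 0 e ^ n) (two_PR _)).B 5 :=
      hom_nontrivial (two_PR _) two_Eb ρ hρ' s hs' hρs 5 c hcB
    have hc1mk : ∀ (σ : Finset (XM 0)) (m : Fb 0 (b : ℤ)) (t : ℕ),
        c σ = mkE 0 b σ (mkA 0 b m) t → c1 σ = Loc.mk _ (s (Submodule.Quotient.mk m)) t := by
      intro σ m t hσ
      show (LocP.hom (f := xM 0) (f' := fun i => (X (e0 i) : PR 0)) two_Eb (two_PR _) s hs').app σ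
        (c σ) = _
      rw [hσ]
      exact LocP.hom_mk two_Eb (two_PR _) s hs' σ _ t
    obtain ⟨c', hc'Z, hc'B, hc'⟩ := official_push (X : V 0 → PR 0) e0 (two_PR _) 5
      (fun k hk => X_nil e n he k (e0_not k hk)) c1 hc1Z hc1B
    refine ⟨c', hc'Z, fun τ => ?_, hc'B⟩
    rcases hc' τ with h0 | ⟨σ, rfl, hσ'⟩
    · exact Or.inl h0
    · obtain ⟨t, m, hσ, hm⟩ := hc σ
      have hpf := hσ' _ t (hc1mk σ m t hσ)
      by_cases hm0 : m = 0
      · left
        rw [hpf, hm0, Submodule.Quotient.mk_zero, map_zero]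
        exact Loc.mk_zero _ _
      · right
        have hD := supp_nonneg hm0 hm
        obtain ⟨r, hr⟩ := Int.eq_ofNat_of_zero_le hD
        obtain ⟨g, hg, hgs⟩ := hdeg r m (fun μ hμ => by rw [hm μ hμ, hr])
        refine ⟨t, r + b + 1, g, hg, ?_, ?_⟩
        · rw [Finset.card_map]
          push_cast
          have hr' : (r : ℤ) = -(l : ℤ) - (b + 5) + 2 + t * σ.card := hr.symm
          rw [hr']
          ring
        · rw [hpf, hgs]
          rfl

end Pool.Agent.N165.LC
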