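import Mathlib

/-!
Abstract char-2 Čech-type complexes: a `BP ι` is a presheaf of elementary abelian 2-groups on the
Boolean lattice of finite subsets of `ι`.
-/

namespace Pool.Agent.N165.LC

/-- A presheaf of elementary abelian 2-groups on the lattice of finite subsets of `ι`. -/
structure BP (ι : Type) where
  G : Finset ι → Type
  grp : ∀ σ, AddCommGroup (G σ)
  res : ∀ {σ τ : Finset ι}, σ ⊆ τ → G σ →+ G τ
  res_id : ∀ {σ : Finset ι} (h : σ ⊆ σ) (x : G σ), res h x = x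
  res_res : ∀ {σ τ ρ : Finset ι} (h₁ : σ ⊆ τ) (h₂ : τ ⊆ ρ) (x : G σ),
    res h₂ (res h₁ x) = res (h₁.trans h₂) x
  two : ∀ {σ : Finset ι} (x : G σ), x + x = 0

attribute [instance] BP.grp

namespace BP

variable {ι : Type} [DecidableEq ι]

/-- All cochains. -/
abbrev C (G : BP ι) : Type := (σ : Finset ι) → G.G σ

/-- The (unsigned) Čech differential. -/
def d (G : BP ι) : G.C →+ G.C where
  toFun c τ := ∑ i ∈ τ, G.res (Finset.erase_subset i τ) (c (τ.erase i))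
  map_zero' := by
    funext τ
    simp
  map_add' x y := by
    funext τ
    simp [Finset.sum_add_distrib]

/-- Cochains of degree `p`. -/
def Cp (G : BP ι) (p : ℕ) : AddSubgroup G.C where
  carrier := {c | ∀ σ : Finset ι, σ.card ≠ p → c σ = 0}
  zero_mem' := fun σ _ => rfl
  add_mem' := fun {x y} hx hy σ h => by
    show x σ + y σ = 0
    rw [hx σ h, hy σ h, add_zero]
  neg_mem' := fun {x} hx σ h => by
    show -(x σ) = 0
    rw [hx σ h, neg_zero]

/-- Cocycles of degree `p`. -/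
def Z (G : BP ι) (p : ℕ) : AddSubgroup G.C := G.Cp p ⊓ G.d.ker

/-- Coboundaries of degree `p`. -/
def B (G : BP ι) : ℕ → AddSubgroup G.C
  | 0 => ⊥
  | q + 1 => (G.Cp q).map G.d

/-- Cohomology. -/
abbrev H (G : BP ι) (p : ℕ) : Type := G.Z p ⧸ (G.B p).addSubgroupOf (G.Z p)

theorem d_apply (G : BP ι) (c : G.C) (τ : Finset ι) :
    G.d c τ = ∑ i ∈ τ, G.res (Finset.erase_subset i τ) (c (τ.erase i)) := rfl

theorem mem_Cp {G : BP ι} {p : ℕ} {c : G.C} : c ∈ G.Cp p ↔ ∀ σ : Finset ι, σ.card ≠ p → c σ = 0 :=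
  Iff.rfl

theorem mem_Z {G : BP ι} {p : ℕ} {c : G.C} : c ∈ G.Z p ↔ c ∈ G.Cp p ∧ G.d c = 0 := Iff.rfl

theorem mem_B_succ {G : BP ι} {p : ℕ} {c : G.C} : c ∈ G.B (p + 1) ↔ ∃ b ∈ G.Cp p, G.d b = c :=
  Iff.rfl

theorem d_mem_Cp {G : BP ι} {p : ℕ} {c : G.C} (hc : c ∈ G.Cp p) : G.d c ∈ G.Cp (p + 1) := by
  intro τ hτ
  rw [d_apply]
  refine Finset.sum_eq_zero fun i hi => ?_
  rw [hc (τ.erase i) ?_, map_zero]
  intro h
  apply hτ
  rw [← h]
  exact (Finset.card_erase_add_one hi).symm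

/-- `d ∘ d = 0`. -/
theorem d_d (G : BP ι) (c : G.C) : G.d (G.d c) = 0 := by
  funext τ
  rw [d_apply]
  have key : ∀ i ∈ τ, G.res (Finset.erase_subset i τ) (G.d c (τ.erase i)) =
      ∑ j ∈ τ.erase i, G.res ((Finset.erase_subset j (τ.erase i)).trans (Finset.erase_subset i τ))
        (c ((τ.erase i).erase j)) := by
    intro i _
    rw [d_apply, map_sum]
    exact Finset.sum_congr rfl fun j _ => G.res_res _ _ _
  rw [Finset.sum_congr rfl key, Finset.sum_sigma']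
  have hdep : ∀ (ρ ρ' : Finset ι) (h : ρ ⊆ τ) (h' : ρ' ⊆ τ), ρ = ρ' →
      G.res h (c ρ) = G.res h' (c ρ') := by
    rintro ρ ρ' h h' rfl
    rfl
  refine Finset.sum_involution (fun x _ => ⟨x.2, x.1⟩) ?_ ?_ ?_ ?_
  · rintro ⟨i, j⟩ hx
    simp only [Finset.mem_sigma, Finset.mem_erase] at hx
    rw [hdep ((τ.erase j).erase i) ((τ.erase i).erase j) _
      ((Finset.erase_subset j (τ.erase i)).trans (Finset.erase_subset i τ))
      (Finset.erase_right_comm)]
    exact G.two _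
  · rintro ⟨i, j⟩ hx _ heq
    simp only [Finset.mem_sigma, Finset.mem_erase] at hx
    have : j = i := congrArg Sigma.fst heq
    exact hx.2.1 this
  · rintro ⟨i, j⟩ hx
    simp only [Finset.mem_sigma, Finset.mem_erase] at hx ⊢
    exact ⟨hx.2.2, fun h => hx.2.1 h.symm, hx.1⟩
  · rintro ⟨i, j⟩ hx
    rfl

theorem B_le_Z (G : BP ι) (p : ℕ) : G.B p ≤ G.Z p := by
  cases p with
  | zero => exact bot_le
  | succ q =>
    rintro c ⟨b, hb, rfl⟩
    exact ⟨d_mem_Cp hb, G.d_d b⟩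

/-- Morphisms of presheaves. -/
structure Hom (G G' : BP ι) where
  app : ∀ σ, G.G σ →+ G'.G σ
  nat : ∀ {σ τ : Finset ι} (h : σ ⊆ τ) (x : G.G σ), app τ (G.res h x) = G'.res h (app σ x)

/-- The map on cochains induced by a morphism. -/
def Hom.c {G G' : BP ι} (φ : Hom G G') : G.C →+ G'.C where
  toFun x σ := φ.app σ (x σ)
  map_zero' := by funext σ; exact map_zero _
  map_add' x y := by funext σ; exact map_add _ _ _

@[simp] theorem Hom.c_apply {G G' : BP ι} (φ : Hom G G') (x : G.C) (σ : Finset ι) :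
    φ.c x σ = φ.app σ (x σ) := rfl

theorem Hom.c_d {G G' : BP ι} (φ : Hom G G') (x : G.C) : φ.c (G.d x) = G'.d (φ.c x) := by
  funext τ
  rw [Hom.c_apply, d_apply, d_apply, map_sum]
  exact Finset.sum_congr rfl fun i _ => φ.nat _ _

theorem Hom.c_mem_Cp {G G' : BP ι} (φ : Hom G G') {p : ℕ} {x : G.C} (hx : x ∈ G.Cp p) :
    φ.c x ∈ G'.Cp p := fun σ h => by
  rw [Hom.c_apply, hx σ h, map_zero]

theorem Hom.c_mem_Z {G G' : BP ι} (φ : Hom G G') {p : ℕ} {x : G.C} (hx : x ∈ G.Z p) :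
    φ.c x ∈ G'.Z p := by
  refine ⟨φ.c_mem_Cp hx.1, ?_⟩
  show G'.d (φ.c x) = 0
  rw [← φ.c_d, show G.d x = 0 from hx.2, map_zero]

theorem Hom.c_mem_B {G G' : BP ι} (φ : Hom G G') {p : ℕ} {x : G.C} (hx : x ∈ G.B p) :
    φ.c x ∈ G'.B p := by
  cases p with
  | zero =>
    have : x = 0 := hx
    subst this
    rw [map_zero]
    exact zero_mem _
  | succ q =>
    obtain ⟨b, hb, rfl⟩ := hx
    exact ⟨φ.c b, φ.c_mem_Cp hb, (φ.c_d b).symm⟩

end BP

end Pool.Agent.N165.LC
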