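import Pool.Agent.N165.LC.Defs

/-!
Abstract homological algebra of the presheaves `BP ι`.
-/

namespace Pool.Agent.N165.LC

namespace BP

variable {ι : Type} [DecidableEq ι]

/-- The map on cocycles. -/
def Hom.Zmap {G G' : BP ι} (φ : Hom G G') (p : ℕ) : G.Z p →+ G'.Z p where
  toFun z := ⟨φ.c z, φ.c_mem_Z z.2⟩
  map_zero' := by
    apply Subtype.ext
    show φ.c 0 = 0
    exact map_zero _
  map_add' x y := by
    apply Subtype.ext
    show φ.c (x + y) = φ.c x + φ.c y
    exact map_add _ _ _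

/-- The map on cohomology. -/
def Hom.Hmap {G G' : BP ι} (φ : Hom G G') (p : ℕ) : G.H p →+ G'.H p :=
  QuotientAddGroup.map _ _ (φ.Zmap p) (by
    intro z hz
    rw [AddSubgroup.mem_comap, AddSubgroup.mem_addSubgroupOf]
    rw [AddSubgroup.mem_addSubgroupOf] at hz
    exact φ.c_mem_B hz)

theorem Hom.Hmap_mk {G G' : BP ι} (φ : Hom G G') (p : ℕ) (z : G.Z p) :
    φ.Hmap p (QuotientAddGroup.mk z) = QuotientAddGroup.mk (φ.Zmap p z) := rfl

theorem H_eq_zero {G : BP ι} {p : ℕ} (z : G.Z p) :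
    (QuotientAddGroup.mk z : G.H p) = 0 ↔ (z : G.C) ∈ G.B p := by
  rw [QuotientAddGroup.eq_zero_iff, AddSubgroup.mem_addSubgroupOf]

theorem H_surj {G : BP ι} {p : ℕ} (x : G.H p) : ∃ z : G.Z p, QuotientAddGroup.mk z = x :=
  QuotientAddGroup.mk_surjective x

/-- A pointwise bijective morphism induces an isomorphism on cohomology. -/
theorem H_equiv_of_bij {G G' : BP ι} (φ : Hom G G') (h : ∀ σ, Function.Bijective (φ.app σ))
    (p : ℕ) : Nonempty (G.H p ≃+ G'.H p) := by
  have hcinj : Function.Injective φ.c := by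
    intro x y hxy
    funext σ
    exact (h σ).1 (congrFun hxy σ)
  have hlift : ∀ (q : ℕ) (y : G'.C), y ∈ G'.Cp q → ∃ x ∈ G.Cp q, φ.c x = y := by
    intro q y hy
    choose x hx using fun σ => (h σ).2 (y σ)
    refine ⟨x, fun σ hσ => ?_, funext hx⟩
    apply (h σ).1
    rw [hx σ, hy σ hσ, map_zero]
  have hBlift : ∀ z : G.Z p, φ.c z ∈ G'.B p → (z : G.C) ∈ G.B p := by
    intro z hz
    cases p with
    | zero =>
      have h0 : φ.c (z : G.C) = 0 := hz
      have : (z : G.C) = 0 := hcinj (by rw [h0, map_zero])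
      rw [this]
      exact zero_mem _
    | succ q =>
      obtain ⟨b', hb', hb''⟩ := hz
      obtain ⟨b, hb, rfl⟩ := hlift q b' hb'
      refine ⟨b, hb, hcinj ?_⟩
      rw [φ.c_d, hb'']
  refine ⟨AddEquiv.ofBijective (φ.Hmap p) ⟨?_, ?_⟩⟩
  · rw [injective_iff_map_eq_zero]
    intro x hx
    obtain ⟨z, rfl⟩ := H_surj x
    rw [Hom.Hmap_mk, H_eq_zero] at hx
    rw [H_eq_zero]
    exact hBlift z hx
  · intro y
    obtain ⟨z, rfl⟩ := H_surj y
    obtain ⟨x, hx, hxz⟩ := hlift p z z.2.1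
    refine ⟨QuotientAddGroup.mk (⟨x, hx, ?_⟩ : G.Z p), ?_⟩
    · apply hcinj
      rw [φ.c_d, hxz, map_zero]
      exact z.2.2
    · rw [Hom.Hmap_mk]
      congr 1
      exact Subtype.ext hxz

/-- If the identity is a finite sum of maps factoring through presheaves with finite cohomology,
then the cohomology is finite. -/
theorem H_finite_of_sum {G : BP ι} {K : Type} [Fintype K] (N : K → BP ι)
    (ρ : ∀ k, Hom G (N k)) (s : ∀ k, Hom (N k) G)
    (hs : ∀ σ (x : G.G σ), ∑ k, (s k).app σ ((ρ k).app σ x) = x) (p : ℕ)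
    (hN : ∀ k, Finite ((N k).H p)) : Finite (G.H p) := by
  refine Finite.of_surjective (fun h : (∀ k, (N k).H p) => ∑ k, (s k).Hmap p (h k)) ?_
  intro y
  obtain ⟨z, rfl⟩ := H_surj y
  refine ⟨fun k => QuotientAddGroup.mk ((ρ k).Zmap p z), ?_⟩
  have e1 : ∀ k, (s k).Hmap p (QuotientAddGroup.mk ((ρ k).Zmap p z)) =
      (QuotientAddGroup.mk ((s k).Zmap p ((ρ k).Zmap p z)) : G.H p) := fun k => rfl
  show ∑ k, (s k).Hmap p (QuotientAddGroup.mk ((ρ k).Zmap p z)) = _
  rw [Finset.sum_congr rfl fun k _ => e1 k]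
  have e2 : (∑ k, (QuotientAddGroup.mk ((s k).Zmap p ((ρ k).Zmap p z)) : G.H p)) =
      QuotientAddGroup.mk (∑ k, (s k).Zmap p ((ρ k).Zmap p z)) :=
    (map_sum (QuotientAddGroup.mk' ((G.B p).addSubgroupOf (G.Z p))) _ _).symm
  rw [e2]
  congr 1
  apply Subtype.ext
  rw [AddSubgroup.val_finsetSum]
  funext σ
  rw [Finset.sum_apply]
  exact hs σ _

/-- The cohomology of a retract is not larger. -/
theorem H_card_of_retract {G N : BP ι} (ρ : Hom G N) (s : Hom N G)
    (h : ∀ σ (x : N.G σ), ρ.app σ (s.app σ x) = x) (p : ℕ) [Finite (G.H p)] :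
    Nat.card (N.H p) ≤ Nat.card (G.H p) := by
  apply Nat.card_le_card_of_surjective (ρ.Hmap p)
  intro y
  obtain ⟨z, rfl⟩ := H_surj y
  refine ⟨QuotientAddGroup.mk (s.Zmap p z), ?_⟩
  rw [Hom.Hmap_mk]
  congr 1
  apply Subtype.ext
  funext σ
  exact h σ _

section LES

variable {G' G G'' : BP ι} (α : Hom G' G) (β : Hom G G'')

theorem exists_lift (hsurj : ∀ σ, Function.Surjective (β.app σ)) {p : ℕ} (y : G''.C)
    (hy : y ∈ G''.Cp p) : ∃ x ∈ G.Cp p, β.c x = y := by
  classical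
  choose x hx using fun σ => hsurj σ (y σ)
  refine ⟨fun σ => if σ.card = p then x σ else 0, fun σ hσ => if_neg hσ, ?_⟩
  funext σ
  show β.app σ (if σ.card = p then x σ else 0) = y σ
  by_cases h : σ.card = p
  · rw [if_pos h, hx]
  · rw [if_neg h, map_zero, hy σ h]

theorem exists_pre (hinj : ∀ σ, Function.Injective (α.app σ))
    (hex : ∀ σ x, β.app σ x = 0 ↔ ∃ y, α.app σ y = x) {p : ℕ} (x : G.C) (hx : x ∈ G.Cp p)
    (h0 : β.c x = 0) : ∃ y ∈ G'.Cp p, α.c y = x := by
  choose y hy using fun σ => (hex σ (x σ)).1 (congrFun h0 σ)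
  refine ⟨y, fun σ hσ => ?_, funext hy⟩
  apply hinj σ
  rw [hy σ, hx σ hσ, map_zero]

theorem c_inj (hinj : ∀ σ, Function.Injective (α.app σ)) : Function.Injective α.c := by
  intro x y hxy
  funext σ
  exact hinj σ (congrFun hxy σ)

theorem βα (hex : ∀ σ x, β.app σ x = 0 ↔ ∃ y, α.app σ y = x) (y : G'.C) : β.c (α.c y) = 0 := by
  funext σ
  exact (hex σ _).2 ⟨y σ, rfl⟩

/-- The long exact sequence in the form needed. -/
theorem les_equiv (hinj : ∀ σ, Function.Injective (α.app σ))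
    (hex : ∀ σ x, β.app σ x = 0 ↔ ∃ y, α.app σ y = x)
    (hsurj : ∀ σ, Function.Surjective (β.app σ)) (p : ℕ) (hG : G.Z p ≤ G.B p)
    {D' D : Type} [AddCommGroup D'] [AddCommGroup D]
    (Φ' : G'.Z (p + 1) →+ D') (hs : Function.Surjective Φ')
    (hk' : ∀ z, Φ' z = 0 ↔ (z : G'.C) ∈ G'.B (p + 1))
    (Φ : G.Z (p + 1) →+ D) (hk : ∀ z, Φ z = 0 ↔ (z : G.C) ∈ G.B (p + 1))
    (η : D' →+ D) (hη : ∀ z : G'.Z (p + 1), Φ ⟨α.c z, α.c_mem_Z z.2⟩ = η (Φ' z)) :
    Nonempty (G''.H p ≃+ η.ker) := by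
  -- the group of `p`-cochains of `G` whose differential comes from `G'`
  let A : AddSubgroup G.C := G.Cp p ⊓ (β.c.comp G.d).ker
  have hA : ∀ c : A, ∃ z' : G'.Z (p + 1), α.c z' = G.d c := by
    rintro ⟨c, hc, hc'⟩
    obtain ⟨y, hy, hy'⟩ := exists_pre α β hinj hex (G.d c) (d_mem_Cp hc) hc'
    refine ⟨⟨y, hy, ?_⟩, hy'⟩
    apply c_inj α hinj
    rw [α.c_d, hy', G.d_d, map_zero]
  choose δ hδ using hA
  have hci := c_inj α hinj
  let Δ : A →+ G'.Z (p + 1) :=
    { toFun := δ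
      map_zero' := by
        apply Subtype.ext
        apply hci
        rw [hδ]
        show G.d 0 = α.c 0
        rw [map_zero, map_zero]
      map_add' := fun x y => by
        apply Subtype.ext
        apply hci
        rw [hδ]
        show G.d (x + y) = α.c (δ x + δ y)
        rw [map_add, map_add, hδ, hδ] }
  have hΔ : ∀ c : A, α.c (Δ c : G'.C) = G.d c := hδ
  -- map to the cohomology of `G''`
  let P : A →+ G''.Z p :=
    { toFun := fun c => ⟨β.c c, β.c_mem_Cp c.2.1, by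
        show G''.d (β.c c) = 0
        rw [← β.c_d]
        exact c.2.2⟩
      map_zero' := by
        apply Subtype.ext
        show β.c 0 = 0
        exact map_zero _
      map_add' := fun x y => by
        apply Subtype.ext
        show β.c (x + y) = β.c x + β.c y
        exact map_add _ _ _ }
  let P' : A →+ G''.H p := (QuotientAddGroup.mk' _).comp P
  have hP' : Function.Surjective P' := by
    intro y
    obtain ⟨z, rfl⟩ := H_surj y
    obtain ⟨x, hx, hx'⟩ := exists_lift β hsurj (z : G''.C) z.2.1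
    refine ⟨⟨x, hx, ?_⟩, ?_⟩
    · show β.c (G.d x) = 0
      rw [β.c_d, hx']
      exact z.2.2
    · show (QuotientAddGroup.mk (P ⟨x, _⟩) : G''.H p) = _
      congr 1
      exact Subtype.ext hx'
  let Q : A →+ η.ker :=
    { toFun := fun c => ⟨Φ' (Δ c), by
        rw [AddMonoidHom.mem_ker, ← hη, hk]
        show α.c (Δ c : G'.C) ∈ _
        rw [hΔ]
        exact ⟨c, c.2.1, rfl⟩⟩
      map_zero' := by
        apply Subtype.ext
        show Φ' (Δ 0) = 0
        rw [map_zero, map_zero]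
      map_add' := fun x y => by
        apply Subtype.ext
        show Φ' (Δ (x + y)) = Φ' (Δ x) + Φ' (Δ y)
        rw [map_add, map_add] }
  have hQ : Function.Surjective Q := by
    rintro ⟨y, hy⟩
    obtain ⟨z', rfl⟩ := hs y
    rw [AddMonoidHom.mem_ker, ← hη, hk] at hy
    obtain ⟨c, hc, hc'⟩ := hy
    have hcA : c ∈ A := by
      refine ⟨hc, ?_⟩
      show β.c (G.d c) = 0
      rw [hc']
      exact βα α β hex _
    refine ⟨⟨c, hcA⟩, ?_⟩
    apply Subtype.ext
    show Φ' (Δ ⟨c, hcA⟩) = Φ' z'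
    congr 1
    apply Subtype.ext
    apply hci
    rw [hΔ]
    exact hc'
  have hker : P'.ker = Q.ker := by
    ext c
    rw [AddMonoidHom.mem_ker, AddMonoidHom.mem_ker]
    have e1 : P' c = 0 ↔ β.c (c : G.C) ∈ G''.B p := H_eq_zero (P c)
    have e2 : Q c = 0 ↔ (Δ c : G'.C) ∈ G'.B (p + 1) := by
      rw [← hk']
      constructor
      · intro h
        exact congrArg Subtype.val h
      · intro h
        exact Subtype.ext h
    rw [e1, e2]
    constructor
    · intro h
      -- find `b` with `β (c - d b) = 0`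
      have hb : ∃ b : G.C, b ∈ G.B p ∧ β.c b = β.c c := by
        cases p with
        | zero =>
          refine ⟨0, zero_mem _, ?_⟩
          have h0 : β.c (c : G.C) = 0 := h
          rw [h0, map_zero]
        | succ q =>
          obtain ⟨b'', hb'', hb3⟩ := h
          obtain ⟨b, hb, rfl⟩ := exists_lift β hsurj b'' hb''
          refine ⟨G.d b, ⟨b, hb, rfl⟩, ?_⟩
          rw [β.c_d, hb3]
      obtain ⟨b, hb, hb'⟩ := hb
      have hbZ := G.B_le_Z p hb
      obtain ⟨c', hc', hc''⟩ := exists_pre α β hinj hex ((c : G.C) - b)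
        (sub_mem c.2.1 hbZ.1) (by rw [map_sub, hb', sub_self])
      refine ⟨c', hc', ?_⟩
      apply hci
      rw [α.c_d, hc'', map_sub, hΔ, show G.d b = 0 from hbZ.2, sub_zero]
    · rintro ⟨w, hw, hw'⟩
      have hz : (c : G.C) - α.c w ∈ G.Z p := by
        refine ⟨AddSubgroup.sub_mem (G.Cp p) c.2.1 (α.c_mem_Cp hw), ?_⟩
        show G.d (c - α.c w) = 0
        rw [map_sub, ← α.c_d, hw', hΔ, sub_self]
      have hB := β.c_mem_B (hG hz)
      rwa [map_sub, βα α β hex, sub_zero] at hB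
  exact ⟨(QuotientAddGroup.quotientKerEquivOfSurjective P' hP').symm.trans
    ((QuotientAddGroup.quotientAddEquivOfEq hker).trans
      (QuotientAddGroup.quotientKerEquivOfSurjective Q hQ))⟩

/-- A cochain of `G` whose differential is a non-trivial class coming from `G'` gives a non-trivial
class of `G''`. -/
theorem les_nonzero (hinj : ∀ σ, Function.Injective (α.app σ))
    (hex : ∀ σ x, β.app σ x = 0 ↔ ∃ y, α.app σ y = x)
    (hsurj : ∀ σ, Function.Surjective (β.app σ)) (p : ℕ) (w : G.C) (hw : w ∈ G.Cp p)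
    (z' : G'.C) (hz' : z' ∉ G'.B (p + 1)) (hd : G.d w = α.c z') :
    β.c w ∈ G''.Z p ∧ β.c w ∉ G''.B p := by
  have hci := c_inj α hinj
  refine ⟨⟨β.c_mem_Cp hw, ?_⟩, fun h => hz' ?_⟩
  · show G''.d (β.c w) = 0
    rw [← β.c_d, hd]
    exact βα α β hex _
  · have hb : ∃ b : G.C, b ∈ G.B p ∧ β.c b = β.c w := by
      cases p with
      | zero =>
        refine ⟨0, zero_mem _, ?_⟩
        have h0 : β.c w = 0 := h
        rw [h0, map_zero]
      | succ q =>
        obtain ⟨b'', hb'', hb3⟩ := h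
        obtain ⟨b, hb, rfl⟩ := exists_lift β hsurj b'' hb''
        refine ⟨G.d b, ⟨b, hb, rfl⟩, ?_⟩
        rw [β.c_d, hb3]
    obtain ⟨b, hb, hb'⟩ := hb
    have hbZ := G.B_le_Z p hb
    obtain ⟨c', hc', hc''⟩ := exists_pre α β hinj hex (w - b)
      (AddSubgroup.sub_mem (G.Cp p) hw hbZ.1) (by rw [map_sub, hb', sub_self])
    refine ⟨c', hc', ?_⟩
    apply hci
    rw [α.c_d, hc'', map_sub, hd, show G.d b = 0 from hbZ.2, sub_zero]

end LES

end BP

end Pool.Agent.N165.LC
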