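import Mathlib

/-! # Length and cardinality of finite `X`-torsion modules over `F_2[X]` -/

open MvPolynomial

namespace Pool.Agent.N165.LC

/-! ### T10 -/

namespace T10

variable {ι : Type} {N : Type} [AddCommGroup N] [Module (MvPolynomial ι (ZMod 2)) N]

/-- The variables act as zero on a simple module on which they act nilpotently. -/
theorem X_smul_eq_zero [IsSimpleModule (MvPolynomial ι (ZMod 2)) N]
    (hnil : ∀ (i : ι) (m : N), ∃ t : ℕ, (X i : MvPolynomial ι (ZMod 2)) ^ t • m = 0)
    (i : ι) (m : N) : (X i : MvPolynomial ι (ZMod 2)) • m = 0 := by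
  -- the kernel of the multiplication by `X i`
  let f : N →ₗ[MvPolynomial ι (ZMod 2)] N :=
    LinearMap.lsmul (MvPolynomial ι (ZMod 2)) N (X i : MvPolynomial ι (ZMod 2))
  have hf : ∀ x, f x = (X i : MvPolynomial ι (ZMod 2)) • x := fun x => rfl
  rcases eq_bot_or_eq_top (LinearMap.ker f) with h | h
  · -- injective: contradiction with nilpotency, unless `N` is zero
    have hinj : Function.Injective f := LinearMap.ker_eq_bot.1 h
    have key : ∀ (t : ℕ) (x : N), (X i : MvPolynomial ι (ZMod 2)) ^ t • x = 0 → x = 0 := by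
      intro t
      induction t with
      | zero => intro x hx; simpa using hx
      | succ t ih =>
        intro x hx
        have h1 : f ((X i : MvPolynomial ι (ZMod 2)) ^ t • x) = f 0 := by
          rw [hf, map_zero, smul_smul, ← pow_succ', hx]
        exact ih x (hinj h1)
    obtain ⟨t, ht⟩ := hnil i m
    rw [key t m ht, smul_zero]
  · have : m ∈ LinearMap.ker f := h ▸ Submodule.mem_top
    simpa [hf] using LinearMap.mem_ker.1 this

/-- A polynomial acts through its constant coefficient. -/
theorem smul_eq_coeff (hX : ∀ (i : ι) (m : N), (X i : MvPolynomial ι (ZMod 2)) • m = 0)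
    (p : MvPolynomial ι (ZMod 2)) (m : N) :
    p • m = (C (constantCoeff p) : MvPolynomial ι (ZMod 2)) • m := by
  induction p using MvPolynomial.induction_on with
  | C a => simp
  | add p q hp hq => rw [add_smul, hp, hq, map_add, map_add, add_smul]
  | mul_X p i _ =>
    rw [mul_smul, hX, smul_zero, map_mul, constantCoeff_X, mul_zero, map_zero, zero_smul]

theorem card_simple [IsSimpleModule (MvPolynomial ι (ZMod 2)) N]
    (hnil : ∀ (i : ι) (m : N), ∃ t : ℕ, (X i : MvPolynomial ι (ZMod 2)) ^ t • m = 0) :
    Nat.card N = 2 := by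
  have hX := X_smul_eq_zero hnil
  have : Nontrivial N := IsSimpleModule.nontrivial (MvPolynomial ι (ZMod 2)) N
  obtain ⟨m, hm⟩ := exists_ne (0 : N)
  have hspan := IsSimpleModule.span_singleton_eq_top (MvPolynomial ι (ZMod 2)) hm
  have h01 : ∀ a : ZMod 2, a = 0 ∨ a = 1 := by decide
  have hall : ∀ x : N, x = 0 ∨ x = m := by
    intro x
    have hx : x ∈ Submodule.span (MvPolynomial ι (ZMod 2)) {m} := hspan ▸ Submodule.mem_top
    obtain ⟨p, hp⟩ := Submodule.mem_span_singleton.1 hx
    rw [smul_eq_coeff hX] at hp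
    rcases h01 (constantCoeff p) with h | h
    · left; rw [← hp, h]; simp
    · right; rw [← hp, h]; simp
  have hset : (Set.univ : Set N) = {0, m} := by
    ext x
    simpa using hall x
  rw [← Set.ncard_univ, hset, Set.ncard_pair hm.symm]

end T10

theorem card_eq_two_pow_length {ι : Type} [Finite ι] (M : Type) [AddCommGroup M]
    [Module (MvPolynomial ι (ZMod 2)) M] [Finite M]
    (hnil : ∀ (i : ι) (m : M), ∃ t : ℕ, (X i : MvPolynomial ι (ZMod 2)) ^ t • m = 0) :
    ∃ ℓ : ℕ, Module.length (MvPolynomial ι (ZMod 2)) M = ℓ ∧ Nat.card M = 2 ^ ℓ := by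
  -- strong induction on the cardinality
  suffices H : ∀ (n : ℕ) (M : Type) [AddCommGroup M] [Module (MvPolynomial ι (ZMod 2)) M]
      [Finite M], (∀ (i : ι) (m : M), ∃ t : ℕ, (X i : MvPolynomial ι (ZMod 2)) ^ t • m = 0) →
      Nat.card M = n →
      ∃ ℓ : ℕ, Module.length (MvPolynomial ι (ZMod 2)) M = ℓ ∧ Nat.card M = 2 ^ ℓ from
    H _ M hnil rfl
  intro n
  induction n using Nat.strong_induction_on with
  | _ n ih =>
    intro M _ _ _ hnil hn
    rcases subsingleton_or_nontrivial M with hs | hs
    · exact ⟨0, by simp [Module.length_eq_zero], by simp⟩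
    · obtain ⟨S, hS⟩ := IsAtomic.exists_atom (Submodule (MvPolynomial ι (ZMod 2)) M)
      have : IsSimpleModule (MvPolynomial ι (ZMod 2)) S := isSimpleModule_iff_isAtom.2 hS
      have hS2 : Nat.card S = 2 := T10.card_simple (N := S) (fun i m => by
        obtain ⟨t, ht⟩ := hnil i (m : M)
        exact ⟨t, Subtype.ext (by simpa using ht)⟩)
      have hcard : Nat.card M = Nat.card S * Nat.card (M ⧸ S) :=
        Submodule.card_eq_card_quotient_mul_card S
      have hfin : Finite (M ⧸ S) := Finite.of_surjective _ (Submodule.mkQ_surjective S)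
      have hpos : 0 < Nat.card (M ⧸ S) := Nat.card_pos
      have hlt : Nat.card (M ⧸ S) < n := by
        rw [← hn, hcard, hS2]; omega
      obtain ⟨ℓ, h1, h2⟩ := ih _ hlt (M ⧸ S) (fun i m => by
        obtain ⟨x, rfl⟩ := Submodule.mkQ_surjective S m
        obtain ⟨t, ht⟩ := hnil i x
        exact ⟨t, by rw [← map_smul, ht, map_zero]⟩) rfl
      refine ⟨ℓ + 1, ?_, ?_⟩
      · have h3 := Module.length_eq_add_of_exact S.subtype S.mkQ (Submodule.subtype_injective _)
          (Submodule.mkQ_surjective _) (LinearMap.exact_subtype_mkQ S)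
        rw [h3, h1, Module.length_eq_one]
        push_cast
        rw [add_comm]
      · rw [hcard, hS2, h2, pow_succ']

end Pool.Agent.N165.LC
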