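import Pool.Agent.N165.LC.Defs

/-!
Čech cohomology of a module of characteristic two: every cocycle class is torsion with respect to
the sequence, and the cohomology only depends on the sequence up to radical (modulo annihilator).
-/

namespace Pool.Agent.N165.LC

section T3

variable {R : Type} [CommRing R] {M : Type} [AddCommGroup M] [Module R M]
variable {ι : Type} [DecidableEq ι]

theorem lres_smul (f : ι → R) {σ τ : Finset ι} (h : σ ⊆ τ) (r : R) (x : Loc (∏ i ∈ σ, f i) M) :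
    lres f M h (r • x) = r • lres f M h x := by
  obtain ⟨m, t, rfl⟩ := Loc.exists_mk _ x
  rw [Loc.mk_smul, lres_mk, lres_mk, Loc.mk_smul, smul_comm]

/-- cochains -/
abbrev LCo (f : ι → R) (M : Type) [AddCommGroup M] [Module R M] : Type :=
  (σ : Finset ι) → Loc (∏ i ∈ σ, f i) M

/-- the differential, linear over the ring -/
noncomputable def dl (f : ι → R) (M : Type) [AddCommGroup M] [Module R M] :
    LCo f M →ₗ[R] LCo f M where
  toFun c τ := ∑ i ∈ τ, lres f M (Finset.erase_subset i τ) (c (τ.erase i))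
  map_add' x y := by
    funext τ
    simp [Finset.sum_add_distrib]
  map_smul' r x := by
    funext τ
    simp only [Pi.smul_apply, lres_smul, RingHom.id_apply, Finset.smul_sum]

theorem dl_apply (f : ι → R) (c : LCo f M) (τ : Finset ι) :
    dl f M c τ = ∑ i ∈ τ, lres f M (Finset.erase_subset i τ) (c (τ.erase i)) := rfl

theorem LocP_d (f : ι → R) (h2 : ∀ m : M, m + m = 0) (c : (LocP f M h2).C) :
    (LocP f M h2).d c = dl f M c := rfl

theorem dl_dl (f : ι → R) (h2 : ∀ m : M, m + m = 0) (c : LCo f M) : dl f M (dl f M c) = 0 :=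
  (LocP f M h2).d_d c

theorem loc_two (h2 : ∀ m : M, m + m = 0) {a : R} (x : Loc a M) : x + x = 0 := by
  obtain ⟨m, t, rfl⟩ := Loc.exists_mk _ x
  rw [← Loc.mk_add, h2, Loc.mk_zero]

theorem loc_eq (h2 : ∀ m : M, m + m = 0) {a : R} {x y : Loc a M} : x + y = 0 ↔ x = y := by
  constructor
  · intro h
    have h3 := loc_two h2 y
    have : x + y = y + y := by rw [h, h3]
    exact add_right_cancel this
  · rintro rfl
    exact loc_two h2 x

/-- restriction to the support of one element is injective up to torsion -/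
theorem tors_of_lres (f : ι → R) {τ : Finset ι} {i : ι} (hi : i ∉ τ)
    (x : Loc (∏ i ∈ τ, f i) M) (h : lres f M (Finset.subset_insert i τ) x = 0) :
    ∃ u : ℕ, f i ^ u • x = 0 := by
  obtain ⟨m, t, rfl⟩ := Loc.exists_mk _ x
  rw [lres_mk, Loc.mk_eq_zero] at h
  obtain ⟨u, hu⟩ := h
  have hs : insert i τ \ τ = {i} := by
    ext j
    simp only [Finset.mem_sdiff, Finset.mem_insert, Finset.mem_singleton]
    constructor
    · rintro ⟨h1 | h1, h3⟩
      · exact h1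
      · exact absurd h1 h3
    · rintro rfl
      exact ⟨Or.inl rfl, hi⟩
  rw [hs, Finset.prod_singleton, Finset.prod_insert hi] at hu
  refine ⟨u + t, ?_⟩
  rw [Loc.mk_smul, Loc.mk_eq_zero]
  refine ⟨u, ?_⟩
  rw [← hu, mul_pow, ← mul_smul, ← mul_smul]
  congr 1
  ring

theorem lres_cast (f : ι → R) (c : LCo f M) {σ σ' τ : Finset ι} (h : σ ⊆ τ) (h' : σ' ⊆ τ)
    (e : σ = σ') : lres f M h (c σ) = lres f M h' (c σ') := by
  subst e
  rfl

theorem lres_refl (f : ι → R) {σ : Finset ι} (h : σ ⊆ σ) (x : Loc (∏ i ∈ σ, f i) M) :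
    lres f M h x = x := by
  obtain ⟨m, t, rfl⟩ := Loc.exists_mk _ x
  rw [lres_mk]
  simp

theorem lres_lres (f : ι → R) (h2 : ∀ m : M, m + m = 0) {σ τ ρ : Finset ι} (h₁ : σ ⊆ τ)
    (h₂ : τ ⊆ ρ) (x : Loc (∏ i ∈ σ, f i) M) :
    lres f M h₂ (lres f M h₁ x) = lres f M (h₁.trans h₂) x :=
  (LocP f M h2).res_res h₁ h₂ x

/-- the general torsion lemma -/
theorem tors_gen (f : ι → R) (h2 : ∀ m : M, m + m = 0) (A J : Finset ι) (p : ℕ) (c : LCo f M)
    (hs : ∀ σ : Finset ι, ¬ (A ⊆ σ ∧ σ ⊆ J ∧ σ.card = p) → c σ = 0)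
    (hc : ∀ τ, τ ⊆ J → dl f M c τ = 0) {i : ι} (hiJ : i ∈ J) (hiA : i ∉ A) :
    ∃ (t : ℕ) (b : LCo f M),
      (∀ σ : Finset ι, ¬ (A ⊆ σ ∧ σ ⊆ J ∧ σ.card + 1 = p) → b σ = 0) ∧
      ∀ τ, τ ⊆ J → dl f M b τ = f i ^ t • c τ := by
  classical
  obtain ⟨t, m, hm⟩ := Loc.exists_mk_finset J.powerset (A := fun σ => ∏ j ∈ σ, f j) c
  have hm' : ∀ σ ⊆ J, c σ = Loc.mk _ (m σ) t := fun σ hσ => hm σ (Finset.mem_powerset.2 hσ)
  set b0 : LCo f M := fun σ =>
    if A ⊆ σ ∧ σ ⊆ J ∧ σ.card + 1 = p ∧ i ∉ σ then Loc.mk _ (m (insert i σ)) t else 0 with hb0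
  have hb0i : ∀ σ, i ∈ σ → b0 σ = 0 := by
    intro σ hσ
    simp only [hb0]
    rw [if_neg]
    rintro ⟨_, _, _, h⟩
    exact h hσ
  have hb0s : ∀ σ : Finset ι, ¬ (A ⊆ σ ∧ σ ⊆ J ∧ σ.card + 1 = p) → b0 σ = 0 := by
    intro σ hσ
    simp only [hb0]
    rw [if_neg]
    rintro ⟨h1, h2, h3, h⟩
    exact hσ ⟨h1, h2, h3⟩
  set e : LCo f M := dl f M b0 + f i ^ t • c with he
  have he_mem : ∀ τ, τ ⊆ J → i ∈ τ → e τ = 0 := by
    intro τ hτ hi
    have h1 : dl f M b0 τ = lres f M (Finset.erase_subset i τ) (b0 (τ.erase i)) := by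
      rw [dl_apply]
      refine Finset.sum_eq_single i ?_ (fun h => absurd hi h)
      intro j hj hji
      rw [hb0i _ (Finset.mem_erase.2 ⟨fun h => hji h.symm, hi⟩), map_zero]
    show dl f M b0 τ + f i ^ t • c τ = 0
    rw [loc_eq h2, h1]
    by_cases hcond : A ⊆ τ ∧ τ.card = p
    · obtain ⟨hA, hp⟩ := hcond
      have hcond' : A ⊆ τ.erase i ∧ τ.erase i ⊆ J ∧ (τ.erase i).card + 1 = p ∧ i ∉ τ.erase i := by
        refine ⟨?_, (Finset.erase_subset i τ).trans hτ, ?_, Finset.notMem_erase i τ⟩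
        · intro a ha
          exact Finset.mem_erase.2 ⟨fun h => hiA (h ▸ ha), hA ha⟩
        · rw [Finset.card_erase_add_one hi, hp]
      simp only [hb0]
      rw [if_pos hcond', lres_mk, hm' τ hτ, Loc.mk_smul, Finset.insert_erase hi]
      have : τ \ τ.erase i = {i} := by
        ext j
        simp only [Finset.mem_sdiff, Finset.mem_erase, Finset.mem_singleton]
        constructor
        · rintro ⟨h1, h3⟩
          by_contra hji
          exact h3 ⟨hji, h1⟩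
        · rintro rfl
          exact ⟨hi, fun h => h.1 rfl⟩
      rw [this, Finset.prod_singleton]
    · rw [hb0s, map_zero, hs, smul_zero]
      · rintro ⟨h1, h3, h4⟩
        exact hcond ⟨h1, h4⟩
      · rintro ⟨h1, h3, h4⟩
        apply hcond
        refine ⟨h1.trans (Finset.erase_subset i τ), ?_⟩
        rw [← h4, Finset.card_erase_add_one hi]
  have he_tors : ∀ τ, ∃ u : ℕ, τ ⊆ J → i ∉ τ → f i ^ u • e τ = 0 := by
    intro τ
    by_cases hτ : τ ⊆ J ∧ i ∉ τ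
    · obtain ⟨hτ, hi⟩ := hτ
      have hins : insert i τ ⊆ J := Finset.insert_subset hiJ hτ
      have h1 : dl f M e (insert i τ) = 0 := by
        rw [he, map_add, map_smul, dl_dl f h2]
        show (0 : Loc _ M) + f i ^ t • dl f M c (insert i τ) = 0
        rw [hc _ hins, smul_zero, add_zero]
      have h3 : lres f M (Finset.subset_insert i τ) (e τ) = 0 := by
        rw [← h1, dl_apply, Finset.sum_eq_single i]
        · exact lres_cast f e _ _ (Finset.erase_insert hi).symm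
        · intro j hj hji
          rw [he_mem, map_zero]
          · exact (Finset.erase_subset _ _).trans hins
          · exact Finset.mem_erase.2 ⟨fun h => hji h.symm, Finset.mem_insert_self _ _⟩
        · intro h
          exact absurd (Finset.mem_insert_self _ _) h
      obtain ⟨u, hu⟩ := tors_of_lres f hi (e τ) h3
      exact ⟨u, fun _ _ => hu⟩
    · exact ⟨0, fun h h' => absurd ⟨h, h'⟩ hτ⟩
  choose u hu using he_tors
  set U := J.powerset.sup u with hU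
  refine ⟨U + t, f i ^ U • b0, ?_, ?_⟩
  · intro σ hσ
    show f i ^ U • b0 σ = 0
    rw [hb0s σ hσ, smul_zero]
  · intro τ hτ
    have h1 : f i ^ U • e τ = 0 := by
      by_cases hi : i ∈ τ
      · rw [he_mem τ hτ hi, smul_zero]
      · have hle : u τ ≤ U := Finset.le_sup (f := u) (Finset.mem_powerset.2 hτ)
        obtain ⟨k, hk⟩ := Nat.exists_eq_add_of_le hle
        rw [hk, add_comm, pow_add, mul_smul, hu τ hτ hi, smul_zero]
    rw [map_smul]
    show f i ^ U • dl f M b0 τ = _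
    rw [← loc_eq h2, pow_add, mul_smul, ← smul_add]
    exact h1

theorem loc_smul_congr {a r r' : R} (h : ∀ m : M, r • m = r' • m) (x : Loc a M) :
    r • x = r' • x := by
  obtain ⟨m, t, rfl⟩ := Loc.exists_mk _ x
  rw [Loc.mk_smul, Loc.mk_smul, h]

theorem mem_B_iff [Fintype ι] (f : ι → R) (h2 : ∀ m : M, m + m = 0) (p : ℕ)
    (c : (LocP f M h2).C) : c ∈ (LocP f M h2).B p ↔
      ∃ b : LCo f M, (∀ σ : Finset ι, σ.card + 1 ≠ p → b σ = 0) ∧ ∀ τ, dl f M b τ = c τ := by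
  cases p with
  | zero =>
    constructor
    · intro h
      have h0 : c = 0 := h
      subst h0
      refine ⟨0, fun σ _ => rfl, fun τ => ?_⟩
      rw [map_zero]
      rfl
    · rintro ⟨b, hb, hbc⟩
      have hb0 : b = 0 := funext fun σ => hb σ (Nat.succ_ne_zero _)
      have : c = 0 := by
        funext τ
        rw [← hbc τ, hb0, map_zero]
        rfl
      exact this
  | succ q =>
    constructor
    · rintro ⟨b, hb, hbc⟩
      refine ⟨b, fun σ hσ => hb σ fun h => hσ (by rw [h]), fun τ => ?_⟩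
      rw [← hbc]
      rfl
    · rintro ⟨b, hb, hbc⟩
      refine ⟨b, fun σ hσ => hb σ fun h => hσ (by omega), ?_⟩
      funext τ
      exact hbc τ

theorem LocP_torsion {ι : Type} [Fintype ι] [DecidableEq ι] (f : ι → R) (h2 : ∀ m : M, m + m = 0)
    (p : ℕ) (c : (LocP f M h2).C) (hc : c ∈ (LocP f M h2).Z p) (i : ι) :
    ∃ t : ℕ, (fun σ => (f i ^ t • (show Loc (∏ i ∈ σ, f i) M from c σ) : Loc (∏ i ∈ σ, f i) M)) ∈
      (LocP f M h2).B p := by
  obtain ⟨t, b, hb, hbc⟩ := tors_gen (M := M) f h2 ∅ Finset.univ p c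
    (fun σ hσ => hc.1 σ fun h => hσ ⟨Finset.empty_subset _, Finset.subset_univ _, h⟩)
    (fun τ _ => congrFun (show dl f M c = 0 from hc.2) τ) (Finset.mem_univ i)
    (Finset.notMem_empty i)
  refine ⟨t, (mem_B_iff f h2 p _).2 ⟨b, fun σ hσ => hb σ fun h => hσ h.2.2, fun τ => ?_⟩⟩
  exact hbc τ (Finset.subset_univ _)

/-- `f g` is nilpotent modulo the `f i`, `i ∈ J`, on the module `M`. -/
def NilMod (f : ι → R) (M : Type) [AddCommGroup M] [Module R M] (J : Finset ι) (g : ι) : Prop :=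
  ∃ (N : ℕ) (r : ι → R), ∀ m : M, f g ^ N • m = ∑ i ∈ J, (r i * f i) • m

theorem NilMod.mono {f : ι → R} {J J' : Finset ι} {g : ι} (h : NilMod f M J g) (hJ : J ⊆ J') :
    NilMod f M J' g := by
  obtain ⟨N, r, hr⟩ := h
  refine ⟨N, fun i => if i ∈ J then r i else 0, fun m => ?_⟩
  rw [hr m, ← Finset.sum_subset hJ]
  · refine Finset.sum_congr rfl fun i hi => ?_
    simp only
    rw [if_pos hi]
  · intro i _ hi
    simp only
    rw [if_neg hi, zero_mul, zero_smul]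

theorem NilMod.pow {f : ι → R} {J : Finset ι} {g : ι} (h : NilMod f M J g) (t : ℕ) :
    ∃ (N : ℕ) (r : ι → R), ∀ m : M, f g ^ N • m = ∑ i ∈ J, (r i * f i ^ t) • m := by
  classical
  obtain ⟨N, r, hr⟩ := h
  set I : Ideal R := Module.annihilator R M ⊔ Ideal.span (J.image fun i => f i ^ t) with hI
  have hmem : ∀ i ∈ J, f i ∈ I.radical := by
    intro i hi
    refine ⟨t, ?_⟩
    refine Ideal.mem_sup_right (Ideal.subset_span ?_)
    exact Finset.mem_coe.2 (Finset.mem_image.2 ⟨i, hi, rfl⟩)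
  have h1 : f g ^ N - ∑ i ∈ J, r i * f i ∈ Module.annihilator R M := by
    rw [Module.mem_annihilator]
    intro m
    rw [sub_smul, hr m, Finset.sum_smul, sub_self]
  have h3 : f g ^ N ∈ I.radical := by
    have h4 : ∑ i ∈ J, r i * f i ∈ I.radical :=
      Ideal.sum_mem _ fun i hi => Ideal.mul_mem_left _ _ (hmem i hi)
    have h5 : f g ^ N - ∑ i ∈ J, r i * f i ∈ I.radical :=
      Ideal.le_radical (Ideal.mem_sup_left h1)
    have := Ideal.add_mem _ h5 h4
    rwa [sub_add_cancel] at this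
  obtain ⟨k, hk⟩ := h3
  rw [← pow_mul, hI, Submodule.mem_sup] at hk
  obtain ⟨a, ha, b, hb, hab⟩ := hk
  have hb' : ∃ r' : ι → R, ∑ i ∈ J, r' i * f i ^ t = b := by
    clear hab
    rw [Finset.coe_image] at hb
    refine Submodule.span_induction (p := fun b _ => ∃ r' : ι → R, ∑ i ∈ J, r' i * f i ^ t = b)
      ?_ ?_ ?_ ?_ hb
    · rintro x ⟨i, hi, rfl⟩
      refine ⟨Pi.single i 1, ?_⟩
      rw [Finset.sum_eq_single i]
      · simp
      · intro j _ hji
        rw [Pi.single_eq_of_ne hji, zero_mul]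
      · intro h
        exact absurd (Finset.mem_coe.1 hi) h
    · exact ⟨0, by simp⟩
    · rintro x y _ _ ⟨r1, rfl⟩ ⟨r3, rfl⟩
      refine ⟨r1 + r3, ?_⟩
      rw [← Finset.sum_add_distrib]
      exact Finset.sum_congr rfl fun i _ => by rw [Pi.add_apply, add_mul]
    · rintro a x _ ⟨r1, rfl⟩
      refine ⟨fun i => a * r1 i, ?_⟩
      rw [smul_eq_mul, Finset.mul_sum]
      exact Finset.sum_congr rfl fun i _ => by rw [mul_assoc]
  obtain ⟨r', hr'⟩ := hb'
  refine ⟨N * k, r', fun m => ?_⟩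
  rw [← hab, add_smul, (Module.mem_annihilator.1 ha) m, zero_add, ← hr', Finset.sum_smul]

theorem smul_inj_of_mem (f : ι → R) {σ : Finset ι} {g : ι} (hg : g ∈ σ) (N : ℕ)
    {x y : Loc (∏ i ∈ σ, f i) M} (h : f g ^ N • x = f g ^ N • y) : x = y := by
  rw [← sub_eq_zero] at h ⊢
  rw [← smul_sub] at h
  obtain ⟨m, t, hm⟩ := Loc.exists_mk _ (x - y)
  rw [hm] at h ⊢
  rw [Loc.mk_smul, Loc.mk_eq_zero] at h
  obtain ⟨u, hu⟩ := h
  rw [Loc.mk_eq_zero]
  refine ⟨u + N, ?_⟩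
  have hp : (∏ i ∈ σ, f i) = (∏ i ∈ σ.erase g, f i) * f g := by
    rw [Finset.prod_erase_mul _ _ hg]
  calc (∏ i ∈ σ, f i) ^ (u + N) • m
      = (∏ i ∈ σ.erase g, f i) ^ N • ((∏ i ∈ σ, f i) ^ u • (f g ^ N • m)) := by
        rw [pow_add, ← mul_smul, ← mul_smul]
        congr 1
        rw [show (∏ i ∈ σ, f i) ^ N = (∏ i ∈ σ.erase g, f i) ^ N * f g ^ N by rw [hp, mul_pow]]
        ring
    _ = 0 := by rw [hu, smul_zero]

theorem smul_surj_of_mem (f : ι → R) {σ : Finset ι} {g : ι} (hg : g ∈ σ) (N : ℕ)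
    (x : Loc (∏ i ∈ σ, f i) M) : ∃ y : Loc (∏ i ∈ σ, f i) M, f g ^ N • y = x := by
  obtain ⟨m, t, rfl⟩ := Loc.exists_mk _ x
  refine ⟨Loc.mk _ ((∏ i ∈ σ.erase g, f i) ^ N • m) (t + N), ?_⟩
  rw [Loc.mk_smul, Loc.mk_raise _ m t N, ← mul_smul, ← mul_pow, Finset.mul_prod_erase _ _ hg]

/-- the kernel complex is exact -/
theorem ker_exact (f : ι → R) (h2 : ∀ m : M, m + m = 0) (J : Finset ι) (g : ι) (hg : g ∉ J)
    (hnil : NilMod f M J g) (p : ℕ) (c : LCo f M)
    (hs : ∀ σ : Finset ι, ¬ (g ∈ σ ∧ σ ⊆ insert g J ∧ σ.card = p) → c σ = 0)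
    (hc : ∀ τ, τ ⊆ insert g J → dl f M c τ = 0) :
    ∃ b : LCo f M,
      (∀ σ : Finset ι, ¬ (g ∈ σ ∧ σ ⊆ insert g J ∧ σ.card + 1 = p) → b σ = 0) ∧
      ∀ τ, τ ⊆ insert g J → dl f M b τ = c τ := by
  classical
  have h1 : ∀ i, ∃ (t : ℕ) (b : LCo f M), i ∈ J →
      (∀ σ : Finset ι, ¬ (g ∈ σ ∧ σ ⊆ insert g J ∧ σ.card + 1 = p) → b σ = 0) ∧
      ∀ τ, τ ⊆ insert g J → dl f M b τ = f i ^ t • c τ := by
    intro i
    by_cases hi : i ∈ J
    · obtain ⟨t, b, hb, hbc⟩ := tors_gen f h2 {g} (insert g J) p c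
        (fun σ hσ => hs σ fun h => hσ ⟨Finset.singleton_subset_iff.2 h.1, h.2⟩) hc
        (Finset.mem_insert_of_mem hi) (i := i)
        (by rw [Finset.mem_singleton]; rintro rfl; exact hg hi)
      exact ⟨t, b, fun _ => ⟨fun σ hσ => hb σ fun h =>
        hσ ⟨Finset.singleton_subset_iff.1 h.1, h.2⟩, hbc⟩⟩
    · exact ⟨0, 0, fun h => absurd h hi⟩
  choose t b hb using h1
  set T := J.sup t with hT
  obtain ⟨N, r, hr⟩ := hnil.pow T
  set b' : LCo f M := ∑ i ∈ J, (r i * f i ^ (T - t i)) • b i with hb'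
  have hb's : ∀ σ : Finset ι, ¬ (g ∈ σ ∧ σ ⊆ insert g J ∧ σ.card + 1 = p) → b' σ = 0 := by
    intro σ hσ
    rw [hb', Finset.sum_apply]
    refine Finset.sum_eq_zero fun i hi => ?_
    rw [Pi.smul_apply, (hb i hi).1 σ hσ, smul_zero]
  have hb'c : ∀ τ, τ ⊆ insert g J → dl f M b' τ = f g ^ N • c τ := by
    intro τ hτ
    rw [hb', map_sum, Finset.sum_apply]
    have : ∀ i ∈ J, dl f M ((r i * f i ^ (T - t i)) • b i) τ = (r i * f i ^ T) • c τ := by
      intro i hi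
      rw [map_smul, Pi.smul_apply, (hb i hi).2 τ hτ, ← mul_smul]
      congr 1
      have hle : t i ≤ T := Finset.le_sup hi
      rw [mul_assoc, ← pow_add, Nat.sub_add_cancel hle]
    rw [Finset.sum_congr rfl this, ← Finset.sum_smul]
    refine (loc_smul_congr (fun m => ?_) _).symm
    rw [hr m, Finset.sum_smul]
  have hdiv : ∀ σ : Finset ι, ∃ y : Loc (∏ i ∈ σ, f i) M, f g ^ N • y = b' σ ∧
      (¬ (g ∈ σ ∧ σ ⊆ insert g J ∧ σ.card + 1 = p) → y = 0) := by
    intro σ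
    by_cases hσ : g ∈ σ ∧ σ ⊆ insert g J ∧ σ.card + 1 = p
    · obtain ⟨y, hy⟩ := smul_surj_of_mem f hσ.1 N (b' σ)
      exact ⟨y, hy, fun h => absurd hσ h⟩
    · exact ⟨0, by rw [smul_zero, hb's σ hσ], fun _ => rfl⟩
  choose b'' hb'' hb''s using hdiv
  refine ⟨b'', hb''s, fun τ hτ => ?_⟩
  by_cases hgτ : g ∈ τ
  · apply smul_inj_of_mem f hgτ N
    rw [← hb'c τ hτ, ← Pi.smul_apply, ← map_smul]
    have : f g ^ N • b'' = b' := funext hb''
    rw [this]
  · rw [hs τ fun h => hgτ h.1, dl_apply]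
    refine Finset.sum_eq_zero fun j _ => ?_
    rw [hb''s, map_zero]
    rintro ⟨h, _⟩
    exact hgτ (Finset.mem_of_mem_erase h)

/-- cocycles on the subsets of `J` -/
noncomputable def ZJ (f : ι → R) (M : Type) [AddCommGroup M] [Module R M] (J : Finset ι) (p : ℕ) :
    AddSubgroup (LCo f M) where
  carrier := {c | (∀ σ : Finset ι, ¬ (σ ⊆ J ∧ σ.card = p) → c σ = 0) ∧
    ∀ τ, τ ⊆ J → dl f M c τ = 0}
  zero_mem' := ⟨fun _ _ => rfl, fun τ _ => by rw [map_zero]; rfl⟩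
  add_mem' := fun {x y} hx hy => ⟨fun σ h => by
      show x σ + y σ = 0
      rw [hx.1 σ h, hy.1 σ h, add_zero], fun τ h => by
      rw [map_add]
      show dl f M x τ + dl f M y τ = 0
      rw [hx.2 τ h, hy.2 τ h, add_zero]⟩
  neg_mem' := fun {x} hx => ⟨fun σ h => by
      show -(x σ) = 0
      rw [hx.1 σ h, neg_zero], fun τ h => by
      rw [map_neg]
      show -(dl f M x τ) = 0
      rw [hx.2 τ h, neg_zero]⟩

/-- coboundaries on the subsets of `J` -/
noncomputable def BJ (f : ι → R) (M : Type) [AddCommGroup M] [Module R M] (J : Finset ι) (p : ℕ) :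
    AddSubgroup (LCo f M) where
  carrier := {c | ∃ b : LCo f M, (∀ σ : Finset ι, ¬ (σ ⊆ J ∧ σ.card + 1 = p) → b σ = 0) ∧
    ∀ τ, τ ⊆ J → dl f M b τ = c τ}
  zero_mem' := ⟨0, fun _ _ => rfl, fun τ _ => by rw [map_zero]⟩
  add_mem' := by
    rintro x y ⟨b, hb, hbc⟩ ⟨b', hb', hbc'⟩
    refine ⟨b + b', fun σ h => ?_, fun τ h => ?_⟩
    · show b σ + b' σ = 0
      rw [hb σ h, hb' σ h, add_zero]
    · rw [map_add]
      show dl f M b τ + dl f M b' τ = x τ + y τ
      rw [hbc τ h, hbc' τ h]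
  neg_mem' := by
    rintro x ⟨b, hb, hbc⟩
    refine ⟨-b, fun σ h => ?_, fun τ h => ?_⟩
    · show -(b σ) = 0
      rw [hb σ h, neg_zero]
    · rw [map_neg]
      show -(dl f M b τ) = -(x τ)
      rw [hbc τ h]

theorem quot_equiv {G₁ G₂ : Type} [AddCommGroup G₁] [AddCommGroup G₂] (Z₁ B₁ : AddSubgroup G₁)
    (Z₂ B₂ : AddSubgroup G₂) (φ : G₁ →+ G₂) (hZ : ∀ c ∈ Z₁, φ c ∈ Z₂)
    (hB : ∀ c ∈ Z₁, φ c ∈ B₂ ↔ c ∈ B₁) (hs : ∀ c ∈ Z₂, ∃ c' ∈ Z₁, φ c' = c) :
    Nonempty ((Z₁ ⧸ B₁.addSubgroupOf Z₁) ≃+ (Z₂ ⧸ B₂.addSubgroupOf Z₂)) := by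
  let φ' : Z₁ →+ Z₂ := (φ.comp Z₁.subtype).codRestrict Z₂ fun c => hZ c c.2
  let ψ : Z₁ →+ Z₂ ⧸ B₂.addSubgroupOf Z₂ := (QuotientAddGroup.mk' _).comp φ'
  have hker : ψ.ker = B₁.addSubgroupOf Z₁ := by
    ext c
    rw [AddMonoidHom.mem_ker]
    show QuotientAddGroup.mk' _ (φ' c) = 0 ↔ _
    rw [QuotientAddGroup.mk'_apply, QuotientAddGroup.eq_zero_iff, AddSubgroup.mem_addSubgroupOf,
      AddSubgroup.mem_addSubgroupOf]
    exact hB c c.2
  have hsurj : Function.Surjective ψ := by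
    intro x
    obtain ⟨⟨c, hc⟩, rfl⟩ := QuotientAddGroup.mk'_surjective _ x
    obtain ⟨c', hc', rfl⟩ := hs c hc
    exact ⟨⟨c', hc'⟩, rfl⟩
  exact ⟨(QuotientAddGroup.quotientAddEquivOfEq hker.symm).trans
    (QuotientAddGroup.quotientKerEquivOfSurjective ψ hsurj)⟩

/-- cohomology of the subsets of `J` -/
abbrev HJ (f : ι → R) (M : Type) [AddCommGroup M] [Module R M] (J : Finset ι) (p : ℕ) : Type :=
  ZJ f M J p ⧸ (BJ f M J p).addSubgroupOf (ZJ f M J p)

/-- restriction of cochains to the subsets of `J` -/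
noncomputable def resJ (f : ι → R) (M : Type) [AddCommGroup M] [Module R M] (J : Finset ι) :
    LCo f M →+ LCo f M where
  toFun c σ := if σ ⊆ J then c σ else 0
  map_zero' := by
    funext σ
    split_ifs <;> rfl
  map_add' x y := by
    funext σ
    by_cases h : σ ⊆ J
    · simp only [Pi.add_apply, if_pos h]
    · simp only [Pi.add_apply, if_neg h, add_zero]

theorem resJ_apply (f : ι → R) (J : Finset ι) (c : LCo f M) (σ : Finset ι) :
    resJ f M J c σ = if σ ⊆ J then c σ else 0 := rfl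

theorem dl_resJ (f : ι → R) (J : Finset ι) (c : LCo f M) {τ : Finset ι} (hτ : τ ⊆ J) :
    dl f M (resJ f M J c) τ = dl f M c τ := by
  rw [dl_apply, dl_apply]
  refine Finset.sum_congr rfl fun i _ => ?_
  rw [resJ_apply, if_pos ((Finset.erase_subset i τ).trans hτ)]

theorem dl_supp (f : ι → R) (J : Finset ι) (p : ℕ) (c : LCo f M)
    (hs : ∀ σ : Finset ι, ¬ (σ ⊆ J ∧ σ.card + 1 = p) → c σ = 0) {τ : Finset ι}
    (hτ : τ.card ≠ p) : dl f M c τ = 0 := by
  rw [dl_apply]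
  refine Finset.sum_eq_zero fun i hi => ?_
  rw [hs, map_zero]
  rintro ⟨_, h⟩
  exact hτ (by rw [← h, Finset.card_erase_add_one hi])

theorem restr_equiv (f : ι → R) (h2 : ∀ m : M, m + m = 0) (J : Finset ι) (g : ι) (hg : g ∉ J)
    (hnil : NilMod f M J g) (p : ℕ) : Nonempty (HJ f M (insert g J) p ≃+ HJ f M J p) := by
  classical
  have hJ : J ⊆ insert g J := Finset.subset_insert g J
  have hmem : ∀ σ : Finset ι, σ ⊆ insert g J → ¬ g ∈ σ → σ ⊆ J := fun σ h h' =>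
    (Finset.subset_insert_iff_of_notMem h').1 h
  refine quot_equiv _ _ _ _ (resJ f M J) ?_ ?_ ?_
  · rintro c ⟨hs, hc⟩
    refine ⟨fun σ hσ => ?_, fun τ hτ => ?_⟩
    · rw [resJ_apply]
      by_cases h : σ ⊆ J
      · rw [if_pos h]
        exact hs σ fun h' => hσ ⟨h, h'.2⟩
      · rw [if_neg h]
    · rw [dl_resJ f J c hτ, hc τ (hτ.trans hJ)]
  · rintro c ⟨hs, hc⟩
    constructor
    · rintro ⟨b, hb, hbc⟩
      have hc'' : ∀ τ, τ ⊆ J → (dl f M b + c) τ = 0 := by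
        intro τ hτ
        show dl f M b τ + c τ = 0
        rw [loc_eq h2, hbc τ hτ, resJ_apply, if_pos hτ]
      obtain ⟨b', hb', hbc'⟩ := ker_exact f h2 J g hg hnil p
        (resJ f M (insert g J) (dl f M b + c)) (by
          intro σ hσ
          rw [resJ_apply]
          by_cases h : σ ⊆ insert g J
          · rw [if_pos h]
            by_cases hgσ : g ∈ σ
            · have hcard : σ.card ≠ p := fun h' => hσ ⟨hgσ, h, h'⟩
              show dl f M b σ + c σ = 0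
              rw [dl_supp f J p b hb hcard, hs σ fun h' => hcard h'.2, add_zero]
            · exact hc'' σ (hmem σ h hgσ)
          · rw [if_neg h]) (by
          intro τ hτ
          rw [dl_resJ f _ _ hτ, map_add, dl_dl f h2]
          show (0 : Loc _ M) + dl f M c τ = 0
          rw [hc τ hτ, add_zero])
      refine ⟨b + b', fun σ hσ => ?_, fun τ hτ => ?_⟩
      · show b σ + b' σ = 0
        rw [hb σ fun h => hσ ⟨h.1.trans hJ, h.2⟩, hb' σ fun h => hσ h.2, add_zero]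
      · rw [map_add]
        show dl f M b τ + dl f M b' τ = c τ
        rw [hbc' τ hτ, resJ_apply, if_pos hτ]
        show dl f M b τ + (dl f M b τ + c τ) = c τ
        rw [← add_assoc, loc_two h2, zero_add]
    · rintro ⟨b, hb, hbc⟩
      refine ⟨resJ f M J b, fun σ hσ => ?_, fun τ hτ => ?_⟩
      · rw [resJ_apply]
        by_cases h : σ ⊆ J
        · rw [if_pos h]
          exact hb σ fun h' => hσ ⟨h, h'.2⟩
        · rw [if_neg h]
      · rw [dl_resJ f J b hτ, hbc τ (hτ.trans hJ), resJ_apply, if_pos hτ]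
  · rintro c ⟨hs, hc⟩
    obtain ⟨b, hb, hbc⟩ := ker_exact f h2 J g hg hnil (p + 1)
      (resJ f M (insert g J) (dl f M c)) (by
        intro σ hσ
        rw [resJ_apply]
        by_cases h : σ ⊆ insert g J
        · rw [if_pos h]
          by_cases hgσ : g ∈ σ
          · refine dl_supp f J (p + 1) c (fun ρ hρ => hs ρ fun h' => hρ ⟨h'.1, by rw [h'.2]⟩)
              fun h' => hσ ⟨hgσ, h, h'⟩
          · exact hc σ (hmem σ h hgσ)
        · rw [if_neg h]) (by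
        intro τ hτ
        rw [dl_resJ f _ _ hτ, dl_dl f h2]
        rfl)
    refine ⟨c + b, ⟨fun σ hσ => ?_, fun τ hτ => ?_⟩, ?_⟩
    · show c σ + b σ = 0
      rw [hs σ fun h => hσ ⟨h.1.trans hJ, h.2⟩, hb σ fun h => hσ ⟨h.2.1, by omega⟩, add_zero]
    · rw [map_add]
      show dl f M c τ + dl f M b τ = 0
      rw [hbc τ hτ, resJ_apply, if_pos hτ]
      exact loc_two h2 _
    · funext σ
      rw [resJ_apply]
      by_cases h : σ ⊆ J
      · rw [if_pos h]
        show c σ + b σ = c σ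
        rw [hb σ fun h' => hg (h h'.1), add_zero]
      · rw [if_neg h, hs σ fun h' => h h'.1]

theorem iter_equiv (f : ι → R) (h2 : ∀ m : M, m + m = 0) (J S : Finset ι)
    (hnil : ∀ g ∈ S, NilMod f M J g) (p : ℕ) : Nonempty (HJ f M (S ∪ J) p ≃+ HJ f M J p) := by
  classical
  induction S using Finset.induction_on with
  | empty =>
    rw [Finset.empty_union]
    exact ⟨AddEquiv.refl _⟩
  | insert g S hgS ih =>
    obtain ⟨e⟩ := ih fun g' hg' => hnil g' (Finset.mem_insert_of_mem hg')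
    rw [Finset.insert_union]
    by_cases hg : g ∈ S ∪ J
    · rw [Finset.insert_eq_of_mem hg]
      exact ⟨e⟩
    · obtain ⟨e'⟩ := restr_equiv f h2 (S ∪ J) g hg
        ((hnil g (Finset.mem_insert_self g S)).mono Finset.subset_union_right) p
      exact ⟨e'.trans e⟩

section transport

set_option linter.unusedSectionVars false

variable {κ : Type} [DecidableEq κ] (h : κ → R) (e : ι ↪ κ)

/-- identification of the localisations -/
noncomputable def cs (M : Type) [AddCommGroup M] [Module R M] {σ : Finset ι} {τ : Finset κ}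
    (hs : σ.map e = τ) : Loc (∏ i ∈ σ, h (e i)) M →+ Loc (∏ i ∈ τ, h i) M :=
  Loc.map (AddMonoidHom.id M) _ _ 1 (fun m => by
    rw [AddMonoidHom.id_apply, AddMonoidHom.id_apply, ← hs, Finset.prod_map, one_smul])

/-- identification of the localisations, backwards -/
noncomputable def cs' (M : Type) [AddCommGroup M] [Module R M] {σ : Finset ι} {τ : Finset κ}
    (hs : σ.map e = τ) : Loc (∏ i ∈ τ, h i) M →+ Loc (∏ i ∈ σ, h (e i)) M :=
  Loc.map (AddMonoidHom.id M) _ _ 1 (fun m => by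
    rw [AddMonoidHom.id_apply, AddMonoidHom.id_apply, ← hs, Finset.prod_map, one_smul])

theorem cs_mk {σ : Finset ι} {τ : Finset κ} (hs : σ.map e = τ) (m : M) (t : ℕ) :
    cs h e M hs (Loc.mk _ m t) = Loc.mk _ m t := by
  unfold cs
  rw [Loc.map_mk, one_pow, one_smul, AddMonoidHom.id_apply]

theorem cs'_mk {σ : Finset ι} {τ : Finset κ} (hs : σ.map e = τ) (m : M) (t : ℕ) :
    cs' h e M hs (Loc.mk _ m t) = Loc.mk _ m t := by
  unfold cs'
  rw [Loc.map_mk, one_pow, one_smul, AddMonoidHom.id_apply]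

theorem cs'_cs {σ : Finset ι} {τ : Finset κ} (hs : σ.map e = τ) (x : Loc (∏ i ∈ σ, h (e i)) M) :
    cs' h e M hs (cs h e M hs x) = x := by
  obtain ⟨m, t, rfl⟩ := Loc.exists_mk _ x
  rw [cs_mk, cs'_mk]

theorem cs_cs' {σ : Finset ι} {τ : Finset κ} (hs : σ.map e = τ) (x : Loc (∏ i ∈ τ, h i) M) :
    cs h e M hs (cs' h e M hs x) = x := by
  obtain ⟨m, t, rfl⟩ := Loc.exists_mk _ x
  rw [cs'_mk, cs_mk]

theorem cs'_inj {σ : Finset ι} {τ : Finset κ} (hs : σ.map e = τ) {x y : Loc (∏ i ∈ τ, h i) M}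
    (hxy : cs' h e M hs x = cs' h e M hs y) : x = y := by
  rw [← cs_cs' h e hs x, hxy, cs_cs']

theorem cs'_lres {σ₁ σ₂ : Finset ι} {τ₁ τ₂ : Finset κ} (hs₁ : σ₁.map e = τ₁)
    (hs₂ : σ₂.map e = τ₂) (hσ : σ₁ ⊆ σ₂) (hτ : τ₁ ⊆ τ₂) (x : Loc (∏ i ∈ τ₁, h i) M) :
    cs' h e M hs₂ (lres h M hτ x) = lres (fun i => h (e i)) M hσ (cs' h e M hs₁ x) := by
  obtain ⟨m, t, rfl⟩ := Loc.exists_mk _ x
  rw [lres_mk, cs'_mk, cs'_mk, lres_mk]
  congr 3
  rw [← hs₁, ← hs₂, ← Finset.map_sdiff, Finset.prod_map]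

/-- pull back of cochains -/
noncomputable def pb (M : Type) [AddCommGroup M] [Module R M] :
    LCo h M →+ LCo (fun i => h (e i)) M where
  toFun c σ := cs' h e M (σ := σ) rfl (c (σ.map e))
  map_zero' := by
    funext σ
    exact map_zero _
  map_add' x y := by
    funext σ
    exact map_add _ _ _

theorem pb_apply (c : LCo h M) (σ : Finset ι) :
    pb h e M c σ = cs' h e M (σ := σ) rfl (c (σ.map e)) := rfl

theorem dl_pb (c : LCo h M) (σ : Finset ι) :
    dl (fun i => h (e i)) M (pb h e M c) σ = pb h e M (dl h M c) σ := by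
  rw [dl_apply, pb_apply, dl_apply, map_sum, Finset.sum_map]
  refine Finset.sum_congr rfl fun i _ => ?_
  rw [pb_apply, ← cs'_lres h e rfl rfl (Finset.erase_subset i σ)
    (Finset.map_subset_map.2 (Finset.erase_subset i σ))]
  congr 1
  exact lres_cast h c _ _ (Finset.map_erase e σ i)

open Classical in
/-- push forward of cochains -/
noncomputable def pf (M : Type) [AddCommGroup M] [Module R M] (c : LCo (fun i => h (e i)) M) :
    LCo h M := fun τ =>
  if H : ∃ σ : Finset ι, σ.map e = τ then cs h e M H.choose_spec (c H.choose) else 0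

theorem pb_pf (c : LCo (fun i => h (e i)) M) : pb h e M (pf h e M c) = c := by
  funext σ
  rw [pb_apply]
  unfold pf
  have H : ∃ σ' : Finset ι, σ'.map e = σ.map e := ⟨σ, rfl⟩
  rw [dif_pos H]
  have key : ∀ (σ' : Finset ι) (hs : σ'.map e = σ.map e),
      cs' h e M (σ := σ) rfl (cs h e M hs (c σ')) = c σ := by
    intro σ' hs
    obtain rfl := Finset.map_injective e hs
    exact cs'_cs h e rfl _
  exact key _ _

theorem pf_zero (c : LCo (fun i => h (e i)) M) (τ : Finset κ)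
    (hz : ∀ σ : Finset ι, σ.map e = τ → c σ = 0) : pf h e M c τ = 0 := by
  unfold pf
  split_ifs with H
  · rw [hz _ H.choose_spec, map_zero]
  · rfl

theorem transp_equiv [Fintype ι] (p : ℕ) :
    Nonempty (HJ h M (Finset.univ.map e) p ≃+ HJ (fun i => h (e i)) M Finset.univ p) := by
  classical
  have hsub : ∀ τ : Finset κ, τ ⊆ Finset.univ.map e → ∃ σ : Finset ι, σ.map e = τ := by
    intro τ hτ
    obtain ⟨σ, _, hσ⟩ := Finset.subset_map_iff.1 hτ
    exact ⟨σ, hσ.symm⟩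
  have hle : ∀ σ : Finset ι, σ.map e ⊆ Finset.univ.map e := fun σ =>
    Finset.map_subset_map.2 (Finset.subset_univ σ)
  refine quot_equiv _ _ _ _ (pb h e M) ?_ ?_ ?_
  · rintro c ⟨hs, hc⟩
    refine ⟨fun σ hσ => ?_, fun σ _ => ?_⟩
    · rw [pb_apply, hs, map_zero]
      rintro ⟨_, h'⟩
      rw [Finset.card_map] at h'
      exact hσ ⟨Finset.subset_univ σ, h'⟩
    · rw [dl_pb, pb_apply, hc _ (hle σ), map_zero]
  · rintro c ⟨hs, hc⟩
    constructor
    · rintro ⟨b, hb, hbc⟩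
      refine ⟨pf h e M b, fun τ hτ => pf_zero h e b τ ?_, fun τ hτ => ?_⟩
      · rintro σ rfl
        refine hb σ fun h' => hτ ⟨hle σ, ?_⟩
        rw [Finset.card_map, h'.2]
      · obtain ⟨σ, rfl⟩ := hsub τ hτ
        apply cs'_inj h e (σ := σ) rfl
        rw [← pb_apply, ← pb_apply, ← dl_pb, pb_pf, hbc σ (Finset.subset_univ σ)]
    · rintro ⟨b, hb, hbc⟩
      refine ⟨pb h e M b, fun σ hσ => ?_, fun σ _ => ?_⟩
      · rw [pb_apply, hb, map_zero]
        rintro ⟨_, h'⟩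
        rw [Finset.card_map] at h'
        exact hσ ⟨Finset.subset_univ σ, h'⟩
      · rw [dl_pb, pb_apply, pb_apply, hbc _ (hle σ)]
  · rintro c ⟨hs, hd⟩
    refine ⟨pf h e M c, ⟨fun τ hτ => pf_zero h e c τ ?_, fun τ hτ => ?_⟩, pb_pf h e c⟩
    · rintro σ rfl
      refine hs σ fun h' => hτ ⟨hle σ, ?_⟩
      rw [Finset.card_map, h'.2]
    · obtain ⟨σ, rfl⟩ := hsub τ hτ
      apply cs'_inj h e (σ := σ) rfl
      rw [← pb_apply, ← dl_pb, pb_pf, hd σ (Finset.subset_univ σ), map_zero]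

end transport

theorem HJ_univ [Fintype ι] (f : ι → R) (h2 : ∀ m : M, m + m = 0) (p : ℕ) :
    Nonempty (HJ f M Finset.univ p ≃+ (LocP f M h2).H p) := by
  have hφ : ∃ φ : LCo f M →+ (LocP f M h2).C, ∀ c, φ c = c := ⟨AddMonoidHom.id _, fun _ => rfl⟩
  obtain ⟨φ, hφ⟩ := hφ
  refine quot_equiv _ _ _ _ φ ?_ ?_ ?_
  · rintro c ⟨hs, hc⟩
    rw [hφ]
    exact ⟨fun σ hσ => hs σ fun h => hσ h.2, funext fun τ => hc τ (Finset.subset_univ τ)⟩
  · rintro c ⟨hs, hc⟩
    rw [hφ]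
    constructor
    · intro h
      obtain ⟨b, hb, hbc⟩ := (mem_B_iff f h2 p _).1 h
      exact ⟨b, fun σ hσ => hb σ fun h => hσ ⟨Finset.subset_univ σ, h⟩, fun τ _ => hbc τ⟩
    · rintro ⟨b, hb, hbc⟩
      exact (mem_B_iff f h2 p _).2 ⟨b, fun σ hσ => hb σ fun h => hσ h.2,
        fun τ => hbc τ (Finset.subset_univ τ)⟩
  · intro c hc
    exact ⟨c, ⟨fun σ hσ => hc.1 σ fun h => hσ ⟨Finset.subset_univ σ, h⟩,
      fun τ _ => congrFun (show dl f M c = 0 from hc.2) τ⟩, hφ _⟩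

theorem LocP_indep {ι₁ ι₂ : Type} [Fintype ι₁] [DecidableEq ι₁] [Fintype ι₂] [DecidableEq ι₂]
    (h2 : ∀ m : M, m + m = 0) (f : ι₁ → R) (g : ι₂ → R)
    (hf : ∀ i, ∃ (N : ℕ) (r : ι₂ → R), ∀ m : M, f i ^ N • m = ∑ k, (r k * g k) • m)
    (hg : ∀ k, ∃ (N : ℕ) (r : ι₁ → R), ∀ m : M, g k ^ N • m = ∑ i, (r i * f i) • m) (p : ℕ) :
    Nonempty ((LocP f M h2).H p ≃+ (LocP g M h2).H p) := by
  classical
  let h : ι₁ ⊕ ι₂ → R := Sum.elim f g
  let J₁ : Finset (ι₁ ⊕ ι₂) := Finset.univ.map Function.Embedding.inl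
  let J₂ : Finset (ι₁ ⊕ ι₂) := Finset.univ.map Function.Embedding.inr
  have n1 : ∀ k ∈ J₂, NilMod h M J₁ k := by
    intro k hk
    obtain ⟨k, _, rfl⟩ := Finset.mem_map.1 hk
    obtain ⟨N, r, hr⟩ := hg k
    refine ⟨N, Sum.elim r 0, fun m => ?_⟩
    rw [Finset.sum_map]
    exact hr m
  have n2 : ∀ k ∈ J₁, NilMod h M J₂ k := by
    intro k hk
    obtain ⟨k, _, rfl⟩ := Finset.mem_map.1 hk
    obtain ⟨N, r, hr⟩ := hf k
    refine ⟨N, Sum.elim 0 r, fun m => ?_⟩
    rw [Finset.sum_map]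
    exact hr m
  obtain ⟨e1⟩ := iter_equiv h h2 J₁ J₂ n1 p
  obtain ⟨e2⟩ := iter_equiv h h2 J₂ J₁ n2 p
  obtain ⟨e3⟩ := transp_equiv (M := M) h (Function.Embedding.inl : ι₁ ↪ ι₁ ⊕ ι₂) p
  obtain ⟨e4⟩ := transp_equiv (M := M) h (Function.Embedding.inr : ι₂ ↪ ι₁ ⊕ ι₂) p
  obtain ⟨e6⟩ := HJ_univ (M := M) f h2 p
  obtain ⟨e7⟩ := HJ_univ (M := M) g h2 p
  have e5 : HJ h M (J₂ ∪ J₁) p ≃+ HJ h M (J₁ ∪ J₂) p := by
    rw [Finset.union_comm]
  have e8 : HJ f M Finset.univ p ≃+ HJ g M Finset.univ p :=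
    e3.symm.trans (e1.symm.trans (e5.trans (e2.trans e4)))
  exact ⟨e6.symm.trans (e8.trans e7)⟩

end T3

end Pool.Agent.N165.LC
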