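import Pool.Agent.N165.LC.Official
import Pool.Agent.N165.LC.T3
import Pool.Agent.N165.LC.T1
import Pool.Agent.N165.LC.T10

/-!
Comparison of the official Čech complex with the presheaf `LocP` in characteristic two.
-/

namespace Pool.Agent.N165.LC

open Pool.Agent.N165

variable {R : Type} [CommRing R] {ι : Type} [LinearOrder ι] (f : ι → R)
  (M : Type) [AddCommGroup M] [Module R M]

theorem mkLin (a : R) (m : M) :
    LocalizedModule.mkLinearMap (Submonoid.powers a) M m = Loc.mk a m 0 := by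
  rw [LocalizedModule.mkLinearMap_apply]
  unfold Loc.mk
  congr 1
  apply Subtype.ext
  simp

theorem smul_mk_pow (a : R) (m : M) (t : ℕ) : a ^ t • Loc.mk a m t = Loc.mk a m 0 := by
  rw [Loc.mk_smul]
  have h := Loc.mk_raise a m 0 t
  rw [Nat.zero_add] at h
  exact h.symm

theorem res_eq {σ τ : Finset ι} (h : σ ⊆ τ) (x : Loc (∏ i ∈ σ, f i) M) :
    LocalCohomology.res f M h x = lres f M h x := by
  obtain ⟨m, t, rfl⟩ := Loc.exists_mk _ x
  have hu := LocalCohomology.isUnit_of_subset f M h ⟨(∏ i ∈ σ, f i) ^ t, t, rfl⟩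
  have hinj := ((Module.End.isUnit_iff _).1 hu).1
  apply hinj
  show (∏ i ∈ σ, f i) ^ t • LocalCohomology.res f M h (Loc.mk _ m t) =
    (∏ i ∈ σ, f i) ^ t • lres f M h (Loc.mk _ m t)
  rw [← map_smul, smul_mk_pow, lres_mk]
  have h1 : LocalCohomology.res f M h (Loc.mk _ m 0) = Loc.mk (∏ i ∈ τ, f i) m 0 := by
    rw [← mkLin, ← mkLin]
    unfold LocalCohomology.res
    exact LinearMap.congr_fun (LocalizedModule.lift_comp (Submonoid.powers (∏ i ∈ σ, f i))
      (LocalizedModule.mkLinearMap (Submonoid.powers (∏ i ∈ τ, f i)) M)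
      (LocalCohomology.isUnit_of_subset f M h)) m
  rw [h1, Loc.mk_smul, ← mul_smul, ← mul_pow, mul_comm, Finset.prod_sdiff h, ← Loc.mk_smul,
    smul_mk_pow]

theorem d_eq [CharP R 2] (h2 : ∀ m : M, m + m = 0) (c : (LocP f M h2).C) :
    LocalCohomology.d f M c = (LocP f M h2).d c := by
  funext τ
  rw [BP.d_apply]
  unfold LocalCohomology.d
  rw [LinearMap.pi_apply, LinearMap.sum_apply]
  refine Finset.sum_congr rfl fun i _ => ?_
  rw [LinearMap.smul_apply, LinearMap.comp_apply, LinearMap.proj_apply, CharTwo.neg_eq, one_pow,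
    one_smul]
  exact res_eq f M _ _

variable [CharP R 2]

theorem mem_cocycles (h2 : ∀ m : M, m + m = 0) (p : ℕ) (c : (LocP f M h2).C) :
    c ∈ LocalCohomology.cocycles f M p ↔ c ∈ (LocP f M h2).Z p := by
  have h : LocalCohomology.d f M c = 0 ↔ (LocP f M h2).d c = 0 := by rw [d_eq f M h2]; rfl
  constructor
  · rintro ⟨h1, h3⟩
    exact ⟨h1, h.1 h3⟩
  · rintro ⟨h1, h3⟩
    exact ⟨h1, h.2 h3⟩

theorem mem_coboundaries (h2 : ∀ m : M, m + m = 0) (p : ℕ) (c : (LocP f M h2).C) :
    c ∈ LocalCohomology.coboundaries f M p ↔ c ∈ (LocP f M h2).B p := by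
  cases p with
  | zero => exact Iff.rfl
  | succ q =>
    constructor
    · rintro ⟨b, hb, rfl⟩
      exact ⟨b, hb, (d_eq f M h2 b).symm⟩
    · rintro ⟨b, hb, rfl⟩
      exact ⟨b, hb, d_eq f M h2 b⟩

/-- The official Čech cohomology is additively isomorphic to the cohomology of `LocP`. -/
theorem H_equiv (h2 : ∀ m : M, m + m = 0) (p : ℕ) :
    Nonempty (LocalCohomology.CechH f M p ≃+ (LocP f M h2).H p) := by
  let φ : (LocP f M h2).Z p →+ LocalCohomology.CechH f M p :=
    { toFun := fun z => Submodule.Quotient.mk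
        (⟨(z : (LocP f M h2).C), (mem_cocycles f M h2 p _).2 z.2⟩ :
          LocalCohomology.cocycles f M p)
      map_zero' := rfl
      map_add' := fun x y => rfl }
  have hφ : Function.Surjective φ := by
    intro y
    obtain ⟨⟨c, hc⟩, rfl⟩ := Submodule.Quotient.mk_surjective _ y
    exact ⟨⟨c, (mem_cocycles f M h2 p c).1 hc⟩, rfl⟩
  have hker : φ.ker = ((LocP f M h2).B p).addSubgroupOf ((LocP f M h2).Z p) := by
    ext z
    rw [AddMonoidHom.mem_ker, AddSubgroup.mem_addSubgroupOf]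
    show (Submodule.Quotient.mk _ : LocalCohomology.CechH f M p) = 0 ↔ _
    rw [Submodule.Quotient.mk_eq_zero]
    exact mem_coboundaries f M h2 p _
  exact ⟨((QuotientAddGroup.quotientAddEquivOfEq hker).symm.trans
    (QuotientAddGroup.quotientKerEquivOfSurjective φ hφ)).symm⟩

/-- Torsion: every class is killed by a power of each `f i`. -/
theorem CechH_torsion [Fintype ι] (h2 : ∀ m : M, m + m = 0) (p : ℕ) (i : ι)
    (x : LocalCohomology.CechH f M p) : ∃ t : ℕ, f i ^ t • x = 0 := by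
  obtain ⟨⟨c, hc⟩, rfl⟩ := Submodule.Quotient.mk_surjective _ x
  obtain ⟨t, ht⟩ := LocP_torsion f h2 p c ((mem_cocycles f M h2 p c).1 hc) i
  refine ⟨t, ?_⟩
  rw [← Submodule.Quotient.mk_smul, Submodule.Quotient.mk_eq_zero]
  exact (mem_coboundaries f M h2 p _).2 ht

end Pool.Agent.N165.LC
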