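import Pool.Agent.N165.LC.Official

/-!
# Local cohomology of modules over a polynomial ring, via the Čech complex

For a commutative ring `R`, a finite family `f : ι → R` (`ι` linearly ordered) and an `R`-module
`M`, the Čech complex is
`0 → M → ⨁_i M[1/f_i] → ⨁_{i<j} M[1/(f_i f_j)] → ⋯ → M[1/∏ f_i] → 0`,
with the usual alternating differential.  For `R = k[X_i : i ∈ ι]` and `f = X` its cohomology is
the local cohomology `H^p_𝔪(M)`.
-/

namespace Pool.Agent.N165.Cech

open scoped BigOperators

section General

variable {R : Type} [CommRing R] {ι : Type} (f : ι → R)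
  (M : Type) [AddCommGroup M] [Module R M]

/-- `M` localized at (the powers of) `∏_{i ∈ σ} f i`. -/
def Term (σ : Finset ι) : Type := LocalizedModule (Submonoid.powers (∏ i ∈ σ, f i)) M

noncomputable instance termGroup (σ : Finset ι) : AddCommGroup (Term f M σ) :=
  (inferInstance : AddCommGroup (LocalizedModule (Submonoid.powers (∏ i ∈ σ, f i)) M))

noncomputable instance termModule (σ : Finset ι) : Module R (Term f M σ) :=
  (inferInstance : Module R (LocalizedModule (Submonoid.powers (∏ i ∈ σ, f i)) M))

/-- The element `m / (∏_{i ∈ σ} f i)^t`. -/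
def frac (σ : Finset ι) (m : M) (t : ℕ) : Term f M σ :=
  LocalizedModule.mk m ⟨(∏ i ∈ σ, f i) ^ t, t, rfl⟩

/-- Families `(c_σ)` of elements of the localizations, indexed by all finite subsets of `ι`. -/
def Coch : Type := (σ : Finset ι) → Term f M σ

noncomputable instance cochGroup : AddCommGroup (Coch f M) :=
  (inferInstance : AddCommGroup ((σ : Finset ι) → Term f M σ))

noncomputable instance cochModule : Module R (Coch f M) :=
  (inferInstance : Module R ((σ : Finset ι) → Term f M σ))

variable [LinearOrder ι]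

/-- For `σ ⊆ τ` the powers of `∏_{i ∈ σ} f i` act invertibly on the localization at `τ`. -/
theorem isUnit_of_subset {σ τ : Finset ι} (h : σ ⊆ τ) (x : Submonoid.powers (∏ i ∈ σ, f i)) :
    IsUnit (algebraMap R (Module.End R (Term f M τ)) x) :=
  LocalCohomology.isUnit_of_subset f M h x

/-- The canonical localization map `M[1/f_σ] → M[1/f_τ]` for `σ ⊆ τ`. -/
noncomputable def res {σ τ : Finset ι} (h : σ ⊆ τ) : Term f M σ →ₗ[R] Term f M τ :=
  LocalizedModule.lift (Submonoid.powers (∏ i ∈ σ, f i))
    (LocalizedModule.mkLinearMap (Submonoid.powers (∏ i ∈ τ, f i)) M)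
    (isUnit_of_subset f M h)

/-- The Čech differential `(d c)_τ = Σ_{i ∈ τ} (-1)^{#{k ∈ τ : k < i}} c_{τ ∖ i}`. -/
noncomputable def dfun (c : Coch f M) : Coch f M := fun τ =>
  ∑ i ∈ τ, (-1 : R) ^ (τ.filter (· < i)).card • res f M (Finset.erase_subset i τ) (c (τ.erase i))

theorem dfun_add (x y : Coch f M) : dfun f M (x + y) = dfun f M x + dfun f M y := by
  funext τ
  refine Eq.trans (Finset.sum_congr rfl fun i _ => ?_) Finset.sum_add_distrib
  rw [← smul_add, ← map_add]
  rfl

theorem dfun_smul (r : R) (x : Coch f M) : dfun f M (r • x) = r • dfun f M x := by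
  funext τ
  show _ = r • ∑ i ∈ τ, (-1 : R) ^ (τ.filter (· < i)).card •
    res f M (Finset.erase_subset i τ) (x (τ.erase i))
  rw [Finset.smul_sum]
  refine Finset.sum_congr rfl fun i _ => ?_
  show (-1 : R) ^ (τ.filter (· < i)).card • res f M (Finset.erase_subset i τ)
    (r • x (τ.erase i)) = _
  rw [map_smul, smul_comm]

/-- The Čech differential as a linear map. -/
noncomputable def d : Coch f M →ₗ[R] Coch f M where
  toFun := dfun f M
  map_add' := dfun_add f M
  map_smul' := dfun_smul f M

/-- The Čech cochains of degree `p`: families supported on the `p`-element subsets. -/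
def cochains (p : ℕ) : Submodule R (Coch f M) where
  carrier := {c | ∀ σ : Finset ι, σ.card ≠ p → c σ = 0}
  zero_mem' := fun _ _ => rfl
  add_mem' := fun {x y} hx hy σ h => by
    show x σ + y σ = 0
    rw [hx σ h, hy σ h, add_zero]
  smul_mem' := fun r x hx σ h => by
    show r • x σ = 0
    rw [hx σ h, smul_zero]

/-- The Čech cocycles of degree `p`. -/
noncomputable def cocycles (p : ℕ) : Submodule R (Coch f M) :=
  cochains f M p ⊓ LinearMap.ker (d f M)

/-- The Čech coboundaries of degree `p`. -/
noncomputable def coboundaries (p : ℕ) : Submodule R (Coch f M) :=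
  cochains f M p ⊓ LinearMap.range (d f M)

/-- The Čech coboundaries of degree `p`, as a submodule of the module of cocycles. -/
noncomputable def cobInCoc (p : ℕ) : Submodule R (cocycles f M p) :=
  (coboundaries f M p).comap (cocycles f M p).subtype

/-- The length of the Čech cohomology module (cocycles modulo coboundaries) in degree `p`. -/
noncomputable def lengthH (p : ℕ) : ℕ∞ := Module.length R (cocycles f M p ⧸ cobInCoc f M p)

end General

section Polynomial

variable {ι : Type} [LinearOrder ι] {k : Type} [Field k]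

/-- The length of `H^p_𝔪(R/I)`, `R = k[X_i : i ∈ ι]`, `𝔪 = (X_i : i ∈ ι)`. -/
noncomputable def length (I : Ideal (MvPolynomial ι k)) (p : ℕ) : ℕ∞ :=
  lengthH (MvPolynomial.X : ι → MvPolynomial ι k) (MvPolynomial ι k ⧸ I) p

/-- A cochain of `R/I` is homogeneous of degree `j ∈ ℤ` if each component is `0` or a fraction
`g / (∏_{i ∈ σ} X_i)^t` with `g` homogeneous of degree `j + t·#σ`. -/
def IsHomCochain (I : Ideal (MvPolynomial ι k)) (j : ℤ)
    (c : Coch (MvPolynomial.X : ι → MvPolynomial ι k) (MvPolynomial ι k ⧸ I)) : Prop :=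
  ∀ σ, c σ = 0 ∨ ∃ (t e : ℕ) (g : MvPolynomial ι k), g.IsHomogeneous e ∧
    (e : ℤ) = j + t * σ.card ∧ c σ = frac MvPolynomial.X _ σ (Ideal.Quotient.mk I g) t

/-- `H^p_𝔪(R/I)_j ≠ 0`: there is a homogeneous cocycle of degree `j` which is not a coboundary. -/
def GradedNonzero (I : Ideal (MvPolynomial ι k)) (p : ℕ) (j : ℤ) : Prop :=
  ∃ c ∈ cocycles (MvPolynomial.X : ι → MvPolynomial ι k) (MvPolynomial ι k ⧸ I) p,
    IsHomCochain I j c ∧ c ∉ coboundaries MvPolynomial.X (MvPolynomial ι k ⧸ I) p

/-- `I` is generated by homogeneous polynomials. -/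
def IsHomog (I : Ideal (MvPolynomial ι k)) : Prop :=
  ∃ S : Set (MvPolynomial ι k), (∀ f ∈ S, ∃ n, f.IsHomogeneous n) ∧ I = Ideal.span S

end Polynomial

end Pool.Agent.N165.Cech
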