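import Pool.Agent.N165.LC.Cech

/-!
Comparison of the two presentations of the Čech complex.
-/

namespace Pool.Agent.N165.Cech

variable {R : Type} [CommRing R] {ι : Type} [LinearOrder ι] (f : ι → R)
  (M : Type) [AddCommGroup M] [Module R M]

theorem d_cmp (c : Coch f M) : d f M c = LocalCohomology.d f M c := by
  funext τ
  unfold LocalCohomology.d
  rw [LinearMap.pi_apply, LinearMap.sum_apply]
  refine Finset.sum_congr rfl fun i _ => ?_
  rw [LinearMap.smul_apply, LinearMap.comp_apply, LinearMap.proj_apply]
  rfl

theorem coc_cmp (p : ℕ) : (cocycles f M p : Submodule R ((σ : Finset ι) → Term f M σ)) =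
    LocalCohomology.cocycles f M p := by
  apply Submodule.ext
  intro c
  constructor
  · rintro ⟨h1, h2⟩
    exact ⟨h1, (d_cmp f M c).symm.trans h2⟩
  · rintro ⟨h1, h2⟩
    exact ⟨h1, (d_cmp f M c).trans h2⟩

theorem cob_cmp (p : ℕ) : (coboundaries f M p : Submodule R ((σ : Finset ι) → Term f M σ)) =
    LocalCohomology.coboundaries f M p := by
  apply Submodule.ext
  intro c
  constructor
  · rintro ⟨h1, b, rfl⟩
    cases p with
    | zero =>
      show _ = _
      funext σ
      by_cases h : σ.card = 0
      · rw [Finset.card_eq_zero] at h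
        subst h
        show (∑ i ∈ (∅ : Finset ι), (-1 : R) ^ ((∅ : Finset ι).filter (· < i)).card •
          res f M (Finset.erase_subset i ∅) (b ((∅ : Finset ι).erase i))) = _
        rw [Finset.sum_empty]
        rfl
      · exact h1 σ h
    | succ q =>
      refine ⟨fun σ => if σ.card = q then b σ else 0, fun σ hσ => if_neg hσ, ?_⟩
      refine (d_cmp f M _).symm.trans ?_
      funext τ
      by_cases h : τ.card = q + 1
      · refine Finset.sum_congr rfl fun i hi => ?_
        have h2 : (τ.erase i).card = q := by
          rw [Finset.card_erase_of_mem hi, h]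
          rfl
        show _ • res f M _ (if (τ.erase i).card = q then b (τ.erase i) else 0) = _
        rw [if_pos h2]
      · refine Eq.trans ?_ (h1 τ h).symm
        refine Finset.sum_eq_zero fun i hi => ?_
        have h2 : (τ.erase i).card ≠ q := by
          intro h3
          apply h
          rw [← h3, Finset.card_erase_add_one hi]
        show _ • res f M _ (if (τ.erase i).card = q then b (τ.erase i) else 0) = _
        rw [if_neg h2, map_zero, smul_zero]
  · intro h
    cases p with
    | zero =>
      have h0 : c = 0 := h
      subst h0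
      exact zero_mem _
    | succ q =>
      obtain ⟨b, hb, rfl⟩ := h
      refine ⟨fun τ hτ => ?_, b, d_cmp f M b⟩
      refine (congrFun (d_cmp f M b).symm τ).trans ?_
      refine Finset.sum_eq_zero fun i hi => ?_
      have h2 : (τ.erase i).card ≠ q := by
        intro h3
        apply hτ
        rw [← h3, Finset.card_erase_add_one hi]
      show _ • res f M _ (b (τ.erase i)) = _
      have h4 : b (τ.erase i) = 0 := hb _ h2
      rw [h4]
      refine Eq.trans (congrArg _ (map_zero (res f M (Finset.erase_subset i τ)))) (smul_zero _)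

theorem len_congr {N : Type} [AddCommGroup N] [Module R N] {Z Z' B B' : Submodule R N}
    (hZ : Z = Z') (hB : B = B') :
    Module.length R (Z ⧸ B.comap Z.subtype) = Module.length R (Z' ⧸ B'.comap Z'.subtype) := by
  subst hZ hB
  rfl

theorem lengthH_cmp (p : ℕ) : lengthH f M p = Module.length R (LocalCohomology.CechH f M p) :=
  len_congr (coc_cmp f M p) (cob_cmp f M p)

theorem graded_cmp {k : Type} [Field k] (I : Ideal (MvPolynomial ι k)) (p : ℕ) (j : ℤ)
    (h : LocalCohomology.GradedNonzero I p j) : GradedNonzero I p j := by
  obtain ⟨c, h1, h2, h3⟩ := h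
  refine ⟨c, ?_, h2, fun h4 => h3 ?_⟩
  · have e := coc_cmp (MvPolynomial.X : ι → MvPolynomial ι k) (MvPolynomial ι k ⧸ I) p
    exact e.symm ▸ h1
  · have e := cob_cmp (MvPolynomial.X : ι → MvPolynomial ι k) (MvPolynomial ι k ⧸ I) p
    exact e ▸ h4

end Pool.Agent.N165.Cech
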