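import Pool.Agent.N165.LC.Loc

/-!
Concrete objects for the counterexample: exponents, the Laurent ring, the form `h`, the strands
`F_b`, `F'_b`, `E_b = F_b / h F'_b`, the families of operators, and the dual spaces.
-/

namespace Pool.Agent.N165.LC

open AddMonoidAlgebra (single)

section Fam

variable {X : Type} [DecidableEq X]

/-- `p`-cochains on a family of subsets with coefficients in `ZMod 2`. -/
def FamC (S : Finset X → Prop) (p : ℕ) : AddSubgroup (Finset X → ZMod 2) where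
  carrier := {c | ∀ σ : Finset X, ¬ (S σ ∧ σ.card = p) → c σ = 0}
  zero_mem' := fun σ _ => rfl
  add_mem' := fun {x y} hx hy σ h => by
    show x σ + y σ = 0
    rw [hx σ h, hy σ h, add_zero]
  neg_mem' := fun {x} hx σ h => by
    show -(x σ) = 0
    rw [hx σ h, neg_zero]

/-- the differential `(δ c)(τ) = Σ_{x ∈ τ} c(τ ∖ x)`. -/
def famD : (Finset X → ZMod 2) →+ (Finset X → ZMod 2) where
  toFun c τ := ∑ x ∈ τ, c (τ.erase x)
  map_zero' := by funext τ; simp
  map_add' x y := by funext τ; simp [Finset.sum_add_distrib]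

/-- Every `p`-cocycle of the family is a coboundary. -/
def FamExact (S : Finset X → Prop) (p : ℕ) : Prop :=
  ∀ c ∈ FamC S p, famD c = 0 → ∃ q b, q + 1 = p ∧ b ∈ FamC S q ∧ famD b = c

end Fam

section Laurent

variable {ι : Type} [DecidableEq ι] {Wt : Type}

/-- Laurent polynomials over `𝔽₂` in the variables `Wt`. -/
abbrev LR (Wt : Type) : Type := AddMonoidAlgebra (ZMod 2) (Wt → ℤ)

/-- `σ` covers the negative exponents of `μ`. -/
def Covers (χ : ι → Wt → ℤ) (μ : Wt → ℤ) (σ : Finset ι) : Prop :=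
  ∀ w, μ w < 0 → ∃ i ∈ σ, χ i w ≠ 0

/-- Laurent polynomials with exponents in `𝓜` whose negative exponents are covered by `σ`. -/
def LM (χ : ι → Wt → ℤ) (𝓜 : Set (Wt → ℤ)) (σ : Finset ι) : AddSubgroup (LR Wt) where
  carrier := {f | ∀ μ, f.coeff μ ≠ 0 → μ ∈ 𝓜 ∧ Covers χ μ σ}
  zero_mem' := fun μ h => absurd rfl h
  add_mem' := fun {x y} hx hy μ h => by
    by_cases h1 : x.coeff μ = 0
    · by_cases h2 : y.coeff μ = 0
      · exfalso
        apply h
        simp [h1, h2]
      · exact hy μ h2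
    · exact hx μ h1
  neg_mem' := fun {x} hx μ h => hx μ fun h' => h (by simp [h'])

/-- The presheaf of monomial Laurent modules. -/
noncomputable def LP (χ : ι → Wt → ℤ) (𝓜 : Set (Wt → ℤ)) : BP ι where
  G σ := LM χ 𝓜 σ
  grp σ := inferInstance
  res {σ τ} h := AddSubgroup.inclusion (by
    intro f hf μ hμ
    obtain ⟨h1, h2⟩ := hf μ hμ
    refine ⟨h1, fun w hw => ?_⟩
    obtain ⟨i, hi, hi'⟩ := h2 w hw
    exact ⟨i, h hi, hi'⟩)
  res_id := fun h x => rfl
  res_res := fun h₁ h₂ x => rfl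
  two := by
    rintro σ ⟨x, hx⟩
    apply Subtype.ext
    show x + x = 0
    apply AddMonoidAlgebra.ext
    ext μ
    have : ∀ z : ZMod 2, z + z = 0 := by decide
    simpa using this (x.coeff μ)

end Laurent

/-- The variables of the big polynomial ring. -/
inductive W (j : ℕ) : Type
  | a (l : Fin (j + 1))
  | u (p : Fin 2)
  | v (q : Fin 2)
  | s (r : Fin 3)
  | y (t : Fin 2)
  deriving DecidableEq, Fintype

variable {j : ℕ}

/-- Exponent vectors. -/
abbrev E (j : ℕ) : Type := W j → ℤ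

/-- The Laurent polynomial ring. -/
abbrev Lam (j : ℕ) : Type := LR (W j)

def dA (μ : E j) : ℤ := ∑ l, μ (.a l)
def dU (μ : E j) : ℤ := ∑ p, μ (.u p)
def dV (μ : E j) : ℤ := ∑ q, μ (.v q)
def dS (μ : E j) : ℤ := ∑ r, μ (.s r)
def dY (μ : E j) : ℤ := ∑ t, μ (.y t)

/-- exponent vector of a variable -/
def ev (w : W j) : E j := Pi.single w 1

/-- exponent of `u₀^a u₁^b v₀^c v₁^d y₀^e y₁^f` -/
def kap (j : ℕ) (a b c d e f : ℤ) : E j
  | .a _ => 0
  | .u p => if p = 0 then a else b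
  | .v q => if q = 0 then c else d
  | .s _ => 0
  | .y t => if t = 0 then e else f

/-- the five exponents of `h` -/
def hE (j : ℕ) : Fin 5 → E j :=
  ![kap j 2 0 2 0 0 2, kap j 0 2 2 0 2 0, kap j 2 0 0 2 2 0, kap j 0 2 0 2 0 2, kap j 1 1 1 1 1 1]

/-- `h = u₀²v₀²y₁² + u₁²v₀²y₀² + u₀²v₁²y₀² + u₁²v₁²y₁² + u₀u₁v₀v₁y₀y₁`. -/
noncomputable def hh (j : ℕ) : Lam j := ∑ i, single (hE j i) 1

/-- all exponents nonnegative -/
def Nonneg (μ : E j) : Prop := ∀ w, 0 ≤ μ w

/-- The strand `deg_y = y`, `deg_u = deg_a + deg_v + u`, `deg_s = deg_v + s`. -/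
def MS (j : ℕ) (y u s : ℤ) : Set (E j) := {μ | dY μ = y ∧ dU μ = dA μ + dV μ + u ∧ dS μ = dV μ + s}

theorem exists_of_coeff_mul {Wt : Type} {f g : LR Wt} {μ : Wt → ℤ} (h : (f * g).coeff μ ≠ 0) :
    ∃ μ₁ μ₂, f.coeff μ₁ ≠ 0 ∧ g.coeff μ₂ ≠ 0 ∧ μ₁ + μ₂ = μ := by
  classical
  have h1 := AddMonoidAlgebra.support_coeff_mul_subset f g (Finsupp.mem_support_iff.2 h)
  obtain ⟨μ₁, h2, μ₂, h3, h4⟩ := Finset.mem_add.1 h1
  exact ⟨μ₁, μ₂, Finsupp.mem_support_iff.1 h2, Finsupp.mem_support_iff.1 h3, h4⟩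

theorem MS_add {y u s y' u' s' : ℤ} {μ μ' : E j} (h : μ ∈ MS j y u s) (h' : μ' ∈ MS j y' u' s') :
    μ + μ' ∈ MS j (y + y') (u + u') (s + s') := by
  obtain ⟨h1, h2, h3⟩ := h
  obtain ⟨h1', h2', h3'⟩ := h'
  have e1 : dA (μ + μ') = dA μ + dA μ' := by simp [dA, Finset.sum_add_distrib]
  have e2 : dU (μ + μ') = dU μ + dU μ' := by simp [dU, Finset.sum_add_distrib]
  have e3 : dV (μ + μ') = dV μ + dV μ' := by simp [dV, Finset.sum_add_distrib]
  have e4 : dS (μ + μ') = dS μ + dS μ' := by simp [dS, Finset.sum_add_distrib]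
  have e5 : dY (μ + μ') = dY μ + dY μ' := by simp [dY, Finset.sum_add_distrib]
  refine ⟨?_, ?_, ?_⟩
  · rw [e5, h1, h1']
  · rw [e1, e2, e3, h2, h2']; ring
  · rw [e3, e4, h3, h3']; ring

theorem Nonneg.add {μ μ' : E j} (h : Nonneg μ) (h' : Nonneg μ') : Nonneg (μ + μ') :=
  fun w => add_nonneg (h w) (h' w)

/-- The additive group of polynomials (nonnegative exponents) in a strand. -/
def FG (j : ℕ) (y u s : ℤ) : AddSubgroup (Lam j) where
  carrier := {f | ∀ μ, f.coeff μ ≠ 0 → Nonneg μ ∧ μ ∈ MS j y u s}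
  zero_mem' := fun μ h => absurd rfl h
  add_mem' := fun {x y} hx hy μ h => by
    by_cases h1 : x.coeff μ = 0
    · by_cases h2 : y.coeff μ = 0
      · exfalso
        apply h
        simp [h1, h2]
      · exact hy μ h2
    · exact hx μ h1
  neg_mem' := fun {x} hx μ h => hx μ fun h' => h (by simp [h'])

theorem FG_mul {y u s y' u' s' : ℤ} {f g : Lam j} (hf : f ∈ FG j y u s) (hg : g ∈ FG j y' u' s') :
    f * g ∈ FG j (y + y') (u + u') (s + s') := by
  intro μ hμ
  obtain ⟨μ₁, μ₂, h1, h2, rfl⟩ := exists_of_coeff_mul hμ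
  exact ⟨(hf _ h1).1.add (hg _ h2).1, MS_add (hf _ h1).2 (hg _ h2).2⟩

theorem single_mem_FG {y u s : ℤ} {κ : E j} (h : Nonneg κ) (h' : κ ∈ MS j y u s) :
    (single κ 1 : Lam j) ∈ FG j y u s := by
  intro μ hμ
  have : μ = κ := by
    by_contra hne
    apply hμ
    simp [Ne.symm hne]
  subst this
  exact ⟨h, h'⟩

/-- The ring of polynomials of weight zero. -/
def BR (j : ℕ) : Subring (Lam j) where
  toSubsemiring :=
    { carrier := FG j 0 0 0
      zero_mem' := zero_mem (FG j 0 0 0)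
      one_mem' := by
        rw [AddMonoidAlgebra.one_def]
        refine single_mem_FG (fun w => le_rfl) ?_
        simp [MS, dA, dU, dV, dS, dY]
      add_mem' := fun hx hy => add_mem hx hy
      mul_mem' := fun hx hy => by simpa using FG_mul hx hy }
  neg_mem' := fun hx => neg_mem (S := AddSubgroup (Lam j)) hx

theorem mem_BR {f : Lam j} : f ∈ BR j ↔ f ∈ FG j 0 0 0 := Iff.rfl

/-- A strand as a module over the ring of weight zero polynomials. -/
def FS (j : ℕ) (y u s : ℤ) : Submodule (BR j) (Lam j) where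
  carrier := FG j y u s
  zero_mem' := zero_mem (FG j y u s)
  add_mem' := fun hx hy => add_mem hx hy
  smul_mem' := fun c x hx => by
    have : c • x = (c : Lam j) * x := rfl
    rw [this]
    simpa using FG_mul (mem_BR.1 c.2) hx

theorem mem_FS {y u s : ℤ} {f : Lam j} : f ∈ FS j y u s ↔ f ∈ FG j y u s := Iff.rfl

theorem hE_mem (i : Fin 5) : Nonneg (hE j i) ∧ hE j i ∈ MS j 2 0 (-2) := by
  constructor
  · intro w
    fin_cases i <;> cases w <;> simp [hE, kap] <;> split_ifs <;> norm_num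
  · fin_cases i <;> simp [hE, kap, MS, dA, dU, dV, dS, dY]

theorem hh_mem : hh j ∈ FG j 2 0 (-2) := by
  refine sum_mem fun i _ => ?_
  exact single_mem_FG (hE_mem i).1 (hE_mem i).2

/-- `F_b`. -/
abbrev Fb (j : ℕ) (b : ℤ) : Submodule (BR j) (Lam j) := FS j b b b

/-- `F'_b`; multiplication by `h` maps it to `F_b`. -/
abbrev Fb' (j : ℕ) (b : ℤ) : Submodule (BR j) (Lam j) := FS j (b - 2) b (b + 2)

/-- Multiplication by `h`, `F'_b → F_b`. -/
noncomputable def mulh (j : ℕ) (b : ℤ) : Fb' j b →ₗ[BR j] Fb j b where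
  toFun f := ⟨hh j * (f : Lam j), by
    have := FG_mul (hh_mem (j := j)) (mem_FS.1 f.2)
    rw [mem_FS]
    convert this using 2 <;> ring⟩
  map_add' x y := by
    apply Subtype.ext
    show hh j * (x + y : Lam j) = hh j * x + hh j * y
    ring
  map_smul' c x := by
    apply Subtype.ext
    show hh j * ((c : Lam j) * x) = (c : Lam j) * (hh j * x)
    ring

/-- `E_b = F_b / h F'_b`. -/
abbrev Eb (j : ℕ) (b : ℤ) : Type := (Fb j b) ⧸ (LinearMap.range (mulh j b))

/-- Index type of the monomial operators `u_p a_l`, `u_p v_q s_r`. -/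
inductive XM (j : ℕ) : Type
  | ua (p : Fin 2) (l : Fin (j + 1))
  | uvs (p q : Fin 2) (r : Fin 3)
  deriving DecidableEq, Fintype

/-- Index type of the operators `θ_i = Σ_{p + l = i} u_p a_l` and `u_p v_q s_r`. -/
inductive XT (j : ℕ) : Type
  | th (i : Fin (j + 2))
  | uvs (p q : Fin 2) (r : Fin 3)
  deriving DecidableEq, Fintype

/-- exponents of the monomial operators -/
def chi (j : ℕ) : XM j → E j
  | .ua p l => ev (.u p) + ev (.a l)
  | .uvs p q r => ev (.u p) + ev (.v q) + ev (.s r)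

theorem ev_nonneg (w : W j) : Nonneg (ev w) := by
  intro w'
  unfold ev
  rw [Pi.single_apply]
  split_ifs <;> norm_num

theorem chi_mem (i : XM j) : Nonneg (chi j i) ∧ chi j i ∈ MS j 0 0 0 := by
  constructor
  · cases i with
    | ua p l => exact (ev_nonneg _).add (ev_nonneg _)
    | uvs p q r => exact ((ev_nonneg _).add (ev_nonneg _)).add (ev_nonneg _)
  · cases i with
    | ua p l => fin_cases p <;> simp [chi, MS, dA, dU, dV, dS, dY, ev, Pi.single_apply]
    | uvs p q r =>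
      fin_cases p <;> fin_cases q <;> simp [chi, MS, dA, dU, dV, dS, dY, ev, Pi.single_apply]

/-- The monomial operators. -/
noncomputable def xM (j : ℕ) (i : XM j) : BR j :=
  ⟨single (chi j i) 1, single_mem_FG (chi_mem i).1 (chi_mem i).2⟩

/-- The operators used as variables. -/
noncomputable def xT (j : ℕ) : XT j → BR j
  | .th i => ∑ p : Fin 2, ∑ l : Fin (j + 1), if (p : ℕ) + (l : ℕ) = i then xM j (.ua p l) else 0
  | .uvs p q r => xM j (.uvs p q r)

/-- All exponents of `a,u,v,s` are negative and those of `y` nonnegative. -/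
def FullNeg (μ : E j) : Prop :=
  (∀ l, μ (.a l) < 0) ∧ (∀ p, μ (.u p) < 0) ∧ (∀ q, μ (.v q) < 0) ∧ (∀ r, μ (.s r) < 0) ∧
    ∀ t, 0 ≤ μ (.y t)

/-- The kernel of `h` on the top local cohomology of `F'_b`. -/
def KK (j : ℕ) (b : ℤ) : AddSubgroup (Lam j) where
  carrier := {f | (∀ μ, f.coeff μ ≠ 0 → FullNeg μ ∧ μ ∈ MS j (b - 2) b (b + 2)) ∧
    ∀ μ, FullNeg μ → (hh j * f).coeff μ = 0}
  zero_mem' := ⟨fun μ h => absurd rfl h, fun μ _ => by rw [mul_zero]; rfl⟩
  add_mem' := fun {x y} hx hy => by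
    refine ⟨fun μ h => ?_, fun μ h => ?_⟩
    · by_cases h1 : x.coeff μ = 0
      · by_cases h2 : y.coeff μ = 0
        · exfalso
          apply h
          simp [h1, h2]
        · exact hy.1 μ h2
      · exact hx.1 μ h1
    · rw [mul_add]
      show (hh j * x).coeff μ + (hh j * y).coeff μ = 0
      rw [hx.2 μ h, hy.2 μ h, add_zero]
  neg_mem' := fun {x} hx => by
    refine ⟨fun μ h => hx.1 μ fun h' => h (by simp [h']), fun μ h => ?_⟩
    rw [mul_neg]
    show -((hh j * x).coeff μ) = 0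
    rw [hx.2 μ h, neg_zero]

/-- The space `K(L, m, b)`: arrays of polynomials `G p q` of degree `< b - 1` (`p ≤ L`, `q ≤ m`)
satisfying the recurrence given by `h`. -/
def KLm (b L m : ℕ) : AddSubgroup (ℕ → ℕ → Polynomial (ZMod 2)) where
  carrier := {G | (∀ p q, ¬ (p ≤ L ∧ q ≤ m) → G p q = 0) ∧
    (∀ p q, G p q ∈ Polynomial.degreeLT (ZMod 2) (b - 1)) ∧
    ∀ p q, p + 2 ≤ L → q + 2 ≤ m →
      Polynomial.X ^ 2 * G p q + G (p + 2) q + G p (q + 2) +
        Polynomial.X ^ 2 * G (p + 2) (q + 2) + Polynomial.X * G (p + 1) (q + 1) = 0}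
  zero_mem' := ⟨fun _ _ _ => rfl, fun _ _ => Submodule.zero_mem _, fun _ _ _ _ => by simp⟩
  add_mem' := fun {x y} hx hy => by
    refine ⟨fun p q h => ?_, fun p q => Submodule.add_mem _ (hx.2.1 p q) (hy.2.1 p q),
      fun p q h h' => ?_⟩
    · show x p q + y p q = 0
      rw [hx.1 p q h, hy.1 p q h, add_zero]
    · have h1 := hx.2.2 p q h h'
      have h2 := hy.2.2 p q h h'
      have : ∀ a b, (x + y) a b = x a b + y a b := fun a b => rfl
      simp only [this]
      linear_combination h1 + h2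
  neg_mem' := fun {x} hx => by
    refine ⟨fun p q h => ?_, fun p q => Submodule.neg_mem _ (hx.2.1 p q), fun p q h h' => ?_⟩
    · show -(x p q) = 0
      rw [hx.1 p q h, neg_zero]
    · have h1 := hx.2.2 p q h h'
      have : ∀ a b, (-x) a b = -(x a b) := fun a b => rfl
      simp only [this]
      linear_combination -h1

/-- The variables of the polynomial ring `R`. -/
inductive V (j : ℕ) : Type
  | th (i : Fin (j + 2))
  | x (p q : Fin 2) (r : Fin 3)
  | y (p t : Fin 2) (r : Fin 3)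
  | z
  deriving DecidableEq, Fintype

/-- The polynomial ring in which the ideal `I` lives. -/
abbrev PR (j : ℕ) : Type := MvPolynomial (V j) (ZMod 2)

/-- inclusion of the `x`-variables -/
def inX : XT j → V j
  | .th i => .th i
  | .uvs p q r => .x p q r

/-- exponent of `Y_{ptr} = u_p y_t s_r` -/
def chiY (p t : Fin 2) (r : Fin 3) : E j := ev (.u p) + ev (.y t) + ev (.s r)

/-- The ring homomorphism `Ψ`, with `Ψ z = 1`. -/
noncomputable def Psi (j : ℕ) : PR j →ₐ[ZMod 2] Lam j :=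
  MvPolynomial.aeval fun i => match i with
    | .th i => ((xT j (.th i) : BR j) : Lam j)
    | .x p q r => ((xT j (.uvs p q r) : BR j) : Lam j)
    | .y p t r => single (chiY p t r) 1
    | .z => 1

/-- Tridegree (x-degree, Y-degree, z-degree). -/
def wt3 (j : ℕ) : V j → ℕ × ℕ × ℕ
  | .th _ => (1, 0, 0)
  | .x _ _ _ => (1, 0, 0)
  | .y _ _ _ => (0, 1, 0)
  | .z => (0, 0, 1)

/-- Bidegree (Y-degree, z-degree). -/
def wt2 (j : ℕ) : V j → ℕ × ℕ
  | .th _ => (0, 0)
  | .x _ _ _ => (0, 0)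
  | .y _ _ _ => (1, 0)
  | .z => (0, 1)

end Pool.Agent.N165.LC
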