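import Pool.Agent.N165.LC.T9
import Pool.Agent.N165.LC.CechCmp

/-!
The ideals `II j e` are generated by homogeneous polynomials.
-/

namespace Pool.Agent.N165.LC

open MvPolynomial

variable {j : ℕ}

theorem isHomogeneous_of_wt3 {r b k : ℕ} {f : PR j}
    (hf : IsWeightedHomogeneous (wt3 j) f (r, b, k)) : f.IsHomogeneous (r + b + k) := by
  intro d hd
  have h := hf hd
  let S : ℕ × ℕ × ℕ →+ ℕ :=
    { toFun := fun x => x.1 + x.2.1 + x.2.2
      map_zero' := rfl
      map_add' := fun x y => by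
        show x.1 + y.1 + (x.2.1 + y.2.1) + (x.2.2 + y.2.2) = _
        ring }
  have h1 := congrArg S h
  have h2 : S (Finsupp.weight (wt3 j) d) = Finsupp.weight (1 : V j → ℕ) d := by
    rw [Finsupp.weight_apply, Finsupp.weight_apply, map_finsuppSum]
    refine Finsupp.sum_congr fun i _ => ?_
    rw [map_nsmul]
    congr 1
    cases i <;> rfl
  rw [h2] at h1
  exact h1

theorem II_homog (j e : ℕ) : Cech.IsHomog (II j e) := by
  unfold II
  refine ⟨_, ?_, rfl⟩
  rintro f ((hf | ⟨r, hf, -⟩) | hf)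
  · exact ⟨_, isHomogeneous_of_wt3 hf⟩
  · exact ⟨_, isHomogeneous_of_wt3 hf⟩
  · refine ⟨2, ?_⟩
    rw [Set.mem_singleton_iff] at hf
    subst hf
    have h := (isHomogeneous_X (ZMod 2) (V.z : V j)).pow 2
    exact h

end Pool.Agent.N165.LC
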