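import Pool.Agent.N165.LC.BP

/-!
Elementwise API for `LocalizedModule (Submonoid.powers a) M`, additive maps between localisations of
modules over possibly different rings, and the Čech presheaf.
-/

namespace Pool.Agent.N165.LC

/-- `M[1/a]`. -/
abbrev Loc {R : Type} [CommRing R] (a : R) (M : Type) [AddCommGroup M] [Module R M] : Type :=
  LocalizedModule (Submonoid.powers a) M

namespace Loc

variable {R : Type} [CommRing R] {M : Type} [AddCommGroup M] [Module R M]

/-- The fraction `m / a ^ t`. -/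
noncomputable def mk (a : R) (m : M) (t : ℕ) : Loc a M :=
  LocalizedModule.mk m (⟨a ^ t, t, rfl⟩ : Submonoid.powers a)

theorem exists_mk (a : R) (x : Loc a M) : ∃ m t, x = mk a m t := by
  induction x using LocalizedModule.induction_on with
  | _ m s =>
    obtain ⟨s, t, rfl⟩ := s
    exact ⟨m, t, rfl⟩

theorem mk_eq (a : R) (m m' : M) (t t' : ℕ) :
    mk a m t = mk a m' t' ↔ ∃ u : ℕ, a ^ (u + t') • m = a ^ (u + t) • m' := by
  unfold mk
  rw [LocalizedModule.mk_eq]
  constructor
  · rintro ⟨⟨_, u, rfl⟩, h⟩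
    refine ⟨u, ?_⟩
    simpa [Submonoid.smul_def, pow_add, mul_smul] using h
  · rintro ⟨u, h⟩
    refine ⟨⟨a ^ u, u, rfl⟩, ?_⟩
    simpa [Submonoid.smul_def, pow_add, mul_smul] using h

theorem mk_add (a : R) (m m' : M) (t : ℕ) : mk a (m + m') t = mk a m t + mk a m' t := by
  unfold mk
  rw [LocalizedModule.mk_add_mk, LocalizedModule.mk_eq]
  refine ⟨1, ?_⟩
  simp only [one_smul, Submonoid.smul_def, smul_add, mul_smul, Submonoid.coe_mul]

theorem mk_zero (a : R) (t : ℕ) : mk a (0 : M) t = 0 := LocalizedModule.zero_mk _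

theorem mk_eq_zero (a : R) (m : M) (t : ℕ) : mk a m t = 0 ↔ ∃ u : ℕ, a ^ u • m = 0 := by
  rw [← mk_zero a 0, mk_eq]
  constructor
  · rintro ⟨u, h⟩
    exact ⟨u, by simpa using h⟩
  · rintro ⟨u, h⟩
    exact ⟨u, by simpa using h⟩

theorem mk_raise (a : R) (m : M) (t u : ℕ) : mk a m t = mk a (a ^ u • m) (t + u) := by
  rw [mk_eq]
  refine ⟨0, ?_⟩
  rw [← mul_smul, ← pow_add]
  congr 2
  omega

theorem mk_smul (a : R) (r : R) (m : M) (t : ℕ) : r • mk a m t = mk a (r • m) t := by
  unfold mk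
  rw [LocalizedModule.smul'_mk]

/-- two fractions have a common denominator -/
theorem exists_mk₂ (a : R) (x y : Loc a M) : ∃ m m' t, x = mk a m t ∧ y = mk a m' t := by
  obtain ⟨m, t, rfl⟩ := exists_mk a x
  obtain ⟨m', t', rfl⟩ := exists_mk a y
  refine ⟨a ^ t' • m, a ^ t • m', t + t', mk_raise a m t t', ?_⟩
  rw [add_comm t t']
  exact mk_raise a m' t' t

/-- finitely many fractions have a common denominator -/
theorem exists_mk_finset {κ : Type} (s : Finset κ) {A : κ → R} (x : ∀ i, Loc (A i) M) :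
    ∃ (t : ℕ) (m : κ → M), ∀ i ∈ s, x i = mk (A i) (m i) t := by
  classical
  have h : ∀ i, ∃ m t, x i = mk (A i) m t := fun i => exists_mk (A i) (x i)
  choose m t hx using h
  refine ⟨s.sup t, fun i => A i ^ (s.sup t - t i) • m i, fun i hi => ?_⟩
  have hle : t i ≤ s.sup t := Finset.le_sup hi
  have h2 := mk_raise (A i) (m i) (t i) (s.sup t - t i)
  rw [show t i + (s.sup t - t i) = s.sup t by omega] at h2
  exact (hx i).trans h2

section map

variable {R' : Type} [CommRing R'] {M' : Type} [AddCommGroup M'] [Module R' M']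

theorem pow_smul_comm {φ : M →+ M'} {a : R} {b g : R'} (h : ∀ m, g • φ (a • m) = b • φ m) (n : ℕ)
    (m : M) : g ^ n • φ (a ^ n • m) = b ^ n • φ m := by
  induction n generalizing m with
  | zero => simp
  | succ n ih =>
    calc g ^ (n + 1) • φ (a ^ (n + 1) • m) = g ^ n • (g • φ (a • (a ^ n • m))) := by
          rw [pow_succ g, mul_smul, ← mul_smul a, ← pow_succ']
      _ = g ^ n • (b • φ (a ^ n • m)) := by rw [h]
      _ = b • (g ^ n • φ (a ^ n • m)) := by rw [smul_comm]
      _ = b ^ (n + 1) • φ m := by rw [ih, ← mul_smul, ← pow_succ']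

theorem map_aux {φ : M →+ M'} {a : R} {b g : R'} (h : ∀ m, g • φ (a • m) = b • φ m)
    {m m' : M} {t t' : ℕ} (he : mk a m t = mk a m' t') :
    mk b (g ^ t • φ m) t = mk b (g ^ t' • φ m') t' := by
  obtain ⟨u, hu⟩ := (mk_eq a m m' t t').1 he
  refine (mk_eq b _ _ t t').2 ⟨u, ?_⟩
  calc b ^ (u + t') • (g ^ t • φ m) = g ^ t • (b ^ (u + t') • φ m) := by rw [smul_comm]
    _ = g ^ t • (g ^ (u + t') • φ (a ^ (u + t') • m)) := by rw [pow_smul_comm h]
    _ = g ^ t • (g ^ (u + t') • φ (a ^ (u + t) • m')) := by rw [hu]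
    _ = g ^ t' • (g ^ (u + t) • φ (a ^ (u + t) • m')) := by
        rw [← mul_smul, ← mul_smul, ← pow_add, ← pow_add]
        congr 2
        omega
    _ = g ^ t' • (b ^ (u + t) • φ m') := by rw [pow_smul_comm h]
    _ = b ^ (u + t) • (g ^ t' • φ m') := by rw [smul_comm]

/-- The additive map `M[1/a] → M'[1/b]`, `m / a ^ t ↦ g ^ t φ(m) / b ^ t`. -/
noncomputable def map (φ : M →+ M') (a : R) (b g : R') (h : ∀ m, g • φ (a • m) = b • φ m) :
    Loc a M →+ Loc b M' where
  toFun x := mk b (g ^ (exists_mk a x).choose_spec.choose • φ (exists_mk a x).choose)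
    (exists_mk a x).choose_spec.choose
  map_zero' := by
    have := (exists_mk a (0 : Loc a M)).choose_spec.choose_spec
    rw [map_aux h (m' := 0) (t' := 0) (this.symm.trans (mk_zero a 0).symm)]
    simp [mk_zero]
  map_add' x y := by
    obtain ⟨m, m', t, hx, hy⟩ := exists_mk₂ a x y
    have e1 := (exists_mk a x).choose_spec.choose_spec
    have e2 := (exists_mk a y).choose_spec.choose_spec
    have e3 := (exists_mk a (x + y)).choose_spec.choose_spec
    rw [map_aux h (e1.symm.trans hx), map_aux h (e2.symm.trans hy),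
      map_aux h (m' := m + m') (t' := t) (e3.symm.trans (by rw [hx, hy, mk_add])), map_add, smul_add,
      mk_add]

theorem map_mk (φ : M →+ M') (a : R) (b g : R') (h : ∀ m, g • φ (a • m) = b • φ m) (m : M)
    (t : ℕ) : map φ a b g h (mk a m t) = mk b (g ^ t • φ m) t :=
  map_aux h (exists_mk a (mk a m t)).choose_spec.choose_spec.symm

end map

end Loc

section Cech

variable {R : Type} [CommRing R] {ι : Type} [DecidableEq ι]

/-- The restriction map `M_{f_σ} → M_{f_τ}` for `σ ⊆ τ`, additive version. -/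
noncomputable def lres (f : ι → R) (M : Type) [AddCommGroup M] [Module R M] {σ τ : Finset ι}
    (h : σ ⊆ τ) : Loc (∏ i ∈ σ, f i) M →+ Loc (∏ i ∈ τ, f i) M :=
  Loc.map (AddMonoidHom.id M) (∏ i ∈ σ, f i) (∏ i ∈ τ, f i) (∏ i ∈ τ \ σ, f i) (fun m => by
    rw [AddMonoidHom.id_apply, AddMonoidHom.id_apply, ← mul_smul, Finset.prod_sdiff h])

theorem lres_mk (f : ι → R) (M : Type) [AddCommGroup M] [Module R M] {σ τ : Finset ι}
    (h : σ ⊆ τ) (m : M) (t : ℕ) :
    lres f M h (Loc.mk _ m t) = Loc.mk _ ((∏ i ∈ τ \ σ, f i) ^ t • m) t :=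
  Loc.map_mk _ _ _ _ _ _ _

/-- The Čech presheaf `σ ↦ M_{f_σ}` of a module of characteristic two. -/
noncomputable def LocP (f : ι → R) (M : Type) [AddCommGroup M] [Module R M]
    (h2 : ∀ m : M, m + m = 0) : BP ι where
  G σ := Loc (∏ i ∈ σ, f i) M
  grp σ := inferInstance
  res h := lres f M h
  res_id := by
    intro σ h x
    obtain ⟨m, t, rfl⟩ := Loc.exists_mk _ x
    rw [lres_mk]
    simp
  res_res := by
    intro σ τ ρ h₁ h₂ x
    obtain ⟨m, t, rfl⟩ := Loc.exists_mk _ x
    rw [lres_mk, lres_mk, lres_mk, ← mul_smul, ← mul_pow]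
    congr 3
    rw [mul_comm, ← Finset.prod_union]
    · congr 1
      ext i
      simp only [Finset.mem_union, Finset.mem_sdiff]
      constructor
      · rintro (⟨a, b⟩ | ⟨a, b⟩)
        · exact ⟨h₂ a, b⟩
        · exact ⟨a, fun h => b (h₁ h)⟩
      · rintro ⟨a, b⟩
        by_cases hi : i ∈ τ
        · exact Or.inl ⟨hi, b⟩
        · exact Or.inr ⟨a, hi⟩
    · rw [Finset.disjoint_left]
      intro i hi hi'
      simp only [Finset.mem_sdiff] at hi hi'
      exact hi'.2 hi.1
  two := by
    intro σ x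
    obtain ⟨m, t, rfl⟩ := Loc.exists_mk _ x
    rw [← Loc.mk_add, h2, Loc.mk_zero]

variable {R' : Type} [CommRing R']

/-- Functoriality of the Čech presheaf for additive maps which intertwine the two families. -/
noncomputable def LocP.hom {f : ι → R} {f' : ι → R'} {M : Type} [AddCommGroup M] [Module R M]
    {M' : Type} [AddCommGroup M'] [Module R' M'] (h2 : ∀ m : M, m + m = 0)
    (h2' : ∀ m : M', m + m = 0) (φ : M →+ M') (hφ : ∀ i m, φ (f i • m) = f' i • φ m) :
    BP.Hom (LocP f M h2) (LocP f' M' h2') where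
  app σ := Loc.map φ (∏ i ∈ σ, f i) (∏ i ∈ σ, f' i) 1 (fun m => by
    rw [one_smul]
    induction σ using Finset.induction_on generalizing m with
    | empty => simp
    | insert i s hi ih => rw [Finset.prod_insert hi, Finset.prod_insert hi, mul_smul, hφ, ih,
        mul_smul])
  nat := by
    intro σ τ h x
    have hprod : ∀ (s : Finset ι) (m : M), φ ((∏ i ∈ s, f i) • m) = (∏ i ∈ s, f' i) • φ m := by
      intro s m
      induction s using Finset.induction_on generalizing m with
      | empty => simp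
      | insert i s hi ih => rw [Finset.prod_insert hi, Finset.prod_insert hi, mul_smul, hφ, ih,
          mul_smul]
    have hpow : ∀ (s : Finset ι) (t : ℕ) (m : M),
        φ ((∏ i ∈ s, f i) ^ t • m) = (∏ i ∈ s, f' i) ^ t • φ m := by
      intro s t
      induction t with
      | zero => intro m; simp
      | succ t ih => intro m; rw [pow_succ', mul_smul, hprod, ih, ← mul_smul, ← pow_succ']
    change Loc (∏ i ∈ σ, f i) M at x
    obtain ⟨m, t, rfl⟩ := Loc.exists_mk _ x
    change Loc.map φ _ _ _ _ (lres f M h _) = lres f' M' h (Loc.map φ _ _ _ _ _)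
    rw [lres_mk, Loc.map_mk, Loc.map_mk, lres_mk, hpow]
    simp

theorem LocP.hom_mk {f : ι → R} {f' : ι → R'} {M : Type} [AddCommGroup M] [Module R M]
    {M' : Type} [AddCommGroup M'] [Module R' M'] (h2 : ∀ m : M, m + m = 0)
    (h2' : ∀ m : M', m + m = 0) (φ : M →+ M') (hφ : ∀ i m, φ (f i • m) = f' i • φ m)
    (σ : Finset ι) (m : M) (t : ℕ) :
    (LocP.hom h2 h2' φ hφ).app σ (Loc.mk _ m t) = Loc.mk _ (φ m) t := by
  have h := Loc.map_mk φ (∏ i ∈ σ, f i) (∏ i ∈ σ, f' i) 1 (fun m => by
    rw [one_smul]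
    induction σ using Finset.induction_on generalizing m with
    | empty => simp
    | insert i s hi ih => rw [Finset.prod_insert hi, Finset.prod_insert hi, mul_smul, hφ, ih,
        mul_smul]) m t
  rw [one_pow, one_smul] at h
  exact h

end Cech

end Pool.Agent.N165.LC
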