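import Mathlib

/-!
# Local cohomology of modules over a polynomial ring, via the Čech complex

For a commutative ring `R`, a finite family `f : ι → R` (`ι` linearly ordered) and an `R`-module
`M`, the Čech complex is
`0 → M → ⨁_i M[1/f_i] → ⨁_{i<j} M[1/(f_i f_j)] → ⋯ → M[1/∏ f_i] → 0`,
with the usual alternating differential.  For `R = k[X_i : i ∈ ι]` and `f = X` its cohomology is
the local cohomology `H^p_𝔪(M)`.
-/

namespace Pool.Agent.N165.LocalCohomology

open scoped BigOperators

section General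

variable {R : Type} [CommRing R] {ι : Type} [LinearOrder ι] (f : ι → R)
  (M : Type) [AddCommGroup M] [Module R M]

/-- `M` localized at (the powers of) `∏_{i ∈ σ} f i`. -/
abbrev Term (σ : Finset ι) : Type := LocalizedModule (Submonoid.powers (∏ i ∈ σ, f i)) M

/-- For `σ ⊆ τ` the powers of `∏_{i ∈ σ} f i` act invertibly on the localization at `τ`. -/
theorem isUnit_of_subset {σ τ : Finset ι} (h : σ ⊆ τ)
    (x : Submonoid.powers (∏ i ∈ σ, f i)) :
    IsUnit (algebraMap R (Module.End R (Term f M τ)) x) := by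
  obtain ⟨x, n, rfl⟩ := x
  have h1 : (algebraMap R (Module.End R (Term f M τ))) (∏ i ∈ τ, f i) =
      algebraMap R (Module.End R (Term f M τ)) (∏ i ∈ τ \ σ, f i) *
      algebraMap R (Module.End R (Term f M τ)) (∏ i ∈ σ, f i) := by
    rw [← map_mul, Finset.prod_sdiff h]
  have h2 : IsUnit (algebraMap R (Module.End R (Term f M τ)) (∏ i ∈ τ, f i)) :=
    IsLocalizedModule.map_units (LocalizedModule.mkLinearMap (Submonoid.powers (∏ i ∈ τ, f i)) M)
      (⟨_, 1, pow_one _⟩ : Submonoid.powers (∏ i ∈ τ, f i))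
  have hc : Commute (algebraMap R (Module.End R (Term f M τ)) (∏ i ∈ τ \ σ, f i))
      (algebraMap R (Module.End R (Term f M τ)) (∏ i ∈ σ, f i)) :=
    Algebra.commutes _ _
  rw [h1] at h2
  have h3 := (hc.isUnit_mul_iff.1 h2).2
  show IsUnit (algebraMap R (Module.End R (Term f M τ)) ((∏ i ∈ σ, f i) ^ n))
  rw [map_pow]
  exact h3.pow n

/-- The canonical localization map `M[1/f_σ] → M[1/f_τ]` for `σ ⊆ τ`. -/
noncomputable def res {σ τ : Finset ι} (h : σ ⊆ τ) : Term f M σ →ₗ[R] Term f M τ :=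
  LocalizedModule.lift (Submonoid.powers (∏ i ∈ σ, f i))
    (LocalizedModule.mkLinearMap (Submonoid.powers (∏ i ∈ τ, f i)) M)
    (isUnit_of_subset f M h)

/-- The Čech differential `(d c)_τ = Σ_{i ∈ τ} (-1)^{#{k ∈ τ : k < i}} c_{τ ∖ i}`. -/
noncomputable def d : ((σ : Finset ι) → Term f M σ) →ₗ[R] ((σ : Finset ι) → Term f M σ) :=
  LinearMap.pi fun τ => ∑ i ∈ τ, ((-1 : R) ^ ((τ.filter (· < i)).card)) •
    (res f M (Finset.erase_subset i τ)).comp (LinearMap.proj (τ.erase i))

/-- The Čech cochains of degree `p`: families supported on the `p`-element subsets. -/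
def cochains (p : ℕ) : Submodule R ((σ : Finset ι) → Term f M σ) where
  carrier := {c | ∀ σ : Finset ι, σ.card ≠ p → c σ = 0}
  zero_mem' := fun _ _ => rfl
  add_mem' := fun {x y} hx hy σ h => by
    show x σ + y σ = 0
    rw [hx σ h, hy σ h, add_zero]
  smul_mem' := fun r x hx σ h => by
    show r • x σ = 0
    rw [hx σ h, smul_zero]

/-- The Čech cocycles of degree `p`. -/
noncomputable def cocycles (p : ℕ) : Submodule R ((σ : Finset ι) → Term f M σ) :=
  cochains f M p ⊓ LinearMap.ker (d f M)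

/-- The Čech coboundaries of degree `p`. -/
noncomputable def coboundaries : ℕ → Submodule R ((σ : Finset ι) → Term f M σ)
  | 0 => ⊥
  | q + 1 => (cochains f M q).map (d f M)

/-- The Čech cohomology module in degree `p` (an `R`-module). -/
abbrev CechH (p : ℕ) : Type :=
  ↥(cocycles f M p) ⧸ (coboundaries f M p).comap (cocycles f M p).subtype

end General

section Polynomial

variable (ι : Type) [Fintype ι] [LinearOrder ι]

/-- `H^p_𝔪(M)` for a module `M` over `k[X_i : i ∈ ι]`, `𝔪 = (X_i : i ∈ ι)`. -/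
abbrev H (k : Type) [Field k] (M : Type) [AddCommGroup M] [Module (MvPolynomial ι k) M]
    (p : ℕ) : Type := CechH (R := MvPolynomial ι k) (ι := ι) MvPolynomial.X M p

variable {ι}

/-- A Čech cochain of `R/I` is homogeneous of degree `j ∈ ℤ` if each component is `0` or a fraction
`g / (∏_{i ∈ σ} X_i)^t` with `g` homogeneous of degree `j + t·#σ`. -/
def IsHomogeneousCochain {k : Type} [Field k] (I : Ideal (MvPolynomial ι k)) (j : ℤ)
    (c : (σ : Finset ι) → Term (R := MvPolynomial ι k) (ι := ι) MvPolynomial.X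
      (MvPolynomial ι k ⧸ I) σ) : Prop :=
  ∀ σ, c σ = 0 ∨ ∃ (t e : ℕ) (g : MvPolynomial ι k), g.IsHomogeneous e ∧
    (e : ℤ) = j + t * σ.card ∧
    c σ = LocalizedModule.mk (Ideal.Quotient.mk I g)
      (⟨(∏ i ∈ σ, MvPolynomial.X i) ^ t, t, rfl⟩ :
        Submonoid.powers (∏ i ∈ σ, (MvPolynomial.X i : MvPolynomial ι k)))

/-- The graded component `H^p_𝔪(R/I)_j` is nonzero: there is a homogeneous cocycle of degree `j`
which is not a coboundary. -/
def GradedNonzero {k : Type} [Field k] (I : Ideal (MvPolynomial ι k)) (p : ℕ) (j : ℤ) : Prop :=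
  ∃ c ∈ cocycles (R := MvPolynomial ι k) (ι := ι) MvPolynomial.X (MvPolynomial ι k ⧸ I) p,
    IsHomogeneousCochain I j c ∧
    c ∉ coboundaries (R := MvPolynomial ι k) (ι := ι) MvPolynomial.X (MvPolynomial ι k ⧸ I) p

end Polynomial

end Pool.Agent.N165.LocalCohomology
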