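import Pool.Agent.N165.LC.Defs

/-!
Combinatorics of the complexes of families of subsets.
-/

namespace Pool.Agent.N165.LC

section OneVar

variable {X : Type} [DecidableEq X]

theorem famD_apply (c : Finset X → ZMod 2) (τ : Finset X) :
    famD c τ = ∑ x ∈ τ, c (τ.erase x) := rfl

theorem zz2 (x : ZMod 2) : x + x = 0 := by
  revert x
  decide

/-- Toggling contraction. -/
def K1 (x : X) (c : Finset X → ZMod 2) : Finset X → ZMod 2 :=
  fun σ => if x ∈ σ then 0 else c (insert x σ)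

theorem K1_id (x : X) (c : Finset X → ZMod 2) (σ : Finset X) :
    famD (K1 x c) σ + K1 x (famD c) σ = c σ := by
  by_cases hx : x ∈ σ
  · have h1 : K1 x (famD c) σ = 0 := if_pos hx
    rw [h1, add_zero, famD_apply, Finset.sum_eq_single_of_mem x hx]
    · show (if x ∈ σ.erase x then 0 else c (insert x (σ.erase x))) = c σ
      rw [if_neg (Finset.notMem_erase x σ), Finset.insert_erase hx]
    · intro y hy hne
      exact if_pos (Finset.mem_erase.2 ⟨hne.symm, hx⟩)
  · have h1 : K1 x (famD c) σ = famD c (insert x σ) := if_neg hx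
    rw [h1, famD_apply, famD_apply, Finset.sum_insert hx, Finset.erase_insert hx]
    have h2 : ∀ y ∈ σ, K1 x c (σ.erase y) = c ((insert x σ).erase y) := by
      intro y hy
      have hxy : x ∉ σ.erase y := fun h => hx (Finset.mem_of_mem_erase h)
      have hne : x ≠ y := by
        rintro rfl
        exact hx hy
      show (if x ∈ σ.erase y then 0 else c (insert x (σ.erase y))) = _
      rw [if_neg hxy, Finset.erase_insert_of_ne hne]
    rw [Finset.sum_congr rfl h2, add_comm (c σ), ← add_assoc, zz2, zero_add]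

theorem famD_famD (c : Finset X → ZMod 2) : famD (famD c) = 0 := by
  funext τ
  rw [famD_apply]
  have key : ∀ i ∈ τ, famD c (τ.erase i) = ∑ j ∈ τ.erase i, c ((τ.erase i).erase j) :=
    fun i _ => rfl
  rw [Finset.sum_congr rfl key, Finset.sum_sigma']
  refine Finset.sum_involution (fun x _ => ⟨x.2, x.1⟩) ?_ ?_ ?_ ?_
  · rintro ⟨i, j⟩ hx
    simp only
    rw [Finset.erase_right_comm]
    exact zz2 _
  · rintro ⟨i, j⟩ hx _ heq
    simp only [Finset.mem_sigma, Finset.mem_erase] at hx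
    have : j = i := congrArg Sigma.fst heq
    exact hx.2.1 this
  · rintro ⟨i, j⟩ hx
    simp only [Finset.mem_sigma, Finset.mem_erase] at hx ⊢
    exact ⟨hx.2.2, fun h => hx.2.1 h.symm, hx.1⟩
  · rintro ⟨i, j⟩ hx
    rfl

theorem mem_FamC {S : Finset X → Prop} {p : ℕ} {c : Finset X → ZMod 2} :
    c ∈ FamC S p ↔ ∀ σ : Finset X, ¬ (S σ ∧ σ.card = p) → c σ = 0 := Iff.rfl

theorem mem_FamC' {S : Finset X → Prop} {p : ℕ} {c : Finset X → ZMod 2} :
    c ∈ FamC S p ↔ ∀ σ : Finset X, c σ ≠ 0 → S σ ∧ σ.card = p :=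
  ⟨fun h σ hσ => by
    by_contra h'
    exact hσ (h σ h'), fun h σ hσ => by
    by_contra h'
    exact hσ (h σ h')⟩

theorem famD_mem {S : Finset X → Prop} (hS : ∀ σ τ : Finset X, σ ⊆ τ → S σ → S τ) {p : ℕ}
    {c : Finset X → ZMod 2} (hc : c ∈ FamC S p) : famD c ∈ FamC S (p + 1) := by
  rw [mem_FamC'] at hc ⊢
  intro τ hτ
  obtain ⟨x, hx, hx'⟩ := Finset.exists_ne_zero_of_sum_ne_zero hτ
  obtain ⟨h1, h2⟩ := hc _ hx'
  refine ⟨hS _ _ (Finset.erase_subset x τ) h1, ?_⟩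
  rw [← h2, Finset.card_erase_add_one hx]

/-- Exactness in degree `q + 1`. -/
def Ex (S : Finset X → Prop) (q : ℕ) : Prop :=
  ∀ c ∈ FamC S (q + 1), famD c = 0 → ∃ b ∈ FamC S q, famD b = c

/-- One-dimensional cohomology in degree `q + 1`. -/
def One (S : Finset X → Prop) (q : ℕ) : Prop :=
  ∃ z₀ ∈ FamC S (q + 1), famD z₀ = 0 ∧ (¬ ∃ b ∈ FamC S q, famD b = z₀) ∧
    ∀ c ∈ FamC S (q + 1), famD c = 0 →
      (∃ b ∈ FamC S q, famD b = c) ∨ (∃ b ∈ FamC S q, famD b = c + z₀)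

/-- The toggle lemma. -/
theorem toggle (S : Finset X → Prop) (hup : ∀ σ τ : Finset X, σ ⊆ τ → S σ → S τ)
    (A : X → Prop) [DecidablePred A] (g : Finset X → X)
    (hg : ∀ ρ, ¬ A (g ρ))
    (hS : ∀ σ : Finset X, S (insert (g (σ.filter A)) σ) → S σ) (q : ℕ) : Ex S q := by
  -- induct on the minimal size of the `A`-part
  have key : ∀ m n : ℕ, q + 2 ≤ n + m → ∀ c ∈ FamC S (q + 1), famD c = 0 →
      (∀ σ : Finset X, (σ.filter A).card < n → c σ = 0) → ∃ b ∈ FamC S q, famD b = c := by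
    intro m
    induction m with
    | zero =>
      intro n hn c hc hd h0
      refine ⟨0, zero_mem _, ?_⟩
      rw [map_zero]
      funext σ
      by_cases hσ : σ.card = q + 1
      · refine (h0 σ ?_).symm
        have := Finset.card_filter_le σ A
        omega
      · exact (hc σ fun h => hσ h.2).symm
    | succ m ih =>
      intro n hn c hc hd h0
      let b : Finset X → ZMod 2 := fun σ => K1 (g (σ.filter A)) c σ
      have hb : b ∈ FamC S q := by
        rw [mem_FamC']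
        intro σ hσ
        by_cases hx : g (σ.filter A) ∈ σ
        · exact absurd (if_pos hx) hσ
        · have h1 : b σ = c (insert (g (σ.filter A)) σ) := if_neg hx
          rw [h1] at hσ
          obtain ⟨h2, h3⟩ := mem_FamC'.1 hc _ hσ
          refine ⟨hS σ h2, ?_⟩
          rw [Finset.card_insert_of_notMem hx] at h3
          omega
      have hfi : ∀ (x : X) (σ : Finset X), ¬ A x → (insert x σ).filter A = σ.filter A := by
        intro x σ hx
        rw [Finset.filter_insert, if_neg hx]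
      have hfe : ∀ (x : X) (σ : Finset X), ¬ A x → (σ.erase x).filter A = σ.filter A := by
        intro x σ hx
        ext y
        simp only [Finset.mem_filter, Finset.mem_erase]
        constructor
        · rintro ⟨⟨_, h1⟩, h2⟩
          exact ⟨h1, h2⟩
        · rintro ⟨h1, h2⟩
          refine ⟨⟨?_, h1⟩, h2⟩
          rintro rfl
          exact hx h2
      have hK : ∀ (x : X) (σ : Finset X), ¬ A x → (σ.filter A).card < n → K1 x c σ = 0 := by
        intro x σ hx hσ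
        by_cases h : x ∈ σ
        · exact if_pos h
        · refine (if_neg h).trans (h0 _ ?_)
          rw [hfi x σ hx]
          exact hσ
      have hdb : ∀ σ : Finset X, (σ.filter A).card ≤ n → famD b σ = c σ := by
        intro σ hσ
        have h1 : famD b σ = famD (K1 (g (σ.filter A)) c) σ := by
          rw [famD_apply, famD_apply]
          refine Finset.sum_congr rfl fun x hx => ?_
          by_cases hA : A x
          · have hlt : ((σ.erase x).filter A).card < n := by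
              refine lt_of_lt_of_le ?_ hσ
              apply Finset.card_lt_card
              refine ⟨Finset.filter_subset_filter _ (Finset.erase_subset _ _), fun h => ?_⟩
              have := h (Finset.mem_filter.2 ⟨hx, hA⟩)
              exact Finset.notMem_erase x σ (Finset.mem_filter.1 this).1
            rw [hK _ _ (hg _) hlt]
            exact hK _ _ (hg _) hlt
          · show K1 (g ((σ.erase x).filter A)) c (σ.erase x) = _
            rw [hfe x σ hA]
        have h2 := K1_id (g (σ.filter A)) c σ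
        rw [hd] at h2
        have h3 : K1 (g (σ.filter A)) (0 : Finset X → ZMod 2) σ = 0 := by
          unfold K1
          split_ifs <;> rfl
        rw [h1, ← h2, h3, add_zero]
      obtain ⟨b', hb', hb''⟩ := ih (n + 1) (by omega) (c + famD b)
        (add_mem hc (famD_mem hup hb)) (by rw [map_add, hd, famD_famD, add_zero]) (by
          intro σ hσ
          show c σ + famD b σ = 0
          rw [hdb σ (by omega), zz2])
      refine ⟨b' + b, add_mem hb' hb, ?_⟩
      rw [map_add, hb'']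
      funext σ
      show c σ + famD b σ + famD b σ = c σ
      rw [add_assoc, zz2, add_zero]
  intro c hc hd
  exact key (q + 2) 0 (by omega) c hc hd (fun σ h => absurd h (Nat.not_lt_zero _))

/-- The cone lemma. -/
theorem cone (S : Finset X → Prop) (x : X) (hS : ∀ σ : Finset X, S (insert x σ) → S σ)
    (q : ℕ) : Ex S q := by
  intro c hc hd
  refine ⟨K1 x c, ?_, ?_⟩
  · rw [mem_FamC']
    intro σ hσ
    by_cases hx : x ∈ σ
    · exact absurd (if_pos hx) hσ
    · have h1 : K1 x c σ = c (insert x σ) := if_neg hx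
      rw [h1] at hσ
      obtain ⟨h2, h3⟩ := mem_FamC'.1 hc _ hσ
      refine ⟨hS σ h2, ?_⟩
      rw [Finset.card_insert_of_notMem hx] at h3
      omega
  · funext σ
    have h2 := K1_id x c σ
    rw [hd] at h2
    have h3 : K1 x (0 : Finset X → ZMod 2) σ = 0 := by
      unfold K1
      split_ifs <;> rfl
    rw [← h2, h3, add_zero]

/-- No cells: exact. -/
theorem Ex_of_empty (S : Finset X → Prop) (q : ℕ) (h : ∀ σ : Finset X, S σ → σ.card ≠ q + 1) :
    Ex S q := by
  intro c hc _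
  refine ⟨0, zero_mem _, ?_⟩
  rw [map_zero]
  funext σ
  exact (hc σ fun h' => h σ h'.1 h'.2).symm

end OneVar

section Restr

variable {X Y : Type} [DecidableEq X] [DecidableEq Y]

/-- Restriction to the subsets of the image of an embedding. -/
def rest (i : Y ↪ X) : (Finset X → ZMod 2) →+ (Finset Y → ZMod 2) where
  toFun c ρ := c (ρ.map i)
  map_zero' := rfl
  map_add' _ _ := rfl

theorem rest_apply (i : Y ↪ X) (c : Finset X → ZMod 2) (ρ : Finset Y) :
    rest i c ρ = c (ρ.map i) := rfl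

theorem rest_famD (i : Y ↪ X) (c : Finset X → ZMod 2) : rest i (famD c) = famD (rest i c) := by
  funext ρ
  rw [rest_apply, famD_apply, famD_apply, Finset.sum_map]
  refine Finset.sum_congr rfl fun y hy => ?_
  rw [rest_apply, Finset.map_erase]

/-- Extension by zero of a cochain on subsets of the image of an embedding. -/
noncomputable def extn (i : Y ↪ X) (t : Finset Y → ZMod 2) : Finset X → ZMod 2 := by
  classical
  exact fun σ => if h : ∃ ρ : Finset Y, ρ.map i = σ then t h.choose else 0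

theorem extn_map (i : Y ↪ X) (t : Finset Y → ZMod 2) (ρ : Finset Y) :
    extn i t (ρ.map i) = t ρ := by
  have h : ∃ ρ' : Finset Y, ρ'.map i = ρ.map i := ⟨ρ, rfl⟩
  unfold extn
  rw [dif_pos h]
  congr 1
  exact Finset.map_injective i h.choose_spec

theorem extn_ne (i : Y ↪ X) (t : Finset Y → ZMod 2) {σ : Finset X} (h : extn i t σ ≠ 0) :
    ∃ ρ : Finset Y, ρ.map i = σ ∧ t ρ ≠ 0 := by
  by_cases h' : ∃ ρ : Finset Y, ρ.map i = σ
  · obtain ⟨ρ, rfl⟩ := h'
    rw [extn_map] at h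
    exact ⟨ρ, rfl, h⟩
  · exfalso
    apply h
    unfold extn
    rw [dif_neg h']

theorem rest_extn (i : Y ↪ X) (t : Finset Y → ZMod 2) : rest i (extn i t) = t := by
  funext ρ
  rw [rest_apply, extn_map]

variable (i : Y ↪ X) (S S' : Finset X → Prop) (T : Finset Y → Prop)

theorem rest_mem (hT : ∀ ρ : Finset Y, S (ρ.map i) → T ρ) {p : ℕ} {c : Finset X → ZMod 2}
    (hc : c ∈ FamC S p) : rest i c ∈ FamC T p := by
  rw [mem_FamC'] at hc ⊢
  intro ρ hρ
  obtain ⟨h1, h2⟩ := hc _ hρ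
  rw [Finset.card_map] at h2
  exact ⟨hT ρ h1, h2⟩

theorem extn_mem (hT : ∀ ρ : Finset Y, T ρ → S (ρ.map i)) {p : ℕ} {t : Finset Y → ZMod 2}
    (ht : t ∈ FamC T p) : extn i t ∈ FamC S p := by
  rw [mem_FamC'] at ht ⊢
  intro σ hσ
  obtain ⟨ρ, rfl, hρ⟩ := extn_ne i t hσ
  obtain ⟨h1, h2⟩ := ht _ hρ
  refine ⟨hT ρ h1, ?_⟩
  rw [Finset.card_map]
  exact h2

theorem ker_mem (hS' : ∀ σ, S σ → (∀ ρ : Finset Y, ρ.map i ≠ σ) → S' σ) {p : ℕ}
    {c : Finset X → ZMod 2} (hc : c ∈ FamC S p) (h0 : rest i c = 0) : c ∈ FamC S' p := by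
  rw [mem_FamC'] at hc ⊢
  intro σ hσ
  obtain ⟨h1, h2⟩ := hc _ hσ
  refine ⟨hS' σ h1 ?_, h2⟩
  rintro ρ rfl
  exact hσ (congrFun h0 ρ)

theorem FamC_mono (h : ∀ σ, S' σ → S σ) {p : ℕ} {c : Finset X → ZMod 2} (hc : c ∈ FamC S' p) :
    c ∈ FamC S p := by
  rw [mem_FamC'] at hc ⊢
  exact fun σ hσ => ⟨h σ (hc σ hσ).1, (hc σ hσ).2⟩

theorem addself (c : Finset X → ZMod 2) : c + c = 0 := by
  funext σ
  exact zz2 _

/-- Extension of two exact complexes. -/
theorem Ex_mid (hup : ∀ σ τ : Finset X, σ ⊆ τ → S σ → S τ)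
    (hT : ∀ ρ : Finset Y, S (ρ.map i) ↔ T ρ)
    (hS' : ∀ σ, S' σ ↔ S σ ∧ ∀ ρ : Finset Y, ρ.map i ≠ σ) (q : ℕ)
    (h1 : Ex S' q) (h2 : Ex T q) : Ex S q := by
  intro c hc hd
  obtain ⟨t, ht, ht'⟩ := h2 (rest i c) (rest_mem i S T (fun ρ => (hT ρ).1) hc)
    (by rw [← rest_famD, hd, map_zero])
  have he := extn_mem i S T (fun ρ => (hT ρ).2) ht
  have h3 : rest i (c + famD (extn i t)) = 0 := by
    rw [map_add, rest_famD, rest_extn, ht', addself]
  obtain ⟨b, hb, hb'⟩ := h1 (c + famD (extn i t))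
    (ker_mem i S S' (fun σ h h' => (hS' σ).2 ⟨h, h'⟩) (add_mem hc (famD_mem hup he)) h3)
    (by rw [map_add, hd, famD_famD, add_zero])
  refine ⟨b + extn i t, add_mem (FamC_mono S S' (fun σ h => ((hS' σ).1 h).1) hb) he, ?_⟩
  rw [map_add, hb', add_assoc, addself, add_zero]

/-- The connecting map: exactness. -/
theorem Ex_ker (hup : ∀ σ τ : Finset X, σ ⊆ τ → S σ → S τ)
    (hT : ∀ ρ : Finset Y, S (ρ.map i) ↔ T ρ)
    (hS' : ∀ σ, S' σ ↔ S σ ∧ ∀ ρ : Finset Y, ρ.map i ≠ σ) (q : ℕ)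
    (h1 : Ex S (q + 1)) (h2 : Ex T q) : Ex S' (q + 1) := by
  intro c hc hd
  have h0 : rest i c = 0 := by
    funext ρ
    by_contra h
    exact ((hS' _).1 (mem_FamC'.1 hc _ h).1).2 ρ rfl
  obtain ⟨b, hb, hb'⟩ := h1 c (FamC_mono S S' (fun σ h => ((hS' σ).1 h).1) hc) hd
  obtain ⟨t, ht, ht'⟩ := h2 (rest i b) (rest_mem i S T (fun ρ => (hT ρ).1) hb)
    (by rw [← rest_famD, hb', h0])
  have he := extn_mem i S T (fun ρ => (hT ρ).2) ht
  refine ⟨b + famD (extn i t), ker_mem i S S' (fun σ h h' => (hS' σ).2 ⟨h, h'⟩)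
    (add_mem hb (famD_mem hup he)) ?_, ?_⟩
  · rw [map_add, rest_famD, rest_extn, ht', addself]
  · rw [map_add, hb', famD_famD, add_zero]

/-- The connecting map: one-dimensional cohomology. -/
theorem One_ker (hup : ∀ σ τ : Finset X, σ ⊆ τ → S σ → S τ)
    (hT : ∀ ρ : Finset Y, S (ρ.map i) ↔ T ρ)
    (hS' : ∀ σ, S' σ ↔ S σ ∧ ∀ ρ : Finset Y, ρ.map i ≠ σ) (q : ℕ)
    (h1 : Ex S (q + 1)) (h1' : Ex S q) (h2 : One T q) : One S' (q + 1) := by
  obtain ⟨z, hz, hdz, hnz, hall⟩ := h2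
  have hez := extn_mem i S T (fun ρ => (hT ρ).2) hz
  have hk : ∀ {p : ℕ} {c : Finset X → ZMod 2}, c ∈ FamC S p → rest i c = 0 → c ∈ FamC S' p :=
    fun hc h0 => ker_mem i S S' (fun σ h h' => (hS' σ).2 ⟨h, h'⟩) hc h0
  have hk' : ∀ {p : ℕ} {c : Finset X → ZMod 2}, c ∈ FamC S' p → rest i c = 0 := by
    intro p c hc
    funext ρ
    by_contra h
    exact ((hS' _).1 (mem_FamC'.1 hc _ h).1).2 ρ rfl
  have hmono : ∀ {p : ℕ} {c : Finset X → ZMod 2}, c ∈ FamC S' p → c ∈ FamC S p :=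
    fun hc => FamC_mono S S' (fun σ h => ((hS' σ).1 h).1) hc
  refine ⟨famD (extn i z), hk (famD_mem hup hez) ?_, famD_famD _, ?_, ?_⟩
  · rw [rest_famD, rest_extn, hdz]
  · rintro ⟨b, hb, hb'⟩
    obtain ⟨w, hw, hw'⟩ := h1' (extn i z + b) (add_mem hez (hmono hb))
      (by rw [map_add, hb', addself])
    apply hnz
    refine ⟨rest i w, rest_mem i S T (fun ρ => (hT ρ).1) hw, ?_⟩
    rw [← rest_famD, hw', map_add, rest_extn, hk' hb, add_zero]
  · intro c hc hd
    obtain ⟨b, hb, hb'⟩ := h1 c (hmono hc) hd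
    rcases hall (rest i b) (rest_mem i S T (fun ρ => (hT ρ).1) hb)
      (by rw [← rest_famD, hb', hk' hc]) with ⟨t, ht, ht'⟩ | ⟨t, ht, ht'⟩
    · left
      have he := extn_mem i S T (fun ρ => (hT ρ).2) ht
      refine ⟨b + famD (extn i t), hk (add_mem hb (famD_mem hup he)) ?_, ?_⟩
      · rw [map_add, rest_famD, rest_extn, ht', addself]
      · rw [map_add, hb', famD_famD, add_zero]
    · right
      have he := extn_mem i S T (fun ρ => (hT ρ).2) ht
      refine ⟨b + extn i z + famD (extn i t),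
        hk (add_mem (add_mem hb hez) (famD_mem hup he)) ?_, ?_⟩
      · rw [map_add, map_add, rest_famD, rest_extn, rest_extn, ht', addself]
      · rw [map_add, map_add, hb', famD_famD, add_zero]

end Restr

section Dbl

variable {Q : Type} [DecidableEq Q]

/-- The doubled family. -/
def Dbl (β₀ β₁ : Prop) (T : Finset Q → Prop) (σ : Finset (Q ⊕ Q)) : Prop :=
  (β₀ → σ.toLeft.Nonempty) ∧ (β₁ → σ.toRight.Nonempty) ∧ T (σ.toLeft ∪ σ.toRight)

theorem toLeft_sub {A B : Type} {σ τ : Finset (A ⊕ B)} (h : σ ⊆ τ) : σ.toLeft ⊆ τ.toLeft := by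
  intro x hx
  rw [Finset.mem_toLeft] at hx ⊢
  exact h hx

theorem toRight_sub {A B : Type} {σ τ : Finset (A ⊕ B)} (h : σ ⊆ τ) : σ.toRight ⊆ τ.toRight := by
  intro x hx
  rw [Finset.mem_toRight] at hx ⊢
  exact h hx

theorem Dbl_up {β₀ β₁ : Prop} {T : Finset Q → Prop}
    (hT : ∀ σ τ : Finset Q, σ ⊆ τ → T σ → T τ) :
    ∀ σ τ : Finset (Q ⊕ Q), σ ⊆ τ → Dbl β₀ β₁ T σ → Dbl β₀ β₁ T τ := by
  rintro σ τ h ⟨h0, h1, h2⟩
  refine ⟨fun b => (h0 b).mono (toLeft_sub h), fun b => (h1 b).mono (toRight_sub h), ?_⟩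
  exact hT _ _ (Finset.union_subset_union (toLeft_sub h) (toRight_sub h)) h2

theorem P1 {β₀ β₁ : Prop} {T : Finset Q → Prop} (hT : ∀ σ τ : Finset Q, σ ⊆ τ → T σ → T τ)
    (h0 : β₀) (h1 : ¬ β₁) (q : ℕ) : Ex (Dbl β₀ β₁ T) q := by
  classical
  rcases isEmpty_or_nonempty Q with hQ | ⟨⟨x₀⟩⟩
  · apply Ex_of_empty
    intro σ hσ
    obtain ⟨x, _⟩ := hσ.1 h0
    exact hQ.elim x
  · refine toggle _ (Dbl_up hT) (fun x => x.isLeft = true)
      (fun ρ => Sum.inr (if h : ρ.toLeft.Nonempty then h.choose else x₀)) (fun ρ => by simp) ?_ q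
    intro σ hσ
    have e1 : (σ.filter fun x => x.isLeft = true).toLeft = σ.toLeft := by
      ext x
      simp
    have hne : σ.toLeft.Nonempty := by
      obtain ⟨x, hx⟩ := hσ.1 h0
      refine ⟨x, ?_⟩
      simpa using hx
    have hne' : (σ.filter fun x => x.isLeft = true).toLeft.Nonempty := by
      rw [e1]
      exact hne
    rw [dif_pos hne'] at hσ
    have hx := hne'.choose_spec
    generalize hne'.choose = x₁ at hσ hx
    rw [e1] at hx
    refine ⟨fun _ => hne, fun b => absurd b h1, ?_⟩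
    have h2 := hσ.2.2
    convert h2 using 1
    ext y
    simp only [Finset.mem_union, Finset.mem_toLeft, Finset.mem_toRight, Finset.mem_insert,
      reduceCtorEq, false_or, Sum.inr.injEq]
    constructor
    · rintro (h | h)
      · exact Or.inl h
      · exact Or.inr (Or.inr h)
    · rintro (h | h | h)
      · exact Or.inl h
      · left
        rw [h]
        exact Finset.mem_toLeft.1 hx
      · exact Or.inr h

theorem P1' {β₀ β₁ : Prop} {T : Finset Q → Prop} (hT : ∀ σ τ : Finset Q, σ ⊆ τ → T σ → T τ)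
    (h0 : ¬ β₀) (h1 : β₁) (q : ℕ) : Ex (Dbl β₀ β₁ T) q := by
  classical
  rcases isEmpty_or_nonempty Q with hQ | ⟨⟨x₀⟩⟩
  · apply Ex_of_empty
    intro σ hσ
    obtain ⟨x, _⟩ := hσ.2.1 h1
    exact hQ.elim x
  · refine toggle _ (Dbl_up hT) (fun x => x.isRight = true)
      (fun ρ => Sum.inl (if h : ρ.toRight.Nonempty then h.choose else x₀)) (fun ρ => by simp) ?_ q
    intro σ hσ
    have e1 : (σ.filter fun x => x.isRight = true).toRight = σ.toRight := by
      ext x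
      simp
    have hne : σ.toRight.Nonempty := by
      obtain ⟨x, hx⟩ := hσ.2.1 h1
      refine ⟨x, ?_⟩
      simpa using hx
    have hne' : (σ.filter fun x => x.isRight = true).toRight.Nonempty := by
      rw [e1]
      exact hne
    rw [dif_pos hne'] at hσ
    have hx := hne'.choose_spec
    generalize hne'.choose = x₁ at hσ hx
    rw [e1] at hx
    refine ⟨fun b => absurd b h0, fun _ => hne, ?_⟩
    have h2 := hσ.2.2
    convert h2 using 1
    ext y
    simp only [Finset.mem_union, Finset.mem_toLeft, Finset.mem_toRight, Finset.mem_insert,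
      reduceCtorEq, false_or, Sum.inl.injEq]
    constructor
    · rintro (h | h)
      · exact Or.inl (Or.inr h)
      · exact Or.inr h
    · rintro ((h | h) | h)
      · right
        rw [h]
        exact Finset.mem_toRight.1 hx
      · exact Or.inl h
      · exact Or.inr h

theorem map_inl_toLeft (ρ : Finset Q) :
    (ρ.map (Function.Embedding.inl : Q ↪ Q ⊕ Q)).toLeft = ρ := by
  ext x
  simp

theorem map_inl_toRight (ρ : Finset Q) :
    (ρ.map (Function.Embedding.inl : Q ↪ Q ⊕ Q)).toRight = ∅ := by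
  ext x
  simp

theorem map_inr_toLeft (ρ : Finset Q) :
    (ρ.map (Function.Embedding.inr : Q ↪ Q ⊕ Q)).toLeft = ∅ := by
  ext x
  simp

theorem map_inr_toRight (ρ : Finset Q) :
    (ρ.map (Function.Embedding.inr : Q ↪ Q ⊕ Q)).toRight = ρ := by
  ext x
  simp

theorem map_inl_ne (σ : Finset (Q ⊕ Q)) :
    (∀ ρ : Finset Q, ρ.map (Function.Embedding.inl : Q ↪ Q ⊕ Q) ≠ σ) ↔ σ.toRight.Nonempty := by
  constructor
  · intro h
    by_contra h'
    rw [Finset.not_nonempty_iff_eq_empty] at h'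
    apply h σ.toLeft
    ext x
    rcases x with x | x
    · simp
    · simp only [Finset.mem_map, Function.Embedding.inl_apply, reduceCtorEq, and_false,
        exists_false, false_iff]
      intro hx
      have := Finset.mem_toRight.2 hx
      rw [h'] at this
      exact absurd this (Finset.notMem_empty x)
  · rintro h ρ rfl
    rw [map_inl_toRight] at h
    exact absurd h Finset.not_nonempty_empty

theorem map_inr_ne (σ : Finset (Q ⊕ Q)) :
    (∀ ρ : Finset Q, ρ.map (Function.Embedding.inr : Q ↪ Q ⊕ Q) ≠ σ) ↔ σ.toLeft.Nonempty := by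
  constructor
  · intro h
    by_contra h'
    rw [Finset.not_nonempty_iff_eq_empty] at h'
    apply h σ.toRight
    ext x
    rcases x with x | x
    · simp only [Finset.mem_map, Function.Embedding.inr_apply, reduceCtorEq, and_false,
        exists_false, false_iff]
      intro hx
      have := Finset.mem_toLeft.2 hx
      rw [h'] at this
      exact absurd this (Finset.notMem_empty x)
    · simp
  · rintro h ρ rfl
    rw [map_inr_toLeft] at h
    exact absurd h Finset.not_nonempty_empty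

theorem P2 {T : Finset Q → Prop} (hT : ∀ σ τ : Finset Q, σ ⊆ τ → T σ → T τ) (q : ℕ)
    (h : Ex T q) : Ex (Dbl False False T) q := by
  refine Ex_mid (Function.Embedding.inr : Q ↪ Q ⊕ Q) _ (Dbl True False T) T (Dbl_up hT) ?_ ?_ q
    (P1 hT trivial not_false q) h
  · intro ρ
    unfold Dbl
    rw [map_inr_toLeft, map_inr_toRight, Finset.empty_union]
    simp
  · intro σ
    rw [map_inr_ne]
    unfold Dbl
    tauto

theorem P3 {T : Finset Q → Prop} (hT : ∀ σ τ : Finset Q, σ ⊆ τ → T σ → T τ) (q : ℕ)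
    (h : Ex (fun ρ => ρ.Nonempty ∧ T ρ) q) : Ex (Dbl True True T) (q + 1) := by
  refine Ex_ker (Function.Embedding.inl : Q ↪ Q ⊕ Q) (Dbl True False T) _ _ (Dbl_up hT) ?_ ?_ q
    (P1 hT trivial not_false (q + 1)) h
  · intro ρ
    unfold Dbl
    rw [map_inl_toLeft, map_inl_toRight, Finset.union_empty]
    simp
  · intro σ
    rw [map_inl_ne]
    unfold Dbl
    tauto

theorem P3one {T : Finset Q → Prop} (hT : ∀ σ τ : Finset Q, σ ⊆ τ → T σ → T τ) (q : ℕ)
    (h : One (fun ρ => ρ.Nonempty ∧ T ρ) q) : One (Dbl True True T) (q + 1) := by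
  refine One_ker (Function.Embedding.inl : Q ↪ Q ⊕ Q) (Dbl True False T) _ _ (Dbl_up hT) ?_ ?_ q
    (P1 hT trivial not_false (q + 1)) (P1 hT trivial not_false q) h
  · intro ρ
    unfold Dbl
    rw [map_inl_toLeft, map_inl_toRight, Finset.union_empty]
    simp
  · intro σ
    rw [map_inl_ne]
    unfold Dbl
    tauto

theorem FamC_ne {T : Finset Q → Prop} {p : ℕ} (hp : p ≠ 0) :
    FamC (fun ρ => ρ.Nonempty ∧ T ρ) p = FamC T p := by
  ext c
  rw [mem_FamC', mem_FamC']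
  constructor
  · intro h σ hσ
    exact ⟨(h σ hσ).1.2, (h σ hσ).2⟩
  · intro h σ hσ
    obtain ⟨h1, h2⟩ := h σ hσ
    refine ⟨⟨?_, h1⟩, h2⟩
    rw [← Finset.card_pos]
    omega

theorem PP {β₀ β₁ : Prop} {T : Finset Q → Prop} (hT : ∀ σ τ : Finset Q, σ ⊆ τ → T σ → T τ)
    {q : ℕ} (hq : q ≠ 0) (h0 : ¬ β₀ → ¬ β₁ → Ex T (q + 1)) (h1 : β₀ → β₁ → Ex T q) :
    Ex (Dbl β₀ β₁ T) (q + 1) := by
  by_cases b0 : β₀
  · by_cases b1 : β₁
    · have e0 : β₀ = True := eq_true b0
      have e1 : β₁ = True := eq_true b1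
      rw [e0, e1]
      apply P3 hT q
      have := h1 b0 b1
      unfold Ex at this ⊢
      rw [FamC_ne hq, FamC_ne (Nat.succ_ne_zero q)]
      exact this
    · exact P1 hT b0 b1 _
  · by_cases b1 : β₁
    · exact P1' hT b0 b1 _
    · have e0 : β₀ = False := eq_false b0
      have e1 : β₁ = False := eq_false b1
      rw [e0, e1]
      exact P2 hT _ (h0 b0 b1)

theorem PPone {β₀ β₁ : Prop} {T : Finset Q → Prop} (hT : ∀ σ τ : Finset Q, σ ⊆ τ → T σ → T τ)
    {q : ℕ} (hq : q ≠ 0) (b0 : β₀) (b1 : β₁) (h1 : One T q) :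
    One (Dbl β₀ β₁ T) (q + 1) := by
  have e0 : β₀ = True := eq_true b0
  have e1 : β₁ = True := eq_true b1
  rw [e0, e1]
  apply P3one hT q
  unfold One at h1 ⊢
  rw [FamC_ne hq, FamC_ne (Nat.succ_ne_zero q)]
  exact h1

end Dbl

section Shift

variable {A Y : Type} [DecidableEq A] [DecidableEq Y] [Fintype A]

/-- The family `α ⊇ νa`, `τ ∈ V`. -/
def Sh (νa : A → Prop) (V : Finset Y → Prop) (σ : Finset (A ⊕ Y)) : Prop :=
  (∀ l, νa l → l ∈ σ.toLeft) ∧ V σ.toRight

theorem Sh_up {νa : A → Prop} {V : Finset Y → Prop}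
    (hV : ∀ σ τ : Finset Y, σ ⊆ τ → V σ → V τ) :
    ∀ σ τ : Finset (A ⊕ Y), σ ⊆ τ → Sh νa V σ → Sh νa V τ := by
  rintro σ τ h ⟨h1, h2⟩
  exact ⟨fun l hl => toLeft_sub h (h1 l hl), hV _ _ (toRight_sub h) h2⟩

theorem Sh_cone {νa : A → Prop} {V : Finset Y → Prop} (h : ¬ ∀ l, νa l) (q : ℕ) :
    Ex (Sh νa V) q := by
  push Not at h
  obtain ⟨l, hl⟩ := h
  refine cone _ (Sum.inl l) ?_ q
  rintro σ ⟨h1, h2⟩
  refine ⟨fun l' hl' => ?_, ?_⟩
  · have h3 := h1 l' hl'
    rw [Finset.mem_toLeft, Finset.mem_insert] at h3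
    rcases h3 with h3 | h3
    · have : l' = l := Sum.inl_injective h3
      rw [this] at hl'
      exact absurd hl' hl
    · exact Finset.mem_toLeft.2 h3
  · have e : (insert (Sum.inl l : A ⊕ Y) σ).toRight = σ.toRight := by
      ext y
      simp
    rw [e] at h2
    exact h2

/-- The restriction to `α = univ`. -/
def rU (c : Finset (A ⊕ Y) → ZMod 2) : Finset Y → ZMod 2 := fun τ => c (Finset.univ.disjSum τ)

/-- The extension by zero. -/
def eU (t : Finset Y → ZMod 2) : Finset (A ⊕ Y) → ZMod 2 :=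
  fun σ => if σ.toLeft = Finset.univ then t σ.toRight else 0

theorem rU_eU (t : Finset Y → ZMod 2) : rU (A := A) (eU t) = t := by
  funext τ
  have e1 : ((Finset.univ : Finset A).disjSum τ).toLeft = Finset.univ := by
    ext x
    simp
  have e2 : ((Finset.univ : Finset A).disjSum τ).toRight = τ := by
    ext x
    simp
  show (if ((Finset.univ : Finset A).disjSum τ).toLeft = Finset.univ
    then t ((Finset.univ : Finset A).disjSum τ).toRight else 0) = t τ
  rw [if_pos e1, e2]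

theorem disjSum_univ {σ : Finset (A ⊕ Y)} (h : σ.toLeft = Finset.univ) :
    (Finset.univ : Finset A).disjSum σ.toRight = σ := by
  ext x
  rcases x with x | x
  · rw [Finset.inl_mem_disjSum]
    have := Finset.mem_univ x
    rw [← h, Finset.mem_toLeft] at this
    simp [this]
  · rw [Finset.inr_mem_disjSum, Finset.mem_toRight]

theorem eU_rU {νa : A → Prop} (hν : ∀ l, νa l) {V : Finset Y → Prop} {p : ℕ}
    {c : Finset (A ⊕ Y) → ZMod 2} (hc : c ∈ FamC (Sh νa V) p) : eU (rU c) = c := by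
  funext σ
  by_cases h : σ.toLeft = Finset.univ
  · refine (if_pos h).trans ?_
    show c (Finset.univ.disjSum σ.toRight) = c σ
    rw [disjSum_univ h]
  · refine (if_neg h).trans ?_
    symm
    by_contra h'
    apply h
    rw [Finset.eq_univ_iff_forall]
    intro l
    exact (mem_FamC'.1 hc σ h').1.1 l (hν l)

theorem eU_famD (t : Finset Y → ZMod 2) : famD (eU (A := A) t) = eU (famD t) := by
  funext σ
  rw [famD_apply]
  by_cases h : σ.toLeft = Finset.univ
  · refine Eq.trans ?_ (if_pos h).symm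
    rw [famD_apply]
    conv_lhs => rw [← disjSum_univ h]
    rw [Finset.sum_disjSum]
    have h1 : ∑ x : A, eU t (((Finset.univ : Finset A).disjSum σ.toRight).erase (Sum.inl x)) =
        0 := by
      refine Finset.sum_eq_zero fun x _ => if_neg ?_
      intro h2
      have := Finset.mem_univ x
      rw [← h2] at this
      simp at this
    rw [h1, zero_add]
    refine Finset.sum_congr rfl fun y hy => ?_
    have e1 : (((Finset.univ : Finset A).disjSum σ.toRight).erase (Sum.inr y)).toLeft =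
        Finset.univ := by
      ext x
      simp
    have e2 : (((Finset.univ : Finset A).disjSum σ.toRight).erase (Sum.inr y)).toRight =
        σ.toRight.erase y := by
      ext x
      simp
    refine (if_pos e1).trans ?_
    rw [e2]
  · refine Eq.trans ?_ (if_neg h).symm
    refine Finset.sum_eq_zero fun x _ => if_neg ?_
    intro h2
    apply h
    rw [Finset.eq_univ_iff_forall]
    intro l
    have h3 := Finset.mem_univ l
    rw [← h2] at h3
    exact toLeft_sub (Finset.erase_subset _ _) h3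

theorem card_lr (σ : Finset (A ⊕ Y)) : σ.card = σ.toLeft.card + σ.toRight.card :=
  (Finset.card_toLeft_add_card_toRight (u := σ)).symm

theorem eU_mem {νa : A → Prop} {V : Finset Y → Prop} {p : ℕ} {t : Finset Y → ZMod 2}
    (ht : t ∈ FamC V p) : eU (A := A) t ∈ FamC (Sh νa V) (p + Fintype.card A) := by
  rw [mem_FamC'] at ht ⊢
  intro σ hσ
  by_cases h : σ.toLeft = Finset.univ
  · have h1 : eU t σ = t σ.toRight := if_pos h
    rw [h1] at hσ
    obtain ⟨h2, h3⟩ := ht _ hσ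
    refine ⟨⟨fun l _ => by rw [h]; exact Finset.mem_univ l, h2⟩, ?_⟩
    rw [card_lr, h, h3, Finset.card_univ, add_comm]
  · exact absurd (if_neg h) hσ

theorem rU_mem {νa : A → Prop} {V : Finset Y → Prop} {p : ℕ} {c : Finset (A ⊕ Y) → ZMod 2}
    (hc : c ∈ FamC (Sh νa V) (p + Fintype.card A)) : rU c ∈ FamC V p := by
  rw [mem_FamC'] at hc ⊢
  intro τ hτ
  obtain ⟨h1, h2⟩ := hc _ hτ
  have e2 : ((Finset.univ : Finset A).disjSum τ).toRight = τ := by
    ext x
    simp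
  refine ⟨?_, ?_⟩
  · have := h1.2
    rw [e2] at this
    exact this
  · rw [Finset.card_disjSum, Finset.card_univ] at h2
    omega

theorem Sh_Ex {νa : A → Prop} (hν : ∀ l, νa l) {V : Finset Y → Prop} {q : ℕ} (h : Ex V q) :
    Ex (Sh νa V) (q + Fintype.card A) := by
  intro c hc hd
  have e : q + Fintype.card A + 1 = (q + 1) + Fintype.card A := by ring
  rw [e] at hc
  have h1 := eU_rU hν hc
  have h2 : famD (rU c) = 0 := by
    have h3 : eU (A := A) (famD (rU c)) = 0 := by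
      rw [← eU_famD, h1, hd]
    have h4 := congrArg rU h3
    rw [rU_eU] at h4
    exact h4
  obtain ⟨b, hb, hb'⟩ := h _ (rU_mem hc) h2
  refine ⟨eU b, eU_mem hb, ?_⟩
  rw [eU_famD, hb', h1]

theorem eU_add (s t : Finset Y → ZMod 2) : eU (A := A) (s + t) = eU s + eU t := by
  funext σ
  rw [Pi.add_apply]
  unfold eU
  split_ifs
  · rfl
  · rw [add_zero]

theorem Sh_One {νa : A → Prop} (hν : ∀ l, νa l) {V : Finset Y → Prop} {q : ℕ} (h : One V q) :
    One (Sh νa V) (q + Fintype.card A) := by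
  obtain ⟨z, hz, hdz, hnz, hall⟩ := h
  have e : q + Fintype.card A + 1 = (q + 1) + Fintype.card A := by ring
  unfold One
  rw [e]
  have e0 : eU (A := A) (0 : Finset Y → ZMod 2) = 0 := by
    funext σ
    unfold eU
    split_ifs <;> rfl
  refine ⟨eU z, eU_mem hz, ?_, ?_, ?_⟩
  · rw [eU_famD, hdz, e0]
  · rintro ⟨b, hb, hb'⟩
    apply hnz
    refine ⟨rU b, rU_mem hb, ?_⟩
    have h1 := eU_rU hν hb
    have h2 : eU (A := A) (famD (rU b)) = eU z := by
      rw [← eU_famD, h1, hb']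
    have h3 := congrArg rU h2
    rw [rU_eU, rU_eU] at h3
    exact h3
  · intro c hc hd
    have h1 := eU_rU hν hc
    have h2 : famD (rU c) = 0 := by
      have h3 : eU (A := A) (famD (rU c)) = 0 := by
        rw [← eU_famD, h1, hd]
      have h4 := congrArg rU h3
      rw [rU_eU] at h4
      exact h4
    rcases hall _ (rU_mem hc) h2 with ⟨b, hb, hb'⟩ | ⟨b, hb, hb'⟩
    · left
      refine ⟨eU b, eU_mem hb, ?_⟩
      rw [eU_famD, hb', h1]
    · right
      refine ⟨eU b, eU_mem hb, ?_⟩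
      rw [eU_famD, hb', eU_add, h1]

end Shift

section Equivs

variable {X Y : Type} [DecidableEq X] [DecidableEq Y] (e : X ≃ Y) (S : Finset X → Prop)
  (S' : Finset Y → Prop) (h : ∀ σ : Finset X, S' (σ.map e.toEmbedding) ↔ S σ)

theorem map_map_symm (ρ : Finset X) : (ρ.map e.toEmbedding).map e.symm.toEmbedding = ρ := by
  ext x
  simp

theorem map_symm_map (ρ : Finset Y) : (ρ.map e.symm.toEmbedding).map e.toEmbedding = ρ := by
  ext x
  simp

theorem rest_rest (c : Finset X → ZMod 2) :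
    rest e.toEmbedding (rest e.symm.toEmbedding c) = c := by
  funext ρ
  rw [rest_apply, rest_apply, map_map_symm]

theorem rest_rest' (c : Finset Y → ZMod 2) :
    rest e.symm.toEmbedding (rest e.toEmbedding c) = c := by
  funext ρ
  rw [rest_apply, rest_apply, map_symm_map]

include h in
theorem Ex_equiv {q : ℕ} (hS' : Ex S' q) : Ex S q := by
  have h' : ∀ ρ : Finset Y, S (ρ.map e.symm.toEmbedding) → S' ρ := by
    intro ρ hρ
    rw [← h, map_symm_map] at hρ
    exact hρ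
  intro c hc hd
  obtain ⟨b, hb, hb'⟩ := hS' (rest e.symm.toEmbedding c) (rest_mem _ S S' h' hc)
    (by rw [← rest_famD, hd, map_zero])
  refine ⟨rest e.toEmbedding b, rest_mem _ S' S (fun ρ => (h ρ).1) hb, ?_⟩
  rw [← rest_famD, hb', rest_rest]

include h in
theorem One_equiv {q : ℕ} (hS' : One S' q) : One S q := by
  have h' : ∀ ρ : Finset Y, S (ρ.map e.symm.toEmbedding) → S' ρ := by
    intro ρ hρ
    rw [← h, map_symm_map] at hρ
    exact hρ
  obtain ⟨z, hz, hdz, hnz, hall⟩ := hS'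
  refine ⟨rest e.toEmbedding z, rest_mem _ S' S (fun ρ => (h ρ).1) hz,
    by rw [← rest_famD, hdz, map_zero], ?_, ?_⟩
  · rintro ⟨b, hb, hb'⟩
    apply hnz
    refine ⟨rest e.symm.toEmbedding b, rest_mem _ S S' h' hb, ?_⟩
    rw [← rest_famD, hb', rest_rest']
  · intro c hc hd
    rcases hall (rest e.symm.toEmbedding c) (rest_mem _ S S' h' hc)
      (by rw [← rest_famD, hd, map_zero]) with ⟨b, hb, hb'⟩ | ⟨b, hb, hb'⟩
    · left
      refine ⟨rest e.toEmbedding b, rest_mem _ S' S (fun ρ => (h ρ).1) hb, ?_⟩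
      rw [← rest_famD, hb', rest_rest]
    · right
      refine ⟨rest e.toEmbedding b, rest_mem _ S' S (fun ρ => (h ρ).1) hb, ?_⟩
      rw [← rest_famD, hb', map_add, rest_rest]

end Equivs

section Concrete

/-- The base type. -/
abbrev QQ (j : ℕ) : Type := Fin (j + 1) ⊕ (Fin 3 ⊕ Fin 3)

/-- The index type of the operators as a doubled type. -/
def eXM (j : ℕ) : XM j ≃ QQ j ⊕ QQ j where
  toFun
    | .ua p l => if p = 0 then Sum.inl (Sum.inl l) else Sum.inr (Sum.inl l)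
    | .uvs p q r =>
      if p = 0 then Sum.inl (Sum.inr (if q = 0 then Sum.inl r else Sum.inr r))
      else Sum.inr (Sum.inr (if q = 0 then Sum.inl r else Sum.inr r))
  invFun
    | Sum.inl (Sum.inl l) => .ua 0 l
    | Sum.inr (Sum.inl l) => .ua 1 l
    | Sum.inl (Sum.inr (Sum.inl r)) => .uvs 0 0 r
    | Sum.inl (Sum.inr (Sum.inr r)) => .uvs 0 1 r
    | Sum.inr (Sum.inr (Sum.inl r)) => .uvs 1 0 r
    | Sum.inr (Sum.inr (Sum.inr r)) => .uvs 1 1 r
  left_inv := by
    rintro (⟨p, l⟩ | ⟨p, q, r⟩)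
    · fin_cases p <;> rfl
    · fin_cases p <;> fin_cases q <;> rfl
  right_inv := by
    rintro ((l | (r | r)) | (l | (r | r))) <;> rfl

/-- `σ` covers the set `ν` of variables. -/
def CovP (j : ℕ) (ν : W j → Prop) (σ : Finset (XM j)) : Prop :=
  ∀ w, ν w → ∃ i ∈ σ, chi j i w ≠ 0

variable {j : ℕ}

theorem mem_map_e (σ : Finset (XM j)) (y : QQ j ⊕ QQ j) :
    y ∈ σ.map (eXM j).toEmbedding ↔ (eXM j).symm y ∈ σ := by
  rw [Finset.mem_map_equiv]

/-- The family `V` on `s ⊕ s`. -/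
def VF (j : ℕ) (ν : W j → Prop) : Finset (Fin 3 ⊕ Fin 3) → Prop :=
  Dbl (ν (.v 0)) (ν (.v 1)) (fun τ : Finset (Fin 3) => ∀ r, ν (.s r) → r ∈ τ)

/-- The family on the doubled type. -/
def SF (j : ℕ) (ν : W j → Prop) : Finset (QQ j ⊕ QQ j) → Prop :=
  Dbl (ν (.u 0)) (ν (.u 1)) (Sh (fun l => ν (.a l)) (VF j ν))

theorem ev_app (w w' : W j) : ev w w' = if w' = w then 1 else 0 := by
  unfold ev
  rw [Pi.single_apply]

theorem chi_a (i : XM j) (l : Fin (j + 1)) :
    chi j i (.a l) ≠ 0 ↔ i = .ua 0 l ∨ i = .ua 1 l := by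
  rcases i with ⟨p, l'⟩ | ⟨p, q, r⟩
  · fin_cases p <;> simp [chi, ev_app, eq_comm]
  · simp [chi, ev_app]

theorem chi_s (i : XM j) (r : Fin 3) :
    chi j i (.s r) ≠ 0 ↔ ∃ p q, i = .uvs p q r := by
  rcases i with ⟨p, l'⟩ | ⟨p, q, r'⟩
  · simp [chi, ev_app]
  · simp [chi, ev_app, eq_comm]

theorem chi_v (i : XM j) (q : Fin 2) :
    chi j i (.v q) ≠ 0 ↔ ∃ p r, i = .uvs p q r := by
  rcases i with ⟨p, l'⟩ | ⟨p, q', r'⟩
  · simp [chi, ev_app]
  · simp [chi, ev_app, eq_comm]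

theorem chi_u (i : XM j) (p : Fin 2) :
    chi j i (.u p) ≠ 0 ↔ (∃ l, i = .ua p l) ∨ ∃ q r, i = .uvs p q r := by
  rcases i with ⟨p', l'⟩ | ⟨p', q', r'⟩
  · simp [chi, ev_app, eq_comm]
  · simp [chi, ev_app, eq_comm]

theorem chiy0 (i : XM j) (t : Fin 2) : chi j i (.y t) = 0 := by
  rcases i with ⟨p', l'⟩ | ⟨p', q', r'⟩
  · simp [chi, ev_app]
  · simp [chi, ev_app]

theorem SF_iff (ν : W j → Prop) (hy : ∀ t, ¬ ν (.y t)) (σ : Finset (XM j)) :
    SF j ν (σ.map (eXM j).toEmbedding) ↔ CovP j ν σ := by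
  have hL : ∀ x, x ∈ (σ.map (eXM j).toEmbedding).toLeft ↔ (eXM j).symm (Sum.inl x) ∈ σ :=
    fun x => by rw [Finset.mem_toLeft, mem_map_e]
  have hR : ∀ x, x ∈ (σ.map (eXM j).toEmbedding).toRight ↔ (eXM j).symm (Sum.inr x) ∈ σ :=
    fun x => by rw [Finset.mem_toRight, mem_map_e]
  have hne0 : (σ.map (eXM j).toEmbedding).toLeft.Nonempty ↔ ∃ i ∈ σ, chi j i (.u 0) ≠ 0 := by
    constructor
    · rintro ⟨x, hx⟩
      rw [hL] at hx
      refine ⟨_, hx, ?_⟩
      rw [chi_u]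
      rcases x with l | (r | r)
      · exact Or.inl ⟨l, rfl⟩
      · exact Or.inr ⟨0, r, rfl⟩
      · exact Or.inr ⟨1, r, rfl⟩
    · rintro ⟨i, hi, hi'⟩
      rw [chi_u] at hi'
      rcases hi' with ⟨l, rfl⟩ | ⟨q, r, rfl⟩
      · exact ⟨Sum.inl l, (hL _).2 hi⟩
      · fin_cases q
        · exact ⟨Sum.inr (Sum.inl r), (hL _).2 hi⟩
        · exact ⟨Sum.inr (Sum.inr r), (hL _).2 hi⟩
  have hne1 : (σ.map (eXM j).toEmbedding).toRight.Nonempty ↔ ∃ i ∈ σ, chi j i (.u 1) ≠ 0 := by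
    constructor
    · rintro ⟨x, hx⟩
      rw [hR] at hx
      refine ⟨_, hx, ?_⟩
      rw [chi_u]
      rcases x with l | (r | r)
      · exact Or.inl ⟨l, rfl⟩
      · exact Or.inr ⟨0, r, rfl⟩
      · exact Or.inr ⟨1, r, rfl⟩
    · rintro ⟨i, hi, hi'⟩
      rw [chi_u] at hi'
      rcases hi' with ⟨l, rfl⟩ | ⟨q, r, rfl⟩
      · exact ⟨Sum.inl l, (hR _).2 hi⟩
      · fin_cases q
        · exact ⟨Sum.inr (Sum.inl r), (hR _).2 hi⟩
        · exact ⟨Sum.inr (Sum.inr r), (hR _).2 hi⟩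
  have hU : ∀ x, x ∈ (σ.map (eXM j).toEmbedding).toLeft ∪ (σ.map (eXM j).toEmbedding).toRight ↔
      ((eXM j).symm (Sum.inl x) ∈ σ ∨ (eXM j).symm (Sum.inr x) ∈ σ) :=
    fun x => by rw [Finset.mem_union, hL, hR]
  have ha : ∀ l : Fin (j + 1), (l ∈ ((σ.map (eXM j).toEmbedding).toLeft ∪
      (σ.map (eXM j).toEmbedding).toRight).toLeft) ↔ ∃ i ∈ σ, chi j i (.a l) ≠ 0 := by
    intro l
    rw [Finset.mem_toLeft, hU]
    constructor
    · rintro (h | h)
      · exact ⟨_, h, (chi_a _ _).2 (Or.inl rfl)⟩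
      · exact ⟨_, h, (chi_a _ _).2 (Or.inr rfl)⟩
    · rintro ⟨i, hi, hi'⟩
      rw [chi_a] at hi'
      rcases hi' with rfl | rfl
      · exact Or.inl hi
      · exact Or.inr hi
  have hV0 : (((σ.map (eXM j).toEmbedding).toLeft ∪
      (σ.map (eXM j).toEmbedding).toRight).toRight.toLeft).Nonempty ↔
      ∃ i ∈ σ, chi j i (.v 0) ≠ 0 := by
    constructor
    · rintro ⟨r, hr⟩
      rw [Finset.mem_toLeft, Finset.mem_toRight, hU] at hr
      rcases hr with h | h
      · exact ⟨_, h, (chi_v _ _).2 ⟨0, r, rfl⟩⟩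
      · exact ⟨_, h, (chi_v _ _).2 ⟨1, r, rfl⟩⟩
    · rintro ⟨i, hi, hi'⟩
      rw [chi_v] at hi'
      obtain ⟨p, r, rfl⟩ := hi'
      refine ⟨r, ?_⟩
      rw [Finset.mem_toLeft, Finset.mem_toRight, hU]
      fin_cases p
      · exact Or.inl hi
      · exact Or.inr hi
  have hV1 : (((σ.map (eXM j).toEmbedding).toLeft ∪
      (σ.map (eXM j).toEmbedding).toRight).toRight.toRight).Nonempty ↔
      ∃ i ∈ σ, chi j i (.v 1) ≠ 0 := by
    constructor
    · rintro ⟨r, hr⟩
      rw [Finset.mem_toRight, Finset.mem_toRight, hU] at hr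
      rcases hr with h | h
      · exact ⟨_, h, (chi_v _ _).2 ⟨0, r, rfl⟩⟩
      · exact ⟨_, h, (chi_v _ _).2 ⟨1, r, rfl⟩⟩
    · rintro ⟨i, hi, hi'⟩
      rw [chi_v] at hi'
      obtain ⟨p, r, rfl⟩ := hi'
      refine ⟨r, ?_⟩
      rw [Finset.mem_toRight, Finset.mem_toRight, hU]
      fin_cases p
      · exact Or.inl hi
      · exact Or.inr hi
  have hs : ∀ r : Fin 3, (r ∈ (((σ.map (eXM j).toEmbedding).toLeft ∪
      (σ.map (eXM j).toEmbedding).toRight).toRight.toLeft ∪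
      ((σ.map (eXM j).toEmbedding).toLeft ∪
      (σ.map (eXM j).toEmbedding).toRight).toRight.toRight)) ↔
      ∃ i ∈ σ, chi j i (.s r) ≠ 0 := by
    intro r
    rw [Finset.mem_union, Finset.mem_toLeft, Finset.mem_toRight, Finset.mem_toRight,
      Finset.mem_toRight, hU, hU]
    constructor
    · rintro ((h | h) | (h | h))
      · exact ⟨_, h, (chi_s _ _).2 ⟨0, 0, rfl⟩⟩
      · exact ⟨_, h, (chi_s _ _).2 ⟨1, 0, rfl⟩⟩
      · exact ⟨_, h, (chi_s _ _).2 ⟨0, 1, rfl⟩⟩
      · exact ⟨_, h, (chi_s _ _).2 ⟨1, 1, rfl⟩⟩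
    · rintro ⟨i, hi, hi'⟩
      rw [chi_s] at hi'
      obtain ⟨p, q, rfl⟩ := hi'
      fin_cases p <;> fin_cases q
      · exact Or.inl (Or.inl hi)
      · exact Or.inr (Or.inl hi)
      · exact Or.inl (Or.inr hi)
      · exact Or.inr (Or.inr hi)
  constructor
  · rintro ⟨h0, h1, h2, h3, h4, h5⟩ w hw
    rcases w with l | p | q | r | t
    · exact (ha l).1 (h2 l hw)
    · fin_cases p
      · exact hne0.1 (h0 hw)
      · exact hne1.1 (h1 hw)
    · fin_cases q
      · exact hV0.1 (h3 hw)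
      · exact hV1.1 (h4 hw)
    · exact (hs r).1 (h5 r hw)
    · exact absurd hw (hy t)
  · intro h
    refine ⟨fun b => hne0.2 (h _ b), fun b => hne1.2 (h _ b), fun l hl => (ha l).2 (h _ hl),
      fun b => hV0.2 (h _ b), fun b => hV1.2 (h _ b), fun r hr => (hs r).2 (h _ hr)⟩

theorem Ts_up (ν : W j → Prop) : ∀ σ τ : Finset (Fin 3), σ ⊆ τ →
    (∀ r, ν (.s r) → r ∈ σ) → ∀ r, ν (.s r) → r ∈ τ :=
  fun _ _ h h' r hr => h (h' r hr)

theorem VF_up (ν : W j → Prop) : ∀ σ τ : Finset (Fin 3 ⊕ Fin 3), σ ⊆ τ → VF j ν σ → VF j ν τ :=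
  Dbl_up (Ts_up ν)

theorem TF_up (ν : W j → Prop) : ∀ σ τ : Finset (QQ j), σ ⊆ τ →
    Sh (fun l => ν (.a l)) (VF j ν) σ → Sh (fun l => ν (.a l)) (VF j ν) τ :=
  Sh_up (VF_up ν)

theorem Ts_cone (ν : W j → Prop) (h : ¬ ∀ r, ν (.s r)) (q : ℕ) :
    Ex (fun τ : Finset (Fin 3) => ∀ r, ν (.s r) → r ∈ τ) q := by
  push Not at h
  obtain ⟨r, hr⟩ := h
  refine cone _ r ?_ q
  intro σ hσ r' hr'
  have := hσ r' hr'
  rw [Finset.mem_insert] at this
  rcases this with rfl | h
  · exact absurd hr' hr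
  · exact h

theorem Ts_big (ν : W j → Prop) (q : ℕ) (hq : 3 ≤ q) :
    Ex (fun τ : Finset (Fin 3) => ∀ r, ν (.s r) → r ∈ τ) q := by
  apply Ex_of_empty
  intro σ _ h
  have := Finset.card_le_univ σ
  rw [Fintype.card_fin] at this
  omega

theorem Ts_small (ν : W j → Prop) (q : ℕ) (hq : q ≤ 1) :
    Ex (fun τ : Finset (Fin 3) => ∀ r, ν (.s r) → r ∈ τ) q := by
  by_cases h : ∀ r, ν (.s r)
  · apply Ex_of_empty
    intro σ hσ h'
    have : σ = Finset.univ := by
      rw [Finset.eq_univ_iff_forall]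
      exact fun r => hσ r (h r)
    rw [this, Finset.card_univ, Fintype.card_fin] at h'
    omega
  · exact Ts_cone ν h q

/-- `V` is exact in degree 3 unless `ν` contains all `s` and no `v`. -/
theorem VF_2 (ν : W j → Prop) (h : ¬ ((∀ r, ν (.s r)) ∧ ∀ q, ¬ ν (.v q))) : Ex (VF j ν) 2 := by
  refine PP (Ts_up ν) (q := 1) (by decide) (fun h0 h1 => ?_) (fun _ _ => Ts_small ν 1 le_rfl)
  refine Ts_cone ν (fun h' => h ⟨h', fun q => ?_⟩) 2
  fin_cases q
  · exact h0
  · exact h1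

/-- `V` is exact in degree 4 unless `ν` contains all `s` and all `v`. -/
theorem VF_3 (ν : W j → Prop) (h : ¬ ((∀ r, ν (.s r)) ∧ ∀ q, ν (.v q))) : Ex (VF j ν) 3 := by
  refine PP (Ts_up ν) (q := 2) (by decide) (fun _ _ => Ts_big ν 3 le_rfl) (fun h0 h1 => ?_)
  refine Ts_cone ν (fun h' => h ⟨h', fun q => ?_⟩) 2
  fin_cases q
  · exact h0
  · exact h1

/-- `V` is exact in degree 5. -/
theorem VF_4 (ν : W j → Prop) : Ex (VF j ν) 4 :=
  PP (Ts_up ν) (q := 3) (by decide) (fun _ _ => Ts_big ν 4 (by decide))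
    (fun _ _ => Ts_big ν 3 le_rfl)

theorem TF_Ex (ν : W j → Prop) (q : ℕ) (h : (∀ l, ν (.a l)) → Ex (VF j ν) q) :
    Ex (Sh (fun l : Fin (j + 1) => ν (.a l)) (VF j ν)) (q + (j + 1)) := by
  by_cases ha : ∀ l, ν (.a l)
  · have := Sh_Ex (A := Fin (j + 1)) (νa := fun l => ν (.a l)) ha (h ha)
    rw [Fintype.card_fin] at this
    exact this
  · exact Sh_cone ha _

theorem SF_5 (ν : W j → Prop)
    (h1 : ¬ ((∀ l, ν (.a l)) ∧ (∀ q, ν (.v q)) ∧ (∀ r, ν (.s r)) ∧ ∀ p, ¬ ν (.u p)))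
    (h2 : ¬ ((∀ l, ν (.a l)) ∧ (∀ p, ν (.u p)) ∧ (∀ r, ν (.s r)) ∧ ∀ q, ¬ ν (.v q))) :
    Ex (SF j ν) (j + 4) := by
  refine PP (TF_up ν) (q := j + 3) (by omega) (fun b0 b1 => ?_) (fun b0 b1 => ?_)
  · have := TF_Ex ν 3 (fun ha => VF_3 ν fun h => h1 ⟨ha, h.2, h.1, fun p => by
      fin_cases p
      · exact b0
      · exact b1⟩)
    have e : j + 3 + 1 = 3 + (j + 1) := by ring
    rw [e]
    exact this
  · have := TF_Ex ν 2 (fun ha => VF_2 ν fun h => h2 ⟨ha, fun p => by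
      fin_cases p
      · exact b0
      · exact b1, h.1, h.2⟩)
    have e : j + 3 = 2 + (j + 1) := by ring
    rw [e]
    exact this

theorem SF_6 (ν : W j → Prop)
    (h : ¬ ((∀ l, ν (.a l)) ∧ (∀ p, ν (.u p)) ∧ (∀ q, ν (.v q)) ∧ ∀ r, ν (.s r))) :
    Ex (SF j ν) (j + 5) := by
  refine PP (TF_up ν) (q := j + 4) (by omega) (fun b0 b1 => ?_) (fun b0 b1 => ?_)
  · have := TF_Ex ν 4 (fun _ => VF_4 ν)
    have e : j + 4 + 1 = 4 + (j + 1) := by ring
    rw [e]
    exact this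
  · have := TF_Ex ν 3 (fun ha => VF_3 ν fun h' => h ⟨ha, fun p => by
      fin_cases p
      · exact b0
      · exact b1, h'.2, h'.1⟩)
    have e : j + 4 = 3 + (j + 1) := by ring
    rw [e]
    exact this

theorem Ts_One (ν : W j → Prop) (h : ∀ r, ν (.s r)) :
    One (fun τ : Finset (Fin 3) => ∀ r, ν (.s r) → r ∈ τ) 2 := by
  have hu : ∀ σ : Finset (Fin 3), (∀ r, ν (.s r) → r ∈ σ) → σ = Finset.univ := by
    intro σ hσ
    rw [Finset.eq_univ_iff_forall]
    exact fun r => hσ r (h r)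
  have h2 : ∀ b ∈ FamC (fun τ : Finset (Fin 3) => ∀ r, ν (.s r) → r ∈ τ) 2, b = 0 := by
    intro b hb
    funext σ
    by_contra h'
    obtain ⟨h3, h4⟩ := mem_FamC'.1 hb σ h'
    rw [hu σ h3] at h4
    exact absurd h4 (by decide)
  have h3 : ∀ c ∈ FamC (fun τ : Finset (Fin 3) => ∀ r, ν (.s r) → r ∈ τ) (2 + 1),
      c = fun σ => if σ = Finset.univ then c Finset.univ else 0 := by
    intro c hc
    funext σ
    split_ifs with h'
    · rw [h']
    · by_contra h4
      exact h' (hu σ (mem_FamC'.1 hc σ h4).1)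
  refine ⟨fun σ => if σ = Finset.univ then 1 else 0, ?_, ?_, ?_, ?_⟩
  · rw [mem_FamC']
    intro σ hσ
    have : σ = Finset.univ := by
      by_contra h'
      exact hσ (if_neg h')
    rw [this]
    exact ⟨fun r _ => Finset.mem_univ r, rfl⟩
  · funext σ
    rw [famD_apply]
    refine Finset.sum_eq_zero fun x hx => if_neg ?_
    intro h'
    have := Finset.mem_univ x
    rw [← h'] at this
    exact Finset.notMem_erase x σ this
  · rintro ⟨b, hb, hb'⟩
    rw [h2 b hb, map_zero] at hb'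
    have := congrFun hb' Finset.univ
    rw [if_pos rfl] at this
    exact absurd this (by decide)
  · intro c hc hd
    have hz : ∀ x : ZMod 2, x = 0 ∨ x = 1 := by decide
    rcases hz (c Finset.univ) with h0 | h0
    · left
      refine ⟨0, zero_mem _, ?_⟩
      rw [map_zero, h3 c hc, h0]
      funext σ
      exact (ite_self _).symm
    · right
      refine ⟨0, zero_mem _, ?_⟩
      rw [map_zero]
      have := h3 c hc
      rw [h0] at this
      rw [← this]
      exact (addself c).symm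

theorem SF_One (ν : W j → Prop)
    (h : (∀ l, ν (.a l)) ∧ (∀ p, ν (.u p)) ∧ (∀ q, ν (.v q)) ∧ (∀ r, ν (.s r))) :
    One (SF j ν) (j + 5) := by
  have h1 : One (VF j ν) 3 := PPone (Ts_up ν) (q := 2) (by decide) (h.2.2.1 0) (h.2.2.1 1)
    (Ts_One ν h.2.2.2)
  have h2 := Sh_One (A := Fin (j + 1)) (νa := fun l => ν (.a l)) h.1 h1
  rw [Fintype.card_fin] at h2
  have h3 := PPone (β₀ := ν (.u 0)) (β₁ := ν (.u 1)) (TF_up ν) (q := 3 + (j + 1)) (by omega)
    (h.2.1 0) (h.2.1 1) h2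
  have e : j + 5 = 3 + (j + 1) + 1 := by ring
  rw [e]
  exact h3

theorem Ex_of_y (ν : W j → Prop) (h : ¬ ∀ t, ¬ ν (.y t)) (q : ℕ) : Ex (CovP j ν) q := by
  apply Ex_of_empty
  intro σ hσ
  exfalso
  apply h
  intro t ht
  obtain ⟨i, _, hi⟩ := hσ _ ht
  exact hi (chiy0 i t)

theorem fam_exact5 (j : ℕ) (ν : W j → Prop)
    (h1 : ¬ ((∀ l, ν (.a l)) ∧ (∀ q, ν (.v q)) ∧ (∀ r, ν (.s r)) ∧ ∀ p, ¬ ν (.u p)))
    (h2 : ¬ ((∀ l, ν (.a l)) ∧ (∀ p, ν (.u p)) ∧ (∀ r, ν (.s r)) ∧ ∀ q, ¬ ν (.v q))) :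
    FamExact (CovP j ν) (j + 5) := by
  have key : Ex (CovP j ν) (j + 4) := by
    by_cases hy : ∀ t, ¬ ν (.y t)
    · exact Ex_equiv (eXM j) _ _ (SF_iff ν hy) (SF_5 ν h1 h2)
    · exact Ex_of_y ν hy _
  intro c hc hd
  obtain ⟨b, hb, hb'⟩ := key c hc hd
  exact ⟨j + 4, b, rfl, hb, hb'⟩

theorem fam_exact6 (j : ℕ) (ν : W j → Prop)
    (h : ¬ ((∀ l, ν (.a l)) ∧ (∀ p, ν (.u p)) ∧ (∀ q, ν (.v q)) ∧ ∀ r, ν (.s r))) :
    FamExact (CovP j ν) (j + 6) := by
  have key : Ex (CovP j ν) (j + 5) := by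
    by_cases hy : ∀ t, ¬ ν (.y t)
    · exact Ex_equiv (eXM j) _ _ (SF_iff ν hy) (SF_6 ν h)
    · exact Ex_of_y ν hy _
  intro c hc hd
  obtain ⟨b, hb, hb'⟩ := key c hc hd
  exact ⟨j + 5, b, rfl, hb, hb'⟩

theorem fam_full (j : ℕ) (ν : W j → Prop)
    (h : (∀ l, ν (.a l)) ∧ (∀ p, ν (.u p)) ∧ (∀ q, ν (.v q)) ∧ (∀ r, ν (.s r)) ∧ ∀ t, ¬ ν (.y t)) :
    ∃ z₀ ∈ FamC (CovP j ν) (j + 6), famD z₀ = 0 ∧
      (¬ ∃ b ∈ FamC (CovP j ν) (j + 5), famD b = z₀) ∧
      ∀ c ∈ FamC (CovP j ν) (j + 6), famD c = 0 →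
        (∃ b ∈ FamC (CovP j ν) (j + 5), famD b = c) ∨
        (∃ b ∈ FamC (CovP j ν) (j + 5), famD b = c + z₀) :=
  One_equiv (eXM j) _ _ (SF_iff ν h.2.2.2.2) (SF_One ν ⟨h.1, h.2.1, h.2.2.1, h.2.2.2.1⟩)

end Concrete

end Pool.Agent.N165.LC
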