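import Pool.Agent.N165.LC.T5a
import Pool.Agent.N165.LC.T4

/-!
The local cohomology of `E_b` in degree `j + 5` (monomial operators).
-/

namespace Pool.Agent.N165.LC

open AddMonoidAlgebra (single)

section top

variable {X : Type} [DecidableEq X]

/-- coboundaries of a family -/
def BF (S : Finset X → Prop) (q : ℕ) : AddSubgroup (Finset X → ZMod 2) := (FamC S q).map famD

/-- cocycles of a family -/
def ZF (S : Finset X → Prop) (q : ℕ) : AddSubgroup (Finset X → ZMod 2) := FamC S q ⊓ famD.ker

/-- one-dimensional cohomology in degree `q + 1` -/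
def TopHyp (S : Finset X → Prop) (q : ℕ) (z : Finset X → ZMod 2) : Prop :=
  z ∈ ZF S (q + 1) ∧ z ∉ BF S q ∧ ∀ c ∈ ZF S (q + 1), c ∈ BF S q ∨ c + z ∈ BF S q

open Classical in
/-- The class of a cocycle. -/
noncomputable def phi (S : Finset X → Prop) (q : ℕ) (c : Finset X → ZMod 2) : ZMod 2 :=
  if c ∈ BF S q then 0 else 1

theorem phi_eq_zero {S : Finset X → Prop} {q : ℕ} {c : Finset X → ZMod 2} :
    phi S q c = 0 ↔ c ∈ BF S q := by
  unfold phi
  split_ifs with h
  · simp [h]
  · simp [h]

theorem add_self_fun (z : Finset X → ZMod 2) : z + z = 0 := by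
  funext σ
  have : ∀ z : ZMod 2, z + z = 0 := by decide
  exact this _

theorem phi_add {S : Finset X → Prop} {q : ℕ} {z : Finset X → ZMod 2} (h : TopHyp S q z)
    {c c' : Finset X → ZMod 2} (hc : c ∈ ZF S (q + 1)) (hc' : c' ∈ ZF S (q + 1)) :
    phi S q (c + c') = phi S q c + phi S q c' := by
  have h11 : (1 : ZMod 2) + 1 = 0 := by decide
  unfold phi
  by_cases h1 : c ∈ BF S q
  · rw [if_pos h1]
    by_cases h2 : c' ∈ BF S q
    · rw [if_pos h2, if_pos (add_mem h1 h2), add_zero]
    · rw [if_neg h2, if_neg, zero_add]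
      intro h3
      apply h2
      have := sub_mem h3 h1
      simpa using this
  · rw [if_neg h1]
    by_cases h2 : c' ∈ BF S q
    · rw [if_pos h2, if_neg, add_zero]
      intro h3
      apply h1
      have := sub_mem h3 h2
      simpa using this
    · rw [if_neg h2, h11, if_pos]
      have h3 := (h.2.2 c hc).resolve_left h1
      have h4 := (h.2.2 c' hc').resolve_left h2
      have h5 := add_mem h3 h4
      have : c + z + (c' + z) = c + c' := by
        rw [show c + z + (c' + z) = c + c' + (z + z) by abel, add_self_fun, add_zero]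
      rwa [this] at h5

theorem phi_zero {S : Finset X → Prop} {q : ℕ} : phi S q 0 = 0 := phi_eq_zero.2 (zero_mem _)

theorem phi_top {S : Finset X → Prop} {q : ℕ} {z : Finset X → ZMod 2} (h : TopHyp S q z) :
    phi S q z = 1 := if_neg h.2.1

theorem phi_sum {S : Finset X → Prop} {q : ℕ} {z : Finset X → ZMod 2} (h : TopHyp S q z)
    {κ : Type} (s : Finset κ) (c : κ → Finset X → ZMod 2) (hc : ∀ i ∈ s, c i ∈ ZF S (q + 1)) :
    phi S q (∑ i ∈ s, c i) = ∑ i ∈ s, phi S q (c i) := by
  classical
  induction s using Finset.induction_on with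
  | empty => simp [phi_zero]
  | insert i s hi ih =>
    rw [Finset.sum_insert hi, Finset.sum_insert hi, phi_add h (hc i (Finset.mem_insert_self i s))
      (sum_mem fun k hk => hc k (Finset.mem_insert_of_mem hk)),
      ih fun k hk => hc k (Finset.mem_insert_of_mem hk)]

end top

variable {j : ℕ}

noncomputable instance decFullNeg : DecidablePred (FullNeg (j := j)) := fun _ => Classical.dec _

/-- All variables except the `y`. -/
def full (j : ℕ) : W j → Prop
  | .y _ => False
  | _ => True

theorem covers_full {μ : E j} (h : FullNeg μ) : Covers (chi j) μ = CovP j (full j) := by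
  funext σ
  apply propext
  unfold Covers CovP
  constructor
  · intro hc w hw
    cases w with
    | a l => exact hc _ (h.1 l)
    | u p => exact hc _ (h.2.1 p)
    | v q => exact hc _ (h.2.2.1 q)
    | s r => exact hc _ (h.2.2.2.1 r)
    | y t => exact absurd hw id
  · intro hc w hw
    cases w with
    | a l => exact hc _ trivial
    | u p => exact hc _ trivial
    | v q => exact hc _ trivial
    | s r => exact hc _ trivial
    | y t => exact absurd hw (not_lt.2 (h.2.2.2.2 t))

theorem exists_top (j : ℕ) : ∃ z, TopHyp (CovP j (full j)) (j + 5) z := by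
  obtain ⟨z, h1, h2, h3, h4⟩ := fam_full j (full j)
    ⟨fun _ => trivial, fun _ => trivial, fun _ => trivial, fun _ => trivial, fun _ => id⟩
  refine ⟨z, ⟨h1, h2⟩, ?_, ?_⟩
  · rintro ⟨b, hb, hb'⟩
    exact h3 ⟨b, hb, hb'⟩
  · rintro c ⟨hc, hc'⟩
    rcases h4 c hc hc' with ⟨b, hb, hb'⟩ | ⟨b, hb, hb'⟩
    · exact Or.inl ⟨b, hb, hb'⟩
    · exact Or.inr ⟨b, hb, hb'⟩

/-- The top cocycle. -/
noncomputable def zt (j : ℕ) : Finset (XM j) → ZMod 2 := (exists_top j).choose

theorem zt_spec (j : ℕ) : TopHyp (CovP j (full j)) (j + 5) (zt j) := (exists_top j).choose_spec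

/-- The dual space. -/
def DFn (j : ℕ) (y u s : ℤ) : AddSubgroup (Lam j) where
  carrier := {f | ∀ μ, f.coeff μ ≠ 0 → FullNeg μ ∧ μ ∈ MS j y u s}
  zero_mem' := fun μ h => absurd rfl h
  add_mem' := fun {x y} hx hy μ h => by
    by_cases h1 : x.coeff μ = 0
    · by_cases h2 : y.coeff μ = 0
      · exfalso
        apply h
        simp [h1, h2]
      · exact hy μ h2
    · exact hx μ h1
  neg_mem' := fun {x} hx μ h => hx μ fun h' => h (by simp [h'])

/-- The Laurent presheaf of a strand. -/
noncomputable abbrev LS (j : ℕ) (y u s : ℤ) : BP (XM j) := LP (chi j) (MS j y u s)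

/-- the value of the class at an exponent -/
noncomputable def phiAt {y u s : ℤ} (c : (LS j y u s).C) (μ : E j) : ZMod 2 :=
  if FullNeg μ then phi (CovP j (full j)) (j + 5) (cmp μ c) else 0

theorem phiAt_supp {y u s : ℤ} (c : (LS j y u s).C) :
    (Function.support (phiAt c)).Finite := by
  obtain ⟨S, hS⟩ := exists_supp c
  refine S.finite_toSet.subset ?_
  intro μ hμ
  rw [Function.mem_support] at hμ
  rw [Finset.mem_coe, hS]
  by_contra hall
  push Not at hall
  apply hμ
  unfold phiAt
  split_ifs with h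
  · rw [show cmp μ c = 0 from funext hall, phi_zero]
  · rfl

theorem cmp_ZF {y u s : ℤ} {c : (LS j y u s).C} (hc : c ∈ (LS j y u s).Z (j + 6)) {μ : E j}
    (h : FullNeg μ) : cmp μ c ∈ ZF (CovP j (full j)) (j + 5 + 1) := by
  refine ⟨?_, ?_⟩
  · have := cmp_mem μ hc.1
    rwa [covers_full h] at this
  · show famD (cmp μ c) = 0
    rw [← cmp_d, show (LS j y u s).d c = 0 from hc.2, cmp_zero]

/-- The class of a cocycle of the Laurent presheaf of a strand. -/
noncomputable def Phi (j : ℕ) (y₀ u s : ℤ) : (LS j y₀ u s).Z (j + 6) →+ DFn j y₀ u s where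
  toFun c := ⟨.ofCoeff (Finsupp.ofSupportFinite (phiAt (c : (LS j y₀ u s).C)) (phiAt_supp _)), by
    intro μ hμ
    have hμ' : phiAt (c : (LS j y₀ u s).C) μ ≠ 0 := hμ
    unfold phiAt at hμ'
    by_cases h : FullNeg μ
    · refine ⟨h, ?_⟩
      rw [if_pos h] at hμ'
      by_contra hne
      apply hμ'
      have : cmp μ (c : (LS j y₀ u s).C) = 0 := by
        funext σ
        by_contra h'
        exact hne (mem_of_cmp h')
      rw [this, phi_zero]
    · rw [if_neg h] at hμ'
      exact absurd rfl hμ'⟩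
  map_zero' := by
    apply Subtype.ext
    apply AddMonoidAlgebra.ext
    ext μ
    show phiAt (0 : (LS j y₀ u s).C) μ = 0
    unfold phiAt
    rw [cmp_zero, phi_zero]
    split_ifs <;> rfl
  map_add' x y := by
    apply Subtype.ext
    apply AddMonoidAlgebra.ext
    ext μ
    show phiAt ((x : (LS j y₀ u s).C) + (y : (LS j y₀ u s).C)) μ =
      phiAt (x : (LS j y₀ u s).C) μ + phiAt (y : (LS j y₀ u s).C) μ
    unfold phiAt
    split_ifs with h
    · rw [cmp_add, phi_add (zt_spec j) (cmp_ZF x.2 h) (cmp_ZF y.2 h)]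
    · rw [add_zero]

theorem Phi_coeff {y u s : ℤ} (c : (LS j y u s).Z (j + 6)) (μ : E j) :
    ((Phi j y u s c : DFn j y u s) : Lam j).coeff μ = phiAt (c : (LS j y u s).C) μ := rfl

theorem chi_y (i : XM j) (t : Fin 2) : chi j i (.y t) = 0 := by
  cases i <;> simp [chi, ev, Pi.single_apply]

/-- A cocycle with zero class is a coboundary, with control of the support. -/
theorem Phi_solve {y u s : ℤ} (c : (LS j y u s).C) (hc : c ∈ (LS j y u s).Z (j + 6))
    (h : Phi j y u s ⟨c, hc⟩ = 0) :
    ∃ b ∈ (LS j y u s).Cp (j + 5), (LS j y u s).d b = c ∧ ∀ μ, cmp μ c = 0 → cmp μ b = 0 := by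
  apply LP_solve
  intro μ hμ hne
  by_cases hf : FullNeg μ
  · have h1 : phiAt c μ = 0 := by
      rw [← Phi_coeff ⟨c, hc⟩, h]
      rfl
    unfold phiAt at h1
    rw [if_pos hf, phi_eq_zero] at h1
    obtain ⟨b, hb, hb'⟩ := h1
    rw [covers_full hf]
    exact ⟨b, hb, hb'⟩
  · have hex : FamExact (Covers (chi j) μ) (j + 6) := by
      refine fam_exact6 j (fun w => μ w < 0) ?_
      rintro ⟨ha, hu, hv, hs⟩
      apply hne
      funext σ
      by_contra hσ
      have hcov := (LPval_mem (c σ) μ hσ).2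
      apply hf
      refine ⟨ha, hu, hv, hs, fun t => ?_⟩
      by_contra ht
      push Not at ht
      obtain ⟨i, -, hi⟩ := hcov _ ht
      exact hi (chi_y i t)
    obtain ⟨q, b, hq, hb, hb'⟩ := hex (cmp μ c) (cmp_mem μ hc.1) (by
      rw [← cmp_d, show (LS j y u s).d c = 0 from hc.2, cmp_zero])
    obtain rfl : q = j + 5 := by omega
    exact ⟨b, hb, hb'⟩

theorem Phi_ker {y u s : ℤ} (c : (LS j y u s).Z (j + 6)) :
    Phi j y u s c = 0 ↔ (c : (LS j y u s).C) ∈ (LS j y u s).B (j + 6) := by
  constructor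
  · intro h
    obtain ⟨b, hb, hb', -⟩ := Phi_solve (c : (LS j y u s).C) c.2 h
    exact ⟨b, hb, hb'⟩
  · rintro ⟨b, hb, hb'⟩
    apply Subtype.ext
    apply AddMonoidAlgebra.ext
    ext μ
    show phiAt (c : (LS j y u s).C) μ = 0
    unfold phiAt
    split_ifs with h
    · rw [phi_eq_zero]
      refine ⟨cmp μ b, ?_, ?_⟩
      · have := cmp_mem μ hb
        rwa [covers_full h] at this
      · rw [← cmp_d, hb']
    · rfl

theorem Phi_surj {y u s : ℤ} (f : DFn j y u s) : ∃ c : (LS j y u s).Z (j + 6),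
    Phi j y u s c = f ∧ ∀ μ, (f : Lam j).coeff μ = 0 → cmp μ (c : (LS j y u s).C) = 0 := by
  classical
  set S := (f : Lam j).coeff.support with hSdef
  have hS : ∀ μ ∈ S, FullNeg μ ∧ μ ∈ MS j y u s := fun μ hμ =>
    f.2 μ (Finsupp.mem_support_iff.1 hμ)
  obtain ⟨c, hc, hc'⟩ := LP_build (chi j) (MS j y u s) (j + 6) S (fun μ hμ => (hS μ hμ).2)
    (fun μ => (f : Lam j).coeff μ • zt j) (fun μ hμ => by
      rw [covers_full (hS μ hμ).1]
      have h1 : ∀ a : ZMod 2, a = 0 ∨ a = 1 := by decide
      rcases h1 ((f : Lam j).coeff μ) with h | h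
      · rw [h, zero_smul]
        exact zero_mem _
      · rw [h, one_smul]
        exact (zt_spec j).1.1)
  have h01 : ∀ a : ZMod 2, a = 0 ∨ a = 1 := by decide
  have hcZ : c ∈ (LS j y u s).Z (j + 6) := by
    refine ⟨hc, ?_⟩
    show (LS j y u s).d c = 0
    apply cmp_ext
    intro μ
    rw [cmp_d, cmp_zero]
    by_cases hμ : μ ∈ S
    · rw [(hc' μ).1 hμ]
      rcases h01 ((f : Lam j).coeff μ) with h | h
      · rw [h, zero_smul, map_zero]
      · rw [h, one_smul]
        exact (zt_spec j).1.2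
    · rw [(hc' μ).2 hμ, map_zero]
  refine ⟨⟨c, hcZ⟩, ?_, ?_⟩
  · apply Subtype.ext
    apply AddMonoidAlgebra.ext
    ext μ
    show phiAt c μ = (f : Lam j).coeff μ
    unfold phiAt
    by_cases hμ : μ ∈ S
    · rw [if_pos (hS μ hμ).1, (hc' μ).1 hμ]
      rcases h01 ((f : Lam j).coeff μ) with h | h
      · rw [h, zero_smul, phi_zero]
      · rw [h, one_smul, phi_top (zt_spec j)]
    · rw [(hc' μ).2 hμ, phi_zero, Finsupp.notMem_support_iff.1 hμ]
      split_ifs <;> rfl
  · intro μ hμ
    exact (hc' μ).2 (Finsupp.notMem_support_iff.2 hμ)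

/-! ### Multiplication by `h` -/

theorem coeff_hh_mul (f : Lam j) (μ : E j) :
    (hh j * f).coeff μ = ∑ i, f.coeff (μ - hE j i) := by
  unfold hh
  rw [Finset.sum_mul, AddMonoidAlgebra.coeff_sum, Finsupp.finsetSum_apply]
  exact Finset.sum_congr rfl fun i _ => shift_coeff _ _ _

theorem hh_mul_mem {y u s : ℤ} {σ : Finset (XM j)} {g : Lam j}
    (hg : g ∈ LM (chi j) (MS j (y - 2) u (s + 2)) σ) : hh j * g ∈ LM (chi j) (MS j y u s) σ := by
  intro μ hμ
  rw [coeff_hh_mul] at hμ
  obtain ⟨i, -, hi⟩ := Finset.exists_ne_zero_of_sum_ne_zero hμ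
  obtain ⟨h1, h2⟩ := hg _ hi
  constructor
  · have h3 := MS_add (hE_mem (j := j) i).2 h1
    rw [add_sub_cancel] at h3
    convert h3 using 2 <;> ring
  · intro w hw
    apply h2 w
    rw [Pi.sub_apply]
    have := (hE_mem (j := j) i).1 w
    omega

/-- Multiplication by `h` on Laurent presheaves. -/
noncomputable def hhL (j : ℕ) (b : ℤ) : BP.Hom (LS j (b - 2) b (b + 2)) (LS j b b b) where
  app σ :=
    { toFun := fun x => LPmk (hh j * LPval x) (hh_mul_mem (LPval_mem x))
      map_zero' := by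
        apply LPval_inj
        rw [LPval_mk, map_zero, mul_zero, map_zero]
      map_add' := fun x y => by
        apply LPval_inj
        rw [LPval_mk, map_add, mul_add, map_add, LPval_mk, LPval_mk] }
  nat := by
    intro σ τ h x
    rfl

theorem hhL_val (j : ℕ) (b : ℤ) (σ : Finset (XM j)) (x : (LS j (b - 2) b (b + 2)).G σ) :
    LPval ((hhL j b).app σ x) = hh j * LPval x := rfl

theorem cmp_hhL (b : ℤ) (c : (LS j (b - 2) b (b + 2)).C) (μ : E j) :
    cmp μ ((hhL j b).c c) = ∑ i, cmp (μ - hE j i) c := by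
  funext σ
  rw [cmp_apply, BP.Hom.c_apply, hhL_val, coeff_hh_mul, Finset.sum_apply]
  rfl

/-- The map induced by `h` on the dual spaces. -/
noncomputable def eta (j : ℕ) (b : ℤ) : DFn j (b - 2) b (b + 2) →+ DFn j b b b where
  toFun f := ⟨.ofCoeff ((hh j * (f : Lam j)).coeff.filter fun μ => FullNeg μ), by
    classical
    intro μ hμ
    have hμ' : ((hh j * (f : Lam j)).coeff.filter fun μ => FullNeg μ) μ ≠ 0 := hμ
    rw [Finsupp.filter_apply] at hμ'
    by_cases h : FullNeg μ
    · rw [if_pos h, coeff_hh_mul] at hμ'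
      refine ⟨h, ?_⟩
      obtain ⟨i, -, hi⟩ := Finset.exists_ne_zero_of_sum_ne_zero hμ'
      have h3 := MS_add (hE_mem (j := j) i).2 (f.2 _ hi).2
      rw [add_sub_cancel] at h3
      convert h3 using 2 <;> ring
    · rw [if_neg h] at hμ'
      exact absurd rfl hμ'⟩
  map_zero' := by
    apply Subtype.ext
    apply AddMonoidAlgebra.ext
    show ((hh j * (0 : Lam j)).coeff.filter fun μ => FullNeg μ) = 0
    rw [mul_zero]
    exact Finsupp.filter_zero _
  map_add' x y := by
    apply Subtype.ext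
    apply AddMonoidAlgebra.ext
    show ((hh j * ((x : Lam j) + y)).coeff.filter fun μ => FullNeg μ) =
      ((hh j * (x : Lam j)).coeff.filter fun μ => FullNeg μ) +
      ((hh j * (y : Lam j)).coeff.filter fun μ => FullNeg μ)
    rw [mul_add, AddMonoidAlgebra.coeff_add, Finsupp.filter_add]

theorem eta_coeff (b : ℤ) (f : DFn j (b - 2) b (b + 2)) (μ : E j) :
    ((eta j b f : DFn j b b b) : Lam j).coeff μ =
      if FullNeg μ then (hh j * (f : Lam j)).coeff μ else 0 := by
  show ((hh j * (f : Lam j)).coeff.filter fun μ => FullNeg μ) μ = _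
  rw [Finsupp.filter_apply]

theorem Phi_hh (b : ℤ) (c : (LS j (b - 2) b (b + 2)).Z (j + 6)) :
    Phi j b b b ⟨(hhL j b).c c, (hhL j b).c_mem_Z c.2⟩ = eta j b (Phi j (b - 2) b (b + 2) c) := by
  apply Subtype.ext
  apply AddMonoidAlgebra.ext
  ext μ
  rw [eta_coeff, Phi_coeff]
  show phiAt ((hhL j b).c (c : (LS j (b - 2) b (b + 2)).C)) μ = _
  unfold phiAt
  split_ifs with h
  · rw [cmp_hhL, coeff_hh_mul]
    have hmem : ∀ i ∈ Finset.univ, cmp (μ - hE j i) (c : (LS j (b - 2) b (b + 2)).C) ∈
        ZF (CovP j (full j)) (j + 5 + 1) ∧ ((Phi j (b - 2) b (b + 2) c :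
          DFn j (b - 2) b (b + 2)) : Lam j).coeff (μ - hE j i) =
          phi (CovP j (full j)) (j + 5) (cmp (μ - hE j i) (c : (LS j (b - 2) b (b + 2)).C)) := by
      intro i _
      by_cases hi : FullNeg (μ - hE j i)
      · refine ⟨cmp_ZF c.2 hi, ?_⟩
        rw [Phi_coeff]
        unfold phiAt
        rw [if_pos hi]
      · have h0 : cmp (μ - hE j i) (c : (LS j (b - 2) b (b + 2)).C) = 0 := by
          funext σ
          by_contra hσ
          have hcov := (LPval_mem ((c : (LS j (b - 2) b (b + 2)).C) σ) _ hσ).2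
          apply hi
          have hn := (hE_mem (j := j) i).1
          refine ⟨fun l => ?_, fun p => ?_, fun q => ?_, fun r => ?_, fun t => ?_⟩
          · have := h.1 l
            have := hn (.a l)
            rw [Pi.sub_apply]; omega
          · have := h.2.1 p
            have := hn (.u p)
            rw [Pi.sub_apply]; omega
          · have := h.2.2.1 q
            have := hn (.v q)
            rw [Pi.sub_apply]; omega
          · have := h.2.2.2.1 r
            have := hn (.s r)
            rw [Pi.sub_apply]; omega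
          · by_contra ht
            push Not at ht
            obtain ⟨i', -, hi'⟩ := hcov _ ht
            exact hi' (chi_y i' t)
        rw [h0]
        refine ⟨zero_mem _, ?_⟩
        rw [Phi_coeff, phi_zero]
        unfold phiAt
        rw [if_neg hi]
    rw [phi_sum (zt_spec j) _ _ fun i hi => (hmem i hi).1]
    exact (Finset.sum_congr rfl fun i hi => (hmem i hi).2).symm
  · rfl

/-- The kernel of `eta` is `KK`. -/
theorem ker_eta_equiv (j : ℕ) (b : ℤ) : Nonempty ((eta j b).ker ≃+ KK j b) := by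
  classical
  refine ⟨{ toFun := fun f => ⟨((f : DFn j (b - 2) b (b + 2)) : Lam j), ?_⟩,
            invFun := fun f => ⟨⟨(f : Lam j), fun μ hμ => f.2.1 μ hμ⟩, ?_⟩,
            left_inv := fun f => rfl, right_inv := fun f => rfl, map_add' := fun x y => rfl }⟩
  · refine ⟨fun μ hμ => (f : DFn j (b - 2) b (b + 2)).2 μ hμ, fun μ hμ => ?_⟩
    have h1 : ((eta j b (f : DFn j (b - 2) b (b + 2)) : DFn j b b b) : Lam j).coeff μ = 0 := by
      rw [show eta j b (f : DFn j (b - 2) b (b + 2)) = 0 from f.2]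
      rfl
    rwa [eta_coeff, if_pos hμ] at h1
  · rw [AddMonoidHom.mem_ker]
    apply Subtype.ext
    apply AddMonoidAlgebra.ext
    ext μ
    rw [eta_coeff]
    split_ifs with h
    · exact f.2.2 μ h
    · rfl

end Pool.Agent.N165.LC
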