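import Pool.Agent.N165.LC.T5b

/-!
Comparison of the Laurent presheaves with the Čech presheaves of the strands.
-/

namespace Pool.Agent.N165.LC

open AddMonoidAlgebra (single)

variable {j : ℕ}

/-! ### Comparison with the strands -/

theorem two_Lam (x : Lam j) : x + x = 0 := by
  apply AddMonoidAlgebra.ext
  ext μ
  have : ∀ z : ZMod 2, z + z = 0 := by decide
  exact this (x.coeff μ)

theorem two_FS {y u s : ℤ} (x : FS j y u s) : x + x = 0 := Subtype.ext (two_Lam (x : Lam j))

theorem two_Eb {b : ℤ} (x : Eb j b) : x + x = 0 := by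
  obtain ⟨x, rfl⟩ := Submodule.mkQ_surjective _ x
  rw [← map_add, two_FS, map_zero]

theorem chi_nonneg (i : XM j) (w : W j) : 0 ≤ chi j i w := (chi_mem i).1 w

theorem MS_stable {y u s : ℤ} (i : XM j) (μ : E j) : μ + chi j i ∈ MS j y u s ↔ μ ∈ MS j y u s := by
  constructor
  · intro h
    have h1 := (chi_mem (j := j) i).2
    obtain ⟨h2, h3, h4⟩ := h
    obtain ⟨g2, g3, g4⟩ := h1
    have e1 : dA (μ + chi j i) = dA μ + dA (chi j i) := by simp [dA, Finset.sum_add_distrib]
    have e2 : dU (μ + chi j i) = dU μ + dU (chi j i) := by simp [dU, Finset.sum_add_distrib]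
    have e3 : dV (μ + chi j i) = dV μ + dV (chi j i) := by simp [dV, Finset.sum_add_distrib]
    have e4 : dS (μ + chi j i) = dS μ + dS (chi j i) := by simp [dS, Finset.sum_add_distrib]
    have e5 : dY (μ + chi j i) = dY μ + dY (chi j i) := by simp [dY, Finset.sum_add_distrib]
    refine ⟨?_, ?_, ?_⟩ <;> omega
  · intro h
    have := MS_add h (chi_mem (j := j) i).2
    simpa using this

/-- the inclusion of a strand in the Laurent ring -/
noncomputable def jS (j : ℕ) (y u s : ℤ) : FS j y u s →+ Lam j := (FS j y u s).subtype.toAddMonoidHom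

theorem jS_apply {y u s : ℤ} (x : FS j y u s) : jS j y u s x = (x : Lam j) := rfl

theorem mem_LM_empty {y u s : ℤ} {f : Lam j} : f ∈ LM (chi j) (MS j y u s) ∅ ↔ f ∈ FG j y u s := by
  constructor
  · intro h μ hμ
    obtain ⟨h1, h2⟩ := h μ hμ
    refine ⟨fun w => ?_, h1⟩
    by_contra hw
    push Not at hw
    obtain ⟨i, hi, -⟩ := h2 w hw
    exact absurd hi (Finset.notMem_empty i)
  · intro h μ hμ
    obtain ⟨h1, h2⟩ := h μ hμ
    exact ⟨h2, fun w hw => absurd hw (not_lt.2 (h1 w))⟩

theorem jS_mem (y u s : ℤ) (m : FS j y u s) : jS j y u s m ∈ LM (chi j) (MS j y u s) ∅ :=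
  mem_LM_empty.2 (mem_FS.1 m.2)

theorem jS_mul (y u s : ℤ) (i : XM j) (m : FS j y u s) :
    jS j y u s (xM j i • m) = single (chi j i) 1 * jS j y u s m := rfl

theorem jS_inj (y u s : ℤ) : Function.Injective (jS j y u s) := Subtype.val_injective

/-- The comparison `LocP xM (FS ..) → LS ..`. -/
noncomputable def isoS (j : ℕ) (y u s : ℤ) :
    BP.Hom (LocP (xM j) (FS j y u s) two_FS) (LS j y u s) :=
  LP_hom (R := BR j) (f := xM j) (M := FS j y u s) two_FS (chi j) chi_nonneg (MS j y u s)
    MS_stable (jS j y u s) (jS_mem y u s) (jS_mul y u s)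

theorem isoS_bij (j : ℕ) (y u s : ℤ) (σ : Finset (XM j)) :
    Function.Bijective ((isoS j y u s).app σ) :=
  LP_hom_bij (R := BR j) (f := xM j) (M := FS j y u s) two_FS (chi j) chi_nonneg (MS j y u s)
    MS_stable (jS j y u s) (jS_mem y u s) (jS_mul y u s) (jS_inj y u s)
    (fun g hg => ⟨⟨g, mem_LM_empty.1 hg⟩, rfl⟩) σ

theorem isoS_mk (j : ℕ) (y u s : ℤ) (σ : Finset (XM j)) (m : FS j y u s) (t : ℕ) :
    LPval ((isoS j y u s).app σ (Loc.mk _ m t)) = single (-(t • chiS (chi j) σ)) 1 * (m : Lam j) :=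
  LP_hom_mk (R := BR j) (f := xM j) (M := FS j y u s) two_FS (chi j) chi_nonneg (MS j y u s)
    MS_stable (jS j y u s) (jS_mem y u s) (jS_mul y u s) σ m t

theorem hh_ne_zero : hh j ≠ 0 := by
  intro h
  have h1 : (hh j * single (0 : E j) 1).coeff (hE j 0) = 0 := by
    rw [h, zero_mul]
    rfl
  rw [coeff_hh_mul, Fin.sum_univ_five] at h1
  have key : ∀ i : Fin 5, i ≠ 0 → hE j 0 - hE j i ≠ 0 := by
    intro i hi h0
    have h2 : ∀ w, hE j 0 w = hE j i w := fun w => by
      have := congrFun h0 w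
      rw [Pi.sub_apply, Pi.zero_apply] at this
      omega
    have hu := h2 (.u 0)
    have hv := h2 (.v 0)
    have hy := h2 (.y 1)
    fin_cases i <;> simp [hE, kap] at hu hv hy hi
  simp only [AddMonoidAlgebra.coeff_single] at h1
  rw [Finsupp.single_apply, Finsupp.single_apply, Finsupp.single_apply, Finsupp.single_apply,
    Finsupp.single_apply, if_pos (sub_self _).symm, if_neg (key 1 (by decide)).symm,
    if_neg (key 2 (by decide)).symm, if_neg (key 3 (by decide)).symm,
    if_neg (key 4 (by decide)).symm] at h1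
  simp at h1

theorem hh_mul_inj {f g : Lam j} (h : hh j * f = hh j * g) : f = g :=
  mul_left_cancel₀ hh_ne_zero h

theorem mulh_inj (b : ℤ) : Function.Injective (mulh j b) := by
  intro x y h
  apply Subtype.ext
  exact hh_mul_inj (congrArg Subtype.val h)

end Pool.Agent.N165.LC
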